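import Pool.Agent.H718R2.Defs


/-!
# Building blocks of the diffeomorphism `f` (module A)

Gates are indexed by `(m,l)`, `l ≤ 7`.  `f` is the composition `theMap` of explicit shears built from
the functions in `Atoms`.
-/

namespace Pool.Agent.H718R2

/-- cut-off: `1` on `|t| ≤ 1`, `0` on `|t| ≥ 2` -/
noncomputable def ψ (t : ℝ) : ℝ := Real.smoothTransition ((4 - t ^ 2) / 3)

theorem ψ_contDiff : ContDiff ℝ (⊤ : ℕ∞) ψ := by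
  unfold ψ
  exact Real.smoothTransition.contDiff.comp (by fun_prop)

theorem ψ_nonneg (t : ℝ) : 0 ≤ ψ t := Real.smoothTransition.nonneg _

theorem ψ_le_one (t : ℝ) : ψ t ≤ 1 := Real.smoothTransition.le_one _

theorem ψ_one {t : ℝ} (h : |t| ≤ 1) : ψ t = 1 := by
  apply Real.smoothTransition.one_of_one_le
  have : t ^ 2 ≤ 1 := by rw [← sq_abs]; nlinarith [abs_nonneg t]
  linarith

theorem ψ_zero {t : ℝ} (h : 2 ≤ |t|) : ψ t = 0 := by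
  apply Real.smoothTransition.zero_of_nonpos
  have : 4 ≤ t ^ 2 := by rw [← sq_abs]; nlinarith [abs_nonneg t]
  linarith

theorem ψ_even (t : ℝ) : ψ (-t) = ψ t := by unfold ψ; simp

/-- column position of the gate `(m,l)` -/
def X (m l : ℕ) : ℝ := 100 * (8 * m + l + 1)

/-- coordinates of the source center of gate `(m,l)` -/
noncomputable def gx (θ : ℝ) (m l : ℕ) : ℝ := r θ m * (q l).1
noncomputable def gs (θ : ℝ) (m l : ℕ) : ℝ := r θ m * (q l).2.1 + (m + 1) + uy θ m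
noncomputable def gξ (θ : ℝ) (m l : ℕ) : ℝ := r θ m * (q l).2.2

/-- coordinates of the target center of gate `(m,l)` -/
noncomputable def tx (θ : ℝ) (m l : ℕ) : ℝ := (tgt θ m l 0).1
noncomputable def ts (θ : ℝ) (m l : ℕ) : ℝ := (tgt θ m l 0).2.1
noncomputable def tξ (θ : ℝ) (m l : ℕ) : ℝ := (tgt θ m l 0).2.2

/-- `1` if the frame flips at gate `l`, else `0` -/
noncomputable def flip (l : ℕ) : ℝ := (1 - sg l * sg (l + 1)) / 2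

/-- The functions from which `f` is built. -/
structure Atoms (θ : ℝ) (ω : E → ℝ) where
  a1 : ℝ → ℝ
  wd : E → ℝ
  pn : ℝ → ℝ → ℝ
  al : ℝ → ℝ → ℝ
  b1 : ℝ → ℝ
  a4 : ℝ → ℝ
  a5 : ℝ → ℝ
  a2 : ℝ → ℝ
  b2 : ℝ → ℝ
  b3 : ℝ → ℝ
  a3 : ℝ → ℝ
  -- smoothness
  a1_smooth : ContDiff ℝ (⊤ : ℕ∞) a1
  wd_smooth : ContDiff ℝ (⊤ : ℕ∞) wd
  wd_lip : LipschitzWith (1 / 2) wd
  pn_smooth : ContDiff ℝ (⊤ : ℕ∞) (fun p : ℝ × ℝ => pn p.1 p.2)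
  al_smooth : ContDiff ℝ (⊤ : ℕ∞) (fun p : ℝ × ℝ => al p.1 p.2)
  b1_smooth : ContDiff ℝ (⊤ : ℕ∞) b1
  a4_smooth : ContDiff ℝ (⊤ : ℕ∞) a4
  a5_smooth : ContDiff ℝ (⊤ : ℕ∞) a5
  a2_smooth : ContDiff ℝ (⊤ : ℕ∞) a2
  b2_smooth : ContDiff ℝ (⊤ : ℕ∞) b2
  b3_smooth : ContDiff ℝ (⊤ : ℕ∞) b3
  a3_smooth : ContDiff ℝ (⊤ : ℕ∞) a3
  -- shift of the gate bands to their columns: Σ X ψ((s-gs)/(r/100))
  a1_in : ∀ m l, l ≤ 7 → ∀ s, |s - gs θ m l| ≤ r θ m / 50 →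
    a1 s = X m l * ψ ((s - gs θ m l) / (r θ m / 100))
  a1_out : ∀ s, (∀ m l, l ≤ 7 → r θ m / 50 ≤ |s - gs θ m l|) → a1 s = 0
  -- the wind
  wd_in : ∀ m l, l ≤ 7 → ∀ p : E, |p.1 - X m l| ≤ 20 → |p.2.1 - gs θ m l| ≤ r θ m / 50 →
    wd p = sg l * r θ m * ω ((p.1 - X m l - gx θ m l) / r θ m, (p.2.1 - gs θ m l) / r θ m,
      (p.2.2 - gξ θ m l) / r θ m) * ψ ((p.1 - X m l) / 10) * ψ ((p.2.1 - gs θ m l) / (r θ m / 100))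
  wd_out : ∀ p : E, (∀ m l, l ≤ 7 → 20 ≤ |p.1 - X m l| ∨ r θ m / 50 ≤ |p.2.1 - gs θ m l|) → wd p = 0
  -- penalty in `s` if `ξ` is far from the gate
  pn_in : ∀ m l, l ≤ 7 → ∀ x ξ, |x - X m l| ≤ 20 →
    pn x ξ = ψ ((x - X m l) / 10) * (6 / 1000 * r θ m) * (1 - ψ ((ξ - gξ θ m l) / r θ m))
  pn_out : ∀ x ξ, (∀ m l, l ≤ 7 → 20 ≤ |x - X m l|) → pn x ξ = 0
  -- alive zones
  al_in : ∀ m l, l ≤ 7 → ∀ x s, |x - X m l| ≤ 20 →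
    al x s = ψ ((x - X m l - gx θ m l) / (r θ m / 1000)) * ψ ((s - gs θ m l) / (r θ m / 1000))
  al_out : ∀ x s, (∀ m l, l ≤ 7 → 20 ≤ |x - X m l|) → al x s = 0
  -- ξ-translations
  b1_in : ∀ m l, l ≤ 7 → ∀ x, |x - X m l| ≤ 20 → b1 x = (tξ θ m l - gξ θ m l) * ψ ((x - X m l) / 10)
  b1_out : ∀ x, (∀ m l, l ≤ 7 → 20 ≤ |x - X m l|) → b1 x = 0
  -- killing near the gate bands / near the preimages of the target bands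
  a4_nonneg : ∀ s, 0 ≤ a4 s
  a4_in : ∀ m l, l ≤ 7 → ∀ s, |s - gs θ m l| ≤ r θ m / 50 → 1 ≤ a4 s
  a4_out : ∀ s, (∀ m l, l ≤ 7 → r θ m / 25 ≤ |s - gs θ m l|) → a4 s = 0
  a5_nonneg : ∀ s, 0 ≤ a5 s
  a5_in : ∀ m l, l ≤ 7 → ∀ s, |s + 1 - ts θ m l| ≤ r θ m / 50 → 1 ≤ a5 s
  a5_out : ∀ s, (∀ m l, l ≤ 7 → r θ m / 25 ≤ |s + 1 - ts θ m l|) → a5 s = 0
  -- flips
  a2_in : ∀ m l, l ≤ 7 → ∀ s, |s - gs θ m l| ≤ r θ m / 50 →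
    a2 s = flip l * (s - gs θ m l) * ψ ((s - gs θ m l) / (r θ m / 100))
  a2_out : ∀ s, (∀ m l, l ≤ 7 → r θ m / 50 ≤ |s - gs θ m l|) → a2 s = 0
  b2_in : ∀ m l, l ≤ 7 → ∀ x, |x - X m l| ≤ 20 →
    b2 x = flip l * (2 * (x - X m l - gx θ m l)) * ψ ((x - X m l) / 10)
  b2_out : ∀ x, (∀ m l, l ≤ 7 → 20 ≤ |x - X m l|) → b2 x = 0
  -- vertical transport in the columns
  b3_in : ∀ m l, l ≤ 7 → ∀ x, |x - X m l| ≤ 20 →
    b3 x = (ts θ m l - gs θ m l - 1) * ψ ((x - X m l) / 10)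
  b3_out : ∀ x, (∀ m l, l ≤ 7 → 20 ≤ |x - X m l|) → b3 x = 0
  -- back from the columns
  a3_in : ∀ m l, l ≤ 7 → ∀ s, |s - ts θ m l| ≤ r θ m / 50 →
    a3 s = (X m l + gx θ m l - tx θ m l) * ψ ((s - ts θ m l) / (r θ m / 100))
  a3_out : ∀ s, (∀ m l, l ≤ 7 → r θ m / 50 ≤ |s - ts θ m l|) → a3 s = 0

variable {θ : ℝ} {ω : E → ℝ}

/-- shift `x` by `a1 s` -/
def step1 (A : Atoms θ ω) (p : E) : E := (p.1 + A.a1 p.2.1, p.2.1, p.2.2)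
/-- wind -/
def step2 (A : Atoms θ ω) (p : E) : E := (p.1 + A.wd p, p.2.1, p.2.2)
/-- penalty -/
def step3 (A : Atoms θ ω) (p : E) : E := (p.1, p.2.1 + A.pn p.1 p.2.2, p.2.2)
/-- kill -/
noncomputable def step4 (A : Atoms θ ω) (p : E) : E :=
  (p.1, p.2.1, p.2.2 + ((1 - ψ (p.1 / 5)) * (4 * (1 - A.al p.1 p.2.1)) + A.b1 p.1
    + ψ (p.1 / 10) * (4 * (A.a4 p.2.1 + A.a5 p.2.1))))
/-- `L` -/
def stepL (A : Atoms θ ω) (p : E) : E := (p.1, p.2.1 + A.b2 p.1, p.2.2)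
/-- `U` -/
def stepU (A : Atoms θ ω) (p : E) : E := (p.1 - A.a2 p.2.1, p.2.1, p.2.2)
/-- vertical transport -/
def step9 (A : Atoms θ ω) (p : E) : E := (p.1, p.2.1 + (1 + A.b3 p.1), p.2.2)
/-- back -/
def step10 (A : Atoms θ ω) (p : E) : E := (p.1 - A.a3 p.2.1, p.2.1, p.2.2)

/-- the diffeomorphism -/
noncomputable def theMap (A : Atoms θ ω) (p : E) : E :=
  step10 A (step9 A (stepU A (stepL A (stepU A (stepL A (step4 A (step3 A (step2 A (step1 A p)))))))))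

end Pool.Agent.H718R2
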