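import Pool.Agent.H718R2.Defs2
import Pool.Agent.H718R2.Atoms

/-!
# Module A1: the wind
-/

namespace Pool.Agent.H718R2

namespace WindAux

/-- the compactly supported part -/
noncomputable def h (t : ℝ) : ℝ := t ^ 2 * (1 - Real.smoothTransition (t ^ 2 - 1))

theorem h_smooth : ContDiff ℝ (⊤ : ℕ∞) h := by
  unfold h
  exact (by fun_prop : ContDiff ℝ (⊤ : ℕ∞) (fun t : ℝ => t ^ 2)).mul
    (contDiff_const.sub (Real.smoothTransition.contDiff.comp (by fun_prop)))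

theorem h_supp : HasCompactSupport h := by
  apply HasCompactSupport.of_support_subset_isCompact (isCompact_Icc (a := (-2 : ℝ)) (b := 2))
  intro t ht
  by_contra hc
  apply ht
  have h2 : 2 ≤ t ^ 2 - 1 + 1 := by
    simp only [Set.mem_Icc, not_and_or, not_le] at hc
    rcases hc with hc | hc <;> nlinarith
  have : Real.smoothTransition (t ^ 2 - 1) = 1 :=
    Real.smoothTransition.one_of_one_le (by linarith)
  simp [h, this]

/-- the basic profile: `0` for `t² ≤ 1`, `t²` for `t² ≥ 2` -/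
noncomputable def P (t : ℝ) : ℝ := t ^ 2 - h t

theorem P_eq (t : ℝ) : P t = t ^ 2 * Real.smoothTransition (t ^ 2 - 1) := by
  unfold P h; ring

theorem P_nonneg (t : ℝ) : 0 ≤ P t := by
  rw [P_eq]; exact mul_nonneg (sq_nonneg _) (Real.smoothTransition.nonneg _)

theorem P_le (t : ℝ) : P t ≤ t ^ 2 := by
  rw [P_eq]
  exact mul_le_of_le_one_right (sq_nonneg _) (Real.smoothTransition.le_one _)

theorem P_zero {t : ℝ} (ht : t ^ 2 ≤ 1) : P t = 0 := by
  rw [P_eq, Real.smoothTransition.zero_of_nonpos (by linarith), mul_zero]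

theorem P_one {t : ℝ} (ht : 2 ≤ t ^ 2) : P t = t ^ 2 := by
  rw [P_eq, Real.smoothTransition.one_of_one_le (by linarith), mul_one]

theorem P_even (t : ℝ) : P (-t) = P t := by rw [P_eq, P_eq]; simp

theorem P_smooth : ContDiff ℝ (⊤ : ℕ∞) P := by
  unfold P
  exact (by fun_prop : ContDiff ℝ (⊤ : ℕ∞) (fun t : ℝ => t ^ 2)).sub h_smooth

theorem exists_bound : ∃ (C : ℝ) (P1 P2 : ℝ → ℝ), 1 ≤ C ∧ (∀ t, HasDerivAt P (P1 t) t) ∧
    (∀ t, HasDerivAt P1 (P2 t) t) ∧ (∀ t, |P1 t| ≤ C * |t|) ∧ (∀ t, |P2 t| ≤ C) := by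
  have hs := h_smooth
  have hs' : ContDiff ℝ (⊤ : ℕ∞) (deriv h) := by
    have := (contDiff_infty_iff_deriv (𝕜 := ℝ)).1 hs
    exact this.2
  have hs'' : ContDiff ℝ (⊤ : ℕ∞) (deriv (deriv h)) :=
    ((contDiff_infty_iff_deriv (𝕜 := ℝ)).1 hs').2
  obtain ⟨C, hC⟩ := hs''.continuous.bounded_above_of_compact_support h_supp.deriv.deriv
  have hC0 : 0 ≤ C := (norm_nonneg _).trans (hC 0)
  have d1 : ∀ t, HasDerivAt P (2 * t - deriv h t) t := by
    intro t
    have e1 : HasDerivAt (fun t : ℝ => t ^ 2) (2 * t) t := by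
      simpa using hasDerivAt_pow 2 t
    exact e1.sub ((hs.differentiable (by simp)).differentiableAt.hasDerivAt)
  have d2 : ∀ t, HasDerivAt (fun t => 2 * t - deriv h t) (2 - deriv (deriv h) t) t := by
    intro t
    have e1 : HasDerivAt (fun t : ℝ => 2 * t) 2 t := by
      simpa using (hasDerivAt_id t).const_mul 2
    exact e1.sub ((hs'.differentiable (by simp)).differentiableAt.hasDerivAt)
  have b2 : ∀ t, |2 - deriv (deriv h) t| ≤ C + 2 := by
    intro t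
    have := hC t
    rw [Real.norm_eq_abs] at this
    calc |2 - deriv (deriv h) t| ≤ |2| + |deriv (deriv h) t| := abs_sub _ _
      _ ≤ 2 + C := by rw [abs_of_pos (by norm_num : (0 : ℝ) < 2)]; linarith
      _ = C + 2 := by ring
  have z0 : (2 : ℝ) * 0 - deriv h 0 = 0 := by
    have e1 : HasDerivAt P 0 0 := by
      apply (hasDerivAt_const (0 : ℝ) (0 : ℝ)).congr_of_eventuallyEq
      have : Set.Ioo (-1 : ℝ) 1 ∈ nhds (0 : ℝ) := Ioo_mem_nhds (by norm_num) (by norm_num)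
      filter_upwards [this] with t ht
      exact P_zero (by nlinarith [ht.1, ht.2])
    exact (d1 0).unique e1
  refine ⟨C + 2, fun t => 2 * t - deriv h t, fun t => 2 - deriv (deriv h) t, by linarith, d1, d2,
    ?_, b2⟩
  intro t
  have := Convex.norm_image_sub_le_of_norm_hasDerivWithin_le (f := fun t => 2 * t - deriv h t)
    (f' := fun t => 2 - deriv (deriv h) t) (C := C + 2) (s := Set.univ)
    (fun x _ => (d2 x).hasDerivWithinAt) (fun x _ => by rw [Real.norm_eq_abs]; exact b2 x)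
    convex_univ (Set.mem_univ 0) (Set.mem_univ t)
  simp only [z0, sub_zero, Real.norm_eq_abs] at this
  exact this

/-- scaled profile -/
noncomputable def Pa (a t : ℝ) : ℝ := a ^ 2 * P (t / a)

theorem Pa_nonneg (a t : ℝ) : 0 ≤ Pa a t := mul_nonneg (sq_nonneg _) (P_nonneg _)

theorem Pa_le {a : ℝ} (ha : 0 < a) (t : ℝ) : Pa a t ≤ t ^ 2 := by
  unfold Pa
  calc a ^ 2 * P (t / a) ≤ a ^ 2 * (t / a) ^ 2 := by
        exact mul_le_mul_of_nonneg_left (P_le _) (sq_nonneg _)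
    _ = t ^ 2 := by field_simp

theorem Pa_zero {a t : ℝ} (ha : 0 < a) (ht : |t| ≤ a) : Pa a t = 0 := by
  unfold Pa
  rw [P_zero, mul_zero]
  rw [div_pow, div_le_one (by positivity), ← sq_abs t]
  exact pow_le_pow_left₀ (abs_nonneg _) ht 2

theorem Pa_one {a t : ℝ} (ha : 0 < a) (ht : 2 * a ^ 2 ≤ t ^ 2) : Pa a t = t ^ 2 := by
  unfold Pa
  rw [P_one]
  · field_simp
  · rw [div_pow, le_div_iff₀ (by positivity)]; exact ht

theorem Pa_even (a t : ℝ) : Pa a (-t) = Pa a t := by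
  unfold Pa; rw [neg_div, P_even]

theorem Pa_smooth (a : ℝ) : ContDiff ℝ (⊤ : ℕ∞) (Pa a) := by
  unfold Pa
  exact contDiff_const.mul (P_smooth.comp (by fun_prop))

/-- `t² ≤ 2 (1 + Pa a t)` for `a ≤ 1` -/
theorem sq_le {a : ℝ} (ha : 0 < a) (ha1 : a ≤ 1) (t : ℝ) : t ^ 2 ≤ 2 * (1 + Pa a t) := by
  by_cases h2 : 2 * a ^ 2 ≤ t ^ 2
  · rw [Pa_one ha h2]; nlinarith [sq_nonneg t]
  · push Not at h2
    have := Pa_nonneg a t
    nlinarith

/-- the one dimensional wind profile -/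
noncomputable def g (a t : ℝ) : ℝ := Pa a t / (1 + Pa a t)

theorem pos (a t : ℝ) : 0 < 1 + Pa a t := by have := Pa_nonneg a t; linarith

theorem g_smooth (a : ℝ) : ContDiff ℝ (⊤ : ℕ∞) (g a) := by
  unfold g
  exact (Pa_smooth a).div (contDiff_const.add (Pa_smooth a)) (fun t => (pos a t).ne')

theorem g_nonneg (a t : ℝ) : 0 ≤ g a t := div_nonneg (Pa_nonneg a t) (pos a t).le

theorem g_le_one (a t : ℝ) : g a t ≤ 1 := by
  unfold g
  rw [div_le_one (pos a t)]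
  linarith

theorem g_le_sq {a : ℝ} (ha : 0 < a) (t : ℝ) : g a t ≤ t ^ 2 := by
  unfold g
  refine (div_le_self (Pa_nonneg a t) ?_).trans (Pa_le ha t)
  have := Pa_nonneg a t
  linarith

theorem g_even (a t : ℝ) : g a (-t) = g a t := by unfold g; rw [Pa_even]

theorem g_zero {a t : ℝ} (ha : 0 < a) (ht : |t| ≤ a) : g a t = 0 := by
  unfold g; rw [Pa_zero ha ht]; simp

theorem g_low {a t : ℝ} (ha : 0 < a) (ht : 3 / 2 * a ≤ |t|) (ht1 : |t| ≤ 1) :
    t ^ 2 / 2 ≤ g a t := by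
  have h2 : 2 * a ^ 2 ≤ t ^ 2 := by
    rw [← sq_abs t]
    nlinarith
  unfold g
  rw [Pa_one ha h2, le_div_iff₀ (by positivity)]
  have : t ^ 2 ≤ 1 := by rw [← sq_abs t]; nlinarith [abs_nonneg t]
  nlinarith [sq_nonneg t]

theorem g_low' {a t : ℝ} (ha : 0 < a) (ha1 : a ≤ 1 / 2) (ht1 : 1 ≤ |t|) : 1 / 2 ≤ g a t := by
  have h1 : 1 ≤ t ^ 2 := by rw [← sq_abs t]; nlinarith [abs_nonneg t]
  have h2 : 2 * a ^ 2 ≤ t ^ 2 := by nlinarith
  unfold g
  rw [Pa_one ha h2, le_div_iff₀ (by positivity)]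
  linarith

theorem g_deriv : ∃ (C : ℝ), 1 ≤ C ∧ ∀ a, 0 < a → a ≤ 1 → ∃ g1 : ℝ → ℝ,
    (∀ t, HasDerivAt (g a) (g1 t) t) ∧ (∀ t, |g1 t| ≤ C * |t|) ∧ (∀ t, |g1 t| ≤ C) ∧
    (∀ t u, |g1 t - g1 u| ≤ C * |t - u|) := by
  obtain ⟨C, P1, P2, hC1, hP1, hP2, b1, b2⟩ := exists_bound
  refine ⟨10 * C ^ 2, by nlinarith, ?_⟩
  intro a ha ha1
  have dPa : ∀ t, HasDerivAt (Pa a) (a * P1 (t / a)) t := by
    intro t
    have e1 : HasDerivAt (fun t : ℝ => t / a) (1 / a) t := (hasDerivAt_id t).div_const a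
    have e2 := ((hP1 (t / a)).comp t e1).const_mul (a ^ 2)
    refine e2.congr_deriv ?_
    field_simp
  have dPa1 : ∀ t, HasDerivAt (fun t => a * P1 (t / a)) (P2 (t / a)) t := by
    intro t
    have e1 : HasDerivAt (fun t : ℝ => t / a) (1 / a) t := (hasDerivAt_id t).div_const a
    have e2 := ((hP2 (t / a)).comp t e1).const_mul a
    refine e2.congr_deriv ?_
    field_simp
  have bPa1 : ∀ t, |a * P1 (t / a)| ≤ C * |t| := by
    intro t
    rw [abs_mul, abs_of_pos ha]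
    calc a * |P1 (t / a)| ≤ a * (C * |t / a|) := mul_le_mul_of_nonneg_left (b1 _) ha.le
      _ = C * |t| := by rw [abs_div, abs_of_pos ha]; field_simp
  -- first derivative
  have dg : ∀ t, HasDerivAt (g a) ((a * P1 (t / a)) / (1 + Pa a t) ^ 2) t := by
    intro t
    have e1 := (dPa t).div ((dPa t).const_add 1) (pos a t).ne'
    refine e1.congr_deriv ?_
    congr 1
    ring
  have dg1 : ∀ t, HasDerivAt (fun t => (a * P1 (t / a)) / (1 + Pa a t) ^ 2)
      (P2 (t / a) / (1 + Pa a t) ^ 2 - 2 * (a * P1 (t / a)) ^ 2 / (1 + Pa a t) ^ 3) t := by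
    intro t
    have hp := pos a t
    have e0 : HasDerivAt (fun t => (1 + Pa a t) ^ 2) (2 * (1 + Pa a t) * (a * P1 (t / a))) t := by
      have := ((dPa t).const_add 1).pow 2
      refine this.congr_deriv ?_
      push_cast
      ring
    have e1 := (dPa1 t).div e0 (pow_ne_zero 2 hp.ne')
    refine e1.congr_deriv ?_
    field_simp
  have C0 : 0 ≤ C := by linarith
  have hC2 : C ≤ C ^ 2 := by nlinarith
  have bt : ∀ t, |t| ≤ 2 * (1 + Pa a t) := by
    intro t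
    have h1 := sq_le ha ha1 t
    have h2 := pos a t
    have h3 := Pa_nonneg a t
    by_contra hcon
    push Not at hcon
    have : t ^ 2 > 4 * (1 + Pa a t) ^ 2 := by
      rw [← sq_abs t]
      nlinarith
    nlinarith
  refine ⟨fun t => (a * P1 (t / a)) / (1 + Pa a t) ^ 2, dg, ?_, ?_, ?_⟩
  · intro t
    have hp := pos a t
    have hp1 : 1 ≤ (1 + Pa a t) ^ 2 := by nlinarith [Pa_nonneg a t]
    rw [abs_div, abs_of_pos (by positivity : 0 < (1 + Pa a t) ^ 2)]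
    calc |a * P1 (t / a)| / (1 + Pa a t) ^ 2 ≤ |a * P1 (t / a)| := div_le_self (abs_nonneg _) hp1
      _ ≤ C * |t| := bPa1 t
      _ ≤ 10 * C ^ 2 * |t| := by
        apply mul_le_mul_of_nonneg_right _ (abs_nonneg _)
        nlinarith
  · intro t
    have hp := pos a t
    rw [abs_div, abs_of_pos (by positivity : 0 < (1 + Pa a t) ^ 2), div_le_iff₀ (by positivity)]
    have h1 := bt t
    have h2 := bPa1 t
    have h3 := Pa_nonneg a t
    calc |a * P1 (t / a)| ≤ C * |t| := h2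
      _ ≤ C * (2 * (1 + Pa a t)) := mul_le_mul_of_nonneg_left h1 C0
      _ ≤ 10 * C ^ 2 * (1 + Pa a t) ^ 2 := by
        have h4 : (1 + Pa a t) ≤ (1 + Pa a t) ^ 2 := by nlinarith
        have h5 : C * (1 + Pa a t) ≤ C ^ 2 * (1 + Pa a t) ^ 2 :=
          mul_le_mul hC2 h4 hp.le (by positivity)
        have h6 : 0 ≤ C ^ 2 * (1 + Pa a t) ^ 2 := by positivity
        nlinarith
  · have bb : ∀ t, |P2 (t / a) / (1 + Pa a t) ^ 2 - 2 * (a * P1 (t / a)) ^ 2 / (1 + Pa a t) ^ 3|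
        ≤ 10 * C ^ 2 := by
      intro t
      have hp := pos a t
      have hp0 := Pa_nonneg a t
      have e1 : |P2 (t / a) / (1 + Pa a t) ^ 2| ≤ C := by
        rw [abs_div, abs_of_pos (by positivity : 0 < (1 + Pa a t) ^ 2)]
        refine (div_le_self (abs_nonneg _) (by nlinarith)).trans (b2 _)
      have e2 : |2 * (a * P1 (t / a)) ^ 2 / (1 + Pa a t) ^ 3| ≤ 4 * C ^ 2 := by
        rw [abs_div, abs_of_pos (by positivity : 0 < (1 + Pa a t) ^ 3),
          div_le_iff₀ (by positivity), abs_mul, abs_pow, abs_of_pos (by norm_num : (0 : ℝ) < 2)]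
        have h2 := bPa1 t
        have h3 : |a * P1 (t / a)| ^ 2 ≤ (C * |t|) ^ 2 := pow_le_pow_left₀ (abs_nonneg _) h2 2
        have h4 : (C * |t|) ^ 2 = C ^ 2 * t ^ 2 := by rw [mul_pow, sq_abs]
        have h5 := sq_le ha ha1 t
        have h6 : (1 + Pa a t) ≤ (1 + Pa a t) ^ 3 := by nlinarith [mul_nonneg hp0 hp0, mul_nonneg (mul_nonneg hp0 hp0) hp0]
        calc 2 * |a * P1 (t / a)| ^ 2 ≤ 2 * (C ^ 2 * t ^ 2) := by rw [← h4]; linarith
          _ ≤ 2 * (C ^ 2 * (2 * (1 + Pa a t))) := by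
            apply mul_le_mul_of_nonneg_left _ (by norm_num)
            exact mul_le_mul_of_nonneg_left h5 (by positivity)
          _ = 4 * C ^ 2 * (1 + Pa a t) := by ring
          _ ≤ 4 * C ^ 2 * (1 + Pa a t) ^ 3 := mul_le_mul_of_nonneg_left h6 (by positivity)
      calc _ ≤ |P2 (t / a) / (1 + Pa a t) ^ 2| + |2 * (a * P1 (t / a)) ^ 2 / (1 + Pa a t) ^ 3| :=
            abs_sub _ _
        _ ≤ C + 4 * C ^ 2 := add_le_add e1 e2
        _ ≤ 10 * C ^ 2 := by nlinarith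
    intro t u
    have := Convex.norm_image_sub_le_of_norm_hasDerivWithin_le
      (f := fun t => (a * P1 (t / a)) / (1 + Pa a t) ^ 2)
      (f' := fun t => P2 (t / a) / (1 + Pa a t) ^ 2 - 2 * (a * P1 (t / a)) ^ 2 / (1 + Pa a t) ^ 3)
      (C := 10 * C ^ 2) (s := Set.univ)
      (fun x _ => (dg1 x).hasDerivWithinAt) (fun x _ => by rw [Real.norm_eq_abs]; exact bb x)
      convex_univ (Set.mem_univ u) (Set.mem_univ t)
    simpa [Real.norm_eq_abs] using this

/-- coordinates -/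
theorem norm_eq (z : E) : ‖z‖ = max |z.1| (max |z.2.1| |z.2.2|) := by
  rw [Prod.norm_def, Prod.norm_def]; rfl

theorem le1 (z : E) : |z.1| ≤ ‖z‖ := by rw [norm_eq]; exact le_max_left _ _
theorem le2 (z : E) : |z.2.1| ≤ ‖z‖ := by
  rw [norm_eq]; exact (le_max_left _ _).trans (le_max_right _ _)
theorem le3 (z : E) : |z.2.2| ≤ ‖z‖ := by
  rw [norm_eq]; exact (le_max_right _ _).trans (le_max_right _ _)

theorem norm_cases (z : E) : ‖z‖ = |z.1| ∨ ‖z‖ = |z.2.1| ∨ ‖z‖ = |z.2.2| := by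
  rw [norm_eq]
  rcases max_choice |z.1| (max |z.2.1| |z.2.2|) with h | h
  · left; exact h
  · rcases max_choice |z.2.1| |z.2.2| with h' | h'
    · right; left; rw [h, h']
    · right; right; rw [h, h']

end WindAux

open WindAux

/-- Module A1: the wind -/
theorem exists_wind (C : ℝ) : ∃ κ : ℝ, 0 < κ ∧ κ ≤ 1 / 10 ^ 12 ∧ ∃ ω : E → ℝ,
    ContDiff ℝ (⊤ : ℕ∞) ω ∧ Wind κ (κ ^ 24) ω ∧ (∀ z : E, ω (-z.1, -z.2.1, z.2.2) = ω z) ∧
    LipschitzWith (1 / 10 ^ 10) ω ∧ (∀ z, C * ω z ≤ 1 / 10 ^ 11) := by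
  obtain ⟨K, hK1, hK⟩ := g_deriv
  set κ : ℝ := 1 / (10 ^ 12 * (K * (1 + |C|))) with hκ
  have hC0 := abs_nonneg C
  have hden : 1 ≤ K * (1 + |C|) := by nlinarith
  have hκ0 : 0 < κ := by positivity
  have hκ1 : κ ≤ 1 / 10 ^ 12 := by
    rw [hκ]
    apply one_div_le_one_div_of_le (by norm_num)
    nlinarith
  have hKκ : κ * (K * (1 + |C|)) = 1 / 10 ^ 12 := by
    rw [hκ]
    have : K * (1 + |C|) ≠ 0 := by positivity
    field_simp
  have hKκ1 : κ * K ≤ 1 / 10 ^ 12 := by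
    rw [← hKκ]
    apply mul_le_mul_of_nonneg_left _ hκ0.le
    nlinarith
  have hCκ1 : κ * |C| ≤ 1 / 10 ^ 12 := by
    rw [← hKκ]
    apply mul_le_mul_of_nonneg_left _ hκ0.le
    nlinarith
  -- the scale
  have hθ0 : 0 < κ ^ 24 := by positivity
  have hθ1 : κ ^ 24 ≤ 1 / 10 ^ 12 := by
    calc κ ^ 24 ≤ κ ^ 1 := pow_le_pow_of_le_one hκ0.le (hκ1.trans (by norm_num)) (by norm_num)
      _ = κ := pow_one _
      _ ≤ _ := hκ1
  set a : ℝ := 10 * κ ^ 24 with ha
  have ha0 : 0 < a := by positivity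
  have ha1 : a ≤ 1 / 2 := by
    have : (1 : ℝ) / 10 ^ 12 ≤ 1 / 20 := by norm_num
    linarith
  obtain ⟨g1, d1, bl, bc, bL⟩ := hK a ha0 (by linarith)
  set ω : E → ℝ := fun z => κ * (g a z.1 + g a z.2.1 + g a z.2.2) with hω
  have hsm : ContDiff ℝ (⊤ : ℕ∞) ω := by
    have hg := g_smooth a
    have e1 : ContDiff ℝ (⊤ : ℕ∞) (fun z : E => g a z.1) := hg.comp contDiff_fst
    have e2 : ContDiff ℝ (⊤ : ℕ∞) (fun z : E => g a z.2.1) :=
      hg.comp (contDiff_fst.comp contDiff_snd)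
    have e3 : ContDiff ℝ (⊤ : ℕ∞) (fun z : E => g a z.2.2) :=
      hg.comp (contDiff_snd.comp contDiff_snd)
    exact contDiff_const.mul ((e1.add e2).add e3)
  let p1 : E →L[ℝ] ℝ := ContinuousLinearMap.fst ℝ ℝ (ℝ × ℝ)
  let p2 : E →L[ℝ] ℝ := (ContinuousLinearMap.fst ℝ ℝ ℝ).comp (ContinuousLinearMap.snd ℝ ℝ (ℝ × ℝ))
  let p3 : E →L[ℝ] ℝ := (ContinuousLinearMap.snd ℝ ℝ ℝ).comp (ContinuousLinearMap.snd ℝ ℝ (ℝ × ℝ))
  have hn1 : ‖p1‖ ≤ 1 := by
    refine p1.opNorm_le_bound zero_le_one (fun z => ?_)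
    rw [one_mul]; exact le1 z
  have hn2 : ‖p2‖ ≤ 1 := by
    refine p2.opNorm_le_bound zero_le_one (fun z => ?_)
    rw [one_mul]; exact le2 z
  have hn3 : ‖p3‖ ≤ 1 := by
    refine p3.opNorm_le_bound zero_le_one (fun z => ?_)
    rw [one_mul]; exact le3 z
  have hd : ∀ z : E, HasFDerivAt ω (κ • (g1 z.1 • p1 + g1 z.2.1 • p2 + g1 z.2.2 • p3)) z := by
    intro z
    have e1 : HasFDerivAt (fun z : E => g a z.1) (g1 z.1 • p1) z :=
      (d1 z.1).comp_hasFDerivAt z (p1.hasFDerivAt)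
    have e2 : HasFDerivAt (fun z : E => g a z.2.1) (g1 z.2.1 • p2) z :=
      HasDerivAt.comp_hasFDerivAt (h₂ := g a) (f := p2) z (d1 z.2.1) (p2.hasFDerivAt)
    have e3 : HasFDerivAt (fun z : E => g a z.2.2) (g1 z.2.2 • p3) z :=
      HasDerivAt.comp_hasFDerivAt (h₂ := g a) (f := p3) z (d1 z.2.2) (p3.hasFDerivAt)
    exact ((e1.add e2).add e3).const_mul κ
  have hfd : ∀ z : E, fderiv ℝ ω z = κ • (g1 z.1 • p1 + g1 z.2.1 • p2 + g1 z.2.2 • p3) :=
    fun z => (hd z).fderiv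
  -- a general norm bound
  have hnorm : ∀ (u v w B : ℝ), |u| ≤ B → |v| ≤ B → |w| ≤ B →
      ‖κ • (u • p1 + v • p2 + w • p3)‖ ≤ κ * (3 * B) := by
    intro u v w B hu hv hw
    rw [norm_smul, Real.norm_eq_abs, abs_of_pos hκ0]
    apply mul_le_mul_of_nonneg_left _ hκ0.le
    have hB : 0 ≤ B := (abs_nonneg _).trans hu
    have f1 : ‖u • p1‖ ≤ B := by
      rw [norm_smul, Real.norm_eq_abs]
      calc |u| * ‖p1‖ ≤ B * 1 := mul_le_mul hu hn1 (norm_nonneg _) hB
        _ = B := mul_one _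
    have f2 : ‖v • p2‖ ≤ B := by
      rw [norm_smul, Real.norm_eq_abs]
      calc |v| * ‖p2‖ ≤ B * 1 := mul_le_mul hv hn2 (norm_nonneg _) hB
        _ = B := mul_one _
    have f3 : ‖w • p3‖ ≤ B := by
      rw [norm_smul, Real.norm_eq_abs]
      calc |w| * ‖p3‖ ≤ B * 1 := mul_le_mul hw hn3 (norm_nonneg _) hB
        _ = B := mul_one _
    calc ‖u • p1 + v • p2 + w • p3‖ ≤ ‖u • p1 + v • p2‖ + ‖w • p3‖ := norm_add_le _ _
      _ ≤ ‖u • p1‖ + ‖v • p2‖ + ‖w • p3‖ := by gcongr; exact norm_add_le _ _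
      _ ≤ 3 * B := by linarith
  have h12 : (0 : ℝ) < 1 / 10 ^ 12 := by norm_num
  have hω3 : ∀ z, ω z ≤ κ * 3 := by
    intro z
    apply mul_le_mul_of_nonneg_left _ hκ0.le
    have := g_le_one a z.1; have := g_le_one a z.2.1; have := g_le_one a z.2.2
    linarith
  have hω0 : ∀ z, 0 ≤ ω z := by
    intro z
    have := g_nonneg a z.1; have := g_nonneg a z.2.1; have := g_nonneg a z.2.2
    show 0 ≤ κ * (g a z.1 + g a z.2.1 + g a z.2.2)
    positivity
  refine ⟨κ, hκ0, hκ1, ω, hsm, ?_, ?_, ?_, ?_⟩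
  · refine ⟨hsm.of_le (WithTop.coe_le_coe.2 (le_top : (2 : ℕ∞) ≤ ⊤)), hω0, ?_, ?_, ?_, ?_, ?_, ?_, ?_⟩
    · intro z hz
      show κ * (g a z.1 + g a z.2.1 + g a z.2.2) = 0
      rw [g_zero ha0 ((le1 z).trans hz), g_zero ha0 ((le2 z).trans hz),
        g_zero ha0 ((le3 z).trans hz)]
      ring
    · intro z hz hz1
      have k1 := g_nonneg a z.1
      have k2 := g_nonneg a z.2.1
      have k3 := g_nonneg a z.2.2
      have key : ‖z‖ ^ 2 / 2 ≤ g a z.1 + g a z.2.1 + g a z.2.2 := by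
        rcases norm_cases z with h | h | h
        · have := g_low (a := a) (t := z.1) ha0 (by rw [← h, ha]; linarith) (by rw [← h]; exact hz1)
          rw [h, sq_abs]; linarith
        · have := g_low (a := a) (t := z.2.1) ha0 (by rw [← h, ha]; linarith)
            (by rw [← h]; exact hz1)
          rw [h, sq_abs]; linarith
        · have := g_low (a := a) (t := z.2.2) ha0 (by rw [← h, ha]; linarith)
            (by rw [← h]; exact hz1)
          rw [h, sq_abs]; linarith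
      show κ / 4 * ‖z‖ ^ 2 ≤ κ * (g a z.1 + g a z.2.1 + g a z.2.2)
      have : κ * (‖z‖ ^ 2 / 2) ≤ κ * (g a z.1 + g a z.2.1 + g a z.2.2) :=
        mul_le_mul_of_nonneg_left key hκ0.le
      have h0 : 0 ≤ κ * ‖z‖ ^ 2 := by positivity
      linarith
    · intro z hz1
      have k1 := g_nonneg a z.1
      have k2 := g_nonneg a z.2.1
      have k3 := g_nonneg a z.2.2
      have key : 1 / 2 ≤ g a z.1 + g a z.2.1 + g a z.2.2 := by
        rcases norm_cases z with h | h | h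
        · have := g_low' (a := a) (t := z.1) ha0 ha1 (by rw [← h]; exact hz1)
          linarith
        · have := g_low' (a := a) (t := z.2.1) ha0 ha1 (by rw [← h]; exact hz1)
          linarith
        · have := g_low' (a := a) (t := z.2.2) ha0 ha1 (by rw [← h]; exact hz1)
          linarith
      show κ / 4 ≤ κ * (g a z.1 + g a z.2.1 + g a z.2.2)
      have : κ * (1 / 2) ≤ κ * (g a z.1 + g a z.2.1 + g a z.2.2) :=
        mul_le_mul_of_nonneg_left key hκ0.le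
      linarith
    · intro z
      refine (hω3 z).trans ?_
      have : (3 : ℝ) * (1 / 10 ^ 12) ≤ 1 / 10 ^ 11 := by norm_num
      linarith
    · intro z
      have f1 := g_le_sq ha0 z.1
      have f2 := g_le_sq ha0 z.2.1
      have f3 := g_le_sq ha0 z.2.2
      have s1 : z.1 ^ 2 ≤ ‖z‖ ^ 2 := by rw [← sq_abs z.1]; exact pow_le_pow_left₀ (abs_nonneg _) (le1 z) 2
      have s2 : z.2.1 ^ 2 ≤ ‖z‖ ^ 2 := by
        rw [← sq_abs z.2.1]; exact pow_le_pow_left₀ (abs_nonneg _) (le2 z) 2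
      have s3 : z.2.2 ^ 2 ≤ ‖z‖ ^ 2 := by
        rw [← sq_abs z.2.2]; exact pow_le_pow_left₀ (abs_nonneg _) (le3 z) 2
      show κ * (g a z.1 + g a z.2.1 + g a z.2.2) ≤ 1 / 10 ^ 11 * ‖z‖ ^ 2
      calc κ * (g a z.1 + g a z.2.1 + g a z.2.2) ≤ κ * (3 * ‖z‖ ^ 2) :=
            mul_le_mul_of_nonneg_left (by linarith) hκ0.le
        _ = (3 * κ) * ‖z‖ ^ 2 := by ring
        _ ≤ 1 / 10 ^ 11 * ‖z‖ ^ 2 := by
          apply mul_le_mul_of_nonneg_right _ (by positivity)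
          have : (3 : ℝ) * (1 / 10 ^ 12) ≤ 1 / 10 ^ 11 := by norm_num
          linarith
    · intro z
      rw [hfd z]
      refine (hnorm _ _ _ (K * ‖z‖) ?_ ?_ ?_).trans ?_
      · exact (bl _).trans (mul_le_mul_of_nonneg_left (le1 z) (by linarith))
      · exact (bl _).trans (mul_le_mul_of_nonneg_left (le2 z) (by linarith))
      · exact (bl _).trans (mul_le_mul_of_nonneg_left (le3 z) (by linarith))
      · calc κ * (3 * (K * ‖z‖)) = (3 * (κ * K)) * ‖z‖ := by ring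
          _ ≤ 1 / 10 ^ 11 * ‖z‖ := by
            apply mul_le_mul_of_nonneg_right _ (norm_nonneg _)
            have : (3 : ℝ) * (1 / 10 ^ 12) ≤ 1 / 10 ^ 11 := by norm_num
            linarith
    · intro z w
      rw [hfd z, hfd w]
      have e : κ • (g1 z.1 • p1 + g1 z.2.1 • p2 + g1 z.2.2 • p3)
          - κ • (g1 w.1 • p1 + g1 w.2.1 • p2 + g1 w.2.2 • p3)
          = κ • ((g1 z.1 - g1 w.1) • p1 + (g1 z.2.1 - g1 w.2.1) • p2
            + (g1 z.2.2 - g1 w.2.2) • p3) := by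
        module
      rw [e]
      refine (hnorm _ _ _ (K * ‖z - w‖) ?_ ?_ ?_).trans ?_
      · exact (bL _ _).trans (mul_le_mul_of_nonneg_left (le1 (z - w)) (by linarith))
      · exact (bL _ _).trans (mul_le_mul_of_nonneg_left (le2 (z - w)) (by linarith))
      · exact (bL _ _).trans (mul_le_mul_of_nonneg_left (le3 (z - w)) (by linarith))
      · calc κ * (3 * (K * ‖z - w‖)) = (3 * (κ * K)) * ‖z - w‖ := by ring
          _ ≤ 1 / 10 ^ 11 * ‖z - w‖ := by
            apply mul_le_mul_of_nonneg_right _ (norm_nonneg _)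
            have : (3 : ℝ) * (1 / 10 ^ 12) ≤ 1 / 10 ^ 11 := by norm_num
            linarith
  · intro z
    show κ * (g a (-z.1) + g a (-z.2.1) + g a z.2.2) = κ * (g a z.1 + g a z.2.1 + g a z.2.2)
    rw [g_even, g_even]
  · apply lipschitzWith_of_nnnorm_fderiv_le (𝕜 := ℝ)
    · exact fun z => (hd z).differentiableAt
    · intro z
      rw [← NNReal.coe_le_coe, coe_nnnorm, hfd z]
      refine (hnorm _ _ _ K (bc _) (bc _) (bc _)).trans ?_
      push_cast
      have : (3 : ℝ) * (1 / 10 ^ 12) ≤ 1 / 10 ^ 10 := by norm_num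
      calc κ * (3 * K) = 3 * (κ * K) := by ring
        _ ≤ 3 * (1 / 10 ^ 12) := by linarith
        _ ≤ _ := this
  · intro z
    calc C * ω z ≤ |C| * ω z := mul_le_mul_of_nonneg_right (le_abs_self C) (hω0 z)
      _ ≤ |C| * (κ * 3) := mul_le_mul_of_nonneg_left (hω3 z) hC0
      _ = 3 * (κ * |C|) := by ring
      _ ≤ 3 * (1 / 10 ^ 12) := by linarith
      _ ≤ 1 / 10 ^ 11 := by norm_num

end Pool.Agent.H718R2
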