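import Pool.Agent.H718R2.Defs2
import Pool.Agent.H718R2.Atoms

/-!
# Module A2a: `ψ` is Lipschitz, and `theMap A` is a `C^∞` diffeomorphism
-/

namespace Pool.Agent.H718R2

open Set Function
open scoped NNReal

/-- Module A2a -/
theorem ψ_lip : ∃ C : NNReal, LipschitzWith C ψ := by
  refine ContDiff.lipschitzWith_of_hasCompactSupport (𝕂 := ℝ) (n := ((⊤ : ℕ∞) : WithTop ℕ∞)) ?_
    ψ_contDiff (by simp)
  refine HasCompactSupport.of_support_subset_isCompact (isCompact_Icc (a := (-2 : ℝ)) (b := 2)) ?_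
  intro t ht
  rw [Function.mem_support] at ht
  by_contra hc
  apply ht
  apply ψ_zero
  by_contra h2
  push Not at h2
  apply hc
  rw [abs_lt] at h2
  exact ⟨h2.1.le, h2.2.le⟩

namespace A2aAux

/-- `f` is a `C^∞` diffeomorphism -/
def Good (f : E → E) : Prop :=
  ∃ h : E ≃ₜ E, ContDiff ℝ (⊤ : ℕ∞) h ∧ ContDiff ℝ (⊤ : ℕ∞) h.symm ∧ ⇑h = f

theorem Good.comp {f g : E → E} (hf : Good f) (hg : Good g) : Good (fun p => f (g p)) := by
  obtain ⟨F, hF1, hF2, rfl⟩ := hf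
  obtain ⟨G, hG1, hG2, rfl⟩ := hg
  refine ⟨G.trans F, ?_, ?_, ?_⟩
  · exact hF1.comp hG1
  · exact hG2.comp hF2
  · rfl

theorem good_of_inv {f g : E → E} (hf : ContDiff ℝ (⊤ : ℕ∞) f) (hg : ContDiff ℝ (⊤ : ℕ∞) g)
    (h1 : ∀ p, g (f p) = p) (h2 : ∀ p, f (g p) = p) : Good f :=
  ⟨{ toFun := f, invFun := g, left_inv := h1, right_inv := h2,
     continuous_toFun := hf.continuous, continuous_invFun := hg.continuous }, hf, hg, rfl⟩

/-- explicit inverse of `v ↦ (v.1 + D v, v.2)` for a linear form `D` with `‖D‖ ≤ 1/2` -/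
theorem exists_equiv (D : E →L[ℝ] ℝ) (hD : ‖D‖ ≤ 1 / 2) :
    ∃ e : E ≃L[ℝ] E, ∀ v : E, e v = (v.1 + D v, v.2.1, v.2.2) := by
  set d : ℝ := D (1, 0, 0) with hd
  have hd1 : |d| ≤ 1 / 2 := by
    have h := D.le_opNorm (1, 0, 0)
    have hn : ‖((1 : ℝ), (0 : ℝ), (0 : ℝ))‖ ≤ 1 := by
      rw [Prod.norm_def, Prod.norm_def]; simp
    rw [← Real.norm_eq_abs]
    calc ‖d‖ ≤ ‖D‖ * ‖((1 : ℝ), (0 : ℝ), (0 : ℝ))‖ := h
      _ ≤ 1 / 2 * 1 := mul_le_mul hD hn (norm_nonneg _) (by norm_num)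
      _ = 1 / 2 := by norm_num
  have hd2 : (1 + d) ≠ 0 := by
    have := (abs_le.mp hd1).1
    intro h0
    linarith
  have hsplit : ∀ v : E, D v = v.1 * d + D (0, v.2) := by
    intro v
    have : v = v.1 • ((1 : ℝ), (0 : ℝ), (0 : ℝ)) + ((0 : ℝ), v.2) := by
      ext <;> simp
    conv_lhs => rw [this]
    rw [map_add, map_smul, smul_eq_mul]
  let F : E →L[ℝ] E :=
    ((ContinuousLinearMap.fst ℝ ℝ (ℝ × ℝ)) + D).prod (ContinuousLinearMap.snd ℝ ℝ (ℝ × ℝ))
  let P : E →L[ℝ] ℝ := D.comp ((ContinuousLinearMap.inr ℝ ℝ (ℝ × ℝ)).comp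
    (ContinuousLinearMap.snd ℝ ℝ (ℝ × ℝ)))
  let G : E →L[ℝ] E :=
    ((1 + d)⁻¹ • ((ContinuousLinearMap.fst ℝ ℝ (ℝ × ℝ)) - P)).prod
      (ContinuousLinearMap.snd ℝ ℝ (ℝ × ℝ))
  have hF : ∀ v : E, F v = (v.1 + D v, v.2) := fun v => rfl
  have hG : ∀ v : E, G v = ((1 + d)⁻¹ * (v.1 - D (0, v.2)), v.2) := fun v => rfl
  refine ⟨ContinuousLinearEquiv.equivOfInverse F G ?_ ?_, ?_⟩
  · intro v
    rw [hF, hG, hsplit v]
    ext
    · simp only []
      field_simp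
      ring
    · rfl
    · rfl
  · intro v
    rw [hG, hF, hsplit ((1 + d)⁻¹ * (v.1 - D (0, v.2)), v.2)]
    ext
    · simp only []
      field_simp
      ring
    · rfl
    · rfl
  · intro v
    exact hF v

/-- the wind step -/
theorem good_wind {wd : E → ℝ} (hs : ContDiff ℝ (⊤ : ℕ∞) wd) (hl : LipschitzWith (1 / 2) wd) :
    Good (fun p : E => (p.1 + wd p, p.2.1, p.2.2)) := by
  set f : E → E := fun p : E => (p.1 + wd p, p.2.1, p.2.2) with hf
  have hfs : ContDiff ℝ (⊤ : ℕ∞) f := by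
    rw [hf]; fun_prop
  have hA : ApproximatesLinearOn f ((ContinuousLinearEquiv.refl ℝ E : E ≃L[ℝ] E) : E →L[ℝ] E)
      univ (1 / 2) := by
    intro x _ y _
    have : f x - f y - ((ContinuousLinearEquiv.refl ℝ E : E ≃L[ℝ] E) : E →L[ℝ] E) (x - y) =
        (wd x - wd y, 0, 0) := by
      rw [hf]
      ext
      · simp; ring
      · simp
      · simp
    rw [this]
    have h1 : ‖((wd x - wd y, (0 : ℝ), (0 : ℝ)) : E)‖ = ‖wd x - wd y‖ := by
      rw [Prod.norm_def, Prod.norm_def]; simp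
    rw [h1]
    exact hl.norm_sub_le x y
  have hN : ‖(((ContinuousLinearEquiv.refl ℝ E : E ≃L[ℝ] E).symm : E ≃L[ℝ] E) : E →L[ℝ] E)‖₊ = 1 := by
    have : ((((ContinuousLinearEquiv.refl ℝ E : E ≃L[ℝ] E).symm : E ≃L[ℝ] E)) : E →L[ℝ] E) =
        ContinuousLinearMap.id ℝ E := rfl
    rw [this]
    apply NNReal.coe_injective
    rw [coe_nnnorm]
    exact ContinuousLinearMap.norm_id
  have hc : Subsingleton E ∨ (1 / 2 : ℝ≥0) <
      ‖(((ContinuousLinearEquiv.refl ℝ E : E ≃L[ℝ] E).symm : E ≃L[ℝ] E) : E →L[ℝ] E)‖₊⁻¹ := by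
    right
    rw [hN, inv_one]
    rw [div_lt_one (by norm_num)]
    norm_num
  let H : E ≃ₜ E := hA.toHomeomorph f hc
  have hH : ⇑H = f := rfl
  have hD : ∀ a : E, ∃ e : E ≃L[ℝ] E, HasFDerivAt f (e : E →L[ℝ] E) a := by
    intro a
    have hwd : HasFDerivAt wd (fderiv ℝ wd a) a :=
      (hs.differentiable (by simp)).differentiableAt.hasFDerivAt
    have hn : ‖fderiv ℝ wd a‖ ≤ 1 / 2 := by
      have := norm_fderiv_le_of_lipschitz ℝ hl (x₀ := a)
      simpa using this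
    obtain ⟨e, he⟩ := exists_equiv (fderiv ℝ wd a) hn
    refine ⟨e, ?_⟩
    have h1 : HasFDerivAt f (((ContinuousLinearMap.fst ℝ ℝ (ℝ × ℝ)) + fderiv ℝ wd a).prod
        (ContinuousLinearMap.snd ℝ ℝ (ℝ × ℝ))) a := by
      exact (hasFDerivAt_fst.add hwd).prodMk hasFDerivAt_snd
    have h2 : (e : E →L[ℝ] E) = (((ContinuousLinearMap.fst ℝ ℝ (ℝ × ℝ)) + fderiv ℝ wd a).prod
        (ContinuousLinearMap.snd ℝ ℝ (ℝ × ℝ))) := by
      apply ContinuousLinearMap.ext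
      intro v
      exact he v
    rw [h2]
    exact h1
  choose e he using hD
  refine ⟨H, hfs, ?_, hH⟩
  exact Homeomorph.contDiff_symm H (f₀' := e) he hfs

end A2aAux

open A2aAux

variable {θ : ℝ} {ω : E → ℝ}

/-- Module A2c -/
theorem homeo_of_atoms {θ : ℝ} {ω : E → ℝ} (A : Atoms θ ω) :
    ∃ f : E ≃ₜ E, ContDiff ℝ (⊤ : ℕ∞) f ∧ ContDiff ℝ (⊤ : ℕ∞) f.symm ∧ ⇑f = theMap A := by
  have ha1 := A.a1_smooth
  have hwd := A.wd_smooth
  have hpn := A.pn_smooth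
  have hal := A.al_smooth
  have hb1 := A.b1_smooth
  have ha4 := A.a4_smooth
  have ha5 := A.a5_smooth
  have ha2 := A.a2_smooth
  have hb2 := A.b2_smooth
  have hb3 := A.b3_smooth
  have ha3 := A.a3_smooth
  have hψ := ψ_contDiff
  have hpn' : ContDiff ℝ (⊤ : ℕ∞) (fun p : E => A.pn p.1 p.2.2) :=
    hpn.comp (f := fun p : E => (p.1, p.2.2)) (by fun_prop)
  have hal' : ContDiff ℝ (⊤ : ℕ∞) (fun p : E => A.al p.1 p.2.1) :=
    hal.comp (f := fun p : E => (p.1, p.2.1)) (by fun_prop)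
  have g1 : Good (step1 A) := by
    refine good_of_inv (g := fun p => (p.1 - A.a1 p.2.1, p.2.1, p.2.2)) ?_ ?_ ?_ ?_
    · unfold step1; fun_prop
    · fun_prop
    · intro p; simp [step1]
    · intro p; simp [step1]
  have g2 : Good (step2 A) := good_wind hwd A.wd_lip
  have g3 : Good (step3 A) := by
    refine good_of_inv (g := fun p => (p.1, p.2.1 - A.pn p.1 p.2.2, p.2.2)) ?_ ?_ ?_ ?_
    · unfold step3; fun_prop
    · fun_prop
    · intro p; simp [step3]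
    · intro p; simp [step3]
  have g4 : Good (step4 A) := by
    refine good_of_inv (g := fun p => (p.1, p.2.1, p.2.2 -
      ((1 - ψ (p.1 / 5)) * (4 * (1 - A.al p.1 p.2.1)) + A.b1 p.1
        + ψ (p.1 / 10) * (4 * (A.a4 p.2.1 + A.a5 p.2.1))))) ?_ ?_ ?_ ?_
    · unfold step4; fun_prop
    · fun_prop
    · intro p; simp [step4]
    · intro p; simp [step4]
  have gL : Good (stepL A) := by
    refine good_of_inv (g := fun p => (p.1, p.2.1 - A.b2 p.1, p.2.2)) ?_ ?_ ?_ ?_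
    · unfold stepL; fun_prop
    · fun_prop
    · intro p; simp [stepL]
    · intro p; simp [stepL]
  have gU : Good (stepU A) := by
    refine good_of_inv (g := fun p => (p.1 + A.a2 p.2.1, p.2.1, p.2.2)) ?_ ?_ ?_ ?_
    · unfold stepU; fun_prop
    · fun_prop
    · intro p; simp [stepU]
    · intro p; simp [stepU]
  have g9 : Good (step9 A) := by
    refine good_of_inv (g := fun p => (p.1, p.2.1 - (1 + A.b3 p.1), p.2.2)) ?_ ?_ ?_ ?_
    · unfold step9; fun_prop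
    · fun_prop
    · intro p; simp [step9]
    · intro p; simp [step9]
  have g10 : Good (step10 A) := by
    refine good_of_inv (g := fun p => (p.1 + A.a3 p.2.1, p.2.1, p.2.2)) ?_ ?_ ?_ ?_
    · unfold step10; fun_prop
    · fun_prop
    · intro p; simp [step10]
    · intro p; simp [step10]
  have hall : Good (fun p => step10 A (step9 A (stepU A (stepL A (stepU A (stepL A (step4 A
      (step3 A (step2 A (step1 A p)))))))))) :=
    g10.comp (g9.comp (gU.comp (gL.comp (gU.comp (gL.comp (g4.comp (g3.comp (g2.comp g1))))))))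
  exact hall

end Pool.Agent.H718R2
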