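import Pool.Agent.H718R2.Defs2
import Pool.Agent.H718R2.Atoms

/-!
# Module A2b: existence of the atoms
-/

namespace Pool.Agent.H718R2

namespace A2bAux

open Set Filter Topology

/-- index set of gates -/
abbrev I := ℕ × Fin 8

/-- gluing functions with separated supports -/
theorem glue {V : Type*} [NormedAddCommGroup V] [NormedSpace ℝ V] (u : V → ℝ)
    (hu : Continuous u) (c ρ : I → ℝ) (hc : ∀ i : I, (i.1 : ℝ) - 2 ≤ |c i|)
    (hρ : ∀ i, ρ i ≤ 20) (hsep : ∀ i j, i ≠ j → ρ i + ρ j ≤ |c i - c j|)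
    (F : I → V → ℝ) (hF : ∀ i, ContDiff ℝ (⊤ : ℕ∞) (F i))
    (hsupp : ∀ i p, ρ i ≤ |u p - c i| → F i p = 0) :
    ∃ f : V → ℝ, ContDiff ℝ (⊤ : ℕ∞) f ∧ (∀ i p, |u p - c i| ≤ ρ i → f p = F i p) ∧
      (∀ p, (∀ i, ρ i ≤ |u p - c i|) → f p = 0) := by
  refine ⟨fun p => ∑ᶠ i, F i p, ?_, ?_, ?_⟩
  · rw [contDiff_iff_contDiffAt]
    intro p0
    obtain ⟨N, hN⟩ := exists_nat_gt (|u p0| + 24)
    have hev : (fun p => ∑ᶠ i, F i p) =ᶠ[𝓝 p0]
        fun p => ∑ i ∈ (Finset.range N ×ˢ (Finset.univ : Finset (Fin 8))), F i p := by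
      have hopen : ∀ᶠ p in 𝓝 p0, |u p - u p0| < 1 := by
        have h1 : Tendsto u (𝓝 p0) (𝓝 (u p0)) := hu.tendsto p0
        have h2 := h1.eventually (Metric.ball_mem_nhds (u p0) one_pos)
        filter_upwards [h2] with p hp
        rwa [Real.dist_eq] at hp
      filter_upwards [hopen] with p hp
      apply finsum_eq_sum_of_support_subset
      intro i hi
      rw [Function.mem_support] at hi
      have hlt : |u p - c i| < ρ i := by
        by_contra hcon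
        exact hi (hsupp i p (not_lt.mp hcon))
      have h3 := hρ i
      have h4 := hc i
      have h5 : |c i| ≤ |u p0| + 21 := by
        have e1 : |c i| ≤ |u p - c i| + |u p - u p0| + |u p0| := by
          have e2 : c i = -(u p - c i) + (u p - u p0) + u p0 := by ring
          calc |c i| = |-(u p - c i) + (u p - u p0) + u p0| := by rw [← e2]
            _ ≤ |-(u p - c i) + (u p - u p0)| + |u p0| := abs_add_le _ _
            _ ≤ |-(u p - c i)| + |u p - u p0| + |u p0| := by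
                have := abs_add_le (-(u p - c i)) (u p - u p0)
                linarith
            _ = |u p - c i| + |u p - u p0| + |u p0| := by rw [abs_neg]
        linarith
      have h6 : (i.1 : ℝ) < N := by linarith
      have h7 : i.1 < N := by exact_mod_cast h6
      simp [h7]
    refine ContDiffAt.congr_of_eventuallyEq ?_ hev
    apply ContDiff.contDiffAt
    exact ContDiff.sum fun i _ => hF i
  · intro i p hp
    show ∑ᶠ j, F j p = F i p
    apply finsum_eq_single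
    intro j hj
    apply hsupp
    have h1 := hsep i j (Ne.symm hj)
    have h2 : |c i - c j| ≤ |u p - c i| + |u p - c j| := by
      have e : c i - c j = -(u p - c i) + (u p - c j) := by ring
      calc |c i - c j| = |-(u p - c i) + (u p - c j)| := by rw [← e]
        _ ≤ |-(u p - c i)| + |u p - c j| := abs_add_le _ _
        _ = |u p - c i| + |u p - c j| := by rw [abs_neg]
    linarith
  · intro p hp
    show ∑ᶠ j, F j p = 0
    apply finsum_eq_zero_of_forall_eq_zero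
    intro j
    exact hsupp j p (hp j)

/-! ### the centers -/

theorem r_pos {θ : ℝ} (hθ : 0 < θ) (m : ℕ) : 0 < r θ m := pow_pos hθ _

theorem r_le {θ : ℝ} (hθ : 0 < θ) (hθ' : θ ≤ 1 / 10 ^ 24) (m : ℕ) : r θ m ≤ θ := by
  unfold r
  have h1 : θ ≤ 1 := hθ'.trans (by norm_num)
  calc θ ^ (m + 1) ≤ θ ^ 1 := pow_le_pow_of_le_one hθ.le h1 (by omega)
    _ = θ := pow_one θ

theorem r_small {θ : ℝ} (hθ : 0 < θ) (hθ' : θ ≤ 1 / 10 ^ 24) (m : ℕ) : r θ m ≤ 1 / 1000 :=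
  (r_le hθ hθ' m).trans (hθ'.trans (by norm_num))

theorem uy_nonneg {θ : ℝ} (hθ : 0 < θ) (m : ℕ) : 0 ≤ uy θ m := by
  unfold uy
  have : 0 ≤ ∑ k ∈ Finset.range m, r θ k := Finset.sum_nonneg fun k _ => (r_pos hθ k).le
  linarith

theorem uy_le {θ : ℝ} (hθ : 0 < θ) (hθ' : θ ≤ 1 / 10 ^ 24) (m : ℕ) : uy θ m ≤ 1 / 100 := by
  unfold uy
  have hθ1 : θ ≤ 1 / 1000 := hθ'.trans (by norm_num)
  have key : ∀ m : ℕ, ∑ k ∈ Finset.range m, r θ k ≤ 2 * θ * (1 - θ ^ m) := by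
    intro m
    induction m with
    | zero => simp
    | succ n ih =>
      rw [Finset.sum_range_succ]
      have h2 : r θ n = θ * θ ^ n := by unfold r; ring
      have h3 : 0 < θ ^ n := pow_pos hθ n
      have h4 : θ ^ (n + 1) = θ * θ ^ n := by ring
      rw [h2, h4]
      nlinarith [mul_pos hθ h3, mul_pos hθ (mul_pos hθ h3)]
  have h5 := key m
  have h6 : 0 < θ ^ m := pow_pos hθ m
  nlinarith [mul_pos hθ h6]

theorem q_sep : ∀ l l' : Fin 8, l ≠ l' → 1 ≤ |(q l).2.1 - (q l').2.1| := by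
  intro l l' h
  fin_cases l <;> fin_cases l' <;>
    first
    | exact absurd rfl h
    | (simp only [q]; norm_num)

theorem q_bd : ∀ l : ℕ, |(q l).2.1| ≤ 4 := by
  intro l
  rcases l with _ | _ | _ | _ | _ | _ | _ | l <;> simp only [q] <;> norm_num

theorem q_bdx : ∀ l : ℕ, 0 ≤ (q l).1 ∧ (q l).1 ≤ 1 := by
  intro l
  rcases l with _ | _ | _ | _ | _ | _ | _ | l <;> simp only [q] <;> norm_num

theorem X_sep (i j : I) (h : i ≠ j) : (20 : ℝ) + 20 ≤ |X i.1 i.2 - X j.1 j.2| := by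
  obtain ⟨m, l⟩ := i
  obtain ⟨m', l'⟩ := j
  have h1 : (8 * (m : ℤ) + (l : ℕ) + 1) ≠ (8 * (m' : ℤ) + (l' : ℕ) + 1) := by
    intro hcon
    apply h
    have hl := l.isLt
    have hl' := l'.isLt
    have e1 : m = m' := by omega
    have e2 : (l : ℕ) = l' := by omega
    rw [e1]
    congr 1
    exact Fin.ext e2
  have h2 : (1 : ℤ) ≤ |(8 * (m : ℤ) + (l : ℕ) + 1) - (8 * (m' : ℤ) + (l' : ℕ) + 1)| := by
    apply Int.one_le_abs
    omega
  have h3 : (1 : ℝ) ≤ |(8 * (m : ℝ) + (l : ℕ) + 1) - (8 * (m' : ℝ) + (l' : ℕ) + 1)| := by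
    exact_mod_cast h2
  have h4 : X m l - X m' l' = 100 * ((8 * (m : ℝ) + (l : ℕ) + 1) - (8 * (m' : ℝ) + (l' : ℕ) + 1)) := by
    unfold X; ring
  show (20 : ℝ) + 20 ≤ |X m l - X m' l'|
  rw [h4, abs_mul, abs_of_pos (by norm_num : (0 : ℝ) < 100)]
  linarith

theorem X_big (i : I) : (i.1 : ℝ) - 2 ≤ |X i.1 i.2| := by
  have h0 : (0 : ℝ) ≤ (i.1 : ℝ) := Nat.cast_nonneg _
  have h1 : (0 : ℝ) ≤ ((i.2 : ℕ) : ℝ) := Nat.cast_nonneg _
  have h2 : X i.1 i.2 = 100 * (8 * (i.1 : ℝ) + (i.2 : ℕ) + 1) := rfl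
  have h3 : 0 ≤ X i.1 i.2 := by rw [h2]; positivity
  rw [abs_of_nonneg h3, h2]
  linarith

theorem gs_sep {θ : ℝ} (hθ : 0 < θ) (hθ' : θ ≤ 1 / 10 ^ 24) (i j : I) (h : i ≠ j) :
    r θ i.1 / 25 + r θ j.1 / 25 ≤ |gs θ i.1 i.2 - gs θ j.1 j.2| := by
  obtain ⟨m, l⟩ := i
  obtain ⟨m', l'⟩ := j
  show r θ m / 25 + r θ m' / 25 ≤ |gs θ m l - gs θ m' l'|
  by_cases hm : m = m'
  · subst hm
    have hl : l ≠ l' := fun hcon => h (by rw [hcon])
    have h1 := q_sep l l' hl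
    have h2 : gs θ m l - gs θ m l' = r θ m * ((q l).2.1 - (q l').2.1) := by unfold gs; ring
    rw [h2, abs_mul, abs_of_pos (r_pos hθ m)]
    nlinarith [r_pos hθ m]
  · have hr := r_small hθ hθ' m
    have hr' := r_small hθ hθ' m'
    have hrp := r_pos hθ m
    have hrp' := r_pos hθ m'
    have hb1 := abs_le.mp (q_bd l)
    have hb2 := abs_le.mp (q_bd l')
    have hu1 := uy_nonneg hθ m
    have hu2 := uy_nonneg hθ m'
    have hu3 := uy_le hθ hθ' m
    have hu4 := uy_le hθ hθ' m'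
    have e1 : r θ m * (q l).2.1 ≤ 1 / 100 := by nlinarith
    have e2 : -(1 / 100) ≤ r θ m * (q l).2.1 := by nlinarith
    have e3 : r θ m' * (q l').2.1 ≤ 1 / 100 := by nlinarith
    have e4 : -(1 / 100) ≤ r θ m' * (q l').2.1 := by nlinarith
    rcases Nat.lt_or_gt_of_ne hm with hlt | hgt
    · have h5 : (m : ℝ) + 1 ≤ m' := by exact_mod_cast hlt
      rw [abs_sub_comm]
      apply le_trans _ (le_abs_self _)
      unfold gs
      linarith
    · have h5 : (m' : ℝ) + 1 ≤ m := by exact_mod_cast hgt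
      apply le_trans _ (le_abs_self _)
      unfold gs
      linarith

theorem gs_big {θ : ℝ} (hθ : 0 < θ) (hθ' : θ ≤ 1 / 10 ^ 24) (i : I) :
    (i.1 : ℝ) - 2 ≤ |gs θ i.1 i.2| := by
  obtain ⟨m, l⟩ := i
  show (m : ℝ) - 2 ≤ |gs θ m l|
  have hr := r_small hθ hθ' m
  have hrp := r_pos hθ m
  have hb1 := abs_le.mp (q_bd l)
  have hu1 := uy_nonneg hθ m
  have e2 : -(1 / 100) ≤ r θ m * (q l).2.1 := by nlinarith
  apply le_trans _ (le_abs_self _)
  unfold gs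
  linarith

theorem ts_lt {θ : ℝ} {m l : ℕ} (h : l < 7) : ts θ m l = r θ m * (q (l + 1)).2.1 - m := by
  unfold ts tgt
  rw [if_pos h]
  simp [D]

theorem ts_seven {θ : ℝ} {m l : ℕ} (h : ¬ l < 7) : ts θ m l = (m + 1 + 1) + uy θ (m + 1) := by
  unfold ts tgt
  rw [if_neg h]
  simp [U]

theorem ts_sep {θ : ℝ} (hθ : 0 < θ) (hθ' : θ ≤ 1 / 10 ^ 24) (i j : I) (h : i ≠ j) :
    r θ i.1 / 25 + r θ j.1 / 25 ≤ |ts θ i.1 i.2 - ts θ j.1 j.2| := by
  obtain ⟨m, l⟩ := i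
  obtain ⟨m', l'⟩ := j
  show r θ m / 25 + r θ m' / 25 ≤ |ts θ m l - ts θ m' l'|
  have hr := r_small hθ hθ' m
  have hr' := r_small hθ hθ' m'
  have hrp := r_pos hθ m
  have hrp' := r_pos hθ m'
  have hb1 := abs_le.mp (q_bd (l + 1))
  have hb2 := abs_le.mp (q_bd (l' + 1))
  have hu1 := uy_nonneg hθ (m + 1)
  have hu2 := uy_nonneg hθ (m' + 1)
  have hu3 := uy_le hθ hθ' (m + 1)
  have hu4 := uy_le hθ hθ' (m' + 1)
  have e1 : r θ m * (q (l + 1)).2.1 ≤ 1 / 100 := by nlinarith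
  have e2 : -(1 / 100) ≤ r θ m * (q (l + 1)).2.1 := by nlinarith
  have e3 : r θ m' * (q (l' + 1)).2.1 ≤ 1 / 100 := by nlinarith
  have e4 : -(1 / 100) ≤ r θ m' * (q (l' + 1)).2.1 := by nlinarith
  have hm0 : (0 : ℝ) ≤ m := Nat.cast_nonneg _
  have hm0' : (0 : ℝ) ≤ m' := Nat.cast_nonneg _
  by_cases hl : (l : ℕ) < 7 <;> by_cases hl' : (l' : ℕ) < 7
  · rw [ts_lt hl, ts_lt hl']
    by_cases hm : m = m'
    · subst hm
      have hll : (⟨l + 1, by omega⟩ : Fin 8) ≠ ⟨l' + 1, by omega⟩ := by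
        intro hcon
        apply h
        have : (l : ℕ) = l' := by simpa using hcon
        rw [Fin.ext this]
      have h1 := q_sep _ _ hll
      have h2 : r θ m * (q (l + 1)).2.1 - m - (r θ m * (q (l' + 1)).2.1 - m)
          = r θ m * ((q (l + 1)).2.1 - (q (l' + 1)).2.1) := by ring
      rw [h2, abs_mul, abs_of_pos (r_pos hθ m)]
      have h3 : 1 ≤ |(q (l + 1)).2.1 - (q (l' + 1)).2.1| := h1
      nlinarith [r_pos hθ m]
    · rcases Nat.lt_or_gt_of_ne hm with hlt | hgt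
      · have h5 : (m : ℝ) + 1 ≤ m' := by exact_mod_cast hlt
        apply le_trans _ (le_abs_self _)
        linarith
      · have h5 : (m' : ℝ) + 1 ≤ m := by exact_mod_cast hgt
        rw [abs_sub_comm]
        apply le_trans _ (le_abs_self _)
        linarith
  · rw [ts_lt hl, ts_seven hl']
    rw [abs_sub_comm]
    apply le_trans _ (le_abs_self _)
    linarith
  · rw [ts_seven hl, ts_lt hl']
    apply le_trans _ (le_abs_self _)
    linarith
  · rw [ts_seven hl, ts_seven hl']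
    have hm : m ≠ m' := by
      intro hcon
      apply h
      rw [hcon]
      have h1 := l.isLt
      have h2 := l'.isLt
      have : (l : ℕ) = l' := by omega
      rw [Fin.ext this]
    rcases Nat.lt_or_gt_of_ne hm with hlt | hgt
    · have h5 : (m : ℝ) + 1 ≤ m' := by exact_mod_cast hlt
      rw [abs_sub_comm]
      apply le_trans _ (le_abs_self _)
      linarith
    · have h5 : (m' : ℝ) + 1 ≤ m := by exact_mod_cast hgt
      apply le_trans _ (le_abs_self _)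
      linarith

theorem ts_big {θ : ℝ} (hθ : 0 < θ) (hθ' : θ ≤ 1 / 10 ^ 24) (i : I) :
    (i.1 : ℝ) - 2 ≤ |ts θ i.1 i.2| := by
  obtain ⟨m, l⟩ := i
  show (m : ℝ) - 2 ≤ |ts θ m l|
  have hr := r_small hθ hθ' m
  have hrp := r_pos hθ m
  have hb1 := abs_le.mp (q_bd (l + 1))
  have hu1 := uy_nonneg hθ (m + 1)
  have e1 : r θ m * (q (l + 1)).2.1 ≤ 1 / 100 := by nlinarith
  by_cases hl : (l : ℕ) < 7
  · rw [ts_lt hl]
    have : -(r θ m * (q (l + 1)).2.1 - m) ≤ |r θ m * (q (l + 1)).2.1 - m| := neg_le_abs _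
    linarith
  · rw [ts_seven hl]
    apply le_trans _ (le_abs_self _)
    linarith

/-- scaled cut-offs vanish -/
theorem ψ_zero' {t a b : ℝ} (ha : 0 < a) (h : 2 * a ≤ |t|) (hb : b = a) : ψ (t / b) = 0 := by
  subst hb
  apply ψ_zero
  rw [abs_div, abs_of_pos ha, le_div_iff₀ ha]
  exact h

theorem ψ_one' {t a b : ℝ} (ha : 0 < a) (h : |t| ≤ a) (hb : b = a) : ψ (t / b) = 1 := by
  subst hb
  apply ψ_one
  rw [abs_div, abs_of_pos ha, div_le_one ha]
  exact h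


/-- product of three bounded Lipschitz quantities -/
theorem prod3 {a a' b b' c c' A B C' : ℝ} (ha : |a - a'| ≤ A) (hb : |a' * (b - b')| ≤ B)
    (hc : |a' * (c - c')| ≤ C') (hb0 : |b| ≤ 1) (hc0 : |c| ≤ 1) (hb1 : |b'| ≤ 1) :
    |a * b * c - a' * b' * c'| ≤ A + B + C' := by
  have e : a * b * c - a' * b' * c' = (a - a') * (b * c) + (a' * (b - b')) * c
      + b' * (a' * (c - c')) := by ring
  have h0 : 0 ≤ |b| := abs_nonneg _
  have h1 : 0 ≤ |c| := abs_nonneg _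
  have h2 : 0 ≤ |b'| := abs_nonneg _
  have hbc : |b * c| ≤ 1 := by
    rw [abs_mul]; exact mul_le_one₀ hb0 h1 hc0
  have t1 : |(a - a') * (b * c)| ≤ A := by
    rw [abs_mul]
    calc |a - a'| * |b * c| ≤ |a - a'| * 1 := mul_le_mul_of_nonneg_left hbc (abs_nonneg _)
      _ ≤ A := by rw [mul_one]; exact ha
  have t2 : |(a' * (b - b')) * c| ≤ B := by
    rw [abs_mul]
    calc |a' * (b - b')| * |c| ≤ |a' * (b - b')| * 1 :=
          mul_le_mul_of_nonneg_left hc0 (abs_nonneg _)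
      _ ≤ B := by rw [mul_one]; exact hb
  have t3 : |b' * (a' * (c - c'))| ≤ C' := by
    rw [abs_mul]
    calc |b'| * |a' * (c - c')| ≤ 1 * |a' * (c - c')| :=
          mul_le_mul_of_nonneg_right hb1 (abs_nonneg _)
      _ ≤ C' := by rw [one_mul]; exact hc
  rw [e]
  calc |(a - a') * (b * c) + (a' * (b - b')) * c + b' * (a' * (c - c'))|
      ≤ |(a - a') * (b * c) + (a' * (b - b')) * c| + |b' * (a' * (c - c'))| := abs_add_le _ _
    _ ≤ |(a - a') * (b * c)| + |(a' * (b - b')) * c| + |b' * (a' * (c - c'))| := by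
        have := abs_add_le ((a - a') * (b * c)) ((a' * (b - b')) * c)
        linarith
    _ ≤ A + B + C' := by linarith

/-- one wind term -/
noncomputable def wt (θ : ℝ) (ω : E → ℝ) (i : I) (p : E) : ℝ :=
  sg i.2 * r θ i.1 * ω ((p.1 - X i.1 i.2 - gx θ i.1 i.2) / r θ i.1,
    (p.2.1 - gs θ i.1 i.2) / r θ i.1, (p.2.2 - gξ θ i.1 i.2) / r θ i.1) *
    ψ ((p.1 - X i.1 i.2) / 10) * ψ ((p.2.1 - gs θ i.1 i.2) / (r θ i.1 / 100))

theorem sg_abs (l : ℕ) : |sg l| = 1 := by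
  rcases l with _ | _ | _ | _ | _ | _ | _ | l <;> simp only [sg] <;> norm_num

theorem abs_ψ_le (t : ℝ) : |ψ t| ≤ 1 := by
  rw [abs_of_nonneg (ψ_nonneg t)]; exact ψ_le_one t

theorem E_fst_le (p p' : E) : |p.1 - p'.1| ≤ ‖p - p'‖ := by
  have := norm_fst_le (p - p')
  simpa using this

theorem E_snd1_le (p p' : E) : |p.2.1 - p'.2.1| ≤ ‖p - p'‖ := by
  have h1 := norm_snd_le (p - p')
  have h2 := norm_fst_le (p - p').2
  have h3 := h2.trans h1
  simpa using h3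

theorem E_snd2_le (p p' : E) : |p.2.2 - p'.2.2| ≤ ‖p - p'‖ := by
  have h1 := norm_snd_le (p - p')
  have h2 := norm_snd_le (p - p').2
  have h3 := h2.trans h1
  simpa using h3

theorem wt_lip {θ : ℝ} (hθ : 0 < θ) (hθ' : θ ≤ 1 / 10 ^ 24) {ω : E → ℝ}
    (h0 : ∀ z, 0 ≤ ω z)
    (hl : LipschitzWith (1 / 10 ^ 10) ω) {C : NNReal} (hC : LipschitzWith C ψ)
    (hC' : ∀ z, C * ω z ≤ 1 / 10 ^ 11) (i : I) (p p' : E) :
    |wt θ ω i p - wt θ ω i p'| ≤ 1 / 4 * ‖p - p'‖ := by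
  have hr := r_pos hθ i.1
  have hr1 := r_small hθ hθ' i.1
  set d := ‖p - p'‖ with hd
  have hd0 : 0 ≤ d := norm_nonneg _
  set z : E := ((p.1 - X i.1 i.2 - gx θ i.1 i.2) / r θ i.1,
    (p.2.1 - gs θ i.1 i.2) / r θ i.1, (p.2.2 - gξ θ i.1 i.2) / r θ i.1) with hz
  set z' : E := ((p'.1 - X i.1 i.2 - gx θ i.1 i.2) / r θ i.1,
    (p'.2.1 - gs θ i.1 i.2) / r θ i.1, (p'.2.2 - gξ θ i.1 i.2) / r θ i.1) with hz'
  have hzz : ‖z - z'‖ ≤ d / r θ i.1 := by
    have e : z - z' = ((p.1 - p'.1) / r θ i.1, (p.2.1 - p'.2.1) / r θ i.1,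
        (p.2.2 - p'.2.2) / r θ i.1) := by
      rw [hz, hz']
      simp only [Prod.mk_sub_mk]
      ext <;> simp <;> ring
    rw [e, Prod.norm_def, Prod.norm_def]
    simp only [Real.norm_eq_abs, abs_div, abs_of_pos hr]
    have h1 := E_fst_le p p'
    have h2 := E_snd1_le p p'
    have h3 := E_snd2_le p p'
    refine max_le ?_ (max_le ?_ ?_) <;> gcongr
  have hωd : |ω z - ω z'| ≤ 1 / 10 ^ 10 * (d / r θ i.1) := by
    have h1 := hl.dist_le_mul z z'
    rw [Real.dist_eq, dist_eq_norm] at h1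
    have h2 : ((1 / 10 ^ 10 : NNReal) : ℝ) = 1 / 10 ^ 10 := by norm_num
    rw [h2] at h1
    refine h1.trans ?_
    gcongr
  have hψ : ∀ t t' : ℝ, |ψ t - ψ t'| ≤ C * |t - t'| := by
    intro t t'
    have h1 := hC.dist_le_mul t t'
    rwa [Real.dist_eq, Real.dist_eq] at h1
  have hCω : C * ω z' ≤ 1 / 10 ^ 11 := hC' z'
  have hC0 : (0 : ℝ) ≤ C := C.2
  have hsg := sg_abs i.2
  have key := prod3 (a := sg i.2 * r θ i.1 * ω z) (a' := sg i.2 * r θ i.1 * ω z')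
    (b := ψ ((p.1 - X i.1 i.2) / 10)) (b' := ψ ((p'.1 - X i.1 i.2) / 10))
    (c := ψ ((p.2.1 - gs θ i.1 i.2) / (r θ i.1 / 100)))
    (c' := ψ ((p'.2.1 - gs θ i.1 i.2) / (r θ i.1 / 100)))
    (A := 1 / 10 ^ 10 * d) (B := 1 / 10 ^ 11 * d) (C' := 1 / 10 ^ 9 * d) ?_ ?_ ?_
    (abs_ψ_le _) (abs_ψ_le _) (abs_ψ_le _)
  · show |sg i.2 * r θ i.1 * ω z * ψ ((p.1 - X i.1 i.2) / 10)
        * ψ ((p.2.1 - gs θ i.1 i.2) / (r θ i.1 / 100)) -
        sg i.2 * r θ i.1 * ω z' * ψ ((p'.1 - X i.1 i.2) / 10)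
        * ψ ((p'.2.1 - gs θ i.1 i.2) / (r θ i.1 / 100))| ≤ 1 / 4 * d
    refine key.trans ?_
    nlinarith
  · rw [← mul_sub, abs_mul, abs_mul, hsg, one_mul, abs_of_pos hr]
    calc r θ i.1 * |ω z - ω z'| ≤ r θ i.1 * (1 / 10 ^ 10 * (d / r θ i.1)) :=
          mul_le_mul_of_nonneg_left hωd hr.le
      _ = 1 / 10 ^ 10 * d := by field_simp
  · rw [abs_mul, abs_mul, abs_mul, hsg, one_mul, abs_of_pos hr, abs_of_nonneg (h0 z')]
    have h1 := hψ ((p.1 - X i.1 i.2) / 10) ((p'.1 - X i.1 i.2) / 10)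
    have h2 : |(p.1 - X i.1 i.2) / 10 - (p'.1 - X i.1 i.2) / 10| ≤ d := by
      have e : (p.1 - X i.1 i.2) / 10 - (p'.1 - X i.1 i.2) / 10 = (p.1 - p'.1) / 10 := by ring
      rw [e, abs_div, abs_of_pos (by norm_num : (0 : ℝ) < 10)]
      have := E_fst_le p p'
      linarith
    have h3 : |ψ ((p.1 - X i.1 i.2) / 10) - ψ ((p'.1 - X i.1 i.2) / 10)| ≤ C * d :=
      h1.trans (mul_le_mul_of_nonneg_left h2 hC0)
    have h4 : 0 ≤ ω z' := h0 z'
    calc r θ i.1 * ω z' * |ψ ((p.1 - X i.1 i.2) / 10) - ψ ((p'.1 - X i.1 i.2) / 10)|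
        ≤ r θ i.1 * ω z' * (C * d) := mul_le_mul_of_nonneg_left h3 (by positivity)
      _ = r θ i.1 * ((C * ω z') * d) := by ring
      _ ≤ 1 * ((1 / 10 ^ 11) * d) := by
          apply mul_le_mul (hr1.trans (by norm_num)) _ (by positivity) (by norm_num)
          exact mul_le_mul_of_nonneg_right hCω hd0
      _ = 1 / 10 ^ 11 * d := by ring
  · rw [abs_mul, abs_mul, abs_mul, hsg, one_mul, abs_of_pos hr, abs_of_nonneg (h0 z')]
    have h1 := hψ ((p.2.1 - gs θ i.1 i.2) / (r θ i.1 / 100))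
      ((p'.2.1 - gs θ i.1 i.2) / (r θ i.1 / 100))
    have h2 : |(p.2.1 - gs θ i.1 i.2) / (r θ i.1 / 100) -
        (p'.2.1 - gs θ i.1 i.2) / (r θ i.1 / 100)| ≤ 100 * d / r θ i.1 := by
      have e : (p.2.1 - gs θ i.1 i.2) / (r θ i.1 / 100) -
          (p'.2.1 - gs θ i.1 i.2) / (r θ i.1 / 100) = 100 * (p.2.1 - p'.2.1) / r θ i.1 := by
        field_simp
        ring
      rw [e, abs_div, abs_mul, abs_of_pos hr, abs_of_pos (by norm_num : (0 : ℝ) < 100)]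
      have := E_snd1_le p p'
      gcongr
    have h3 := h1.trans (mul_le_mul_of_nonneg_left h2 hC0)
    have h4 : 0 ≤ ω z' := h0 z'
    calc r θ i.1 * ω z' * |ψ ((p.2.1 - gs θ i.1 i.2) / (r θ i.1 / 100)) -
          ψ ((p'.2.1 - gs θ i.1 i.2) / (r θ i.1 / 100))|
        ≤ r θ i.1 * ω z' * (C * (100 * d / r θ i.1)) :=
          mul_le_mul_of_nonneg_left h3 (by positivity)
      _ = (C * ω z') * (100 * d) := by field_simp
      _ ≤ (1 / 10 ^ 11) * (100 * d) := mul_le_mul_of_nonneg_right hCω (by positivity)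
      _ = 1 / 10 ^ 9 * d := by ring

theorem wt_smooth {θ : ℝ} {ω : E → ℝ} (hs : ContDiff ℝ (⊤ : ℕ∞) ω) (i : I) :
    ContDiff ℝ (⊤ : ℕ∞) (wt θ ω i) := by
  unfold wt
  have h1 : ContDiff ℝ (⊤ : ℕ∞) (fun p : E => ((p.1 - X i.1 i.2 - gx θ i.1 i.2) / r θ i.1,
    (p.2.1 - gs θ i.1 i.2) / r θ i.1, (p.2.2 - gξ θ i.1 i.2) / r θ i.1)) := by fun_prop
  have h2 : ContDiff ℝ (⊤ : ℕ∞) (fun p : E => (p.1 - X i.1 i.2) / 10) := by fun_prop
  have h3 : ContDiff ℝ (⊤ : ℕ∞) (fun p : E => (p.2.1 - gs θ i.1 i.2) / (r θ i.1 / 100)) := by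
    fun_prop
  exact ((contDiff_const.mul (hs.comp h1)).mul (ψ_contDiff.comp h2)).mul (ψ_contDiff.comp h3)

theorem exists_wd {θ : ℝ} (hθ : 0 < θ) (hθ' : θ ≤ 1 / 10 ^ 24) {ω : E → ℝ}
    (hs : ContDiff ℝ (⊤ : ℕ∞) ω) (h0 : ∀ z, 0 ≤ ω z)
    (hl : LipschitzWith (1 / 10 ^ 10) ω) {C : NNReal} (hC : LipschitzWith C ψ)
    (hC' : ∀ z, C * ω z ≤ 1 / 10 ^ 11) :
    ∃ wd : E → ℝ, ContDiff ℝ (⊤ : ℕ∞) wd ∧ LipschitzWith (1 / 2) wd ∧
      (∀ i : I, ∀ p : E, |p.1 - X i.1 i.2| ≤ 20 → wd p = wt θ ω i p) ∧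
      (∀ p : E, (∀ i : I, 20 ≤ |p.1 - X i.1 i.2|) → wd p = 0) := by
  have hsupp : ∀ (i : I) (p : E), (20 : ℝ) ≤ |p.1 - X i.1 i.2| → wt θ ω i p = 0 := by
    intro i p hp
    unfold wt
    rw [ψ_zero' (t := p.1 - X i.1 i.2) (a := 10) (by norm_num) (by linarith) rfl]
    ring
  obtain ⟨f, hf1, hf2, hf3⟩ := glue (fun p : E => p.1) continuous_fst
    (fun i => X i.1 i.2) (fun _ => 20) X_big (fun _ => le_rfl) X_sep (wt θ ω)
    (wt_smooth hs) hsupp
  refine ⟨f, hf1, ?_, hf2, hf3⟩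
  have hlip := wt_lip hθ hθ' h0 hl hC hC'
  apply LipschitzWith.of_dist_le_mul
  intro p p'
  rw [Real.dist_eq, dist_eq_norm]
  have h2 : ((1 / 2 : NNReal) : ℝ) = 1 / 2 := by norm_num
  rw [h2]
  by_cases hp : ∃ i : I, |p.1 - X i.1 i.2| ≤ 20
  · obtain ⟨i, hi⟩ := hp
    by_cases hp' : ∃ j : I, |p'.1 - X j.1 j.2| ≤ 20
    · obtain ⟨j, hj⟩ := hp'
      rw [hf2 i p hi, hf2 j p' hj]
      by_cases hij : i = j
      · subst hij
        refine (hlip i p p').trans ?_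
        have := norm_nonneg (p - p')
        linarith
      · have sep := X_sep i j hij
        have t1 : (20 : ℝ) ≤ |p.1 - X j.1 j.2| := by
          have e : X i.1 i.2 - X j.1 j.2 = -(p.1 - X i.1 i.2) + (p.1 - X j.1 j.2) := by ring
          have := abs_add_le (-(p.1 - X i.1 i.2)) (p.1 - X j.1 j.2)
          rw [← e, abs_neg] at this
          linarith
        have t2 : (20 : ℝ) ≤ |p'.1 - X i.1 i.2| := by
          have e : X i.1 i.2 - X j.1 j.2 = -(p'.1 - X i.1 i.2) + (p'.1 - X j.1 j.2) := by ring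
          have := abs_add_le (-(p'.1 - X i.1 i.2)) (p'.1 - X j.1 j.2)
          rw [← e, abs_neg] at this
          linarith
        have h3 := hlip i p p'
        have h4 := hlip j p p'
        rw [hsupp i p' t2, sub_zero] at h3
        rw [hsupp j p t1, zero_sub] at h4
        have := abs_add_le (wt θ ω i p) (-(wt θ ω j p'))
        rw [← sub_eq_add_neg] at this
        linarith
    · have t2 : ∀ j : I, (20 : ℝ) ≤ |p'.1 - X j.1 j.2| := by
        intro j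
        by_contra hcon
        exact hp' ⟨j, (not_le.mp hcon).le⟩
      rw [hf2 i p hi, hf3 p' t2]
      have h3 := hlip i p p'
      rw [hsupp i p' (t2 i)] at h3
      have := norm_nonneg (p - p')
      linarith
  · have t1 : ∀ j : I, (20 : ℝ) ≤ |p.1 - X j.1 j.2| := by
      intro j
      by_contra hcon
      exact hp ⟨j, (not_le.mp hcon).le⟩
    by_cases hp' : ∃ j : I, |p'.1 - X j.1 j.2| ≤ 20
    · obtain ⟨j, hj⟩ := hp'
      rw [hf2 j p' hj, hf3 p t1]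
      have h3 := hlip j p p'
      rw [hsupp j p (t1 j)] at h3
      have := norm_nonneg (p - p')
      linarith
    · have t2 : ∀ j : I, (20 : ℝ) ≤ |p'.1 - X j.1 j.2| := by
        intro j
        by_contra hcon
        exact hp' ⟨j, (not_le.mp hcon).le⟩
      rw [hf3 p t1, hf3 p' t2]
      simp

/-- glue over the columns, one variable -/
theorem glueX (F : I → ℝ → ℝ) (hF : ∀ i, ContDiff ℝ (⊤ : ℕ∞) (F i))
    (hsupp : ∀ i x, (20 : ℝ) ≤ |x - X i.1 i.2| → F i x = 0) :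
    ∃ f : ℝ → ℝ, ContDiff ℝ (⊤ : ℕ∞) f ∧ (∀ i x, |x - X i.1 i.2| ≤ 20 → f x = F i x) ∧
      (∀ x, (∀ i : I, 20 ≤ |x - X i.1 i.2|) → f x = 0) :=
  glue (fun x : ℝ => x) continuous_id (fun i => X i.1 i.2) (fun _ => 20) X_big
    (fun _ => le_rfl) X_sep F hF hsupp

/-- glue over the columns, two variables -/
theorem glueX2 (F : I → ℝ × ℝ → ℝ) (hF : ∀ i, ContDiff ℝ (⊤ : ℕ∞) (F i))
    (hsupp : ∀ i x, (20 : ℝ) ≤ |x.1 - X i.1 i.2| → F i x = 0) :
    ∃ f : ℝ × ℝ → ℝ, ContDiff ℝ (⊤ : ℕ∞) f ∧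
      (∀ i x, |x.1 - X i.1 i.2| ≤ 20 → f x = F i x) ∧
      (∀ x, (∀ i : I, 20 ≤ |x.1 - X i.1 i.2|) → f x = 0) :=
  glue (fun x : ℝ × ℝ => x.1) continuous_fst (fun i => X i.1 i.2) (fun _ => 20) X_big
    (fun _ => le_rfl) X_sep F hF hsupp

/-- glue over the gate bands -/
theorem glueG {θ : ℝ} (hθ : 0 < θ) (hθ' : θ ≤ 1 / 10 ^ 24) (k : ℝ) (hk : 25 ≤ k)
    (F : I → ℝ → ℝ) (hF : ∀ i, ContDiff ℝ (⊤ : ℕ∞) (F i))
    (hsupp : ∀ i s, r θ i.1 / k ≤ |s - gs θ i.1 i.2| → F i s = 0) :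
    ∃ f : ℝ → ℝ, ContDiff ℝ (⊤ : ℕ∞) f ∧
      (∀ i s, |s - gs θ i.1 i.2| ≤ r θ i.1 / k → f s = F i s) ∧
      (∀ s, (∀ i : I, r θ i.1 / k ≤ |s - gs θ i.1 i.2|) → f s = 0) := by
  have hle : ∀ m, r θ m / k ≤ r θ m / 25 := fun m =>
    div_le_div_of_nonneg_left (r_pos hθ m).le (by norm_num) hk
  refine glue (fun x : ℝ => x) continuous_id (fun i => gs θ i.1 i.2) (fun i => r θ i.1 / k)
    (gs_big hθ hθ') ?_ ?_ F hF hsupp
  · intro i
    have h1 := hle i.1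
    have h2 := r_small hθ hθ' i.1
    have h3 := r_pos hθ i.1
    show r θ i.1 / k ≤ 20
    linarith
  · intro i j hij
    have h1 := gs_sep hθ hθ' i j hij
    have h2 := hle i.1
    have h3 := hle j.1
    show r θ i.1 / k + r θ j.1 / k ≤ |gs θ i.1 i.2 - gs θ j.1 j.2|
    linarith

/-- glue over the target bands (shifted by `a`) -/
theorem glueT {θ : ℝ} (hθ : 0 < θ) (hθ' : θ ≤ 1 / 10 ^ 24) (k a : ℝ) (hk : 25 ≤ k)
    (F : I → ℝ → ℝ) (hF : ∀ i, ContDiff ℝ (⊤ : ℕ∞) (F i))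
    (hsupp : ∀ i s, r θ i.1 / k ≤ |s + a - ts θ i.1 i.2| → F i s = 0) :
    ∃ f : ℝ → ℝ, ContDiff ℝ (⊤ : ℕ∞) f ∧
      (∀ i s, |s + a - ts θ i.1 i.2| ≤ r θ i.1 / k → f s = F i s) ∧
      (∀ s, (∀ i : I, r θ i.1 / k ≤ |s + a - ts θ i.1 i.2|) → f s = 0) := by
  have hle : ∀ m, r θ m / k ≤ r θ m / 25 := fun m =>
    div_le_div_of_nonneg_left (r_pos hθ m).le (by norm_num) hk
  refine glue (fun x : ℝ => x + a) (by fun_prop) (fun i => ts θ i.1 i.2)
    (fun i => r θ i.1 / k)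
    (ts_big hθ hθ') ?_ ?_ F hF hsupp
  · intro i
    have h1 := hle i.1
    have h2 := r_small hθ hθ' i.1
    have h3 := r_pos hθ i.1
    show r θ i.1 / k ≤ 20
    linarith
  · intro i j hij
    have h1 := ts_sep hθ hθ' i j hij
    have h2 := hle i.1
    have h3 := hle j.1
    show r θ i.1 / k + r θ j.1 / k ≤ |ts θ i.1 i.2 - ts θ j.1 j.2|
    linarith

theorem smooth_ψ {V : Type*} [NormedAddCommGroup V] [NormedSpace ℝ V] {g : V → ℝ}
    (hg : ContDiff ℝ (⊤ : ℕ∞) g) : ContDiff ℝ (⊤ : ℕ∞) (fun x => ψ (g x)) :=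
  ψ_contDiff.comp hg

end A2bAux

open A2bAux

/-- Module A2b -/
theorem exists_atoms {θ : ℝ} (hθ : 0 < θ) (hθ' : θ ≤ 1 / 10 ^ 24) {ω : E → ℝ}
    (hs : ContDiff ℝ (⊤ : ℕ∞) ω) (h0 : ∀ z, 0 ≤ ω z) (hup : ∀ z, ω z ≤ 1 / 10 ^ 11)
    (hl : LipschitzWith (1 / 10 ^ 10) ω) {C : NNReal} (hC : LipschitzWith C ψ)
    (hC' : ∀ z, C * ω z ≤ 1 / 10 ^ 11) : Nonempty (Atoms θ ω) := by
  obtain ⟨wd, wd1, wd2, wd3, wd4⟩ := exists_wd hθ hθ' hs h0 hl hC hC'
  have hr : ∀ m, 0 < r θ m := r_pos hθ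
  -- a1
  obtain ⟨a1, a1s, a1i, a1o⟩ := glueG hθ hθ' 50 (by norm_num)
    (fun i s => X i.1 i.2 * ψ ((s - gs θ i.1 i.2) / (r θ i.1 / 100)))
    (fun i => contDiff_const.mul (smooth_ψ (by fun_prop)))
    (fun i s hs => by
      show X i.1 i.2 * ψ ((s - gs θ i.1 i.2) / (r θ i.1 / 100)) = 0
      rw [ψ_zero' (a := r θ i.1 / 100) (div_pos (hr _) (by norm_num)) (by linarith) rfl, mul_zero])
  -- a2
  obtain ⟨a2, a2s, a2i, a2o⟩ := glueG hθ hθ' 50 (by norm_num)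
    (fun i s => flip i.2 * (s - gs θ i.1 i.2) * ψ ((s - gs θ i.1 i.2) / (r θ i.1 / 100)))
    (fun i => (contDiff_const.mul (contDiff_id.sub contDiff_const)).mul (smooth_ψ (by fun_prop)))
    (fun i s hs => by
      show flip i.2 * (s - gs θ i.1 i.2) * ψ ((s - gs θ i.1 i.2) / (r θ i.1 / 100)) = 0
      rw [ψ_zero' (a := r θ i.1 / 100) (div_pos (hr _) (by norm_num)) (by linarith) rfl, mul_zero])
  -- a4
  obtain ⟨a4, a4s, a4i, a4o⟩ := glueG hθ hθ' 25 (by norm_num)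
    (fun i s => ψ ((s - gs θ i.1 i.2) / (r θ i.1 / 50)))
    (fun i => smooth_ψ (by fun_prop))
    (fun i s hs => by
      show ψ ((s - gs θ i.1 i.2) / (r θ i.1 / 50)) = 0
      rw [ψ_zero' (a := r θ i.1 / 50) (div_pos (hr _) (by norm_num)) (by linarith) rfl])
  -- a5
  obtain ⟨a5, a5s, a5i, a5o⟩ := glueT hθ hθ' 25 1 (by norm_num)
    (fun i s => ψ ((s + 1 - ts θ i.1 i.2) / (r θ i.1 / 50)))
    (fun i => smooth_ψ (by fun_prop))
    (fun i s hs => by
      show ψ ((s + 1 - ts θ i.1 i.2) / (r θ i.1 / 50)) = 0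
      rw [ψ_zero' (a := r θ i.1 / 50) (div_pos (hr _) (by norm_num)) (by linarith) rfl])
  -- a3
  obtain ⟨a3, a3s, a3i, a3o⟩ := glueT hθ hθ' 50 0 (by norm_num)
    (fun i s => (X i.1 i.2 + gx θ i.1 i.2 - tx θ i.1 i.2) *
      ψ ((s - ts θ i.1 i.2) / (r θ i.1 / 100)))
    (fun i => contDiff_const.mul (smooth_ψ (by fun_prop)))
    (fun i s hs => by
      rw [add_zero] at hs
      show (X i.1 i.2 + gx θ i.1 i.2 - tx θ i.1 i.2) *
        ψ ((s - ts θ i.1 i.2) / (r θ i.1 / 100)) = 0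
      rw [ψ_zero' (a := r θ i.1 / 100) (div_pos (hr _) (by norm_num)) (by linarith) rfl, mul_zero])
  -- b1
  obtain ⟨b1, b1s, b1i, b1o⟩ := glueX
    (fun i x => (tξ θ i.1 i.2 - gξ θ i.1 i.2) * ψ ((x - X i.1 i.2) / 10))
    (fun i => contDiff_const.mul (smooth_ψ (by fun_prop)))
    (fun i x hx => by
      show (tξ θ i.1 i.2 - gξ θ i.1 i.2) * ψ ((x - X i.1 i.2) / 10) = 0
      rw [ψ_zero' (a := 10) (by norm_num) (by linarith) rfl, mul_zero])
  -- b2
  obtain ⟨b2, b2s, b2i, b2o⟩ := glueX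
    (fun i x => flip i.2 * (2 * (x - X i.1 i.2 - gx θ i.1 i.2)) * ψ ((x - X i.1 i.2) / 10))
    (fun i => (contDiff_const.mul (contDiff_const.mul
      ((contDiff_id.sub contDiff_const).sub contDiff_const))).mul (smooth_ψ (by fun_prop)))
    (fun i x hx => by
      show flip i.2 * (2 * (x - X i.1 i.2 - gx θ i.1 i.2)) * ψ ((x - X i.1 i.2) / 10) = 0
      rw [ψ_zero' (a := 10) (by norm_num) (by linarith) rfl, mul_zero])
  -- b3
  obtain ⟨b3, b3s, b3i, b3o⟩ := glueX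
    (fun i x => (ts θ i.1 i.2 - gs θ i.1 i.2 - 1) * ψ ((x - X i.1 i.2) / 10))
    (fun i => contDiff_const.mul (smooth_ψ (by fun_prop)))
    (fun i x hx => by
      show (ts θ i.1 i.2 - gs θ i.1 i.2 - 1) * ψ ((x - X i.1 i.2) / 10) = 0
      rw [ψ_zero' (a := 10) (by norm_num) (by linarith) rfl, mul_zero])
  -- pn
  obtain ⟨pn, pns, pni, pno⟩ := glueX2
    (fun i x => ψ ((x.1 - X i.1 i.2) / 10) * (6 / 1000 * r θ i.1) *
      (1 - ψ ((x.2 - gξ θ i.1 i.2) / r θ i.1)))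
    (fun i => ((smooth_ψ (by fun_prop)).mul contDiff_const).mul
      (contDiff_const.sub (smooth_ψ (by fun_prop))))
    (fun i x hx => by
      show ψ ((x.1 - X i.1 i.2) / 10) * (6 / 1000 * r θ i.1) *
        (1 - ψ ((x.2 - gξ θ i.1 i.2) / r θ i.1)) = 0
      rw [ψ_zero' (a := 10) (by norm_num) (by linarith) rfl]
      ring)
  -- al
  obtain ⟨al, als, ali, alo⟩ := glueX2
    (fun i x => ψ ((x.1 - X i.1 i.2 - gx θ i.1 i.2) / (r θ i.1 / 1000)) *
      ψ ((x.2 - gs θ i.1 i.2) / (r θ i.1 / 1000)))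
    (fun i => (smooth_ψ (by fun_prop)).mul (smooth_ψ (by fun_prop)))
    (fun i x hx => by
      show ψ ((x.1 - X i.1 i.2 - gx θ i.1 i.2) / (r θ i.1 / 1000)) *
        ψ ((x.2 - gs θ i.1 i.2) / (r θ i.1 / 1000)) = 0
      have h1 := r_small hθ hθ' i.1
      have h2 := hr i.1
      have h3 := q_bdx i.2
      have h4 : |gx θ i.1 i.2| ≤ 1 := by
        unfold gx
        rw [abs_mul, abs_of_pos h2, abs_of_nonneg h3.1]
        nlinarith [h3.1, h3.2]
      rw [ψ_zero' (a := r θ i.1 / 1000) (div_pos (hr _) (by norm_num)) _ rfl, zero_mul]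
      have h5 := abs_sub_abs_le_abs_sub (x.1 - X i.1 i.2) (gx θ i.1 i.2)
      linarith)
  exact ⟨{
    a1 := a1, wd := wd, pn := fun x ξ => pn (x, ξ), al := fun x s => al (x, s), b1 := b1,
    a4 := a4, a5 := a5, a2 := a2, b2 := b2, b3 := b3, a3 := a3
    a1_smooth := a1s
    wd_smooth := wd1
    wd_lip := wd2
    pn_smooth := pns
    al_smooth := als
    b1_smooth := b1s
    a4_smooth := a4s
    a5_smooth := a5s
    a2_smooth := a2s
    b2_smooth := b2s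
    b3_smooth := b3s
    a3_smooth := a3s
    a1_in := fun m l h s hs => a1i (m, ⟨l, by omega⟩) s hs
    a1_out := fun s h => a1o s (fun i => h i.1 i.2 (by omega))
    wd_in := fun m l h p hp1 _ => wd3 (m, ⟨l, by omega⟩) p hp1
    wd_out := fun p h => by
      by_cases hp : ∃ i : I, |p.1 - X i.1 i.2| ≤ 20
      · obtain ⟨i, hi⟩ := hp
        rw [wd3 i p hi]
        rcases h i.1 i.2 (by omega) with h1 | h1
        · unfold wt
          rw [ψ_zero' (t := p.1 - X i.1 i.2) (a := 10) (by norm_num) (by linarith) rfl]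
          ring
        · unfold wt
          rw [ψ_zero' (t := p.2.1 - gs θ i.1 i.2) (a := r θ i.1 / 100)
            (div_pos (hr _) (by norm_num)) (by linarith) rfl, mul_zero]
      · exact wd4 p (fun i => by
          by_contra hcon
          exact hp ⟨i, (not_le.mp hcon).le⟩)
    pn_in := fun m l h x ξ hx => pni (m, ⟨l, by omega⟩) (x, ξ) hx
    pn_out := fun x ξ h => pno (x, ξ) (fun i => h i.1 i.2 (by omega))
    al_in := fun m l h x s hx => ali (m, ⟨l, by omega⟩) (x, s) hx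
    al_out := fun x s h => alo (x, s) (fun i => h i.1 i.2 (by omega))
    b1_in := fun m l h x hx => b1i (m, ⟨l, by omega⟩) x hx
    b1_out := fun x h => b1o x (fun i => h i.1 i.2 (by omega))
    a4_nonneg := fun s => by
      by_cases hp : ∃ i : I, |s - gs θ i.1 i.2| ≤ r θ i.1 / 25
      · obtain ⟨i, hi⟩ := hp
        rw [a4i i s hi]
        exact ψ_nonneg _
      · rw [a4o s (fun i => by
          by_contra hcon
          exact hp ⟨i, (not_le.mp hcon).le⟩)]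
    a4_in := fun m l h s hs => by
      have h1 := hr m
      have h2 := a4i (m, ⟨l, by omega⟩) s
        (show |s - gs θ m l| ≤ r θ m / 25 by linarith)
      rw [h2]
      show 1 ≤ ψ ((s - gs θ m l) / (r θ m / 50))
      rw [ψ_one' (a := r θ m / 50) (div_pos (hr _) (by norm_num)) hs rfl]
    a4_out := fun s h => a4o s (fun i => h i.1 i.2 (by omega))
    a5_nonneg := fun s => by
      by_cases hp : ∃ i : I, |s + 1 - ts θ i.1 i.2| ≤ r θ i.1 / 25
      · obtain ⟨i, hi⟩ := hp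
        rw [a5i i s hi]
        exact ψ_nonneg _
      · rw [a5o s (fun i => by
          by_contra hcon
          exact hp ⟨i, (not_le.mp hcon).le⟩)]
    a5_in := fun m l h s hs => by
      have h1 := hr m
      have h2 := a5i (m, ⟨l, by omega⟩) s
        (show |s + 1 - ts θ m l| ≤ r θ m / 25 by linarith)
      rw [h2]
      show 1 ≤ ψ ((s + 1 - ts θ m l) / (r θ m / 50))
      rw [ψ_one' (a := r θ m / 50) (div_pos (hr _) (by norm_num)) hs rfl]
    a5_out := fun s h => a5o s (fun i => h i.1 i.2 (by omega))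
    a2_in := fun m l h s hs => a2i (m, ⟨l, by omega⟩) s hs
    a2_out := fun s h => a2o s (fun i => h i.1 i.2 (by omega))
    b2_in := fun m l h x hx => b2i (m, ⟨l, by omega⟩) x hx
    b2_out := fun x h => b2o x (fun i => h i.1 i.2 (by omega))
    b3_in := fun m l h x hx => b3i (m, ⟨l, by omega⟩) x hx
    b3_out := fun x h => b3o x (fun i => h i.1 i.2 (by omega))
    a3_in := fun m l h s hs => a3i (m, ⟨l, by omega⟩) s (by rw [add_zero]; exact hs)
    a3_out := fun s h => a3o s (fun i => by rw [add_zero]; exact h i.1 i.2 (by omega)) }⟩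

end Pool.Agent.H718R2
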