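import Pool.Agent.H718R2.Defs2
import Pool.Agent.H718R2.Atoms

/-!
# Module A3 (helper602): the map built from the atoms satisfies `Sys`
-/

namespace Pool.Agent.H718R2.A3

variable {θ : ℝ} {ω : E → ℝ}

theorem r_pos (hθ : 0 < θ) (m : ℕ) : 0 < r θ m := by unfold r; positivity

theorem r_le (hθ : 0 < θ) (hθ' : θ ≤ 1 / 10 ^ 24) (m : ℕ) : r θ m ≤ 1 / 10 ^ 24 := by
  have h1 : θ ≤ 1 := le_trans hθ' (by norm_num)
  have : r θ m ≤ θ := by
    unfold r
    calc θ ^ (m + 1) ≤ θ ^ 1 := pow_le_pow_of_le_one hθ.le h1 (by omega)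
      _ = θ := pow_one θ
  linarith

theorem uy_nonneg (hθ : 0 < θ) (m : ℕ) : 0 ≤ uy θ m := by
  unfold uy
  have : 0 ≤ ∑ k ∈ Finset.range m, r θ k := Finset.sum_nonneg fun k _ => (r_pos hθ k).le
  linarith

theorem uy_mono (hθ : 0 < θ) {m n : ℕ} (h : m ≤ n) : uy θ m ≤ uy θ n := by
  unfold uy
  have : ∑ k ∈ Finset.range m, r θ k ≤ ∑ k ∈ Finset.range n, r θ k :=
    Finset.sum_le_sum_of_subset_of_nonneg (Finset.range_mono h) fun k _ _ => (r_pos hθ k).le
  linarith

theorem sg_cases (l : ℕ) : sg l = 1 ∨ sg l = -1 := by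
  rcases l with _ | _ | _ | _ | _ | _ | _ | _ | l <;> simp [sg]

theorem sg_sq (l : ℕ) : sg l * sg l = 1 := by
  rcases sg_cases l with h | h <;> rw [h] <;> norm_num

theorem abs_sg (l : ℕ) : |sg l| = 1 := by
  rcases sg_cases l with h | h <;> rw [h] <;> norm_num

theorem q_bd (l : ℕ) : 0 ≤ (q l).1 ∧ (q l).1 ≤ 1 ∧ -3 ≤ (q l).2.1 ∧ (q l).2.1 ≤ 4 ∧
    0 ≤ (q l).2.2 ∧ (q l).2.2 ≤ 1 := by
  by_cases h : l ≤ 6
  · interval_cases l <;> norm_num [q]
  · obtain ⟨k, rfl⟩ : ∃ k, l = k + 7 := ⟨l - 7, by omega⟩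
    have : q (k + 7) = (0, 4, 0) := by
      rcases k with _ | k <;> rfl
    rw [this]; norm_num

theorem q_sep {l l' : ℕ} (hl : l ≤ 7) (hl' : l' ≤ 7) (h : l ≠ l') :
    1 ≤ |(q l).2.1 - (q l').2.1| := by
  interval_cases l <;> interval_cases l' <;> first | exact absurd rfl h | norm_num [q, abs_of_nonneg, abs_of_nonpos, le_abs]

theorem q_ne (l : ℕ) (hl : l < 7) : 1 ≤ |(q (l + 1)).2.1| := by
  interval_cases l <;> norm_num [q, abs_of_nonneg, abs_of_nonpos, le_abs]

theorem gs_lt (hθ : 0 < θ) (hθ' : θ ≤ 1 / 10 ^ 24) {m l m' l' : ℕ} (h : m < m') :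
    gs θ m l + 1 / 2 ≤ gs θ m' l' := by
  have a1 := r_pos hθ m
  have a2 := r_pos hθ m'
  have a3 := r_le hθ hθ' m
  have a4 := r_le hθ hθ' m'
  have b := q_bd l
  have b' := q_bd l'
  have c := uy_mono hθ h.le
  have d : (m : ℝ) + 1 ≤ m' := by exact_mod_cast h
  unfold gs
  have e1 : r θ m * (q l).2.1 ≤ 1 / 10 ^ 24 * 4 := by
    calc r θ m * (q l).2.1 ≤ r θ m * 4 := by gcongr; exact b.2.2.2.1
      _ ≤ _ := by gcongr
  have e2 : -(1 / 10 ^ 24 * 3) ≤ r θ m' * (q l').2.1 := by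
    have : r θ m' * (-3) ≤ r θ m' * (q l').2.1 := by gcongr; exact b'.2.2.1
    nlinarith
  norm_num at e1 e2 ⊢
  linarith

theorem gs_sep (hθ : 0 < θ) (hθ' : θ ≤ 1 / 10 ^ 24) {m l m' l' : ℕ} (hl : l ≤ 7) (hl' : l' ≤ 7)
    (h : ¬ (m = m' ∧ l = l')) : r θ m ≤ |gs θ m l - gs θ m' l'| ∧ r θ m' ≤ |gs θ m l - gs θ m' l'| := by
  have a1 := r_pos hθ m
  have a3 := r_le hθ hθ' m
  have a4 := r_le hθ hθ' m'
  rcases lt_trichotomy m m' with h1 | h1 | h1
  · have := gs_lt (l := l) (l' := l') hθ hθ' h1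
    have h2 : (1 : ℝ) / 2 ≤ |gs θ m l - gs θ m' l'| := by
      rw [abs_sub_comm]; exact le_trans (by linarith) (le_abs_self _)
    norm_num at a3 a4
    constructor <;> linarith
  · subst h1
    have h2 : l ≠ l' := fun h' => h ⟨rfl, h'⟩
    have h3 := q_sep hl hl' h2
    have h4 : gs θ m l - gs θ m l' = r θ m * ((q l).2.1 - (q l').2.1) := by unfold gs; ring
    rw [h4, abs_mul, abs_of_pos a1]
    have : r θ m * 1 ≤ r θ m * |(q l).2.1 - (q l').2.1| := by gcongr
    constructor <;> linarith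
  · have := gs_lt (l := l') (l' := l) hθ hθ' h1
    have h2 : (1 : ℝ) / 2 ≤ |gs θ m l - gs θ m' l'| := le_trans (by linarith) (le_abs_self _)
    norm_num at a3 a4
    constructor <;> linarith

theorem X_ge (m l : ℕ) : 100 ≤ X m l := by
  unfold X
  have : (0 : ℝ) ≤ 8 * m + l := by positivity
  linarith

theorem gx_bd (hθ : 0 < θ) (hθ' : θ ≤ 1 / 10 ^ 24) (m l : ℕ) : 0 ≤ gx θ m l ∧ gx θ m l ≤ 1 / 10 ^ 24 := by
  have a1 := r_pos hθ m
  have a3 := r_le hθ hθ' m
  have b := q_bd l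
  unfold gx
  refine ⟨mul_nonneg a1.le b.1, ?_⟩
  calc r θ m * (q l).1 ≤ r θ m * 1 := by gcongr; exact b.2.1
    _ ≤ _ := by linarith

theorem flip_eq (l : ℕ) : 1 - 2 * flip l = sg l * sg (l + 1) := by unfold flip; ring

theorem flip_cases (l : ℕ) : flip l = 0 ∨ flip l = 1 := by
  unfold flip
  rcases sg_cases l with h | h <;> rcases sg_cases (l + 1) with h' | h' <;> rw [h, h'] <;> norm_num

theorem src_eq (m l : ℕ) (z : E) : U θ m (r θ m • (q l + R (sg l) z)) =
    (gx θ m l + r θ m * (sg l * z.1), gs θ m l + r θ m * (sg l * z.2.1), gξ θ m l + r θ m * z.2.2) := by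
  simp only [U, R, gx, gs, gξ, Prod.fst_add, Prod.snd_add, Prod.smul_fst, Prod.smul_snd, smul_eq_mul]
  ext <;> simp <;> ring

theorem tgt_eq (m l : ℕ) (w : E) : tgt θ m l (r θ m • R (sg (l + 1)) w) =
    (tx θ m l + r θ m * (sg (l + 1) * w.1), ts θ m l + r θ m * (sg (l + 1) * w.2.1),
      tξ θ m l + r θ m * w.2.2) := by
  unfold tx ts tξ tgt
  split_ifs with h
  · simp only [D, R]
    ext <;> simp <;> ring
  · simp only [U, R]
    ext <;> simp <;> ring

theorem tξ_gξ (hθ : 0 < θ) (hθ' : θ ≤ 1 / 10 ^ 24) (m l : ℕ) : |tξ θ m l - gξ θ m l| ≤ 1 / 10 ^ 24 := by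
  have a1 := r_pos hθ m
  have a3 := r_le hθ hθ' m
  have b := q_bd l
  have b' := q_bd (l + 1)
  have e : tξ θ m l = if l < 7 then r θ m * (q (l + 1)).2.2 else 0 := by
    unfold tξ tgt
    split_ifs <;> simp [D, U]
  rw [e]
  unfold gξ
  have h1 : 0 ≤ r θ m * (q l).2.2 := mul_nonneg a1.le b.2.2.2.2.1
  have h2 : r θ m * (q l).2.2 ≤ r θ m * 1 := by gcongr; exact b.2.2.2.2.2
  have h3 : 0 ≤ r θ m * (q (l+1)).2.2 := mul_nonneg a1.le b'.2.2.2.2.1
  have h4 : r θ m * (q (l+1)).2.2 ≤ r θ m * 1 := by gcongr; exact b'.2.2.2.2.2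
  split_ifs
  · rw [abs_le]; constructor <;> linarith
  · rw [abs_le]; constructor <;> linarith

/-! ### atoms: general bounds -/

theorem al_le_one (A : Atoms θ ω) (x s : ℝ) : A.al x s ≤ 1 := by
  by_cases h : ∃ m l, l ≤ 7 ∧ |x - X m l| ≤ 20
  · obtain ⟨m, l, hl, hx⟩ := h
    rw [A.al_in m l hl x s hx]
    exact mul_le_one₀ (ψ_le_one _) (ψ_nonneg _) (ψ_le_one _)
  · push Not at h
    rw [A.al_out x s fun m l hl => (h m l hl).le]
    norm_num

theorem al_zero (hθ : 0 < θ) (A : Atoms θ ω) (x s : ℝ)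
    (h : ∀ m l, l ≤ 7 → |x - X m l| ≤ 20 →
      2 / 1000 * r θ m ≤ |x - X m l - gx θ m l| ∨ 2 / 1000 * r θ m ≤ |s - gs θ m l|) :
    A.al x s = 0 := by
  by_cases h' : ∃ m l, l ≤ 7 ∧ |x - X m l| ≤ 20
  · obtain ⟨m, l, hl, hx⟩ := h'
    have hr := r_pos hθ m
    rw [A.al_in m l hl x s hx]
    rcases h m l hl hx with h | h
    · rw [ψ_zero, zero_mul]
      rw [abs_div, abs_of_pos (by positivity : 0 < r θ m / 1000), le_div_iff₀ (by positivity)]
      linarith
    · rw [ψ_zero (t := (s - gs θ m l) / (r θ m / 1000)), mul_zero]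
      rw [abs_div, abs_of_pos (by positivity : 0 < r θ m / 1000), le_div_iff₀ (by positivity)]
      linarith
  · push Not at h'
    exact A.al_out x s fun m l hl => (h' m l hl).le

theorem b1_ge (hθ : 0 < θ) (hθ' : θ ≤ 1 / 10 ^ 24) (A : Atoms θ ω) (x : ℝ) : -1 ≤ A.b1 x := by
  by_cases h : ∃ m l, l ≤ 7 ∧ |x - X m l| ≤ 20
  · obtain ⟨m, l, hl, hx⟩ := h
    rw [A.b1_in m l hl x hx]
    have h1 := tξ_gξ hθ hθ' m l
    have h2 := ψ_nonneg ((x - X m l) / 10)
    have h3 := ψ_le_one ((x - X m l) / 10)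
    have h4 : |(tξ θ m l - gξ θ m l) * ψ ((x - X m l) / 10)| ≤ 1 := by
      rw [abs_mul, abs_of_nonneg h2]
      calc |tξ θ m l - gξ θ m l| * ψ ((x - X m l) / 10) ≤ 1 / 10 ^ 24 * 1 := by gcongr
        _ ≤ 1 := by norm_num
    exact (abs_le.mp h4).1
  · push Not at h
    rw [A.b1_out x fun m l hl => (h m l hl).le]
    norm_num

theorem far {x : ℝ} (hx : |x| ≤ 11) (m l : ℕ) : 20 ≤ |x - X m l| := by
  have := X_ge m l
  rw [abs_sub_comm]
  have h1 := (abs_le.mp hx).2
  exact le_trans (by linarith) (le_abs_self _)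

theorem pn_bd (hθ : 0 < θ) (A : Atoms θ ω) {m l : ℕ} (hl : l ≤ 7) {x : ℝ} (hx : |x - X m l| ≤ 20) (ξ : ℝ) :
    0 ≤ A.pn x ξ ∧ A.pn x ξ ≤ 6 / 1000 * r θ m := by
  have hr := r_pos hθ m
  rw [A.pn_in m l hl x ξ hx]
  have h1 := ψ_nonneg ((x - X m l) / 10)
  have h2 := ψ_le_one ((x - X m l) / 10)
  have h3 := ψ_nonneg ((ξ - gξ θ m l) / r θ m)
  have h4 := ψ_le_one ((ξ - gξ θ m l) / r θ m)
  constructor
  · have : 0 ≤ 1 - ψ ((ξ - gξ θ m l) / r θ m) := by linarith
    positivity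
  · calc ψ ((x - X m l) / 10) * (6 / 1000 * r θ m) * (1 - ψ ((ξ - gξ θ m l) / r θ m))
        ≤ 1 * (6 / 1000 * r θ m) * 1 := by
          gcongr
          linarith
      _ = _ := by ring

theorem wd_bd (hθ : 0 < θ) (hθ' : θ ≤ 1 / 10 ^ 24) (h0 : ∀ z, 0 ≤ ω z) (hup : ∀ z, ω z ≤ 1 / 10 ^ 11)
    (A : Atoms θ ω) (p : E) : |A.wd p| ≤ 1 / 10 := by
  by_cases h : ∃ m l, l ≤ 7 ∧ |p.1 - X m l| < 20 ∧ |p.2.1 - gs θ m l| < r θ m / 50
  · obtain ⟨m, l, hl, hx, hs⟩ := h
    rw [A.wd_in m l hl p hx.le hs.le]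
    have hr := r_pos hθ m
    have hr' := r_le hθ hθ' m
    set w := ω ((p.1 - X m l - gx θ m l) / r θ m, (p.2.1 - gs θ m l) / r θ m,
      (p.2.2 - gξ θ m l) / r θ m) with hw
    have hw0 : 0 ≤ w := h0 _
    have hw1 : w ≤ 1 / 10 ^ 11 := hup _
    have h1 := ψ_nonneg ((p.1 - X m l) / 10)
    have h2 := ψ_le_one ((p.1 - X m l) / 10)
    have h3 := ψ_nonneg ((p.2.1 - gs θ m l) / (r θ m / 100))
    have h4 := ψ_le_one ((p.2.1 - gs θ m l) / (r θ m / 100))
    rw [abs_mul, abs_mul, abs_mul, abs_mul, abs_sg, abs_of_nonneg h1, abs_of_nonneg h3, abs_of_nonneg hw0,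
      abs_of_pos hr]
    calc 1 * r θ m * w * ψ ((p.1 - X m l) / 10) * ψ ((p.2.1 - gs θ m l) / (r θ m / 100))
        ≤ 1 * (1 / 10 ^ 24) * (1 / 10 ^ 11) * 1 * 1 := by gcongr
      _ ≤ _ := by norm_num
  · push Not at h
    rw [A.wd_out p fun m l hl => ?_]
    · norm_num
    · by_cases h1 : |p.1 - X m l| < 20
      · exact Or.inr (h m l hl h1)
      · exact Or.inl (not_lt.mp h1)

/-- a kill criterion -/
theorem kill (hθ : 0 < θ) (hθ' : θ ≤ 1 / 10 ^ 24) (A : Atoms θ ω) (p : E) {x₂ : ℝ}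
    (hx₂ : x₂ = p.1 + A.a1 p.2.1 + A.wd (p.1 + A.a1 p.2.1, p.2.1, p.2.2))
    (hfar : ∀ m l, l ≤ 7 → |x₂ - X m l| ≤ 20 → 10 ≤ |x₂| →
      2 / 1000 * r θ m ≤ |x₂ - X m l - gx θ m l| ∨
        2 / 1000 * r θ m ≤ |p.2.1 + A.pn x₂ p.2.2 - gs θ m l|)
    (hnear : |x₂| ≤ 10 → 1 ≤ A.a4 p.2.1 + A.a5 p.2.1) :
    p.2.2 + 3 ≤ (theMap A p).2.2 := by
  have e : (theMap A p).2.2 = p.2.2 + ((1 - ψ (x₂ / 5)) * (4 * (1 - A.al x₂ (p.2.1 + A.pn x₂ p.2.2)))
      + A.b1 x₂ + ψ (x₂ / 10) * (4 * (A.a4 (p.2.1 + A.pn x₂ p.2.2) + A.a5 (p.2.1 + A.pn x₂ p.2.2)))) := by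
    rw [hx₂]; rfl
  rw [e]
  have hb := b1_ge hθ hθ' A x₂
  have hal := al_le_one A x₂ (p.2.1 + A.pn x₂ p.2.2)
  have h1 := ψ_nonneg (x₂ / 10)
  have h2 := ψ_nonneg (x₂ / 5)
  have h3 := ψ_le_one (x₂ / 5)
  have h4 := A.a4_nonneg (p.2.1 + A.pn x₂ p.2.2)
  have h5 := A.a5_nonneg (p.2.1 + A.pn x₂ p.2.2)
  rcases le_total |x₂| 10 with h | h
  · have hpn : A.pn x₂ p.2.2 = 0 := A.pn_out _ _ fun m l _ => far (by linarith) m l
    have hb1 : A.b1 x₂ = 0 := A.b1_out _ fun m l _ => far (by linarith) m l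
    have hψ : ψ (x₂ / 10) = 1 := by
      apply ψ_one
      rw [abs_div, abs_of_pos (by norm_num : (0:ℝ) < 10), div_le_one (by norm_num)]
      exact h
    have h6 := hnear h
    rw [hpn, add_zero] at hal ⊢
    rw [hb1, hψ]
    have : 0 ≤ (1 - ψ (x₂ / 5)) * (4 * (1 - A.al x₂ p.2.1)) := by
      apply mul_nonneg <;> linarith
    linarith
  · have hψ : ψ (x₂ / 5) = 0 := by
      apply ψ_zero
      rw [abs_div, abs_of_pos (by norm_num : (0:ℝ) < 5), le_div_iff₀ (by norm_num)]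
      linarith
    have ha : A.al x₂ (p.2.1 + A.pn x₂ p.2.2) = 0 := al_zero hθ A _ _ fun m l hl hx => hfar m l hl hx h
    rw [hψ, ha]
    have : 0 ≤ ψ (x₂ / 10) * (4 * (A.a4 (p.2.1 + A.pn x₂ p.2.2) + A.a5 (p.2.1 + A.pn x₂ p.2.2))) := by
      positivity
    linarith

/-! ### values near a column / a band -/

theorem ψ10 {t : ℝ} (h : |t| ≤ 10) : ψ (t / 10) = 1 := by
  apply ψ_one
  rw [abs_div, abs_of_pos (by norm_num : (0:ℝ) < 10), div_le_one (by norm_num)]
  exact h

theorem ψ100 {t ρ : ℝ} (hρ : 0 < ρ) (h : |t| ≤ ρ / 100) : ψ (t / (ρ / 100)) = 1 := by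
  apply ψ_one
  rw [abs_div, abs_of_pos (by positivity : 0 < ρ / 100), div_le_one (by positivity)]
  exact h

section near
variable (A : Atoms θ ω) {m l : ℕ} (hl : l ≤ 7)
include hl

theorem b1_near {x : ℝ} (h : |x - X m l| ≤ 10) : A.b1 x = tξ θ m l - gξ θ m l := by
  rw [A.b1_in m l hl x (by linarith), ψ10 h, mul_one]

theorem b2_near {x : ℝ} (h : |x - X m l| ≤ 10) : A.b2 x = flip l * (2 * (x - X m l - gx θ m l)) := by
  rw [A.b2_in m l hl x (by linarith), ψ10 h, mul_one]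

theorem b3_near {x : ℝ} (h : |x - X m l| ≤ 10) : A.b3 x = ts θ m l - gs θ m l - 1 := by
  rw [A.b3_in m l hl x (by linarith), ψ10 h, mul_one]

theorem pn_near {x : ℝ} (h : |x - X m l| ≤ 10) (ξ : ℝ) :
    A.pn x ξ = 6 / 1000 * r θ m * (1 - ψ ((ξ - gξ θ m l) / r θ m)) := by
  rw [A.pn_in m l hl x ξ (by linarith), ψ10 h, one_mul]

theorem a1_near (hθ : 0 < θ) {s : ℝ} (h : |s - gs θ m l| ≤ r θ m / 100) : A.a1 s = X m l := by
  have hr := r_pos hθ m
  rw [A.a1_in m l hl s (by linarith), ψ100 hr h, mul_one]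

theorem a2_near (hθ : 0 < θ) {s : ℝ} (h : |s - gs θ m l| ≤ r θ m / 100) :
    A.a2 s = flip l * (s - gs θ m l) := by
  have hr := r_pos hθ m
  rw [A.a2_in m l hl s (by linarith), ψ100 hr h, mul_one]

theorem a3_near (hθ : 0 < θ) {s : ℝ} (h : |s - ts θ m l| ≤ r θ m / 100) :
    A.a3 s = X m l + gx θ m l - tx θ m l := by
  have hr := r_pos hθ m
  rw [A.a3_in m l hl s (by linarith), ψ100 hr h, mul_one]

end near

theorem sgmul (l : ℕ) (t : ℝ) : |sg l * t| = |t| := by rw [abs_mul, abs_sg, one_mul]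

theorem ψ_sg (l : ℕ) (t : ℝ) : ψ (sg l * t) = ψ t := by
  rcases sg_cases l with h | h <;> rw [h]
  · rw [one_mul]
  · rw [neg_one_mul, ψ_even]

section gate
variable (hθ : 0 < θ) (hθ' : θ ≤ 1 / 10 ^ 24) (hev : ∀ z : E, ω (-z.1, -z.2.1, z.2.2) = ω z)
  (A : Atoms θ ω) {m l : ℕ} (hl : l ≤ 7) (z : E) (hz : |z.2.1| ≤ 1 / 100)
  (hx : |gx θ m l + r θ m * (sg l * z.1)| ≤ 10)
include hθ hθ' hev hl hz hx

omit hθ' in
theorem gate_x2 : (gx θ m l + r θ m * (sg l * z.1)) + A.a1 (gs θ m l + r θ m * (sg l * z.2.1)) +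
    A.wd ((gx θ m l + r θ m * (sg l * z.1)) + A.a1 (gs θ m l + r θ m * (sg l * z.2.1)),
      gs θ m l + r θ m * (sg l * z.2.1), gξ θ m l + r θ m * z.2.2) =
    X m l + gx θ m l + r θ m * (sg l * (z.1 + ω z)) := by
  have hr := r_pos hθ m
  have hs : |gs θ m l + r θ m * (sg l * z.2.1) - gs θ m l| ≤ r θ m / 100 := by
    rw [add_sub_cancel_left, abs_mul, sgmul, abs_of_pos hr]
    calc r θ m * |z.2.1| ≤ r θ m * (1 / 100) := by gcongr
      _ = _ := by ring
  rw [a1_near A hl hθ hs]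
  have e1 : gx θ m l + r θ m * (sg l * z.1) + X m l - X m l = gx θ m l + r θ m * (sg l * z.1) := by ring
  rw [A.wd_in m l hl _ (by simp only [e1]; linarith) (by simp only; linarith)]
  simp only [e1]
  rw [ψ10 hx, ψ100 hr hs, mul_one, mul_one]
  have e2 : (gx θ m l + r θ m * (sg l * z.1) - gx θ m l) / r θ m = sg l * z.1 := by
    field_simp; ring
  have e3 : (gs θ m l + r θ m * (sg l * z.2.1) - gs θ m l) / r θ m = sg l * z.2.1 := by
    field_simp; ring
  have e4 : (gξ θ m l + r θ m * z.2.2 - gξ θ m l) / r θ m = z.2.2 := by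
    field_simp; ring
  have e5 : ω (sg l * z.1, sg l * z.2.1, z.2.2) = ω z := by
    rcases sg_cases l with h | h <;> rw [h]
    · simp
    · have := hev z
      simpa using this
  rw [e2, e3, e4, e5]
  ring

/-- offset in `s` after the penalty (in units of `r`) -/
noncomputable def bb (l : ℕ) (z : E) : ℝ := z.2.1 + sg l * (6 / 1000 * (1 - ψ z.2.2))

omit hθ hθ' hev hl hz hx in
theorem bb_eq : sg l * z.2.1 + 6 / 1000 * (1 - ψ z.2.2) = sg l * bb l z := by
  unfold bb
  linear_combination (-(6 / 1000 * (1 - ψ z.2.2))) * sg_sq l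

theorem gate_kill (h0 : ∀ z, 0 ≤ ω z) (hup : ∀ z, ω z ≤ 1 / 10 ^ 11)
    (hd : ¬ (|z.1 + ω z| < 2 / 1000 ∧ |bb l z| < 2 / 1000)) :
    (U θ m (r θ m • (q l + R (sg l) z))).2.2 + 3 ≤ (theMap A (U θ m (r θ m • (q l + R (sg l) z)))).2.2 := by
  rw [src_eq]
  have hr := r_pos hθ m
  have hr' := r_le hθ hθ' m
  have e := gate_x2 hθ hev A hl z hz hx
  have hw0 := h0 z
  have hw1 := hup z
  have hg := gx_bd hθ hθ' m l
  have hX := X_ge m l
  have hw : |r θ m * (sg l * ω z)| ≤ 1 / 10 := by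
    rw [abs_mul, sgmul, abs_of_pos hr, abs_of_nonneg hw0]
    calc r θ m * ω z ≤ 1 / 10 ^ 24 * (1 / 10 ^ 11) := by gcongr
      _ ≤ _ := by norm_num
  refine kill hθ hθ' A _ e.symm ?_ ?_
  · intro m' l' hl' hx' _
    simp only
    have hr2 := r_pos hθ m'
    by_cases hc : m = m' ∧ l = l'
    · obtain ⟨rfl, rfl⟩ := hc
      have e1 : X m l + gx θ m l + r θ m * (sg l * (z.1 + ω z)) - X m l - gx θ m l =
          r θ m * (sg l * (z.1 + ω z)) := by ring
      rw [e1]
      by_cases ha : |z.1 + ω z| < 2 / 1000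
      · right
        have hb : 2 / 1000 ≤ |bb l z| := by
          by_contra hcon
          exact hd ⟨ha, not_le.mp hcon⟩
        have h10 : |X m l + gx θ m l + r θ m * (sg l * (z.1 + ω z)) - X m l| ≤ 10 := by
          have : X m l + gx θ m l + r θ m * (sg l * (z.1 + ω z)) - X m l =
            gx θ m l + r θ m * (sg l * (z.1 + ω z)) := by ring
          rw [this]
          have h3 : |r θ m * (sg l * (z.1 + ω z))| ≤ 1 := by
            rw [abs_mul, sgmul, abs_of_pos hr]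
            calc r θ m * |z.1 + ω z| ≤ 1 / 10 ^ 24 * (2 / 1000) := by gcongr
              _ ≤ 1 := by norm_num
          have h4 : |gx θ m l| ≤ 1 := by
            rw [abs_of_nonneg hg.1]; norm_num at hg ⊢; linarith
          calc _ ≤ |gx θ m l| + |r θ m * (sg l * (z.1 + ω z))| := abs_add_le _ _
            _ ≤ 10 := by linarith
        rw [pn_near A hl h10]
        have e4 : (gξ θ m l + r θ m * z.2.2 - gξ θ m l) / r θ m = z.2.2 := by
          field_simp; ring
        rw [e4]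
        have e5 : gs θ m l + r θ m * (sg l * z.2.1) + 6 / 1000 * r θ m * (1 - ψ z.2.2) - gs θ m l =
            r θ m * (sg l * bb l z) := by
          rw [← bb_eq]; ring
        rw [e5, abs_mul, sgmul, abs_of_pos hr]
        nlinarith
      · left
        rw [abs_mul, sgmul, abs_of_pos hr]
        nlinarith [not_lt.mp ha]
    · right
      have hsep := gs_sep hθ hθ' hl hl' hc
      have hpn := pn_bd hθ A hl' hx' (gξ θ m l + r θ m * z.2.2)
      have h1 : |r θ m * (sg l * z.2.1)| ≤ r θ m / 100 := by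
        rw [abs_mul, sgmul, abs_of_pos hr]
        calc r θ m * |z.2.1| ≤ r θ m * (1 / 100) := by gcongr
          _ = _ := by ring
      have h2 : |gs θ m l - gs θ m' l'| ≤ |gs θ m l + r θ m * (sg l * z.2.1) +
          A.pn (X m l + gx θ m l + r θ m * (sg l * (z.1 + ω z))) (gξ θ m l + r θ m * z.2.2) - gs θ m' l'|
          + |r θ m * (sg l * z.2.1)| +
          |A.pn (X m l + gx θ m l + r θ m * (sg l * (z.1 + ω z))) (gξ θ m l + r θ m * z.2.2)| := by
        have : gs θ m l - gs θ m' l' = (gs θ m l + r θ m * (sg l * z.2.1) +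
          A.pn (X m l + gx θ m l + r θ m * (sg l * (z.1 + ω z))) (gξ θ m l + r θ m * z.2.2) - gs θ m' l')
          - r θ m * (sg l * z.2.1) -
          A.pn (X m l + gx θ m l + r θ m * (sg l * (z.1 + ω z))) (gξ θ m l + r θ m * z.2.2) := by ring
        calc |gs θ m l - gs θ m' l'| = _ := congrArg _ this
          _ ≤ _ := le_trans (abs_sub _ _) (add_le_add_left (abs_sub _ _) _)
      rw [abs_of_nonneg hpn.1] at h2
      linarith [hsep.1, hsep.2, hpn.2]
  · intro h10
    exfalso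
    have h3 : gx θ m l + r θ m * (sg l * (z.1 + ω z)) = (gx θ m l + r θ m * (sg l * z.1)) +
      r θ m * (sg l * ω z) := by ring
    have h4 := (abs_le.mp hx).1
    have h5 := (abs_le.mp hw).1
    have h6 := (abs_le.mp h10).2
    linarith

theorem gate_val (ha : |z.1 + ω z| ≤ 2 / 1000) (hb : |bb l z| ≤ 2 / 1000) :
    theMap A (U θ m (r θ m • (q l + R (sg l) z))) =
      tgt θ m l (r θ m • R (sg (l + 1)) (z.1 + ω z, bb l z,
        z.2.2 + 4 * (1 - ψ (1000 * (z.1 + ω z)) * ψ (1000 * bb l z)) / r θ m)) := by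
  rw [src_eq, tgt_eq]
  have hr := r_pos hθ m
  have hr' := r_le hθ hθ' m
  have e := gate_x2 hθ hev A hl z hz hx
  have hg := gx_bd hθ hθ' m l
  have hg1 : |gx θ m l| ≤ 1 := by
    rw [abs_of_nonneg hg.1]; norm_num at hg ⊢; linarith
  have hX := X_ge m l
  set a := z.1 + ω z with ha_def
  set b := bb l z with hb_def
  -- a general bound
  have hcol : ∀ t : ℝ, |t| ≤ 1 → |X m l + gx θ m l + r θ m * t - X m l| ≤ 10 := by
    intro t ht
    have : X m l + gx θ m l + r θ m * t - X m l = gx θ m l + r θ m * t := by ring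
    rw [this]
    have h3 : |r θ m * t| ≤ 1 := by
      rw [abs_mul, abs_of_pos hr]
      calc r θ m * |t| ≤ 1 / 10 ^ 24 * 1 := by gcongr
        _ ≤ 1 := by norm_num
    calc _ ≤ |gx θ m l| + |r θ m * t| := abs_add_le _ _
      _ ≤ 10 := by linarith
  have hband : ∀ t : ℝ, |t| ≤ 1 / 100 → |gs θ m l + r θ m * t - gs θ m l| ≤ r θ m / 100 := by
    intro t ht
    rw [add_sub_cancel_left, abs_mul, abs_of_pos hr]
    calc r θ m * |t| ≤ r θ m * (1 / 100) := by gcongr
      _ = _ := by ring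
  have hband' : ∀ t : ℝ, |t| ≤ 1 / 100 → |ts θ m l + r θ m * t - ts θ m l| ≤ r θ m / 100 := by
    intro t ht
    rw [add_sub_cancel_left, abs_mul, abs_of_pos hr]
    calc r θ m * |t| ≤ r θ m * (1 / 100) := by gcongr
      _ = _ := by ring
  -- steps 1-3
  have s1 : step3 A (step2 A (step1 A (gx θ m l + r θ m * (sg l * z.1), gs θ m l + r θ m * (sg l * z.2.1),
      gξ θ m l + r θ m * z.2.2))) = (X m l + gx θ m l + r θ m * (sg l * a), gs θ m l + r θ m * (sg l * b),
      gξ θ m l + r θ m * z.2.2) := by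
    have e4 : (gξ θ m l + r θ m * z.2.2 - gξ θ m l) / r θ m = z.2.2 := by
      field_simp; ring
    simp only [step3, step2, step1, e]
    rw [pn_near A hl (hcol _ (by rw [sgmul]; linarith)), e4]
    refine Prod.ext rfl (Prod.ext ?_ rfl)
    simp only
    rw [hb_def, ← bb_eq]; ring
  -- step 4
  have s2 : step4 A (X m l + gx θ m l + r θ m * (sg l * a), gs θ m l + r θ m * (sg l * b),
      gξ θ m l + r θ m * z.2.2) = (X m l + gx θ m l + r θ m * (sg l * a), gs θ m l + r θ m * (sg l * b),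
      tξ θ m l + r θ m * (z.2.2 + 4 * (1 - ψ (1000 * a) * ψ (1000 * b)) / r θ m)) := by
    have h1 := hcol (sg l * a) (by rw [sgmul]; linarith)
    have h2 : 20 ≤ |X m l + gx θ m l + r θ m * (sg l * a)| := by
      have := (abs_le.mp h1).1
      exact le_trans (by linarith) (le_abs_self _)
    simp only [step4]
    refine Prod.ext rfl (Prod.ext rfl ?_)
    simp only
    rw [ψ_zero (t := (X m l + gx θ m l + r θ m * (sg l * a)) / 5), ψ_zero
      (t := (X m l + gx θ m l + r θ m * (sg l * a)) / 10), b1_near A hl h1,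
      A.al_in m l hl _ _ (by linarith)]
    · have e1 : (X m l + gx θ m l + r θ m * (sg l * a) - X m l - gx θ m l) / (r θ m / 1000) =
        sg l * (1000 * a) := by field_simp; ring
      have e2 : (gs θ m l + r θ m * (sg l * b) - gs θ m l) / (r θ m / 1000) = sg l * (1000 * b) := by
        field_simp; ring
      rw [e1, e2, ψ_sg, ψ_sg]
      field_simp
      ring
    · rw [abs_div, abs_of_pos (by norm_num : (0:ℝ) < 10), le_div_iff₀ (by norm_num)]; linarith
    · rw [abs_div, abs_of_pos (by norm_num : (0:ℝ) < 5), le_div_iff₀ (by norm_num)]; linarith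
  -- the flips
  have s3 : ∀ ξ, stepU A (stepL A (stepU A (stepL A (X m l + gx θ m l + r θ m * (sg l * a),
      gs θ m l + r θ m * (sg l * b), ξ)))) = (X m l + gx θ m l + r θ m * (sg (l + 1) * a),
      gs θ m l + r θ m * (sg (l + 1) * b), ξ) := by
    intro ξ
    have hsa : |sg l * a| ≤ 2 / 1000 := by rw [sgmul]; exact ha
    have hsb : |sg l * b| ≤ 2 / 1000 := by rw [sgmul]; exact hb
    have hfl := flip_eq l
    set α := sg l * a with hα
    set β := sg l * b with hβ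
    have hα' : sg (l + 1) * a = (1 - 2 * flip l) * α := by
      rw [hfl, hα]; linear_combination (-(sg (l + 1) * a)) * sg_sq l
    have hβ' : sg (l + 1) * b = (1 - 2 * flip l) * β := by
      rw [hfl, hβ]; linear_combination (-(sg (l + 1) * b)) * sg_sq l
    rw [hα', hβ']
    have hA := abs_le.mp hsa
    have hB := abs_le.mp hsb
    -- first L
    have t1 : stepL A (X m l + gx θ m l + r θ m * α, gs θ m l + r θ m * β, ξ) =
        (X m l + gx θ m l + r θ m * α, gs θ m l + r θ m * (β + flip l * (2 * α)), ξ) := by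
      simp only [stepL]
      rw [b2_near A hl (hcol _ (by linarith))]
      refine Prod.ext rfl (Prod.ext ?_ rfl)
      simp only; ring
    have t2 : ∀ β₁, |β₁| ≤ 1 / 100 → ∀ α, stepU A (X m l + gx θ m l + r θ m * α, gs θ m l + r θ m * β₁, ξ) =
        (X m l + gx θ m l + r θ m * (α - flip l * β₁), gs θ m l + r θ m * β₁, ξ) := by
      intro β₁ hβ₁ α
      simp only [stepU]
      rw [a2_near A hl hθ (hband _ hβ₁)]
      refine Prod.ext ?_ rfl
      simp only; ring
    have t3 : ∀ α₁, |α₁| ≤ 1 → ∀ β, stepL A (X m l + gx θ m l + r θ m * α₁, gs θ m l + r θ m * β, ξ) =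
        (X m l + gx θ m l + r θ m * α₁, gs θ m l + r θ m * (β + flip l * (2 * α₁)), ξ) := by
      intro α₁ hα₁ β
      simp only [stepL]
      rw [b2_near A hl (hcol _ hα₁)]
      refine Prod.ext rfl (Prod.ext ?_ rfl)
      simp only; ring
    rcases flip_cases l with hf | hf
    · rw [t1, t2 _ (by rw [hf, zero_mul, add_zero]; linarith), t3 _ (by rw [hf, zero_mul, sub_zero]; linarith),
        t2 _ (by rw [hf]; simp only [zero_mul, add_zero]; linarith), hf]
      simp
    · rw [t1, t2 _ (by rw [hf, abs_le]; constructor <;> linarith),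
        t3 _ (by rw [hf, abs_le]; constructor <;> linarith),
        t2 _ (by rw [hf, abs_le]; constructor <;> linarith), hf]
      refine Prod.ext ?_ (Prod.ext ?_ rfl)
      · simp only; ring
      · simp only; ring
  have e0 : ∀ p, theMap A p = step10 A (step9 A (stepU A (stepL A (stepU A (stepL A (step4 A
    (step3 A (step2 A (step1 A p))))))))) := fun p => rfl
  rw [e0, s1, s2, s3]
  simp only [step9, step10]
  rw [b3_near A hl (hcol _ (by rw [sgmul]; linarith))]
  have e9 : gs θ m l + r θ m * (sg (l + 1) * b) + (1 + (ts θ m l - gs θ m l - 1)) =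
      ts θ m l + r θ m * (sg (l + 1) * b) := by ring
  rw [e9, a3_near A hl hθ (hband' _ (by rw [sgmul]; linarith))]
  refine Prod.ext ?_ rfl
  simp only; ring

end gate

/-! ### outside the gates -/

theorem kill_band (hθ : 0 < θ) (hθ' : θ ≤ 1 / 10 ^ 24) (h0 : ∀ z, 0 ≤ ω z) (hup : ∀ z, ω z ≤ 1 / 10 ^ 11)
    (A : Atoms θ ω) {m l : ℕ} (hl : l ≤ 7) (p : E) (h50 : |p.2.1 - gs θ m l| ≤ r θ m / 50)
    (h : r θ m / 100 ≤ |p.2.1 - gs θ m l| ∨ 10 ≤ |p.1|) : p.2.2 + 3 ≤ (theMap A p).2.2 := by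
  have hr := r_pos hθ m
  have hr' := r_le hθ hθ' m
  refine kill hθ hθ' A p rfl ?_ ?_
  · intro m' l' hl' hx' _
    have hr2 := r_pos hθ m'
    set x₂ := p.1 + A.a1 p.2.1 + A.wd (p.1 + A.a1 p.2.1, p.2.1, p.2.2) with hx₂
    have hpn := pn_bd hθ A hl' hx' p.2.2
    by_cases hc : m = m' ∧ l = l'
    · obtain ⟨rfl, rfl⟩ := hc
      by_cases h1 : r θ m / 100 ≤ |p.2.1 - gs θ m l|
      · right
        have h2 : |p.2.1 - gs θ m l| ≤ |p.2.1 + A.pn x₂ p.2.2 - gs θ m l| + |A.pn x₂ p.2.2| := by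
          have : p.2.1 - gs θ m l = (p.2.1 + A.pn x₂ p.2.2 - gs θ m l) - A.pn x₂ p.2.2 := by ring
          calc |p.2.1 - gs θ m l| = _ := congrArg _ this
            _ ≤ _ := abs_sub _ _
        rw [abs_of_nonneg hpn.1] at h2
        linarith [hpn.2]
      · left
        have h10 : 10 ≤ |p.1| := by
          rcases h with h | h
          · exact absurd h h1
          · exact h
        have ha1 : A.a1 p.2.1 = X m l := a1_near A hl hθ (not_le.mp h1).le
        have hwd := wd_bd hθ hθ' h0 hup A (p.1 + A.a1 p.2.1, p.2.1, p.2.2)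
        have hg := gx_bd hθ hθ' m l
        have e : p.1 = (x₂ - X m l - gx θ m l) + gx θ m l - A.wd (p.1 + A.a1 p.2.1, p.2.1, p.2.2) := by
          rw [hx₂, ha1]; ring
        have h2 : |p.1| ≤ |x₂ - X m l - gx θ m l| + |gx θ m l| +
            |A.wd (p.1 + A.a1 p.2.1, p.2.1, p.2.2)| := by
          calc |p.1| = _ := congrArg _ e
            _ ≤ _ := le_trans (abs_sub _ _) (add_le_add_left (abs_add_le _ _) _)
        rw [abs_of_nonneg hg.1] at h2
        norm_num at hg hr' ⊢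
        linarith
    · right
      have hsep := gs_sep hθ hθ' hl hl' hc
      have h2 : |gs θ m l - gs θ m' l'| ≤ |p.2.1 + A.pn x₂ p.2.2 - gs θ m' l'|
          + |p.2.1 - gs θ m l| + |A.pn x₂ p.2.2| := by
        have : gs θ m l - gs θ m' l' = (p.2.1 + A.pn x₂ p.2.2 - gs θ m' l')
          - (p.2.1 - gs θ m l) - A.pn x₂ p.2.2 := by ring
        calc |gs θ m l - gs θ m' l'| = _ := congrArg _ this
          _ ≤ _ := le_trans (abs_sub _ _) (add_le_add_left (abs_sub _ _) _)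
      rw [abs_of_nonneg hpn.1] at h2
      linarith [hsep.1, hsep.2, hpn.2]
  · intro _
    have := A.a4_in m l hl p.2.1 h50
    have := A.a5_nonneg p.2.1
    linarith

section noband
variable (hθ : 0 < θ) (hθ' : θ ≤ 1 / 10 ^ 24) (A : Atoms θ ω) (p : E)
  (hn : ∀ m l, l ≤ 7 → r θ m / 50 ≤ |p.2.1 - gs θ m l|)
include hn

theorem nb_x2 : p.1 + A.a1 p.2.1 + A.wd (p.1 + A.a1 p.2.1, p.2.1, p.2.2) = p.1 := by
  rw [A.a1_out _ hn, A.wd_out (p.1 + 0, p.2.1, p.2.2) fun m l hl => Or.inr (hn m l hl)]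
  ring

include hθ hθ'

theorem kill_nb (h : 10 < |p.1| ∨ 1 ≤ A.a5 p.2.1) : p.2.2 + 3 ≤ (theMap A p).2.2 := by
  refine kill hθ hθ' A p (nb_x2 A p hn).symm ?_ ?_
  · intro m' l' hl' hx' _
    right
    have hr2 := r_pos hθ m'
    have hpn := pn_bd hθ A hl' hx' p.2.2
    have h1 := hn m' l' hl'
    have h2 : |p.2.1 - gs θ m' l'| ≤ |p.2.1 + A.pn p.1 p.2.2 - gs θ m' l'| + |A.pn p.1 p.2.2| := by
      have : p.2.1 - gs θ m' l' = (p.2.1 + A.pn p.1 p.2.2 - gs θ m' l') - A.pn p.1 p.2.2 := by ring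
      calc |p.2.1 - gs θ m' l'| = _ := congrArg _ this
        _ ≤ _ := abs_sub _ _
    rw [abs_of_nonneg hpn.1] at h2
    linarith [hpn.2]
  · intro h10
    rcases h with h | h
    · exact absurd h10 (not_le.mpr h)
    · have := A.a4_nonneg p.2.1
      linarith

omit hθ hθ' in
theorem val_nb (h10 : |p.1| ≤ 10) (ht : ∀ m l, l ≤ 7 → r θ m / 50 ≤ |p.2.1 + 1 - ts θ m l|) :
    theMap A p = (p.1, p.2.1 + 1, p.2.2 + ((1 - ψ (p.1 / 5)) * (4 * (1 - A.al p.1 p.2.1))
      + ψ (p.1 / 10) * (4 * (A.a4 p.2.1 + A.a5 p.2.1)))) := by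
  have hfar := far (show |p.1| ≤ 11 by linarith)
  have e1 := nb_x2 A p hn
  have hpn : ∀ ξ, A.pn p.1 ξ = 0 := fun ξ => A.pn_out _ _ fun m l _ => hfar m l
  have hb1 : A.b1 p.1 = 0 := A.b1_out _ fun m l _ => hfar m l
  have hb2 : A.b2 p.1 = 0 := A.b2_out _ fun m l _ => hfar m l
  have hb3 : A.b3 p.1 = 0 := A.b3_out _ fun m l _ => hfar m l
  have ha2 : A.a2 p.2.1 = 0 := A.a2_out _ hn
  have ha3 : A.a3 (p.2.1 + 1) = 0 := A.a3_out _ ht
  have s1 : step2 A (step1 A p) = p := by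
    simp only [step2, step1, e1]
  simp only [theMap]
  rw [s1]
  simp only [step3, step4, stepL, stepU, step9, step10, hpn, hb1, hb2, hb3, ha2, ha3, add_zero, sub_zero]

omit hθ hθ' hn in
theorem nn_nb : 0 ≤ (1 - ψ (p.1 / 5)) * (4 * (1 - A.al p.1 p.2.1))
      + ψ (p.1 / 10) * (4 * (A.a4 p.2.1 + A.a5 p.2.1)) := by
  have h1 := al_le_one A p.1 p.2.1
  have h2 := ψ_le_one (p.1 / 5)
  have h3 := ψ_nonneg (p.1 / 10)
  have h4 := A.a4_nonneg p.2.1
  have h5 := A.a5_nonneg p.2.1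
  have h6 : 0 ≤ 1 - ψ (p.1 / 5) := by linarith
  have h7 : 0 ≤ 1 - A.al p.1 p.2.1 := by linarith
  positivity

end noband

theorem quiet (hθ : 0 < θ) (A : Atoms θ ω) (p : E) (h5 : |p.1| ≤ 5)
    (hs : ∀ m l, l ≤ 7 → r θ m / 25 ≤ |p.2.1 - gs θ m l|)
    (ht : ∀ m l, l ≤ 7 → r θ m / 25 ≤ |p.2.1 + 1 - ts θ m l|) :
    theMap A p = (p.1, p.2.1 + 1, p.2.2) := by
  have h1 : ∀ m l, l ≤ 7 → r θ m / 50 ≤ |p.2.1 - gs θ m l| := fun m l hl => by
    have := r_pos hθ m
    linarith [hs m l hl]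
  have h2 : ∀ m l, l ≤ 7 → r θ m / 50 ≤ |p.2.1 + 1 - ts θ m l| := fun m l hl => by
    have := r_pos hθ m
    linarith [ht m l hl]
  rw [val_nb A p h1 (by linarith) h2, A.a4_out _ hs, A.a5_out _ ht, ψ_one (t := p.1 / 5)]
  · simp
  · rw [abs_div, abs_of_pos (by norm_num : (0:ℝ) < 5), div_le_one (by norm_num)]
    exact h5

theorem gs_ge (hθ : 0 < θ) (hθ' : θ ≤ 1 / 10 ^ 24) (m l : ℕ) : 9 / 10 ≤ gs θ m l := by
  have a1 := r_pos hθ m
  have a3 := r_le hθ hθ' m
  have b := q_bd l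
  have c := uy_nonneg hθ m
  unfold gs
  have : r θ m * (-3) ≤ r θ m * (q l).2.1 := by gcongr; exact b.2.2.1
  have : (0 : ℝ) ≤ m := by positivity
  norm_num at a3
  linarith

theorem ts_lt (m l : ℕ) (h : l < 7) : ts θ m l = r θ m * (q (l + 1)).2.1 - m := by
  unfold ts tgt
  rw [if_pos h]; simp [D]

theorem ts_top (hθ : 0 < θ) (m : ℕ) : 2 ≤ ts θ m 7 := by
  unfold ts tgt
  rw [if_neg (by omega)]
  simp only [U]
  have := uy_nonneg hθ (m + 1)
  push_cast
  have h2 : (0 : ℝ) ≤ m := by positivity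
  simp
  linarith

end Pool.Agent.H718R2.A3

namespace Pool.Agent.H718R2

open A3

/-- Module A3 -/
theorem sys_of_atoms {θ : ℝ} (hθ : 0 < θ) (hθ' : θ ≤ 1 / 10 ^ 24) {ω : E → ℝ}
    (h0 : ∀ z, 0 ≤ ω z) (hup : ∀ z, ω z ≤ 1 / 10 ^ 11)
    (hev : ∀ z : E, ω (-z.1, -z.2.1, z.2.2) = ω z) (A : Atoms θ ω) : Sys θ ω (theMap A) where
  gentle := by
    intro m l hl z hz1 hz2 hz3
    have hr := r_pos hθ m
    have hr' := r_le hθ hθ' m
    have hg := gx_bd hθ hθ' m l
    have hx : |gx θ m l + r θ m * (sg l * z.1)| ≤ 10 := by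
      have h3 : |r θ m * (sg l * z.1)| ≤ 1 := by
        rw [abs_mul, sgmul, abs_of_pos hr]
        calc r θ m * |z.1| ≤ 1 / 10 ^ 24 * (1 / 2000) := by gcongr
          _ ≤ 1 := by norm_num
      have h4 : |gx θ m l| ≤ 1 := by
        rw [abs_of_nonneg hg.1]; norm_num at hg ⊢; linarith
      calc _ ≤ |gx θ m l| + |r θ m * (sg l * z.1)| := abs_add_le _ _
        _ ≤ 10 := by linarith
    have ha : |z.1 + ω z| ≤ 1 / 1000 := by
      have h1 := h0 z
      have h2 := hup z
      have h3 := abs_le.mp hz1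
      norm_num at h2 h3
      rw [abs_le]; constructor <;> norm_num <;> linarith
    have hb : bb l z = z.2.1 := by
      unfold bb
      rw [ψ_one hz3]; ring
    rw [gate_val hθ hθ' hev A hl z (by linarith) hx (by linarith) (by rw [hb]; linarith), hb,
      ψ_one (t := 1000 * (z.1 + ω z)), ψ_one (t := 1000 * z.2.1)]
    · congr 3
      refine Prod.ext rfl (Prod.ext ?_ ?_) <;> simp
    · rw [abs_mul, abs_of_pos (by norm_num : (0:ℝ) < 1000)]; linarith
    · rw [abs_mul, abs_of_pos (by norm_num : (0:ℝ) < 1000)]; linarith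
  rigid := by
    intro m l hl z hz2
    have hr := r_pos hθ m
    by_cases hx : |gx θ m l + r θ m * (sg l * z.1)| ≤ 10
    · by_cases hd : |z.1 + ω z| < 2 / 1000 ∧ |bb l z| < 2 / 1000
      · right
        have hξ : |z.2.2| < 2 := by
          by_contra hcon
          have h1 : ψ z.2.2 = 0 := ψ_zero (not_lt.mp hcon)
          have h2 : |bb l z| < 2 / 1000 := hd.2
          unfold bb at h2
          rw [h1] at h2
          have h3 := abs_le.mp hz2
          have h4 := abs_lt.mp h2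
          rcases sg_cases l with h | h <;> rw [h] at h4 <;> linarith [h3.1, h3.2, h4.1, h4.2]
        refine ⟨hξ, hd.1.le, bb l z, 4 * (1 - ψ (1000 * (z.1 + ω z)) * ψ (1000 * bb l z)) / r θ m,
          hd.2.le, ?_, gate_val hθ hθ' hev A hl z (by linarith) hx hd.1.le hd.2.le, ?_⟩
        · have h1 := mul_le_one₀ (ψ_le_one (1000 * (z.1 + ω z))) (ψ_nonneg (1000 * bb l z))
            (ψ_le_one (1000 * bb l z))
          apply div_nonneg _ hr.le
          linarith
        · intro h1 h2 h3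
          have hb : bb l z = z.2.1 := by
            unfold bb
            rw [ψ_one h3]; ring
          refine ⟨hb, ?_⟩
          rw [hb, ψ_one (t := 1000 * (z.1 + ω z)), ψ_one (t := 1000 * z.2.1)]
          · simp
          · rw [abs_mul, abs_of_pos (by norm_num : (0:ℝ) < 1000)]; linarith
          · rw [abs_mul, abs_of_pos (by norm_num : (0:ℝ) < 1000)]; linarith
      · left
        exact gate_kill hθ hθ' hev A hl z (by linarith) hx h0 hup hd
    · left
      refine kill_band (m := m) (l := l) hθ hθ' h0 hup A hl _ ?_ (Or.inr ?_)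
      · rw [src_eq]
        simp only
        rw [add_sub_cancel_left, abs_mul, sgmul, abs_of_pos hr]
        calc r θ m * |z.2.1| ≤ r θ m * (3 / 1000) := by gcongr
          _ ≤ _ := by linarith
      · rw [src_eq]
        exact (not_le.mp hx).le
  tri := by
    intro p
    by_cases h : ∃ m l, l ≤ 7 ∧ |p.2.1 - gs θ m l| < r θ m / 50
    · obtain ⟨m, l, hl, h50⟩ := h
      have hr := r_pos hθ m
      by_cases hc : |p.2.1 - gs θ m l| ≤ r θ m / 100 ∧ |p.1| ≤ 10
      · obtain ⟨z, hz⟩ : ∃ z : E, z = (sg l * ((p.1 - gx θ m l) / r θ m), sg l * ((p.2.1 - gs θ m l) / r θ m),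
          (p.2.2 - gξ θ m l) / r θ m) := ⟨_, rfl⟩
        have hσ := sg_sq l
        have h1 : gx θ m l + r θ m * (sg l * z.1) = p.1 := by
          rw [hz]
          have : sg l * (sg l * ((p.1 - gx θ m l) / r θ m)) = (p.1 - gx θ m l) / r θ m := by
            rw [← mul_assoc, hσ, one_mul]
          simp only [this]
          field_simp; ring
        have h2 : gs θ m l + r θ m * (sg l * z.2.1) = p.2.1 := by
          rw [hz]
          have : sg l * (sg l * ((p.2.1 - gs θ m l) / r θ m)) = (p.2.1 - gs θ m l) / r θ m := by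
            rw [← mul_assoc, hσ, one_mul]
          simp only [this]
          field_simp; ring
        have h3 : gξ θ m l + r θ m * z.2.2 = p.2.2 := by
          rw [hz]
          simp only
          field_simp; ring
        have hp : p = U θ m (r θ m • (q l + R (sg l) z)) := by
          rw [src_eq, h1, h2, h3]
        have hz2 : |z.2.1| ≤ 1 / 100 := by
          rw [hz]
          simp only
          rw [sgmul, abs_div, abs_of_pos hr, div_le_iff₀ hr]
          linarith [hc.1]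
        have hx : |gx θ m l + r θ m * (sg l * z.1)| ≤ 10 := by rw [h1]; exact hc.2
        by_cases hd : |z.1 + ω z| < 2 / 1000 ∧ |bb l z| < 2 / 1000
        · right; left
          refine ⟨m, l, hl, z, hp, hz2, hd.1.le, bb l z,
            4 * (1 - ψ (1000 * (z.1 + ω z)) * ψ (1000 * bb l z)) / r θ m, hd.2.le, ?_, ?_⟩
          · have h1 := mul_le_one₀ (ψ_le_one (1000 * (z.1 + ω z))) (ψ_nonneg (1000 * bb l z))
              (ψ_le_one (1000 * bb l z))
            apply div_nonneg _ hr.le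
            linarith
          · rw [hp]
            exact gate_val hθ hθ' hev A hl z hz2 hx hd.1.le hd.2.le
        · left
          rw [hp]
          exact gate_kill hθ hθ' hev A hl z hz2 hx h0 hup hd
      · left
        refine kill_band hθ hθ' h0 hup A hl p h50.le ?_
        by_cases h1 : |p.2.1 - gs θ m l| ≤ r θ m / 100
        · right
          by_contra h2
          exact hc ⟨h1, (not_le.mp h2).le⟩
        · left
          exact (not_le.mp h1).le
    · push Not at h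
      by_cases h10 : |p.1| ≤ 10
      · by_cases ht : ∃ m l, l ≤ 7 ∧ |p.2.1 + 1 - ts θ m l| < r θ m / 50
        · obtain ⟨m, l, hl, ht⟩ := ht
          left
          exact kill_nb hθ hθ' A p h (Or.inr (A.a5_in m l hl _ ht.le))
        · push Not at ht
          right; right
          refine ⟨fun m l hl => ?_, _, nn_nb A p, val_nb A p h h10 ht⟩
          have h9 := h m l hl
          have e9 : (U θ m (r θ m • q l)).2.1 = gs θ m l := by
            simp [U, gs, add_assoc]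
          rw [e9]; exact h9
      · left
        exact kill_nb hθ hθ' A p h (Or.inl (not_le.mp h10))
  climb := by
    intro m z h1 h2
    have hr := r_pos hθ m
    have hr' := r_le hθ hθ' m
    have hz := abs_le.mp h2
    have e : D m z = ((D (m + 1) z).1, (D (m + 1) z).2.1 + 1, (D (m + 1) z).2.2) := by
      simp only [D]; push_cast
      refine Prod.ext rfl (Prod.ext ?_ rfl)
      simp only; ring
    rw [e]
    norm_num at hr'
    have hm0 : (0 : ℝ) ≤ m := by positivity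
    refine quiet hθ A _ h1 ?_ ?_
    · intro m' l' _
      have h3 := gs_ge hθ hθ' m' l'
      have h4 := r_le hθ hθ' m'
      simp only [D]
      rw [abs_sub_comm]
      norm_num at h4
      refine le_trans ?_ (le_abs_self _)
      push_cast
      linarith
    · intro m' l' hl'
      have hr2 := r_pos hθ m'
      have h4 := r_le hθ hθ' m'
      norm_num at h4
      simp only [D]
      push_cast
      by_cases h7 : l' < 7
      · rw [ts_lt m' l' h7]
        have hq := q_bd (l' + 1)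
        have hq1 : r θ m' * (-3) ≤ r θ m' * (q (l' + 1)).2.1 := by gcongr; exact hq.2.2.1
        have hq2 : r θ m' * (q (l' + 1)).2.1 ≤ r θ m' * 4 := by gcongr; exact hq.2.2.2.1
        rcases lt_trichotomy m m' with h | h | h
        · have h5 : (m : ℝ) + 1 ≤ m' := by exact_mod_cast h
          refine le_trans ?_ (le_abs_self _)
          linarith
        · subst h
          have h5 := q_ne l' h7
          have h6 : r θ m * 1 ≤ |r θ m * (q (l' + 1)).2.1| := by
            rw [abs_mul, abs_of_pos hr]; gcongr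
          have h7 : |r θ m * (q (l' + 1)).2.1| ≤ |z.2.1 - (↑m + 1) + 1 - (r θ m * (q (l' + 1)).2.1 - ↑m)| + |z.2.1| := by
            have : r θ m * (q (l' + 1)).2.1 = z.2.1 - (z.2.1 - (↑m + 1) + 1 - (r θ m * (q (l' + 1)).2.1 - ↑m)) := by
              ring
            calc |r θ m * (q (l' + 1)).2.1| = _ := congrArg _ this
              _ ≤ _ := le_trans (abs_sub _ _) (by rw [add_comm])
          linarith
        · have h5 : (m' : ℝ) + 1 ≤ m := by exact_mod_cast h
          rw [abs_sub_comm]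
          refine le_trans ?_ (le_abs_self _)
          linarith
      · have : l' = 7 := by omega
        subst this
        have h5 := ts_top hθ m'
        rw [abs_sub_comm]
        refine le_trans ?_ (le_abs_self _)
        linarith
  core := by
    intro z h1 h2
    have hz := abs_le.mp h2
    have e : U θ 0 z = ((D 0 z).1, (D 0 z).2.1 + 1, (D 0 z).2.2) := by
      simp [D, U, uy]
    rw [e]
    refine quiet hθ A _ h1 ?_ ?_
    · intro m' l' _
      have h3 := gs_ge hθ hθ' m' l'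
      have h4 := r_le hθ hθ' m'
      simp only [D]
      rw [abs_sub_comm]
      norm_num at h4
      refine le_trans ?_ (le_abs_self _)
      push_cast
      linarith
    · intro m' l' hl'
      have hr2 := r_pos hθ m'
      have h4 := r_le hθ hθ' m'
      norm_num at h4
      simp only [D]
      push_cast
      have hm0 : (0 : ℝ) ≤ m' := by positivity
      by_cases h7 : l' < 7
      · rw [ts_lt m' l' h7]
        have hq := q_bd (l' + 1)
        have hq2 : r θ m' * (q (l' + 1)).2.1 ≤ r θ m' * 4 := by gcongr; exact hq.2.2.2.1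
        refine le_trans ?_ (le_abs_self _)
        linarith
      · have : l' = 7 := by omega
        subst this
        have h5 := ts_top hθ m'
        rw [abs_sub_comm]
        refine le_trans ?_ (le_abs_self _)
        linarith

end Pool.Agent.H718R2
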