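import Pool.Agent.H718R2.Defs

/-!
# Allowed perturbations
-/

namespace Pool.Agent.H718R2

/-- perturbations allowed: `u = F - f` -/
structure Pert (θ : ℝ) (u : E → E) : Prop where
  smooth : ContDiff ℝ 2 u
  b0 : ∀ (p : E) (m : ℕ), (m : ℝ) - 1 ≤ |p.2.1| → ‖u p‖ ≤ θ ^ (12 * (m + 1))
  b1 : ∀ (p : E) (m : ℕ), (m : ℝ) - 1 ≤ |p.2.1| → ‖fderiv ℝ u p‖ ≤ θ ^ (12 * (m + 1))
  b2 : ∀ (p : E) (m : ℕ), (m : ℝ) - 1 ≤ |p.2.1| → ‖fderiv ℝ (fderiv ℝ u) p‖ ≤ θ ^ (12 * (m + 1))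

end Pool.Agent.H718R2
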