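import Pool.Agent.H718R2.Defs2
import Pool.Agent.H718R2.Pert

/-!
# Module D, part 0: basic facts
-/

namespace Pool.Agent.H718R2

theorem n1 (p : E) : |p.1| ≤ ‖p‖ := norm_fst_le p
theorem n2 (p : E) : |p.2.1| ≤ ‖p‖ := (norm_fst_le p.2).trans (norm_snd_le p)
theorem n3 (p : E) : |p.2.2| ≤ ‖p‖ := (norm_snd_le p.2).trans (norm_snd_le p)

theorem nle {p : E} {c : ℝ} (h1 : |p.1| ≤ c) (h2 : |p.2.1| ≤ c) (h3 : |p.2.2| ≤ c) : ‖p‖ ≤ c := by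
  rw [Prod.norm_def, Prod.norm_def]
  exact max_le h1 (max_le h2 h3)

theorem θ_small {κ θ : ℝ} (hκ : 0 < κ) (hκ' : κ ≤ 1 / 10 ^ 12) (hθ : θ = κ ^ 24) :
    0 < θ ∧ θ ≤ 1 / 10 ^ 24 := by
  refine ⟨hθ ▸ pow_pos hκ 24, ?_⟩
  rw [hθ]
  calc κ ^ 24 ≤ (1 / 10 ^ 12) ^ 24 := pow_le_pow_left₀ hκ.le hκ' 24
    _ ≤ 1 / 10 ^ 24 := by norm_num

section
variable {θ : ℝ}

theorem r_pos (h : 0 < θ) (m : ℕ) : 0 < r θ m := pow_pos h _

theorem r_succ (m : ℕ) : r θ (m + 1) = θ * r θ m := by unfold r; ring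

theorem r_zero : r θ 0 = θ := by unfold r; ring

theorem r_le (h : 0 < θ) (h1 : θ ≤ 1 / 10 ^ 24) (m : ℕ) : r θ m ≤ θ := by
  unfold r
  calc θ ^ (m + 1) ≤ θ ^ 1 := pow_le_pow_of_le_one h.le (by linarith) (by omega)
    _ = θ := pow_one _

theorem r_anti (h : 0 < θ) (h1 : θ ≤ 1 / 10 ^ 24) {m k : ℕ} (hk : k ≤ m) : r θ m ≤ r θ k := by
  unfold r
  exact pow_le_pow_of_le_one h.le (by linarith) (by omega)

theorem r_lt (h : 0 < θ) (h1 : θ ≤ 1 / 10 ^ 24) {m k : ℕ} (hk : k < m) : r θ m ≤ θ * r θ k := by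
  rw [← r_succ]; exact r_anti h h1 hk

theorem uy_zero : uy θ 0 = 0 := by simp [uy]

theorem uy_succ (m : ℕ) : uy θ (m + 1) = uy θ m + 4 * r θ m := by
  unfold uy; rw [Finset.sum_range_succ]; ring

theorem uy_nonneg (h : 0 < θ) (m : ℕ) : 0 ≤ uy θ m := by
  induction m with
  | zero => simp [uy_zero]
  | succ m ih => rw [uy_succ]; have := r_pos h m; linarith

theorem uy_le (h : 0 < θ) (h1 : θ ≤ 1 / 10 ^ 24) (m : ℕ) : uy θ m ≤ 8 * θ - 8 * r θ m := by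
  induction m with
  | zero => simp [uy_zero, r_zero]
  | succ m ih =>
    rw [uy_succ, r_succ]
    have := r_pos h m
    nlinarith

theorem uy_le' (h : 0 < θ) (h1 : θ ≤ 1 / 10 ^ 24) (m : ℕ) : uy θ m ≤ 8 * θ := by
  have := uy_le h h1 m
  have := r_pos h m
  linarith

/-- error powers -/
theorem er_r (h : 0 < θ) (h1 : θ ≤ 1 / 10 ^ 24) (m : ℕ) :
    θ ^ (12 * (m + 1)) ≤ θ ^ 11 * r θ m := by
  unfold r
  rw [← pow_add]
  exact pow_le_pow_of_le_one h.le (by linarith) (by omega)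

theorem er_0 (h : 0 < θ) (h1 : θ ≤ 1 / 10 ^ 24) (m : ℕ) :
    θ ^ (12 * (m + 1)) ≤ θ ^ 12 :=
  pow_le_pow_of_le_one h.le (by linarith) (by omega)

theorem er_pos (h : 0 < θ) (m : ℕ) : 0 < θ ^ (12 * (m + 1)) := pow_pos h _

theorem pow_small (h : 0 < θ) (h1 : θ ≤ 1 / 10 ^ 24) {a : ℕ} (ha : 1 ≤ a) : θ ^ a ≤ 1 / 10 ^ 24 := by
  calc θ ^ a ≤ θ ^ 1 := pow_le_pow_of_le_one h.le (by linarith) ha
    _ ≤ 1 / 10 ^ 24 := by simpa using h1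

theorem pow_le_θ (h : 0 < θ) (h1 : θ ≤ 1 / 10 ^ 24) {a : ℕ} (ha : 2 ≤ a) : θ ^ a ≤ θ / 10 ^ 24 := by
  calc θ ^ a ≤ θ ^ 2 := pow_le_pow_of_le_one h.le (by linarith) ha
    _ ≤ θ / 10 ^ 24 := by nlinarith

end

/-- pattern bounds -/
theorem sg_cases (l : ℕ) : sg l = 1 ∨ sg l = -1 := by
  unfold sg; split <;> simp

theorem sg_sq (l : ℕ) : sg l * sg l = 1 := by
  rcases sg_cases l with h | h <;> rw [h] <;> norm_num

theorem abs_sg (l : ℕ) : |sg l| = 1 := by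
  rcases sg_cases l with h | h <;> rw [h] <;> norm_num

theorem sg7 : sg 7 = 1 := rfl
theorem sg8 : sg 8 = 1 := rfl
theorem sg0 : sg 0 = 1 := rfl

theorem q_bd1 (l : ℕ) : 0 ≤ (q l).1 ∧ (q l).1 ≤ 1 := by
  unfold q; split <;> simp
theorem q_bd2 (l : ℕ) : -3 ≤ (q l).2.1 ∧ (q l).2.1 ≤ 4 := by
  unfold q; split <;> norm_num
theorem q_bd3 (l : ℕ) : 0 ≤ (q l).2.2 ∧ (q l).2.2 ≤ 1 := by
  unfold q; split <;> simp

theorem q0 : q 0 = 0 := rfl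
theorem q7 : q 7 = (0, 4, 0) := rfl

/-- the `s`-offsets of the pattern are at distance `≥ 1` -/
theorem q_sep {l l' : ℕ} (hl : l ≤ 7) (hl' : l' ≤ 7) (h : l ≠ l') :
    1 ≤ |(q l).2.1 - (q l').2.1| := by
  interval_cases l <;> interval_cases l' <;> first | (exact absurd rfl h) | (norm_num [q])

theorem R_R {σ : ℝ} (h : σ * σ = 1) (z : E) : R σ (R σ z) = z := by
  simp only [R, ← mul_assoc, h, one_mul]

theorem R_sg (l : ℕ) (z : E) : R (sg l) (R (sg l) z) = z := R_R (sg_sq l) z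

theorem R_add (σ : ℝ) (z w : E) : R σ (z + w) = R σ z + R σ w := by
  simp [R, mul_add]

theorem R_smul (σ c : ℝ) (z : E) : R σ (c • z) = c • R σ z := by
  simp only [R, Prod.smul_mk, Prod.smul_fst, Prod.smul_snd, smul_eq_mul]; ext <;> simp <;> ring

theorem R_one (z : E) : R 1 z = z := by simp [R]

theorem R_norm {σ : ℝ} (h : |σ| = 1) (z : E) : ‖R σ z‖ = ‖z‖ := by
  simp [R, Prod.norm_def, abs_mul, h]

theorem R_sub (σ : ℝ) (z w : E) : R σ (z - w) = R σ z - R σ w := by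
  simp [R, mul_sub]

end Pool.Agent.H718R2
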