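import Pool.Agent.H718R2.D1

/-!
# Module D, part 3: return maps `Ph k` of the levels, statement of the induction hypothesis
-/

namespace Pool.Agent.H718R2

/-- number of steps of the passage `D_k → U_k` -/
def nn : ℕ → ℕ
  | 0 => 1
  | k + 1 => 8 * nn k + 9

noncomputable def Uinv (θ : ℝ) (m : ℕ) (p : E) : E := (p.1, p.2.1 - (m + 1) - uy θ m, p.2.2)
def Dinv (m : ℕ) (p : E) : E := (p.1, p.2.1 + m, p.2.2)

theorem U_Uinv (θ : ℝ) (m : ℕ) (p : E) : U θ m (Uinv θ m p) = p := by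
  unfold U Uinv; ext <;> simp <;> ring
theorem Uinv_U (θ : ℝ) (m : ℕ) (p : E) : Uinv θ m (U θ m p) = p := by
  unfold U Uinv; ext <;> simp <;> ring
theorem D_Dinv (m : ℕ) (p : E) : D m (Dinv m p) = p := by
  unfold D Dinv; ext <;> simp
theorem Dinv_D (m : ℕ) (p : E) : Dinv m (D m p) = p := by
  unfold D Dinv; ext <;> simp

/-- return map of level `k` at unit scale (minus the identity) -/
noncomputable def Ph (θ : ℝ) (F : E → E) (k : ℕ) (ζ : E) : E :=
  (r θ k)⁻¹ • Uinv θ k (F^[nn k] (D k (r θ k • ζ))) - ζ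

theorem Ph_spec {θ : ℝ} (hθ : 0 < θ) (F : E → E) (k : ℕ) (ζ : E) :
    F^[nn k] (D k (r θ k • ζ)) = U θ k (r θ k • (ζ + Ph θ F k ζ)) := by
  have hr : r θ k ≠ 0 := (r_pos hθ k).ne'
  unfold Ph
  rw [add_sub_cancel, smul_smul, mul_inv_cancel₀ hr, one_smul, U_Uinv]

/-- size of the box of level `k` in unit scale -/
noncomputable def LL (κ : ℝ) : ℕ → ℝ
  | 0 => 1 / κ ^ 24
  | _ + 1 => 1 / κ ^ 14

/-- induction hypothesis on the return map of level `k` -/
structure HH (κ θ : ℝ) (F : E → E) (k : ℕ) : Prop where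
  ret : Ret κ θ (LL κ k) (Ph θ F k)
  yb : ∀ ζ ∈ Box (LL κ k), |(Ph θ F k ζ).2.1| ≤ 1 / 2000

end Pool.Agent.H718R2
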