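import Pool.Agent.H718R2.D3

/-!
# Module D, part 3b: error functions of one level, statement of the remaining lemmas

ecF: error of the climb step `D_{k+1} → D_k`; eF: error of the gate step `(k,l)`; unit scale.
-/

namespace Pool.Agent.H718R2

/-- coordinates after the gate -/
noncomputable def nxt (θ : ℝ) (F : E → E) (k l : ℕ) (z : E) : E :=
  if l < 7 then
    R (sg (l + 1)) ((r θ k)⁻¹ • Dinv k (F (U θ k (r θ k • (q l + R (sg l) z)))) - q (l + 1))
  else R (sg (l + 1)) ((r θ k)⁻¹ • Uinv θ (k + 1) (F (U θ k (r θ k • (q l + R (sg l) z)))))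

theorem nxt_eq {θ : ℝ} (hθ : 0 < θ) {F : E → E} {k l : ℕ} {y z : E}
    (h : F (U θ k (r θ k • (q l + R (sg l) z))) = tgt θ k l (r θ k • R (sg (l + 1)) y)) :
    nxt θ F k l z = y := by
  have hr : r θ k ≠ 0 := (r_pos hθ k).ne'
  unfold nxt
  rw [h]
  unfold tgt
  split
  · rw [Dinv_D, smul_add, smul_smul, smul_smul, inv_mul_cancel₀ hr, one_smul, one_smul,
      add_sub_cancel_left, R_sg]
  · rw [Uinv_U, smul_smul, inv_mul_cancel₀ hr, one_smul, R_sg]

/-- `nxt` is the gate map in unit coordinates -/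
theorem nxt_spec {θ : ℝ} (hθ : 0 < θ) (F : E → E) (k l : ℕ) (z : E) :
    F (U θ k (r θ k • (q l + R (sg l) z))) = tgt θ k l (r θ k • R (sg (l + 1)) (nxt θ F k l z)) := by
  have hr : r θ k ≠ 0 := (r_pos hθ k).ne'
  unfold nxt tgt
  split
  · rw [R_sg, smul_sub, smul_smul, mul_inv_cancel₀ hr, one_smul, add_sub_cancel, D_Dinv]
  · rw [R_sg, smul_smul, mul_inv_cancel₀ hr, one_smul, U_Uinv]

/-- climb error -/
noncomputable def ecF (θ : ℝ) (F : E → E) (k : ℕ) (z : E) : E :=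
  (r θ k)⁻¹ • Dinv k (F (D (k + 1) (r θ k • z))) - z

/-- gate error -/
noncomputable def eF (θ : ℝ) (F : E → E) (ω : E → ℝ) (k l : ℕ) (z : E) : E :=
  nxt θ F k l z - z - (ω z, 0, 0)

theorem ecF_spec {θ : ℝ} (hθ : 0 < θ) (F : E → E) (k : ℕ) (z : E) :
    F (D (k + 1) (r θ k • z)) = D k (r θ k • (z + ecF θ F k z)) := by
  have hr : r θ k ≠ 0 := (r_pos hθ k).ne'
  unfold ecF
  rw [add_sub_cancel, smul_smul, mul_inv_cancel₀ hr, one_smul, D_Dinv]

end Pool.Agent.H718R2
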