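import Pool.Agent.H718R2.D3
import Pool.Agent.H718R2.C

/-!
# Module D, part 3h (helper728): the return maps `Ph k` satisfy `HH`
-/

namespace Pool.Agent.H718R2

namespace D3h

theorem D_eq (m : ℕ) (z : E) : D m z = z + ((0, -(m : ℝ), 0) : E) := by
  unfold D; ext <;> simp
  ring

theorem U_eq (θ : ℝ) (m : ℕ) (z : E) : U θ m z = z + ((0, (m : ℝ) + 1 + uy θ m, 0) : E) := by
  unfold U; ext <;> simp
  ring

theorem Dinv_eq (m : ℕ) (z : E) : Dinv m z = z + ((0, (m : ℝ), 0) : E) := by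
  unfold Dinv; ext <;> simp

theorem Uinv_eq (θ : ℝ) (m : ℕ) (z : E) :
    Uinv θ m z = z + ((0, -(m : ℝ) - 1 - uy θ m, 0) : E) := by
  unfold Uinv; ext <;> simp
  ring

theorem Dinv_add (m : ℕ) (z w : E) : Dinv m (z + w) = Dinv m z + w := by
  rw [Dinv_eq, Dinv_eq]; abel

theorem Uinv_add (θ : ℝ) (m : ℕ) (z w : E) : Uinv θ m (z + w) = Uinv θ m z + w := by
  rw [Uinv_eq, Uinv_eq]; abel

theorem diff_D (m : ℕ) : Differentiable ℝ (D m) := by
  have : D m = fun z => z + ((0, -(m : ℝ), 0) : E) := funext (D_eq m)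
  rw [this]; exact differentiable_id.add_const _

theorem diff_U (θ : ℝ) (m : ℕ) : Differentiable ℝ (U θ m) := by
  have : U θ m = fun z => z + ((0, (m : ℝ) + 1 + uy θ m, 0) : E) := funext (U_eq θ m)
  rw [this]; exact differentiable_id.add_const _

theorem diff_Dinv (m : ℕ) : Differentiable ℝ (Dinv m) := by
  have : Dinv m = fun z => z + ((0, (m : ℝ), 0) : E) := funext (Dinv_eq m)
  rw [this]; exact differentiable_id.add_const _

theorem diff_Uinv (θ : ℝ) (m : ℕ) : Differentiable ℝ (Uinv θ m) := by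
  have : Uinv θ m = fun z => z + ((0, -(m : ℝ) - 1 - uy θ m, 0) : E) := funext (Uinv_eq θ m)
  rw [this]; exact differentiable_id.add_const _

theorem diff_R (σ : ℝ) : Differentiable ℝ (R σ) := (ModC.RL σ).differentiable

/-- pulled back perturbation -/
noncomputable def pull (u : E → E) (ρ : ℝ) (σ σ' : ℝ) (c : E) (z : E) : E :=
  ρ⁻¹ • R σ' (u (c + ρ • R σ z))

section pull
variable {u : E → E} {ρ σ σ' : ℝ} {c : E}

theorem pull_hasFDeriv (hu : ContDiff ℝ 2 u) (z : E) :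
    HasFDerivAt (pull u ρ σ σ' c)
      (ρ⁻¹ • (ModC.RL σ').comp ((fderiv ℝ u (c + ρ • R σ z)).comp (ρ • ModC.RL σ))) z := by
  have h1 : HasFDerivAt (fun z : E => c + ρ • R σ z) (ρ • ModC.RL σ) z := by
    have := ((ModC.RL σ).hasFDerivAt (x := z)).const_smul ρ
    exact this.const_add c
  have h2 : HasFDerivAt u (fderiv ℝ u (c + ρ • R σ z)) (c + ρ • R σ z) :=
    ((hu.differentiable (by norm_num)) _).hasFDerivAt
  have h3 := h2.comp z h1
  have h4 := ((ModC.RL σ').hasFDerivAt (x := u (c + ρ • R σ z))).comp z h3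
  exact h4.const_smul ρ⁻¹

theorem pull_diff (hu : ContDiff ℝ 2 u) : Differentiable ℝ (pull u ρ σ σ' c) :=
  fun z => (pull_hasFDeriv hu z).differentiableAt

theorem pull_b0 (hρ : 0 < ρ) (hσ' : |σ'| = 1) {δ : ℝ} {z : E}
    (h : ‖u (c + ρ • R σ z)‖ ≤ δ) : ‖pull u ρ σ σ' c z‖ ≤ ρ⁻¹ * δ := by
  unfold pull
  rw [norm_smul, ModC.norm_R hσ', Real.norm_eq_abs, abs_of_pos (inv_pos.2 hρ)]
  exact mul_le_mul_of_nonneg_left h (inv_pos.2 hρ).le

theorem norm_conj {σ σ' : ℝ} (hρ : 0 < ρ) (hσ : |σ| = 1) (hσ' : |σ'| = 1) (A : E →L[ℝ] E) :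
    ‖ρ⁻¹ • (ModC.RL σ').comp (A.comp (ρ • ModC.RL σ))‖ ≤ ‖A‖ := by
  rw [norm_smul, Real.norm_eq_abs, abs_of_pos (inv_pos.2 hρ)]
  have h1 : ‖ρ • ModC.RL σ‖ ≤ ρ := by
    rw [norm_smul, Real.norm_eq_abs, abs_of_pos hρ]
    calc ρ * ‖ModC.RL σ‖ ≤ ρ * 1 := mul_le_mul_of_nonneg_left (ModC.norm_RL hσ) hρ.le
      _ = ρ := mul_one _
  have h2 : ‖A.comp (ρ • ModC.RL σ)‖ ≤ ‖A‖ * ρ :=
    (ContinuousLinearMap.opNorm_comp_le _ _).trans
      (mul_le_mul_of_nonneg_left h1 (norm_nonneg _))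
  have h3 : ‖(ModC.RL σ').comp (A.comp (ρ • ModC.RL σ))‖ ≤ 1 * (‖A‖ * ρ) :=
    (ContinuousLinearMap.opNorm_comp_le _ _).trans
      (mul_le_mul (ModC.norm_RL hσ') h2 (norm_nonneg _) zero_le_one)
  calc ρ⁻¹ * ‖(ModC.RL σ').comp (A.comp (ρ • ModC.RL σ))‖ ≤ ρ⁻¹ * (1 * (‖A‖ * ρ)) :=
        mul_le_mul_of_nonneg_left h3 (inv_pos.2 hρ).le
    _ = ‖A‖ := by field_simp

theorem pull_b1 (hu : ContDiff ℝ 2 u) (hρ : 0 < ρ) (hσ : |σ| = 1) (hσ' : |σ'| = 1) {δ : ℝ} {z : E}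
    (h : ‖fderiv ℝ u (c + ρ • R σ z)‖ ≤ δ) : ‖fderiv ℝ (pull u ρ σ σ' c) z‖ ≤ δ := by
  rw [(pull_hasFDeriv hu z).fderiv]
  exact (norm_conj hρ hσ hσ' _).trans h

theorem pull_b2 (hu : ContDiff ℝ 2 u) (hρ : 0 < ρ) (hσ : |σ| = 1) (hσ' : |σ'| = 1) {δ : ℝ}
    {S : Set E} (hS : Convex ℝ S)
    (h : ∀ z ∈ S, ‖fderiv ℝ (fderiv ℝ u) (c + ρ • R σ z)‖ ≤ δ) {z w : E} (hz : z ∈ S) (hw : w ∈ S) :
    ‖fderiv ℝ (pull u ρ σ σ' c) z - fderiv ℝ (pull u ρ σ σ' c) w‖ ≤ δ * ρ * ‖z - w‖ := by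
  rw [(pull_hasFDeriv hu z).fderiv, (pull_hasFDeriv hu w).fderiv]
  have e1 : ρ⁻¹ • (ModC.RL σ').comp ((fderiv ℝ u (c + ρ • R σ z)).comp (ρ • ModC.RL σ))
      - ρ⁻¹ • (ModC.RL σ').comp ((fderiv ℝ u (c + ρ • R σ w)).comp (ρ • ModC.RL σ))
      = ρ⁻¹ • (ModC.RL σ').comp ((fderiv ℝ u (c + ρ • R σ z) - fderiv ℝ u (c + ρ • R σ w)).comp
          (ρ • ModC.RL σ)) := by
    refine ContinuousLinearMap.ext fun v => ?_
    simp only [sub_apply, smul_apply, ContinuousLinearMap.comp_apply, map_sub, smul_sub]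
  rw [e1]
  refine (norm_conj hρ hσ hσ' _).trans ?_
  -- the derivative of `u` along the segment
  have hdu : Differentiable ℝ (fderiv ℝ u) := by
    have : ContDiff ℝ 1 (fderiv ℝ u) := hu.fderiv_right (by norm_num)
    exact this.differentiable (by norm_num)
  have hG : ∀ x ∈ S, HasFDerivWithinAt (fun z : E => fderiv ℝ u (c + ρ • R σ z))
      ((fderiv ℝ (fderiv ℝ u) (c + ρ • R σ x)).comp (ρ • ModC.RL σ)) S x := by
    intro x _
    have h1 : HasFDerivAt (fun z : E => c + ρ • R σ z) (ρ • ModC.RL σ) x := by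
      have := ((ModC.RL σ).hasFDerivAt (x := x)).const_smul ρ
      exact this.const_add c
    exact (((hdu _).hasFDerivAt).comp x h1).hasFDerivWithinAt
  refine hS.norm_image_sub_le_of_norm_hasFDerivWithin_le hG ?_ hw hz
  intro x hx
  refine (ContinuousLinearMap.opNorm_comp_le _ _).trans ?_
  have h1 : ‖ρ • ModC.RL σ‖ ≤ ρ := by
    rw [norm_smul, Real.norm_eq_abs, abs_of_pos hρ]
    calc ρ * ‖ModC.RL σ‖ ≤ ρ * 1 := mul_le_mul_of_nonneg_left (ModC.norm_RL hσ) hρ.le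
      _ = ρ := mul_one _
  exact mul_le_mul (h x hx) h1 (norm_nonneg _)
    (le_trans (norm_nonneg (fderiv ℝ (fderiv ℝ u) (c + ρ • R σ x))) (h x hx))

end pull

/-- the error term of the climb -/
noncomputable def ecF (θ : ℝ) (F : E → E) (k : ℕ) (ζ : E) : E :=
  (r θ k)⁻¹ • Dinv k (F (D (k + 1) (r θ k • ζ))) - ζ

/-- the gate maps at unit scale -/
noncomputable def GG (θ : ℝ) (F : E → E) (k l : ℕ) (z : E) : E :=
  if l < 7 then
    R (sg (l + 1)) ((r θ k)⁻¹ • Dinv k (F (U θ k (r θ k • (q l + R (sg l) z)))) - q (l + 1))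
  else (r θ k)⁻¹ • Uinv θ (k + 1) (F (U θ k (r θ k • (q l + R (sg l) z))))

/-- the error terms of the gates -/
noncomputable def eF (θ : ℝ) (ω : E → ℝ) (F : E → E) (k l : ℕ) (z : E) : E :=
  GG θ F k l z - z - (ω z, 0, 0)

/-- the orbit at level `k + 1` in the unit coordinates of level `k` -/
theorem orbit {θ : ℝ} (hθ : 0 < θ) (ω : E → ℝ) (F : E → E) (k : ℕ) (ζ : E) :
    ∀ l, l ≤ 7 → F^[1 + l * (nn k + 1)] (D (k + 1) (r θ k • ζ)) =
      D k (r θ k • (q l + R (sg l) (Yc ω (Ph θ F k) (ecF θ F k) (eF θ ω F k) l ζ))) := by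
  have hr : r θ k ≠ 0 := (r_pos hθ k).ne'
  intro l
  induction l with
  | zero =>
    intro _
    simp only [zero_mul, add_zero, Function.iterate_one, Yc, q0, sg0, R_one, zero_add, ecF]
    rw [add_sub_cancel, smul_smul, mul_inv_cancel₀ hr, one_smul, D_Dinv]
  | succ l ih =>
    intro hl
    have h1 : 1 + (l + 1) * (nn k + 1) = (nn k + 1) + (1 + l * (nn k + 1)) := by ring
    rw [h1, Function.iterate_add_apply, ih (by omega), Function.iterate_succ_apply',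
      Ph_spec hθ F k]
    set Y := Yc ω (Ph θ F k) (ecF θ F k) (eF θ ω F k) l ζ with hY
    have h2 : q l + R (sg l) Y + Ph θ F k (q l + R (sg l) Y) =
        q l + R (sg l) (pass (Ph θ F k) l Y) := by
      unfold pass
      rw [R_add, R_sg, add_assoc]
    rw [h2]
    have h3 : Yc ω (Ph θ F k) (ecF θ F k) (eF θ ω F k) (l + 1) ζ =
        GG θ F k l (pass (Ph θ F k) l Y) := by
      simp only [Yc, eF, ← hY]; abel
    rw [h3]
    simp only [GG, if_pos (show l < 7 by omega)]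
    rw [R_sg, add_sub_cancel, smul_smul, mul_inv_cancel₀ hr, one_smul, D_Dinv]

theorem orbit8 {θ : ℝ} (hθ : 0 < θ) (ω : E → ℝ) (F : E → E) (k : ℕ) (ζ : E) :
    F^[nn (k + 1)] (D (k + 1) (r θ k • ζ)) =
      U θ (k + 1) (r θ k • Yc ω (Ph θ F k) (ecF θ F k) (eF θ ω F k) 8 ζ) := by
  have hr : r θ k ≠ 0 := (r_pos hθ k).ne'
  have h1 : nn (k + 1) = (nn k + 1) + (1 + 7 * (nn k + 1)) := by simp only [nn]; ring
  rw [h1, Function.iterate_add_apply, orbit hθ ω F k ζ 7 le_rfl, Function.iterate_succ_apply',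
      Ph_spec hθ F k]
  set Y := Yc ω (Ph θ F k) (ecF θ F k) (eF θ ω F k) 7 ζ with hY
  have h2 : q 7 + R (sg 7) Y + Ph θ F k (q 7 + R (sg 7) Y) =
      q 7 + R (sg 7) (pass (Ph θ F k) 7 Y) := by
    unfold pass
    rw [R_add, R_sg, add_assoc]
  rw [h2]
  have h3 : Yc ω (Ph θ F k) (ecF θ F k) (eF θ ω F k) 8 ζ =
      GG θ F k 7 (pass (Ph θ F k) 7 Y) := by
    have h4 : Yc ω (Ph θ F k) (ecF θ F k) (eF θ ω F k) 8 ζ =
      pass (Ph θ F k) 7 Y + (ω (pass (Ph θ F k) 7 Y), 0, 0) +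
        eF θ ω F k 7 (pass (Ph θ F k) 7 Y) := rfl
    rw [h4]; unfold eF; abel
  rw [h3]
  simp only [GG, if_neg (show ¬ (7 < 7) by omega)]
  rw [smul_smul, mul_inv_cancel₀ hr, one_smul, U_Uinv]

section Main
variable {κ θ : ℝ} {ω : E → ℝ} {f u : E → E}

theorem F_diff (c : Ctx κ θ ω f u) : Differentiable ℝ (FF f u) :=
  (c.hf.differentiable (by norm_num)).add (c.hu.smooth.differentiable (by norm_num))

theorem diff_smul (a : ℝ) : Differentiable ℝ (fun ζ : E => a • ζ) :=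
  differentiable_id.const_smul a

theorem Ph_diff (c : Ctx κ θ ω f u) (k : ℕ) : Differentiable ℝ (Ph θ (FF f u) k) := by
  have h1 : Differentiable ℝ (fun ζ : E => D k (r θ k • ζ)) :=
    (diff_D k).comp (diff_smul _)
  have h2 : Differentiable ℝ ((FF f u)^[nn k]) := (F_diff c).iterate (nn k)
  have h3 : Differentiable ℝ (fun ζ => Uinv θ k ((FF f u)^[nn k] (D k (r θ k • ζ)))) :=
    (diff_Uinv θ k).comp (h2.comp h1)
  exact ((diff_smul (r θ k)⁻¹).comp h3).sub differentiable_id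

theorem ec_diff (c : Ctx κ θ ω f u) (k : ℕ) : Differentiable ℝ (ecF θ (FF f u) k) := by
  have h1 : Differentiable ℝ (fun ζ : E => D (k + 1) (r θ k • ζ)) :=
    (diff_D (k + 1)).comp (diff_smul _)
  have h3 : Differentiable ℝ (fun ζ => Dinv k (FF f u (D (k + 1) (r θ k • ζ)))) :=
    (diff_Dinv k).comp ((F_diff c).comp h1)
  exact ((diff_smul (r θ k)⁻¹).comp h3).sub differentiable_id

theorem e_diff (c : Ctx κ θ ω f u) (k l : ℕ) : Differentiable ℝ (eF θ ω (FF f u) k l) := by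
  have h1 : Differentiable ℝ (fun z : E => U θ k (r θ k • (q l + R (sg l) z))) :=
    (diff_U θ k).comp ((diff_smul (r θ k)).comp ((diff_R (sg l)).const_add (q l)))
  have h2 : Differentiable ℝ (fun z : E => ((ω z, 0, 0) : E)) := by
    have : Differentiable ℝ ω := c.hω.smooth.differentiable (by norm_num)
    exact this.prodMk (differentiable_const _)
  have h3 : Differentiable ℝ (GG θ (FF f u) k l) := by
    by_cases hl : l < 7
    · have h4 : Differentiable ℝ (fun z => (r θ k)⁻¹ •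
          Dinv k (FF f u (U θ k (r θ k • (q l + R (sg l) z)))) - q (l + 1)) :=
        ((diff_smul (r θ k)⁻¹).comp ((diff_Dinv k).comp ((F_diff c).comp h1))).sub_const _
      have h5 := (diff_R (sg (l + 1))).comp h4
      have h6 : GG θ (FF f u) k l = R (sg (l + 1)) ∘ fun z => (r θ k)⁻¹ •
          Dinv k (FF f u (U θ k (r θ k • (q l + R (sg l) z)))) - q (l + 1) := by
        funext z
        simp only [GG, if_pos hl]; rfl
      rw [h6]; exact h5
    · have h4 : Differentiable ℝ (fun z => (r θ k)⁻¹ •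
          Uinv θ (k + 1) (FF f u (U θ k (r θ k • (q l + R (sg l) z))))) :=
        ((diff_smul (r θ k)⁻¹).comp ((diff_Uinv θ (k + 1)).comp ((F_diff c).comp h1)))
      have h6 : GG θ (FF f u) k l = fun z => (r θ k)⁻¹ •
          Uinv θ (k + 1) (FF f u (U θ k (r θ k • (q l + R (sg l) z)))) := by
        funext z
        simp only [GG, if_neg hl]
      rw [h6]; exact h4
  exact (h3.sub differentiable_id).sub h2

theorem small_pull (c : Ctx κ θ ω f u) (k : ℕ) {e : E → E} {σ σ' : ℝ} {a : E}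
    (hσ : |σ| = 1) (hσ' : |σ'| = 1) (ha : (k : ℝ) ≤ |a.2.1|) (he : Differentiable ℝ e)
    (h : ∀ z, ‖z‖ < 1 / 2000 → e z = pull u (r θ k) σ σ' a z) : Small (θ ^ 10) e := by
  have hr := r_pos c.θp k
  have hθ0 := c.θp
  have hθ1 := c.θs
  have hr1 : r θ k ≤ 1 := (r_le hθ0 hθ1 k).trans (hθ1.trans (by norm_num))
  have hp : ∀ z : E, ‖z‖ ≤ 1 / 10 ^ 4 → (k : ℝ) - 1 ≤ |(a + r θ k • R σ z).2.1| := by
    intro z hz
    have h1 : (a + r θ k • R σ z).2.1 = a.2.1 + r θ k * (σ * z.2.1) := rfl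
    rw [h1]
    have h2 : |r θ k * (σ * z.2.1)| ≤ 1 := by
      rw [abs_mul, abs_mul, hσ, one_mul, abs_of_pos hr]
      have h3 : |z.2.1| ≤ 1 := (n2 z).trans (hz.trans (by norm_num))
      calc r θ k * |z.2.1| ≤ 1 * 1 := mul_le_mul hr1 h3 (abs_nonneg _) zero_le_one
        _ = 1 := one_mul _
    have h3 := abs_sub_abs_le_abs_sub a.2.1 (-(r θ k * (σ * z.2.1)))
    rw [sub_neg_eq_add, abs_neg] at h3
    linarith
  have hev : ∀ z : E, ‖z‖ ≤ 1 / 10 ^ 4 → fderiv ℝ e z = fderiv ℝ (pull u (r θ k) σ σ' a) z := by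
    intro z hz
    apply Filter.EventuallyEq.fderiv_eq
    have : Metric.ball (0 : E) (1 / 2000) ∈ nhds z :=
      Metric.isOpen_ball.mem_nhds (by
        rw [mem_ball_zero_iff]; exact lt_of_le_of_lt hz (by norm_num))
    filter_upwards [this] with w hw
    exact h w (by simpa using hw)
  have d1 : θ ^ (12 * (k + 1)) ≤ θ ^ 11 * r θ k := er_r hθ0 hθ1 k
  have d2 : θ ^ 11 ≤ θ ^ 10 := pow_le_pow_of_le_one hθ0.le (hθ1.trans (by norm_num)) (by norm_num)
  have d3 : θ ^ (12 * (k + 1)) ≤ θ ^ 10 :=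
    pow_le_pow_of_le_one hθ0.le (hθ1.trans (by norm_num)) (by omega)
  have d4 : 0 < θ ^ (12 * (k + 1)) := pow_pos hθ0 _
  refine ⟨he, ?_, ?_, ?_⟩
  · intro z hz
    rw [h z (lt_of_le_of_lt hz (by norm_num))]
    refine (pull_b0 hr hσ' (c.hu.b0 _ k (hp z hz))).trans (le_trans ?_ d2)
    rw [inv_mul_le_iff₀ hr]
    linarith
  · intro z hz
    rw [hev z hz]
    exact (pull_b1 c.hu.smooth hr hσ hσ' (c.hu.b1 _ k (hp z hz))).trans d3
  · intro z w hz hw
    rw [hev z hz, hev w hw]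
    refine (pull_b2 c.hu.smooth hr hσ hσ' (δ := θ ^ (12 * (k + 1)))
      (S := Metric.closedBall (0 : E) (1 / 10 ^ 4)) (convex_closedBall _ _)
      (fun x hx => c.hu.b2 _ k (hp x (by simpa using hx))) (by simpa using hz)
      (by simpa using hw)).trans ?_
    refine mul_le_mul_of_nonneg_right ?_ (norm_nonneg _)
    calc θ ^ (12 * (k + 1)) * r θ k ≤ θ ^ (12 * (k + 1)) * 1 :=
          mul_le_mul_of_nonneg_left hr1 d4.le
      _ ≤ θ ^ 10 := by rw [mul_one]; exact d3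

theorem small_ec (c : Ctx κ θ ω f u) (k : ℕ) : Small (θ ^ 10) (ecF θ (FF f u) k) := by
  have hr := r_pos c.θp k
  have hr1 : r θ k ≤ 1 := (r_le c.θp c.θs k).trans (c.θs.trans (by norm_num))
  refine small_pull c k (σ := 1) (σ' := 1) (a := D (k + 1) 0) (by norm_num) (by norm_num) ?_
    (ec_diff c k) ?_
  · have : (D (k + 1) (0 : E)).2.1 = -((k : ℝ) + 1) := by
      rw [D_s]; push_cast; simp
    rw [this, abs_neg]
    have : (0 : ℝ) ≤ k := Nat.cast_nonneg k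
    rw [abs_of_nonneg (by linarith)]; linarith
  · intro z hz
    have h1 := n1 z
    have h2 := n2 z
    have hc : f (D (k + 1) (r θ k • z)) = D k (r θ k • z) := by
      apply c.hS.climb
      · rw [smul_x, abs_mul, abs_of_pos hr]
        calc r θ k * |z.1| ≤ 1 * (1 / 2000) :=
              mul_le_mul hr1 (h1.trans hz.le) (abs_nonneg _) zero_le_one
          _ ≤ 5 := by norm_num
      · rw [smul_s, abs_mul, abs_of_pos hr]
        have : |z.2.1| ≤ 1 / 2 := h2.trans (hz.le.trans (by norm_num))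
        nlinarith
    unfold ecF FF pull
    rw [hc, Dinv_add, Dinv_D, smul_add, smul_smul, inv_mul_cancel₀ hr.ne', one_smul,
      add_sub_cancel_left, R_one, R_one]
    rw [D_eq (k + 1) (r θ k • z), D_eq (k + 1) 0, zero_add, add_comm]

theorem small_e (c : Ctx κ θ ω f u) (k l : ℕ) (hl : l ≤ 7) :
    Small (θ ^ 10) (eF θ ω (FF f u) k l) := by
  have hr := r_pos c.θp k
  have hr1 : r θ k ≤ 1 / 10 ^ 24 := (r_le c.θp c.θs k).trans c.θs
  refine small_pull c k (σ := sg l) (σ' := sg (l + 1)) (a := U θ k (r θ k • q l))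
    (abs_sg l) (abs_sg (l + 1)) ?_ (e_diff c k l) ?_
  · rw [U_s, smul_s]
    have h1 := (q_bd2 l).1
    have h2 := uy_nonneg c.θp k
    have h0 : (0 : ℝ) ≤ k := Nat.cast_nonneg k
    have h3 : -1 ≤ r θ k * (q l).2.1 := by
      norm_num at hr1
      nlinarith
    rw [abs_of_nonneg (by linarith)]
    linarith
  · intro z hz
    have h1 : |z.1| ≤ 1 / 2000 := (n1 z).trans hz.le
    have h2 : |z.2.1| ≤ 1 / 1000 := (n2 z).trans (hz.le.trans (by norm_num))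
    have h3 : |z.2.2| ≤ 1 := (n3 z).trans (hz.le.trans (by norm_num))
    have hc := c.hS.gentle k l hl z h1 h2 h3
    have hu' : U θ k (r θ k • q l) + r θ k • R (sg l) z = U θ k (r θ k • (q l + R (sg l) z)) := by
      rw [U_eq, U_eq, smul_add]; abel
    unfold eF pull
    rw [hu']
    by_cases h7 : l < 7
    · simp only [GG, if_pos h7, FF]
      rw [hc]
      simp only [tgt, if_pos h7]
      rw [Dinv_add, Dinv_D, smul_add, smul_add, smul_smul, smul_smul, inv_mul_cancel₀ hr.ne',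
        one_smul, one_smul]
      have : q (l + 1) + R (sg (l + 1)) (z + (ω z, 0, 0)) +
          (r θ k)⁻¹ • u (U θ k (r θ k • (q l + R (sg l) z))) - q (l + 1) =
          R (sg (l + 1)) (z + (ω z, 0, 0)) +
            (r θ k)⁻¹ • u (U θ k (r θ k • (q l + R (sg l) z))) := by abel
      rw [this, R_add, R_sg, R_smul]
      abel
    · have h8 : l = 7 := by omega
      subst h8
      simp only [GG, if_neg h7, FF]
      rw [hc]
      simp only [tgt, if_neg h7]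
      rw [Uinv_add, Uinv_U, smul_add, smul_smul, inv_mul_cancel₀ hr.ne', one_smul]
      have h9 : sg (7 + 1) = 1 := rfl
      rw [h9, R_one, R_one]
      abel

/-- scaling of the derivative -/
theorem fderiv_scale {Ψ : E → E} (hΨ : Differentiable ℝ Ψ) {θ : ℝ} (hθ : 0 < θ) (ζ : E) :
    fderiv ℝ (fun ζ => θ⁻¹ • Ψ (θ • ζ)) ζ = fderiv ℝ Ψ (θ • ζ) := by
  have h1 : HasFDerivAt (fun ζ : E => θ • ζ) (θ • ContinuousLinearMap.id ℝ E) ζ :=
    (hasFDerivAt_id ζ).const_smul θ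
  have h2 := (((hΨ (θ • ζ)).hasFDerivAt).comp ζ h1).const_smul θ⁻¹
  have h3 : HasFDerivAt (fun ζ => θ⁻¹ • Ψ (θ • ζ))
      (θ⁻¹ • (fderiv ℝ Ψ (θ • ζ)).comp (θ • ContinuousLinearMap.id ℝ E)) ζ := h2
  rw [h3.fderiv]
  refine ContinuousLinearMap.ext fun v => ?_
  simp only [ContinuousLinearMap.comp_apply, smul_apply,
    ContinuousLinearMap.id_apply, map_smul]
  rw [smul_smul, inv_mul_cancel₀ hθ.ne', one_smul]

theorem LL_ge (hκ : 0 < κ) (hκ' : κ ≤ 1 / 10 ^ 12) (k : ℕ) : 8 ≤ LL κ k := by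
  have h1 : κ ^ 24 ≤ 1 / 8 :=
    (pow_le_of_le_one hκ.le (hκ'.trans (by norm_num)) (by norm_num)).trans (hκ'.trans (by norm_num))
  have h2 : κ ^ 14 ≤ 1 / 8 :=
    (pow_le_of_le_one hκ.le (hκ'.trans (by norm_num)) (by norm_num)).trans (hκ'.trans (by norm_num))
  cases k with
  | zero =>
    simp only [LL]
    rw [le_div_iff₀ (by positivity)]; linarith
  | succ k =>
    simp only [LL]
    rw [le_div_iff₀ (by positivity)]; linarith

end Main

end D3h

open D3h in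
theorem HH_succ {κ θ : ℝ} {ω : E → ℝ} {f u : E → E} (c : Ctx κ θ ω f u) (k : ℕ)
    (h : HH κ θ (FF f u) k) (h0 : ‖Ph θ (FF f u) k 0‖ ≤ 16 * κ ^ 11)
    (h1 : ‖fderiv ℝ (Ph θ (FF f u) k) 0‖ ≤ 24 * κ ^ 11) : HH κ θ (FF f u) (k + 1) := by
  obtain ⟨m1, m2, m3, m4⟩ := modC c.hκ c.hκ' c.hθ (LL_ge c.hκ c.hκ' k) c.hω h.ret h0 h1
    (small_ec c k) (fun l hl => small_e c k l hl)
  have hθ0 := c.θp
  have hr := r_pos c.θp k
  set Ψ : E → E := fun ζ => Yc ω (Ph θ (FF f u) k) (ecF θ (FF f u) k) (eF θ ω (FF f u) k) 8 ζ - ζ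
    with hΨ
  have hΨd : Differentiable ℝ Ψ := m1.sub differentiable_id
  have key : Ph θ (FF f u) (k + 1) = fun ζ => θ⁻¹ • Ψ (θ • ζ) := by
    funext ζ
    have e1 : r θ (k + 1) • ζ = r θ k • (θ • ζ) := by rw [r_succ, smul_smul, mul_comm]
    simp only [Ph, hΨ]
    rw [e1, orbit8 hθ0 ω, Uinv_U, r_succ, smul_smul, smul_sub, smul_smul, inv_mul_cancel₀ hθ0.ne',
      one_smul]
    congr 2
    rw [mul_inv, mul_assoc, inv_mul_cancel₀ hr.ne', mul_one]
  have hbox : ∀ ζ ∈ Box (LL κ (k + 1)), ‖θ • ζ‖ ≤ κ ^ 10 := by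
    intro ζ hζ
    obtain ⟨b1, b2, b3⟩ := hζ
    have h7 : 7 * θ ≤ κ ^ 10 := by
      have h14 : κ ^ 14 ≤ 1 / 7 :=
        (pow_le_of_le_one c.hκ.le (c.hκ'.trans (by norm_num)) (by norm_num)).trans
          (c.hκ'.trans (by norm_num))
      have h10 : 0 < κ ^ 10 := pow_pos c.hκ 10
      have : θ = κ ^ 14 * κ ^ 10 := by rw [c.hθ]; ring
      rw [this]; nlinarith
    apply nle
    · rw [smul_x, abs_mul, abs_of_pos hθ0]; nlinarith
    · rw [smul_s, abs_mul, abs_of_pos hθ0]; nlinarith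
    · rw [smul_ξ, abs_mul, abs_of_pos hθ0]
      have h14 : 0 < κ ^ 14 := pow_pos c.hκ 14
      calc θ * |ζ.2.2| ≤ θ * (1 / κ ^ 14) := mul_le_mul_of_nonneg_left b3 hθ0.le
        _ = κ ^ 10 := by rw [c.hθ]; field_simp
  refine ⟨⟨Ph_diff c (k + 1), ?_, ?_⟩, ?_⟩
  · intro p hp
    rw [key, fderiv_scale hΨd hθ0]
    exact m2 _ (hbox p hp)
  · intro p hp p' hp'
    rw [key, fderiv_scale hΨd hθ0, fderiv_scale hΨd hθ0]
    refine (m3 _ _ (hbox p hp) (hbox p' hp')).trans (le_of_eq ?_)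
    rw [← smul_sub, norm_smul, Real.norm_eq_abs, abs_of_pos hθ0]
    ring
  · intro ζ hζ
    have b := m4 (θ • ζ) (hbox ζ hζ)
      (by rw [smul_x, abs_mul, abs_of_pos hθ0]; nlinarith [hζ.1])
      (by rw [smul_s, abs_mul, abs_of_pos hθ0]; nlinarith [hζ.2.1])
    rw [key]
    have e2 : (θ⁻¹ • Ψ (θ • ζ)).2.1 = θ⁻¹ * ((Yc ω (Ph θ (FF f u) k) (ecF θ (FF f u) k)
        (eF θ ω (FF f u) k) 8 (θ • ζ)).2.1 - (θ • ζ).2.1) := rfl
    show |(θ⁻¹ • Ψ (θ • ζ)).2.1| ≤ 1 / 2000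
    rw [e2, abs_mul, abs_of_pos (inv_pos.2 hθ0), inv_mul_le_iff₀ hθ0]
    linarith

open D3h in
theorem HH_zero {κ θ : ℝ} {ω : E → ℝ} {f u : E → E} (c : Ctx κ θ ω f u) :
    HH κ θ (FF f u) 0 := by
  have hθ0 := c.θp
  have hθ1 := c.θs
  have hθ2 : θ ≤ 1 := hθ1.trans (by norm_num)
  have hr : r θ 0 = θ := r_zero
  have hloc : ∀ z : E, |θ * z.1| ≤ 5 → |θ * z.2.1| ≤ 1 / 4 →
      Ph θ (FF f u) 0 z = pull u θ 1 1 0 z := by
    intro z z1 z2
    have hc := c.hS.core (θ • z) z1 z2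
    have hD : D 0 (θ • z) = θ • z := by unfold D; ext <;> simp
    simp only [Ph, nn, Function.iterate_one, FF, hr, pull]
    rw [hc, Uinv_add, Uinv_U, hD, smul_add, smul_smul, inv_mul_cancel₀ hθ0.ne', one_smul,
      add_sub_cancel_left, R_one, R_one, zero_add]
  have hb : ∀ z ∈ Box (LL κ 0), |θ * z.1| < 5 ∧ |θ * z.2.1| < 1 / 4 := by
    intro z hz
    have hz1 := hz.1
    have hz2 := hz.2.1
    norm_num at hθ1
    rw [abs_mul, abs_mul, abs_of_pos hθ0]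
    constructor <;> nlinarith
  have hopen : IsOpen {z : E | |θ * z.1| < 5 ∧ |θ * z.2.1| < 1 / 4} := by
    apply IsOpen.and
    · exact isOpen_lt (by fun_prop) continuous_const
    · exact isOpen_lt (by fun_prop) continuous_const
  have hev : ∀ z ∈ Box (LL κ 0), fderiv ℝ (Ph θ (FF f u) 0) z = fderiv ℝ (pull u θ 1 1 0) z := by
    intro z hz
    apply Filter.EventuallyEq.fderiv_eq
    filter_upwards [hopen.mem_nhds (hb z hz)] with w hw
    exact hloc w hw.1.le hw.2.le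
  have d0 : ∀ p : E, ((0 : ℕ) : ℝ) - 1 ≤ |p.2.1| := by
    intro p; have := abs_nonneg p.2.1; push_cast; linarith
  have b0 : ∀ p : E, ‖u p‖ ≤ θ ^ 12 := fun p => by simpa using c.hu.b0 p 0 (d0 p)
  have b1 : ∀ p : E, ‖fderiv ℝ u p‖ ≤ θ ^ 12 := fun p => by simpa using c.hu.b1 p 0 (d0 p)
  have b2 : ∀ p : E, ‖fderiv ℝ (fderiv ℝ u) p‖ ≤ θ ^ 12 := fun p => by
    simpa using c.hu.b2 p 0 (d0 p)
  have o1 : |(1:ℝ)| = 1 := abs_one
  have t12 : θ ^ 12 ≤ κ ^ 9 := by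
    rw [c.hθ, ← pow_mul]
    exact pow_le_pow_of_le_one c.hκ.le (c.hκ'.trans (by norm_num)) (by norm_num)
  have t2 : θ ^ 12 ≤ 1 / 10 ^ 9 := (pow_small hθ0 c.θs (by norm_num)).trans (by norm_num)
  refine ⟨⟨Ph_diff c 0, ?_, ?_⟩, ?_⟩
  · intro p hp
    rw [hev p hp]
    exact (pull_b1 c.hu.smooth hθ0 o1 o1 (b1 _)).trans t12
  · intro p hp p' hp'
    rw [hev p hp, hev p' hp']
    refine (pull_b2 c.hu.smooth hθ0 o1 o1 (δ := θ ^ 12) convex_univ (fun x _ => b2 _)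
      (Set.mem_univ p) (Set.mem_univ p')).trans ?_
    refine mul_le_mul_of_nonneg_right ?_ (norm_nonneg _)
    exact mul_le_mul_of_nonneg_right t2 hθ0.le
  · intro ζ hζ
    rw [hloc ζ (hb ζ hζ).1.le (hb ζ hζ).2.le]
    refine (n2 _).trans ((pull_b0 hθ0 o1 (b0 _)).trans ?_)
    rw [inv_mul_le_iff₀ hθ0]
    have : θ ^ 12 ≤ θ / 10 ^ 24 := pow_le_θ hθ0 c.θs (by norm_num)
    linarith

end Pool.Agent.H718R2
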