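import Pool.Agent.H718R2.D3b
import Pool.Agent.H718R2.D2
import Pool.Agent.H718R2.C

/-!
# Module D, part 3i: the induction step for the return maps
-/

namespace Pool.Agent.H718R2

section
variable {κ θ : ℝ} {ω : E → ℝ} {f u : E → E}

/-- one level written as a composition at unit scale -/
noncomputable def YY (θ : ℝ) (F : E → E) (ω : E → ℝ) (k l : ℕ) : E → E :=
  Yc ω (Ph θ F k) (ecF θ F k) (fun l => eF θ F ω k l) l

theorem YY_zero (F : E → E) (k : ℕ) (ζ : E) : YY θ F ω k 0 ζ = ζ + ecF θ F k ζ := rfl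

theorem YY_succ (F : E → E) (k l : ℕ) (ζ : E) :
    YY θ F ω k (l + 1) ζ = nxt θ F k l (pass (Ph θ F k) l (YY θ F ω k l ζ)) := by
  change pass (Ph θ F k) l (YY θ F ω k l ζ) + (ω (pass (Ph θ F k) l (YY θ F ω k l ζ)), 0, 0)
        + eF θ F ω k l (pass (Ph θ F k) l (YY θ F ω k l ζ)) = _
  unfold eF
  abel

theorem pass_spec (hθ : 0 < θ) (F : E → E) (k l : ℕ) (y : E) :
    F^[nn k] (D k (r θ k • (q l + R (sg l) y))) =
      U θ k (r θ k • (q l + R (sg l) (pass (Ph θ F k) l y))) := by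
  rw [Ph_spec hθ]
  congr 2
  unfold pass
  rw [R_add, R_sg, add_assoc]

theorem YY_iter (hθ : 0 < θ) (F : E → E) (k : ℕ) (ζ : E) (l : ℕ) (hl : l ≤ 7) :
    F^[1 + l * (nn k + 1)] (D (k + 1) (r θ k • ζ)) =
      D k (r θ k • (q l + R (sg l) (YY θ F ω k l ζ))) := by
  induction l with
  | zero =>
    rw [Nat.zero_mul, Nat.add_zero, Function.iterate_one, ecF_spec hθ F, YY_zero, sg0, R_one, q0, zero_add]
  | succ l ih =>
    have e : 1 + (l + 1) * (nn k + 1) = 1 + (nn k + (1 + l * (nn k + 1))) := by ring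
    rw [e, Function.iterate_add_apply, Function.iterate_add_apply, ih (by omega), Function.iterate_one,
      pass_spec hθ, nxt_spec hθ F, tgt_down' (by omega), YY_succ]

theorem YY_iter8 (hθ : 0 < θ) (F : E → E) (k : ℕ) (ζ : E) :
    F^[nn (k + 1)] (D (k + 1) (r θ k • ζ)) = U θ (k + 1) (r θ k • YY θ F ω k 8 ζ) := by
  have e : nn (k + 1) = 1 + (nn k + (1 + 7 * (nn k + 1))) := by
    change 8 * nn k + 9 = _; ring
  rw [e, Function.iterate_add_apply, Function.iterate_add_apply, YY_iter (ω := ω) hθ F k ζ 7 le_rfl,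
    Function.iterate_one, pass_spec hθ, nxt_spec hθ F, tgt_up, show sg (7 + 1) = 1 from rfl, R_one,
    ← YY_succ]

/-- renormalisation identity -/
theorem Ph_succ (hθ : 0 < θ) (F : E → E) (k : ℕ) (ζ : E) :
    Ph θ F (k + 1) ζ = θ⁻¹ • (YY θ F ω k 8 (θ • ζ) - θ • ζ) := by
  have hr : r θ k ≠ 0 := (r_pos hθ k).ne'
  unfold Ph
  have e : r θ (k + 1) • ζ = r θ k • (θ • ζ) := by rw [r_succ, smul_smul, mul_comm]
  rw [e, YY_iter8 (ω := ω) hθ, Uinv_U, r_succ, smul_smul, mul_inv, mul_assoc, inv_mul_cancel₀ hr, mul_one,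
    smul_sub, smul_smul θ⁻¹ θ, inv_mul_cancel₀ hθ.ne', one_smul]

theorem HH_succ' (c : Ctx κ θ ω f u) (k : ℕ)
    (sec : Small (θ ^ 10) (ecF θ (FF f u) k))
    (se : ∀ l, l ≤ 7 → Small (θ ^ 10) (eF θ (FF f u) ω k l))
    (hL : 8 ≤ LL κ k)
    (h : HH κ θ (FF f u) k) (h0 : ‖Ph θ (FF f u) k 0‖ ≤ 16 * κ ^ 11)
    (h1 : ‖fderiv ℝ (Ph θ (FF f u) k) 0‖ ≤ 24 * κ ^ 11) : HH κ θ (FF f u) (k + 1) := by
  obtain ⟨C1, C2, C3, C4⟩ := modC c.hκ c.hκ' c.hθ hL c.hω h.ret h0 h1 sec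
    (e := fun l => eF θ (FF f u) ω k l) se
  have hθ := c.θp
  have hκ := c.hκ
  set Ψ : E → E := fun ζ => Yc ω (Ph θ (FF f u) k) (ecF θ (FF f u) k)
    (fun l => eF θ (FF f u) ω k l) 8 ζ - ζ with hΨ
  have hΨd : Differentiable ℝ Ψ := C1.sub differentiable_id
  have hPh : Ph θ (FF f u) (k + 1) = fun ζ => θ⁻¹ • Ψ (θ • ζ) := by
    funext ζ
    exact Ph_succ (ω := ω) hθ (FF f u) k ζ
  have hder : ∀ ζ, HasFDerivAt (Ph θ (FF f u) (k + 1)) (fderiv ℝ Ψ (θ • ζ)) ζ := by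
    intro ζ
    rw [hPh]
    have a1 : HasFDerivAt (fun ζ : E => θ • ζ) (θ • ContinuousLinearMap.id ℝ E) ζ :=
      (hasFDerivAt_id ζ).const_smul θ
    have a2 : HasFDerivAt Ψ (fderiv ℝ Ψ (θ • ζ)) (θ • ζ) := (hΨd _).hasFDerivAt
    have a3 := (a2.comp ζ a1).const_smul θ⁻¹
    refine a3.congr_fderiv ?_
    ext v
    all_goals simp [hθ.ne']
  have hfd : ∀ ζ, fderiv ℝ (Ph θ (FF f u) (k + 1)) ζ = fderiv ℝ Ψ (θ • ζ) := fun ζ => (hder ζ).fderiv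
  have h24 : θ = κ ^ 24 := c.hθ
  have hκ10 : 7 * θ ≤ κ ^ 10 := by
    rw [h24, show κ ^ 24 = κ ^ 10 * κ ^ 14 by ring]
    have h14 : κ ^ 14 ≤ 1 / 8 := by
      calc κ ^ 14 ≤ (1 / 10 ^ 12) ^ 14 := pow_le_pow_left₀ hκ.le c.hκ' 14
        _ ≤ 1 / 8 := by norm_num
    have : 0 < κ ^ 10 := pow_pos hκ 10
    nlinarith
  have hbox : ∀ ζ ∈ Box (LL κ (k + 1)), ‖θ • ζ‖ ≤ κ ^ 10 := by
    rintro ζ ⟨b1, b2, b3⟩
    apply nle
    · rw [smul_x, abs_mul, abs_of_pos hθ]; nlinarith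
    · rw [smul_s, abs_mul, abs_of_pos hθ]; nlinarith
    · rw [smul_ξ, abs_mul, abs_of_pos hθ]
      have e : LL κ (k + 1) = 1 / κ ^ 14 := rfl
      rw [e] at b3
      calc θ * |ζ.2.2| ≤ θ * (1 / κ ^ 14) := mul_le_mul_of_nonneg_left b3 hθ.le
        _ = κ ^ 10 := by rw [h24]; field_simp
  refine ⟨⟨fun ζ => (hder ζ).differentiableAt, ?_, ?_⟩, ?_⟩
  · intro p hp
    rw [hfd]
    exact C2 _ (hbox p hp)
  · intro p hp p' hp'
    rw [hfd, hfd]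
    refine (C3 _ _ (hbox p hp) (hbox p' hp')).trans ?_
    rw [← smul_sub, norm_smul, Real.norm_of_nonneg hθ.le, mul_assoc]
  · intro ζ hζ
    have h4 := C4 (θ • ζ) (hbox ζ hζ) (by
      rw [smul_x, abs_mul, abs_of_pos hθ, mul_comm 7]; exact mul_le_mul_of_nonneg_left hζ.1 hθ.le) (by
      rw [smul_s, abs_mul, abs_of_pos hθ, mul_comm 7]; exact mul_le_mul_of_nonneg_left hζ.2.1 hθ.le)
    rw [hPh]
    change |θ⁻¹ * ((Yc ω (Ph θ (FF f u) k) (ecF θ (FF f u) k)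
      (fun l => eF θ (FF f u) ω k l) 8 (θ • ζ)).2.1 - (θ • ζ).2.1)| ≤ 1 / 2000
    rw [abs_mul, abs_inv, abs_of_pos hθ, inv_mul_le_iff₀ hθ]
    linarith

end

end Pool.Agent.H718R2
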