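import Pool.Agent.H718R2.D4
import Pool.Agent.H718R2.D3i
import Pool.Agent.H718R2.D3k
import Pool.Agent.H718R2.B

/-!
# Module D, part 5: induction over the levels and the final contradiction
-/

namespace Pool.Agent.H718R2

/-- true size of the box of level `k` -/
noncomputable def Lam (κ θ : ℝ) : ℕ → ℝ
  | 0 => 1
  | k + 1 => κ ^ 10 * r θ k

section
variable {κ θ : ℝ} {ω : E → ℝ} {f u : E → E} {O : Set E} {n : ℕ}

theorem LL_mul (c : Ctx κ θ ω f u) (k : ℕ) : LL κ k * r θ k = Lam κ θ k := by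
  have hκ := c.hκ
  cases k with
  | zero =>
    unfold LL Lam
    rw [r_zero, c.hθ]; field_simp
  | succ k =>
    unfold LL Lam
    rw [r_succ, c.hθ]
    field_simp

theorem LL_ge (c : Ctx κ θ ω f u) (k : ℕ) : 8 ≤ LL κ k := by
  have hκ := c.hκ
  have h1 : κ ^ 14 ≤ 1 / 8 := by
    calc κ ^ 14 ≤ (1 / 10 ^ 12) ^ 14 := pow_le_pow_left₀ hκ.le c.hκ' 14
      _ ≤ 1 / 8 := by norm_num
  have h2 : κ ^ 24 ≤ 1 / 8 := by
    calc κ ^ 24 ≤ (1 / 10 ^ 12) ^ 24 := pow_le_pow_left₀ hκ.le c.hκ' 24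
      _ ≤ 1 / 8 := by norm_num
  cases k with
  | zero =>
    unfold LL
    rw [le_div_iff₀ (pow_pos hκ _)]; linarith
  | succ k =>
    unfold LL
    rw [le_div_iff₀ (pow_pos hκ _)]; linarith

/-- induction step for the return maps -/
theorem HH_succ (c : Ctx κ θ ω f u) (k : ℕ)
    (h : HH κ θ (FF f u) k) (h0 : ‖Ph θ (FF f u) k 0‖ ≤ 16 * κ ^ 11)
    (h1 : ‖fderiv ℝ (Ph θ (FF f u) k) 0‖ ≤ 24 * κ ^ 11) : HH κ θ (FF f u) (k + 1) :=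
  HH_succ' (ω := ω) c k (small_ec c k) (fun l hl => small_e c k l hl) (LL_ge c k) h h0 h1

/-- smallness of `ξ` at the landing points of levels `≥ k` -/
def Land (κ θ : ℝ) (O : Set E) (k : ℕ) : Prop :=
  ∀ m, k ≤ m → ∀ ζ : E, D m ζ ∈ O → |ζ.1| ≤ 5 * r θ m → |ζ.2.1| ≤ 5 * r θ m →
    |ζ.2.2| ≤ Lam κ θ k / 2

theorem Land.unit (c : Ctx κ θ ω f u) {k : ℕ} (h : Land κ θ O k) {ζ : E}
    (hζ : D k (r θ k • ζ) ∈ O) (h1 : |ζ.1| ≤ 5) (h2 : |ζ.2.1| ≤ 5) : |ζ.2.2| ≤ LL κ k / 2 := by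
  have hr := r_pos c.θp k
  have h3 := h k le_rfl (r θ k • ζ) hζ (by rw [smul_x, mul_comm 5]; exact mul_bd hr.le h1)
    (by rw [smul_s, mul_comm 5]; exact mul_bd hr.le h2)
  rw [smul_ξ, abs_mul, abs_of_pos hr, ← LL_mul c k] at h3
  have : r θ k * |ζ.2.2| ≤ r θ k * (LL κ k / 2) := by linarith
  exact le_of_mul_le_mul_left this hr

/-- passage of an orbit point -/
theorem pass_in (c : Ctx κ θ ω f u) (hO : Orb (FF f u) O n) {k : ℕ} (hH : HH κ θ (FF f u) k)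
    (hL : Land κ θ O k) {l : ℕ} {y : E}
    (hy : D k (r θ k • (q l + R (sg l) y)) ∈ O) (h1 : |y.1| ≤ 3 / 1000) (h2 : |y.2.1| ≤ 21 / 10000) :
    U θ k (r θ k • (q l + R (sg l) (pass (Ph θ (FF f u) k) l y))) ∈ O ∧
    |(pass (Ph θ (FF f u) k) l y).2.1| ≤ 3 / 1000 ∧ |y.2.2| ≤ LL κ k - 1 := by
  obtain ⟨Q1, Q1'⟩ := q_bd1 l
  obtain ⟨Q2, Q2'⟩ := q_bd2 l
  obtain ⟨Q3, Q3'⟩ := q_bd3 l
  have y1 := abs_le.1 (sg_bd l h1)
  have y2 := abs_le.1 (sg_bd l h2)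
  have b1 : |(q l + R (sg l) y).1| ≤ 5 := by
    rw [add_x, R_x, abs_le]; constructor <;> linarith
  have b2 : |(q l + R (sg l) y).2.1| ≤ 5 := by
    rw [add_s, R_s, abs_le]; constructor <;> linarith
  have b3 := hL.unit c hy b1 b2
  have hge := LL_ge c k
  have hbox : q l + R (sg l) y ∈ Box (LL κ k) := ⟨by linarith, by linarith, by linarith⟩
  have hyb := hH.yb _ hbox
  refine ⟨?_, ?_, ?_⟩
  · have := Ph_spec c.θp (FF f u) k (q l + R (sg l) y)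
    have e : q l + R (sg l) (pass (Ph θ (FF f u) k) l y) =
        q l + R (sg l) y + Ph θ (FF f u) k (q l + R (sg l) y) := by
      unfold pass
      rw [R_add, R_sg, add_assoc]
    rw [e, ← this]
    exact hO.inv _ hy _
  · unfold pass
    rw [add_s, R_s]
    have a1 := abs_le.1 (sg_bd l hyb)
    have a2 := abs_le.1 h2
    rw [abs_le]; constructor <;> linarith
  · rw [add_ξ, R_ξ] at b3
    have a3 := abs_le.1 b3
    rw [abs_le]; constructor <;> linarith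

/-- gate passage of an orbit point with small `s`-offset -/
theorem gate_in (c : Ctx κ θ ω f u) (hO : Orb (FF f u) O n) {k l : ℕ} (hl : l ≤ 7) {z : E}
    (hz : U θ k (r θ k • (q l + R (sg l) z)) ∈ O) (h2 : |z.2.1| ≤ 3 / 1000) :
    |z.2.2| ≤ 2 ∧ |z.1 + ω z| ≤ 2 / 1000 ∧
    Gt θ ω f k l z (U θ k (r θ k • (q l + R (sg l) z))) ∧
    ∃ y, FF f u (U θ k (r θ k • (q l + R (sg l) z))) = tgt θ k l (r θ k • R (sg (l + 1)) y) ∧
      |y.1 - (z.1 + ω z)| ≤ θ ^ 10 ∧ |y.2.1| ≤ 2 / 1000 + θ ^ 10 ∧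
      (|z.1 + ω z| ≤ 1 / 1000 → |z.2.1| ≤ 1 / 1000 → |z.2.2| ≤ 1 →
        |y.2.1 - z.2.1| ≤ θ ^ 10 ∧ |y.2.2 - z.2.2| ≤ θ ^ 10) := by
  rcases c.hS.rigid k l hl z h2 with h | ⟨h3, h4, b, t, hb, ht, hf, hg⟩
  · exact absurd h (no_kill c hO hz)
  · obtain ⟨y, hy, hyv⟩ := gate_F c rfl (by linarith) hf
    have t10 : θ ^ 11 ≤ θ ^ 10 := pow_le_pow_of_le_one c.θp.le (by linarith [c.θs]) (by norm_num)
    have hyv' := hyv.trans t10
    have d1 := (n1 (y - (z.1 + ω z, b, z.2.2 + t))).trans hyv'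
    have d2 := (n2 (y - (z.1 + ω z, b, z.2.2 + t))).trans hyv'
    have d3 := (n3 (y - (z.1 + ω z, b, z.2.2 + t))).trans hyv'
    change |y.1 - (z.1 + ω z)| ≤ _ at d1
    change |y.2.1 - b| ≤ _ at d2
    change |y.2.2 - (z.2.2 + t)| ≤ _ at d3
    refine ⟨h3.le, h4, ⟨rfl, by linarith, h4, b, t, hb, ht, hf⟩, y, hy, d1, ?_, ?_⟩
    · have a1 := abs_le.1 d2
      have a2 := abs_le.1 hb
      rw [abs_le]; constructor <;> linarith
    · intro g1 g2 g3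
      obtain ⟨e1, e2⟩ := hg g1 g2 g3
      rw [e1] at d2
      rw [e2, add_zero] at d3
      exact ⟨d2, d3⟩

noncomputable def yseq (θ : ℝ) (F : E → E) (k : ℕ) (y0 : E) : ℕ → E
  | 0 => y0
  | l + 1 => nxt θ F k l (pass (Ph θ F k) l (yseq θ F k y0 l))

theorem t10 (c : Ctx κ θ ω f u) : θ ^ 10 ≤ 1 / 10 ^ 24 := pow_small c.θp c.θs (by norm_num)

/-- all points of the cycle -/
theorem cyc_pts (c : Ctx κ θ ω f u) (hO : Orb (FF f u) O n) {k : ℕ} (hH : HH κ θ (FF f u) k)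
    (hL : Land κ θ O k) {y0 : E} (hy : D k (r θ k • y0) ∈ O) (h1 : |y0.1| ≤ 6 * θ)
    (h2 : |y0.2.1| ≤ 6 * θ) (l : ℕ) (hl : l ≤ 7) :
    D k (r θ k • (q l + R (sg l) (yseq θ (FF f u) k y0 l))) ∈ O ∧
    |(yseq θ (FF f u) k y0 l).1| ≤ 3 / 1000 ∧ |(yseq θ (FF f u) k y0 l).2.1| ≤ 21 / 10000 := by
  have hs := c.θs
  have h10 := t10 c
  have k1 : (1:ℝ) / 10 ^ 24 ≤ 1 / 100000 := by norm_num
  induction l with
  | zero =>
    have e0 : q 0 + R (sg 0) (yseq θ (FF f u) k y0 0) = y0 := by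
      change q 0 + R 1 y0 = y0
      rw [R_one, q0, zero_add]
    rw [e0]
    refine ⟨hy, ?_, ?_⟩
    · change |y0.1| ≤ _; linarith
    · change |y0.2.1| ≤ _; linarith
  | succ l ih =>
    obtain ⟨i1, i2, i3⟩ := ih (by omega)
    obtain ⟨j1, j2, j3⟩ := pass_in c hO hH hL i1 i2 i3
    obtain ⟨g1, g2, g3, y, g4, g5, g6, g7⟩ := gate_in c hO (by omega) j1 j2
    have e : yseq θ (FF f u) k y0 (l + 1) = y := nxt_eq c.θp g4
    rw [e]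
    have a1 := abs_le.1 g5
    have a2 := abs_le.1 g2
    refine ⟨?_, ?_, by linarith⟩
    · rw [tgt_down' (by omega)] at g4
      rw [← g4]
      exact hO.inv1 j1
    · rw [abs_le]; constructor <;> linarith

theorem ω_le (c : Ctx κ θ ω f u) (z : E) : ω z ≤ 1 / 10 ^ 11 := c.hω.up z

/-- exit point at a gate `(k,7)` -/
theorem exit_bd (c : Ctx κ θ ω f u) (hO : Orb (FF f u) O n) {k : ℕ} {y : E}
    (hy : U θ (k + 1) (r θ k • y) ∈ O) (h2 : |y.2.1| ≤ 21 / 10000) :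
    |y.1| ≤ 5 * θ ∧ ∃ l ≤ 7, ∃ z, Gt θ ω f (k + 1) l z (U θ (k + 1) (r θ k • y)) := by
  have hr := r_pos c.θp k
  have hr1 := r_le c.θp c.θs k
  have hs := c.θs
  have k1 : (1:ℝ) / 10 ^ 24 ≤ 1 / 100000 := by norm_num
  have hw : |(r θ k • y).2.1| ≤ 3 / 8 := by
    rw [smul_s]
    have := mul_bd hr.le h2
    nlinarith
  obtain ⟨l, hl, z, hg⟩ := AU c hO hy hw
  refine ⟨?_, l, hl, z, hg⟩
  obtain ⟨e, hz, hx, _⟩ := hg
  have e1 : r θ k * y.1 = r θ (k + 1) * ((q l).1 + sg l * z.1) := congrArg Prod.fst e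
  rw [r_succ] at e1
  have e2 : y.1 = θ * ((q l).1 + sg l * z.1) := by
    have : r θ k * y.1 = r θ k * (θ * ((q l).1 + sg l * z.1)) := by rw [e1]; ring
    exact mul_left_cancel₀ hr.ne' this
  obtain ⟨Q1, Q1'⟩ := q_bd1 l
  have w0 := c.hω.nonneg z
  have w1 := c.hω.up z
  have hx' := abs_le.1 hx
  have k2 : (1:ℝ) / 10 ^ 11 ≤ 1 / 1000 := by norm_num
  have hz1 : |z.1| ≤ 3 / 1000 := by rw [abs_le]; constructor <;> linarith
  have hz1' := abs_le.1 (sg_bd l hz1)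
  rw [e2, mul_comm 5]
  exact mul_bd c.θp.le (by rw [abs_le]; constructor <;> linarith)

/-- an orbit point at a landing place yields an alive cycle -/
theorem cyc (c : Ctx κ θ ω f u) (hO : Orb (FF f u) O n) {k : ℕ} (hH : HH κ θ (FF f u) k)
    (hL : Land κ θ O k) {y0 : E} (hy : D k (r θ k • y0) ∈ O) (h1 : |y0.1| ≤ 6 * θ)
    (h2 : |y0.2.1| ≤ 6 * θ) :
    Cycle θ (LL κ k) ω (Ph θ (FF f u) k) (yseq θ (FF f u) k y0)
      (fun l => pass (Ph θ (FF f u) k) l (yseq θ (FF f u) k y0 l)) := by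
  have key : ∀ l, l ≤ 7 →
      U θ k (r θ k • (q l + R (sg l) (pass (Ph θ (FF f u) k) l (yseq θ (FF f u) k y0 l)))) ∈ O ∧
      |(pass (Ph θ (FF f u) k) l (yseq θ (FF f u) k y0 l)).2.1| ≤ 3 / 1000 ∧
      |(yseq θ (FF f u) k y0 l).2.2| ≤ LL κ k - 1 ∧
      |(pass (Ph θ (FF f u) k) l (yseq θ (FF f u) k y0 l)).2.2| ≤ 2 ∧
      |(pass (Ph θ (FF f u) k) l (yseq θ (FF f u) k y0 l)).1
        + ω (pass (Ph θ (FF f u) k) l (yseq θ (FF f u) k y0 l))| ≤ 2 / 1000 ∧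
      FF f u (U θ k (r θ k • (q l + R (sg l) (pass (Ph θ (FF f u) k) l (yseq θ (FF f u) k y0 l))))) =
        tgt θ k l (r θ k • R (sg (l + 1)) (yseq θ (FF f u) k y0 (l + 1))) ∧
      |(yseq θ (FF f u) k y0 (l + 1)).1 - ((pass (Ph θ (FF f u) k) l (yseq θ (FF f u) k y0 l)).1
        + ω (pass (Ph θ (FF f u) k) l (yseq θ (FF f u) k y0 l)))| ≤ θ ^ 10 ∧
      |(yseq θ (FF f u) k y0 (l + 1)).2.1| ≤ 2 / 1000 + θ ^ 10 ∧
      (|(pass (Ph θ (FF f u) k) l (yseq θ (FF f u) k y0 l)).1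
        + ω (pass (Ph θ (FF f u) k) l (yseq θ (FF f u) k y0 l))| ≤ 1 / 1000 →
        |(pass (Ph θ (FF f u) k) l (yseq θ (FF f u) k y0 l)).2.1| ≤ 1 / 1000 →
        |(pass (Ph θ (FF f u) k) l (yseq θ (FF f u) k y0 l)).2.2| ≤ 1 →
        |(yseq θ (FF f u) k y0 (l + 1)).2.1
          - (pass (Ph θ (FF f u) k) l (yseq θ (FF f u) k y0 l)).2.1| ≤ θ ^ 10 ∧
        |(yseq θ (FF f u) k y0 (l + 1)).2.2
          - (pass (Ph θ (FF f u) k) l (yseq θ (FF f u) k y0 l)).2.2| ≤ θ ^ 10) := by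
    intro l hl
    obtain ⟨i1, i2, i3⟩ := cyc_pts c hO hH hL hy h1 h2 l hl
    obtain ⟨j1, j2, j3⟩ := pass_in c hO hH hL i1 i2 i3
    obtain ⟨g1, g2, g3, y, g4, g5, g6, g7⟩ := gate_in c hO hl j1 j2
    have e : yseq θ (FF f u) k y0 (l + 1) = y := nxt_eq c.θp g4
    rw [e]
    exact ⟨j1, j2, j3, g1, g2, g4, g5, g6, g7⟩
  refine ⟨fun l hl => rfl, fun l hl => (key l hl).2.2.1, h1, h2, fun l hl => (key l hl).2.2.2.1,
    fun l hl => (key l hl).2.2.2.2.1, fun l hl => (key l hl).2.1, fun l hl => (key l hl).2.2.2.2.2.2.1,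
    fun l hl => (key l hl).2.2.2.2.2.2.2.1, fun l hl => (key l hl).2.2.2.2.2.2.2.2, ?_⟩
  obtain ⟨j1, _, _, _, _, g4, _, g6, _⟩ := key 7 le_rfl
  rw [tgt_up, show sg (7 + 1) = 1 from rfl, R_one] at g4
  have h10 := t10 c
  have k1 : (1:ℝ) / 10 ^ 24 ≤ 1 / 100000 := by norm_num
  have hin : U θ (k + 1) (r θ k • yseq θ (FF f u) k y0 (7 + 1)) ∈ O := by
    rw [← g4]; exact hO.inv1 j1
  exact (exit_bd c hO hin (by linarith)).1

/-- consequence of module B for orbit points landing at level `≥ k+1` -/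
theorem step_data (c : Ctx κ θ ω f u) (hO : Orb (FF f u) O n) {k : ℕ} (hH : HH κ θ (FF f u) k)
    (hL : Land κ θ O k) {m : ℕ} (hm : k + 1 ≤ m) {ζ : E} (hζ : D m ζ ∈ O) (h1 : |ζ.1| ≤ 5 * r θ m)
    (h2 : |ζ.2.1| ≤ 5 * r θ m) :
    ‖Ph θ (FF f u) k 0‖ ≤ 16 * κ ^ 11 ∧ ‖fderiv ℝ (Ph θ (FF f u) k) 0‖ ≤ 24 * κ ^ 11 ∧
      |ζ.2.2| ≤ Lam κ θ (k + 1) / 2 := by
  obtain ⟨j, rfl⟩ : ∃ j, m = k + j := ⟨m - k, by omega⟩
  have hr := r_pos c.θp k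
  have hr1 := r_le c.θp c.θs k
  have hrm := r_pos c.θp (k + j)
  have hrm1 : r θ (k + j) ≤ θ * r θ k := r_lt c.θp c.θs (by omega)
  have hrm2 := r_le c.θp c.θs (k + j)
  have hs := c.θs
  have k1 : (1:ℝ) / 10 ^ 24 ≤ 1 / 100000 := by norm_num
  obtain ⟨ζ', hc, hc'⟩ := climbs c j k ζ (by linarith) (by linarith)
  have he := hc'.trans (e24 c k)
  have h10 := t10 c
  have h10p : 0 < θ ^ 10 := pow_pos c.θp 10
  have hθ10 : θ ^ 10 ≤ θ := by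
    calc θ ^ 10 ≤ θ ^ 1 := pow_le_pow_of_le_one c.θp.le (by linarith) (by norm_num)
      _ = θ := pow_one θ
  have he2 : ‖ζ' - ζ‖ ≤ r θ k * θ ^ 10 / 10 := by
    have : 0 < θ ^ 10 * r θ k := mul_pos h10p hr
    nlinarith
  have hin : D k (r θ k • ((r θ k)⁻¹ • ζ')) ∈ O := by
    rw [smul_smul, mul_inv_cancel₀ hr.ne', one_smul, ← hc]
    exact hO.inv _ hζ _
  have d1 := abs_le.1 ((n1 (ζ' - ζ)).trans he2)
  have d2 := abs_le.1 ((n2 (ζ' - ζ)).trans he2)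
  have d3 := abs_le.1 ((n3 (ζ' - ζ)).trans he2)
  change _ ≤ ζ'.1 - ζ.1 ∧ ζ'.1 - ζ.1 ≤ _ at d1
  change _ ≤ ζ'.2.1 - ζ.2.1 ∧ ζ'.2.1 - ζ.2.1 ≤ _ at d2
  change _ ≤ ζ'.2.2 - ζ.2.2 ∧ ζ'.2.2 - ζ.2.2 ≤ _ at d3
  have h1' := abs_le.1 h1
  have h2' := abs_le.1 h2
  have hrr : r θ k * θ ^ 10 ≤ θ * r θ k := by nlinarith
  have b1 : |((r θ k)⁻¹ • ζ').1| ≤ 6 * θ := by
    rw [smul_x, abs_mul, abs_inv, abs_of_pos hr, inv_mul_le_iff₀ hr, abs_le]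
    constructor <;> linarith [d1.1, d1.2]
  have b2 : |((r θ k)⁻¹ • ζ').2.1| ≤ 6 * θ := by
    rw [smul_s, abs_mul, abs_inv, abs_of_pos hr, inv_mul_le_iff₀ hr, abs_le]
    constructor <;> linarith [d2.1, d2.2]
  obtain ⟨B1, B2, B3⟩ := modB c.hκ c.hκ' c.hθ (LL_ge c k) c.hω hH.ret (cyc c hO hH hL hin b1 b2)
  refine ⟨B1, B2, ?_⟩
  have B4 := (n3 _).trans B3
  change |((r θ k)⁻¹ • ζ').2.2| ≤ _ at B4
  rw [smul_ξ, abs_mul, abs_inv, abs_of_pos hr, inv_mul_le_iff₀ hr] at B4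
  unfold Lam
  have hκ := c.hκ
  have hκ' := c.hκ'
  have hκ10 : 0 < κ ^ 10 := pow_pos hκ 10
  have hκ11 : 40 * κ ^ 11 ≤ 1 / 4 * κ ^ 10 := by
    have : κ ^ 11 = κ ^ 10 * κ := by ring
    rw [this]
    have k2 : (1:ℝ) / 10 ^ 12 ≤ 1 / 1000 := by norm_num
    nlinarith
  have hθκ : θ ^ 10 ≤ κ ^ 10 := by
    apply pow_le_pow_left₀ c.θp.le
    rw [c.hθ]
    calc κ ^ 24 ≤ κ ^ 1 := pow_le_pow_of_le_one hκ.le (by linarith [show (1:ℝ) / 10 ^ 12 ≤ 1 by norm_num]) (by norm_num)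
      _ = κ := pow_one κ
  have B5 := abs_le.1 B4
  have p1 : r θ k * (40 * κ ^ 11) ≤ r θ k * (1 / 4 * κ ^ 10) := mul_le_mul_of_nonneg_left hκ11 hr.le
  have p2 : r θ k * θ ^ 10 ≤ r θ k * κ ^ 10 := mul_le_mul_of_nonneg_left hθκ hr.le
  rw [abs_le]
  constructor <;> nlinarith [d3.1, d3.2]

/-- landing points of down gates -/
theorem down_land (c : Ctx κ θ ω f u) (hO : Orb (FF f u) O n) {m l : ℕ} (hl : l ≤ 6) {z p : E}
    (hp : p ∈ O) (hg : Gt θ ω f m l z p) :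
    ∃ y, D m (r θ m • (q (l + 1) + R (sg (l + 1)) y)) ∈ O ∧ |y.1| ≤ 3 / 1000 ∧ |y.2.1| ≤ 21 / 10000 := by
  obtain ⟨e, hz, hx, b, k, hb, hk, hf⟩ := hg
  obtain ⟨y, hy, hyv⟩ := gate_F c e hz hf
  have t11 := th11 c
  have k1 : (1:ℝ) / 10 ^ 24 ≤ 1 / 100000 := by norm_num
  obtain ⟨o1, o2⟩ := off_bd c hyv (a := 2 / 1000) hx hb
  rw [tgt_down' hl] at hy
  exact ⟨y, by rw [← hy]; exact hO.inv1 hp, by linarith, by linarith⟩

theorem land_bd (c : Ctx κ θ ω f u) {m l : ℕ} {y : E} (h1 : |y.1| ≤ 3 / 1000) (h2 : |y.2.1| ≤ 21 / 10000) :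
    |(r θ m • (q l + R (sg l) y)).1| ≤ 5 * r θ m ∧ |(r θ m • (q l + R (sg l) y)).2.1| ≤ 5 * r θ m := by
  obtain ⟨Q1, Q1'⟩ := q_bd1 l
  obtain ⟨Q2, Q2'⟩ := q_bd2 l
  have hr := r_pos c.θp m
  have y1 := abs_le.1 (sg_bd l h1)
  have y2 := abs_le.1 (sg_bd l h2)
  constructor
  · rw [smul_x, mul_comm 5]
    exact mul_bd hr.le (by rw [add_x, R_x, abs_le]; constructor <;> linarith)
  · rw [smul_s, mul_comm 5]
    exact mul_bd hr.le (by rw [add_s, R_s, abs_le]; constructor <;> linarith)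

/-- induction over the levels -/
theorem levels (c : Ctx κ θ ω f u) (hO : Orb (FF f u) O n) {M l : ℕ} (hl : l ≤ 6) {z p : E}
    (hp : p ∈ O) (hg : Gt θ ω f M l z p) : ∀ k ≤ M, HH κ θ (FF f u) k ∧ Land κ θ O k := by
  intro k
  induction k with
  | zero =>
    intro _
    refine ⟨HH_zero c, ?_⟩
    intro m _ ζ hζ _ _
    have := ξ_bd c hO hζ
    rw [D_ξ] at this
    unfold Lam
    linarith
  | succ k ih =>
    intro hk
    obtain ⟨hH, hL⟩ := ih (by omega)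
    obtain ⟨y, hy, y1, y2⟩ := down_land c hO hl hp hg
    obtain ⟨b1, b2⟩ := land_bd c (m := M) (l := l + 1) y1 y2
    obtain ⟨s1, s2, _⟩ := step_data c hO hH hL hk hy b1 b2
    refine ⟨HH_succ c k hH s1 s2, ?_⟩
    intro m hm ζ hζ h1 h2
    exact (step_data c hO hH hL hm hζ h1 h2).2.2

/-- next gate of the same level -/
theorem next_gate (c : Ctx κ θ ω f u) (hO : Orb (FF f u) O n) {M l : ℕ} (hl : l ≤ 6) {z p : E}
    (hp : p ∈ O) (hg : Gt θ ω f M l z p) : ∃ z', ∃ p' ∈ O, Gt θ ω f M (l + 1) z' p' := by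
  obtain ⟨hH, hL⟩ := levels c hO hl hp hg M le_rfl
  obtain ⟨y, hy, y1, y2⟩ := down_land c hO hl hp hg
  obtain ⟨j1, j2, j3⟩ := pass_in c hO hH hL hy y1 y2
  obtain ⟨_, _, g3, _⟩ := gate_in c hO (by omega) j1 j2
  exact ⟨_, _, j1, g3⟩

theorem gate7 (c : Ctx κ θ ω f u) (hO : Orb (FF f u) O n) {M : ℕ} : ∀ d l : ℕ, l + d = 7 →
    (∃ z, ∃ p ∈ O, Gt θ ω f M l z p) → ∃ z, ∃ p ∈ O, Gt θ ω f M 7 z p := by
  intro d
  induction d with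
  | zero => intro l h hh; rw [add_zero] at h; rw [← h]; exact hh
  | succ d ih =>
    rintro l h ⟨z, p, hp, hg⟩
    obtain ⟨z', p', hp', hg'⟩ := next_gate c hO (by omega) hp hg
    exact ih (l + 1) (by omega) ⟨z', p', hp', hg'⟩

/-- a gate of level `M` yields a gate of level `M+1` -/
theorem raise (c : Ctx κ θ ω f u) (hO : Orb (FF f u) O n) {M l : ℕ} (hl : l ≤ 7) {z p : E}
    (hp : p ∈ O) (hg : Gt θ ω f M l z p) : ∃ l' ≤ 7, ∃ z', ∃ p' ∈ O, Gt θ ω f (M + 1) l' z' p' := by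
  obtain ⟨z', p', hp', hg'⟩ := gate7 c hO (7 - l) l (by omega) ⟨z, p, hp, hg⟩
  obtain ⟨e, hz, hx, b, k, hb, hk, hf⟩ := hg'
  obtain ⟨y, hy, hyv⟩ := gate_F c e hz hf
  have t11 := th11 c
  have k1 : (1:ℝ) / 10 ^ 24 ≤ 1 / 100000 := by norm_num
  obtain ⟨o1, o2⟩ := off_bd c hyv (a := 2 / 1000) hx hb
  rw [tgt_up, show sg (7 + 1) = 1 from rfl, R_one] at hy
  have hin : U θ (M + 1) (r θ M • y) ∈ O := by rw [← hy]; exact hO.inv1 hp'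
  obtain ⟨_, l', hl', z'', hg''⟩ := exit_bd c hO hin (by linarith)
  exact ⟨l', hl', z'', _, hin, hg''⟩

/-- no periodic orbit -/
theorem no_orb (c : Ctx κ θ ω f u) (hO : Orb (FF f u) O n) : False := by
  have key : ∀ N : ℕ, ∃ m ≥ N, ∃ l ≤ 7, ∃ z, ∃ p ∈ O, Gt θ ω f m l z p := by
    intro N
    induction N with
    | zero =>
      obtain ⟨p, hp, m, l, hl, z, hg⟩ := exists_down c hO
      exact ⟨m, by omega, l, by omega, z, p, hp, hg⟩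
    | succ N ih =>
      obtain ⟨m, hm, l, hl, z, p, hp, hg⟩ := ih
      obtain ⟨l', hl', z', p', hp', hg'⟩ := raise c hO hl hp hg
      exact ⟨m + 1, by omega, l', hl', z', p', hp', hg'⟩
  obtain ⟨a, ha, hmax⟩ := Set.exists_max_image O (fun p => p.2.1) hO.fin hO.ne
  obtain ⟨N, hN⟩ := exists_nat_gt (a.2.1)
  obtain ⟨m, hm, l, hl, z, p, hp, hg⟩ := key N
  have h1 := hmax p hp
  obtain ⟨e, hz, _⟩ := hg
  have h2 := abs_le.1 (gate_height c m l hz)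
  rw [← e] at h2
  have h3 : (N : ℝ) ≤ m := by exact_mod_cast hm
  change p.2.1 ≤ a.2.1 at h1
  linarith [h2.1]

/-- Module D: the perturbed map has no periodic points -/
theorem no_periodic {κ θ : ℝ} (hκ : 0 < κ) (hκ' : κ ≤ 1 / 10 ^ 12) (hθ : θ = κ ^ 24)
    {ω : E → ℝ} (hω : Wind κ θ ω) {f : E → E} (hf : ContDiff ℝ 2 f) (hS : Sys θ ω f)
    {u : E → E} (hu : Pert θ u) (n : ℕ) (hn : 1 ≤ n) (p : E) :
    (fun p => f p + u p)^[n] p ≠ p := by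
  intro h
  have c : Ctx κ θ ω f u := ⟨hκ, hκ', hθ, hω, hf, hS, hu⟩
  obtain ⟨O, hp, hO⟩ := exists_orb (F := FF f u) hn h
  exact no_orb c hO

end

end Pool.Agent.H718R2
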