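import Mathlib

/-!
# Failure of the C² closing lemma on ℝ³ (strong topology): shared definitions

Coordinates of `E = ℝ × ℝ × ℝ`: `(x, s, ξ)`; sup norm.
-/

namespace Pool.Agent.H718R2

abbrev E := ℝ × ℝ × ℝ

/-- The pattern (unit scale), indices `0..7`. -/
def q : ℕ → E
  | 0 => (0, 0, 0)
  | 1 => (0, -1, 1)
  | 2 => (1, -2, 0)
  | 3 => (1, -3, 1)
  | 4 => (1, 1, 1)
  | 5 => (1, 2, 0)
  | 6 => (0, 3, 1)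
  | _ => (0, 4, 0)

/-- The signs of the frames, indices `0..8`. -/
def sg : ℕ → ℝ
  | 0 => 1
  | 1 => -1
  | 2 => -1
  | 3 => 1
  | 4 => 1
  | 5 => -1
  | 6 => -1
  | _ => 1

/-- Frame: rotation by π (or identity) in the `(x,s)` plane. -/
def R (σ : ℝ) (z : E) : E := (σ * z.1, σ * z.2.1, z.2.2)

/-- scale of level `m` -/
noncomputable def r (θ : ℝ) (m : ℕ) : ℝ := θ ^ (m + 1)

noncomputable def uy (θ : ℝ) (m : ℕ) : ℝ := 4 * ∑ k ∈ Finset.range m, r θ k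

/-- the point near height `-m` with offset `z` -/
def D (m : ℕ) (z : E) : E := (z.1, z.2.1 - m, z.2.2)

/-- the point near height `m+1` with offset `z` -/
noncomputable def U (θ : ℝ) (m : ℕ) (z : E) : E := (z.1, z.2.1 + (m + 1) + uy θ m, z.2.2)

/-- target of the gate `(m, l)`: `l ≤ 6` down, `l = 7` up to the next level -/
noncomputable def tgt (θ : ℝ) (m l : ℕ) (z : E) : E :=
  if l < 7 then D m (r θ m • q (l + 1) + z) else U θ (m + 1) z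

/-- The gentle wind. -/
structure Wind (κ θ : ℝ) (ω : E → ℝ) : Prop where
  smooth : ContDiff ℝ 2 ω
  nonneg : ∀ z, 0 ≤ ω z
  zero : ∀ z, ‖z‖ ≤ 10 * θ → ω z = 0
  low : ∀ z, 15 * θ ≤ ‖z‖ → ‖z‖ ≤ 1 → κ / 4 * ‖z‖ ^ 2 ≤ ω z
  low' : ∀ z, 1 ≤ ‖z‖ → κ / 4 ≤ ω z
  up : ∀ z, ω z ≤ 1 / 10 ^ 11
  up2 : ∀ z, ω z ≤ 1 / 10 ^ 11 * ‖z‖ ^ 2
  d1 : ∀ z, ‖fderiv ℝ ω z‖ ≤ 1 / 10 ^ 11 * ‖z‖
  d2 : ∀ z w, ‖fderiv ℝ ω z - fderiv ℝ ω w‖ ≤ 1 / 10 ^ 11 * ‖z - w‖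

/-- What we need to know of the unperturbed diffeomorphism `f`. -/
structure Sys (θ : ℝ) (ω : E → ℝ) (f : E → E) : Prop where
  /-- exact gentle gates -/
  gentle : ∀ m l, l ≤ 7 → ∀ z : E, |z.1| ≤ 1 / 2000 → |z.2.1| ≤ 1 / 1000 → |z.2.2| ≤ 1 →
    f (U θ m (r θ m • (q l + R (sg l) z))) =
      tgt θ m l (r θ m • R (sg (l + 1)) (z + (ω z, 0, 0)))
  /-- gates whose `s`-offset is small: kill, or transport with controlled data -/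
  rigid : ∀ m l, l ≤ 7 → ∀ z : E, |z.2.1| ≤ 3 / 1000 →
    ((U θ m (r θ m • (q l + R (sg l) z))).2.2 + 3 ≤ (f (U θ m (r θ m • (q l + R (sg l) z)))).2.2) ∨
    (|z.2.2| < 2 ∧ |z.1 + ω z| ≤ 2 / 1000 ∧ ∃ b k : ℝ, |b| ≤ 2 / 1000 ∧ 0 ≤ k ∧
      f (U θ m (r θ m • (q l + R (sg l) z))) =
        tgt θ m l (r θ m • R (sg (l + 1)) (z.1 + ω z, b, z.2.2 + k)) ∧
      (|z.1 + ω z| ≤ 1 / 1000 → |z.2.1| ≤ 1 / 1000 → |z.2.2| ≤ 1 → b = z.2.1 ∧ k = 0))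
  /-- every point is killed, or in a gate, or moves up by one -/
  tri : ∀ p : E, (p.2.2 + 3 ≤ (f p).2.2) ∨
    (∃ m l, l ≤ 7 ∧ ∃ z : E, p = U θ m (r θ m • (q l + R (sg l) z)) ∧ |z.2.1| ≤ 1 / 100 ∧
      |z.1 + ω z| ≤ 2 / 1000 ∧ ∃ b k : ℝ, |b| ≤ 2 / 1000 ∧ 0 ≤ k ∧
      f p = tgt θ m l (r θ m • R (sg (l + 1)) (z.1 + ω z, b, z.2.2 + k))) ∨
    ((∀ m l, l ≤ 7 → r θ m / 50 ≤ |p.2.1 - (U θ m (r θ m • q l)).2.1|) ∧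
      ∃ k : ℝ, 0 ≤ k ∧ f p = (p.1, p.2.1 + 1, p.2.2 + k))
  /-- exact climbing -/
  climb : ∀ m, ∀ z : E, |z.1| ≤ 5 → |z.2.1| ≤ r θ m / 2 → f (D (m + 1) z) = D m z
  /-- exact core step -/
  core : ∀ z : E, |z.1| ≤ 5 → |z.2.1| ≤ 1 / 4 → f (D 0 z) = U θ 0 z

end Pool.Agent.H718R2
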