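import Pool.Agent.H718R2.Defs

/-!
# Shared definitions for the modules B (alive cycle ⇒ gentle) and C (composition)

Unit scale (one level), sup norm on `E = ℝ × ℝ × ℝ`.
-/

namespace Pool.Agent.H718R2

/-- The box. -/
def Box (L : ℝ) : Set E := {p | |p.1| ≤ 7 ∧ |p.2.1| ≤ 7 ∧ |p.2.2| ≤ L}

/-- bounds of the return map `Φ` on the box -/
structure Ret (κ θ L : ℝ) (Φ : E → E) : Prop where
  diff : Differentiable ℝ Φ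
  slope : ∀ p ∈ Box L, ‖fderiv ℝ Φ p‖ ≤ κ ^ 9
  lip : ∀ p ∈ Box L, ∀ p' ∈ Box L, ‖fderiv ℝ Φ p - fderiv ℝ Φ p'‖ ≤ 1 / 10 ^ 9 * θ * ‖p - p'‖

/-- small error terms -/
structure Small (c : ℝ) (e : E → E) : Prop where
  diff : Differentiable ℝ e
  b0 : ∀ z, ‖z‖ ≤ 1 / 10 ^ 4 → ‖e z‖ ≤ c
  b1 : ∀ z, ‖z‖ ≤ 1 / 10 ^ 4 → ‖fderiv ℝ e z‖ ≤ c
  b2 : ∀ z w, ‖z‖ ≤ 1 / 10 ^ 4 → ‖w‖ ≤ 1 / 10 ^ 4 → ‖fderiv ℝ e z - fderiv ℝ e w‖ ≤ c * ‖z - w‖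

/-- passage `l` : return map in the frame `R (sg l)` at the pattern point `q l` -/
noncomputable def pass (Φ : E → E) (l : ℕ) (y : E) : E := y + R (sg l) (Φ (q l + R (sg l) y))

/-- composition of climb, 8 passages and 8 gates -/
noncomputable def Yc (ω : E → ℝ) (Φ : E → E) (ec : E → E) (e : ℕ → E → E) : ℕ → E → E
  | 0 => fun ζ => ζ + ec ζ
  | l + 1 => fun ζ =>
      pass Φ l (Yc ω Φ ec e l ζ) + (ω (pass Φ l (Yc ω Φ ec e l ζ)), 0, 0)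
        + e l (pass Φ l (Yc ω Φ ec e l ζ))

/-- an alive cycle at unit scale -/
structure Cycle (θ L : ℝ) (ω : E → ℝ) (Φ : E → E) (y z : ℕ → E) : Prop where
  hz : ∀ l, l ≤ 7 → z l = pass Φ l (y l)
  yξ : ∀ l, l ≤ 7 → |(y l).2.2| ≤ L - 1
  y0x : |(y 0).1| ≤ 6 * θ
  y0y : |(y 0).2.1| ≤ 6 * θ
  zξ : ∀ l, l ≤ 7 → |(z l).2.2| ≤ 2
  zx : ∀ l, l ≤ 7 → |(z l).1 + ω (z l)| ≤ 2 / 1000
  zy : ∀ l, l ≤ 7 → |(z l).2.1| ≤ 3 / 1000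
  nx : ∀ l, l ≤ 7 → |(y (l + 1)).1 - ((z l).1 + ω (z l))| ≤ θ ^ 10
  ny : ∀ l, l ≤ 7 → |(y (l + 1)).2.1| ≤ 2 / 1000 + θ ^ 10
  gentle : ∀ l, l ≤ 7 → |(z l).1 + ω (z l)| ≤ 1 / 1000 → |(z l).2.1| ≤ 1 / 1000 →
    |(z l).2.2| ≤ 1 →
      |(y (l + 1)).2.1 - (z l).2.1| ≤ θ ^ 10 ∧ |(y (l + 1)).2.2 - (z l).2.2| ≤ θ ^ 10
  y8 : |(y 8).1| ≤ 5 * θ

end Pool.Agent.H718R2
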