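import Pool.Agent.H718R2.Defs

/-!
# Module E1: the origin is recurrent
-/

namespace Pool.Agent.H718R2

namespace E1

theorem theta_pos {κ θ : ℝ} (hκ : 0 < κ) (hθ : θ = κ ^ 24) : 0 < θ := by
  rw [hθ]; positivity

theorem theta_le {κ θ : ℝ} (hκ : 0 < κ) (hκ' : κ ≤ 1 / 10 ^ 12) (hθ : θ = κ ^ 24) :
    θ ≤ 1 / 10 ^ 12 := by
  rw [hθ]
  have h1 : κ ≤ 1 := hκ'.trans (by norm_num)
  calc κ ^ 24 ≤ κ ^ 1 := pow_le_pow_of_le_one hκ.le h1 (by norm_num)
    _ = κ := pow_one κ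
    _ ≤ _ := hκ'

theorem r_pos {θ : ℝ} (h : 0 < θ) (m : ℕ) : 0 < r θ m := by unfold r; positivity

theorem r_succ (θ : ℝ) (m : ℕ) : r θ (m + 1) = θ * r θ m := by unfold r; ring

theorem r_le {θ : ℝ} (h : 0 < θ) (h1 : θ ≤ 1 / 10 ^ 12) (m : ℕ) : r θ m ≤ 1 / 10 ^ 12 := by
  induction m with
  | zero => simpa [r] using h1
  | succ m ih =>
    rw [r_succ]
    have := r_pos h m
    nlinarith

theorem r_le_of_lt {θ : ℝ} (h : 0 < θ) (h1 : θ ≤ 1 / 10 ^ 12) {m k : ℕ} (hmk : m < k) :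
    r θ k ≤ θ * r θ m := by
  obtain ⟨j, rfl⟩ := Nat.exists_eq_add_of_lt hmk
  induction j with
  | zero => rw [show m + 0 + 1 = m + 1 from rfl, r_succ]
  | succ j ih =>
    have e : m + (j + 1) + 1 = (m + j + 1) + 1 := by ring
    rw [e, r_succ]
    have := ih (by omega)
    have h2 := r_pos h (m + j + 1)
    nlinarith

/-- the number of steps of the level `k` passage -/
def nn : ℕ → ℕ
  | 0 => 1
  | k + 1 => 8 * nn k + 9

theorem q_bound (l : ℕ) : |(q l).1| ≤ 4 ∧ |(q l).2.1| ≤ 4 ∧ |(q l).2.2| ≤ 4 := by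
  rcases l with _ | _ | _ | _ | _ | _ | _ | l <;> simp [q] <;> norm_num

theorem sg_abs (l : ℕ) : |sg l| = 1 := by
  rcases l with _ | _ | _ | _ | _ | _ | _ | l <;> simp [sg]

theorem R_bound (l : ℕ) {z : E} {c : ℝ} (h1 : |z.1| ≤ c) (h2 : |z.2.1| ≤ c) (h3 : |z.2.2| ≤ c) :
    |(R (sg l) z).1| ≤ c ∧ |(R (sg l) z).2.1| ≤ c ∧ |(R (sg l) z).2.2| ≤ c := by
  simp only [R, abs_mul, sg_abs, one_mul]
  exact ⟨h1, h2, h3⟩

theorem omega_zero {κ θ : ℝ} (hκ : 0 < κ) (hθ : θ = κ ^ 24) {ω : E → ℝ} (hω : Wind κ θ ω)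
    {z : E} (h1 : |z.1| ≤ 7 * θ) (h2 : |z.2.1| ≤ 7 * θ) (h3 : |z.2.2| ≤ 7 * θ) : ω z = 0 := by
  apply hω.zero
  have hp := theta_pos hκ hθ
  rw [Prod.norm_def, Prod.norm_def]
  simp only [Real.norm_eq_abs]
  refine max_le (by linarith) (max_le (by linarith) (by linarith))

theorem passage {κ θ : ℝ} (hκ : 0 < κ) (hκ' : κ ≤ 1 / 10 ^ 12) (hθ : θ = κ ^ 24)
    {ω : E → ℝ} (hω : Wind κ θ ω) {f : E → E} (hS : Sys θ ω f) (k : ℕ)
    (ih : ∀ ζ : E, |ζ.1| ≤ 7 * r θ k → |ζ.2.1| ≤ 7 * r θ k → |ζ.2.2| ≤ 7 * r θ k →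
      f^[nn k] (D k ζ) = U θ k ζ)
    (l : ℕ) (hl : l ≤ 7) (z : E) (h1 : |z.1| ≤ 7 * θ) (h2 : |z.2.1| ≤ 7 * θ) (h3 : |z.2.2| ≤ 7 * θ) :
    f^[nn k + 1] (D k (r θ k • (q l + R (sg l) z))) = tgt θ k l (r θ k • R (sg (l + 1)) z) := by
  have hp := theta_pos hκ hθ
  have hle := theta_le hκ hκ' hθ
  have hr := r_pos hp k
  obtain ⟨q1, q2, q3⟩ := q_bound l
  obtain ⟨b1, b2, b3⟩ := R_bound l h1 h2 h3
  have key : ∀ a b : ℝ, |a| ≤ 4 → |b| ≤ 7 * θ → |r θ k * (a + b)| ≤ 7 * r θ k := by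
    intro a b ha hb
    rw [abs_mul, abs_of_pos hr]
    have : |a + b| ≤ 7 := (abs_add_le a b).trans (by linarith)
    nlinarith
  rw [Function.iterate_succ_apply', ih _ (key _ _ q1 b1) (key _ _ q2 b2) (key _ _ q3 b3),
    hS.gentle k l hl z (h1.trans (by linarith)) (h2.trans (by linarith)) (h3.trans (by linarith)),
    omega_zero hκ hθ hω h1 h2 h3]
  congr 3
  ext <;> simp

theorem level {κ θ : ℝ} (hκ : 0 < κ) (hκ' : κ ≤ 1 / 10 ^ 12) (hθ : θ = κ ^ 24)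
    {ω : E → ℝ} (hω : Wind κ θ ω) {f : E → E} (hS : Sys θ ω f) (k : ℕ) :
    ∀ ζ : E, |ζ.1| ≤ 7 * r θ k → |ζ.2.1| ≤ 7 * r θ k → |ζ.2.2| ≤ 7 * r θ k →
      f^[nn k] (D k ζ) = U θ k ζ := by
  have hp := theta_pos hκ hθ
  have hle := theta_le hκ hκ' hθ
  induction k with
  | zero =>
    intro ζ h1 h2 h3
    have := r_le hp hle 0
    simpa [nn] using hS.core ζ (h1.trans (by linarith)) (h2.trans (by linarith))
  | succ k ih =>
    intro ζ h1 h2 h3
    have hr := r_pos hp k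
    have hrle := r_le hp hle k
    rw [r_succ] at h1 h2 h3
    -- the rescaled point
    set z : E := (r θ k)⁻¹ • ζ with hz
    have hζ : ζ = r θ k • z := by rw [hz, smul_smul, mul_inv_cancel₀ hr.ne', one_smul]
    have hc : ∀ a : ℝ, |a| ≤ 7 * (θ * r θ k) → |(r θ k)⁻¹ * a| ≤ 7 * θ := by
      intro a ha
      rw [abs_mul, abs_of_pos (inv_pos.mpr hr), inv_mul_le_iff₀ hr]
      linarith
    have z1 : |z.1| ≤ 7 * θ := hc _ h1
    have z2 : |z.2.1| ≤ 7 * θ := hc _ h2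
    have z3 : |z.2.2| ≤ 7 * θ := hc _ h3
    have hθr : θ * r θ k ≤ 1 / 10 ^ 12 * r θ k := by nlinarith
    have climb : f (D (k + 1) ζ) = D k ζ :=
      hS.climb k ζ (h1.trans (by nlinarith)) (h2.trans (by nlinarith))
    have start : D k ζ = D k (r θ k • (q 0 + R (sg 0) z)) := by
      rw [hζ]
      congr 2
      ext <;> simp [q, R, sg]
    have iter : ∀ l : ℕ, l ≤ 7 → f^[(nn k + 1) * l] (D k (r θ k • (q 0 + R (sg 0) z))) =
        D k (r θ k • (q l + R (sg l) z)) := by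
      intro l
      induction l with
      | zero => intro _; simp
      | succ l ihl =>
        intro hl
        have e : (nn k + 1) * (l + 1) = (nn k + 1) + (nn k + 1) * l := by ring
        rw [e, Function.iterate_add_apply, ihl (by omega),
          passage hκ hκ' hθ hω hS k ih l (by omega) z z1 z2 z3, tgt, if_pos (by omega), smul_add]
    have e : nn (k + 1) = (nn k + 1) + ((nn k + 1) * 7 + 1) := by
      show 8 * nn k + 9 = _
      ring
    rw [e, Function.iterate_add_apply f (nn k + 1) ((nn k + 1) * 7 + 1),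
      Function.iterate_add_apply f ((nn k + 1) * 7) 1, Function.iterate_one, climb,
      start, iter 7 le_rfl, passage hκ hκ' hθ hω hS k ih 7 le_rfl z z1 z2 z3, tgt,
      if_neg (by omega), hζ]
    congr 2
    ext <;> simp [R, sg]

theorem climb_iter {θ : ℝ} (hp : 0 < θ) (hle : θ ≤ 1 / 10 ^ 12) {ω : E → ℝ} {f : E → E}
    (hS : Sys θ ω f) (k : ℕ) (z : E) (h1 : |z.1| ≤ 5) (h2 : |z.2.1| ≤ r θ k) :
    ∀ j : ℕ, j ≤ k → f^[j] (D k z) = D (k - j) z := by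
  intro j
  induction j with
  | zero => intro _; simp
  | succ j ih =>
    intro hj
    rw [Function.iterate_succ_apply', ih (by omega)]
    have e : k - j = (k - (j + 1)) + 1 := by omega
    rw [e]
    apply hS.climb _ _ h1
    have hlt : k - (j + 1) < k := by omega
    have := r_le_of_lt hp hle hlt
    have h3 := r_pos hp (k - (j + 1))
    nlinarith

end E1

open E1 in
/-- Module E1: recurrence of the origin -/
theorem rec_zero {κ θ : ℝ} (hκ : 0 < κ) (hκ' : κ ≤ 1 / 10 ^ 12) (hθ : θ = κ ^ 24)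
    {ω : E → ℝ} (hω : Wind κ θ ω) {f : E → E} (hS : Sys θ ω f) (k : ℕ) :
    ∃ n : ℕ, 1 ≤ n ∧ f^[n] (0 : E) = (0, -r θ k, r θ k) := by
  have hp := theta_pos hκ hθ
  have hle := theta_le hκ hκ' hθ
  have hr := r_pos hp k
  have hrle := r_le hp hle k
  refine ⟨nn k + 1, by omega, ?_⟩
  have a0 : f^[k] (D k 0) = 0 := by
    rw [climb_iter hp hle hS k 0 (by simp) (by simpa using hr.le) k le_rfl]
    ext <;> simp [D]
  have a1 : f^[nn k + 1] (D k 0) = D k (0, -r θ k, r θ k) := by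
    have h := passage hκ hκ' hθ hω hS k (level hκ hκ' hθ hω hS k) 0 (by norm_num) 0
      (by simpa using hp.le) (by simpa using hp.le) (by simpa using hp.le)
    rw [tgt, if_pos (by norm_num)] at h
    have e1 : r θ k • (q 0 + R (sg 0) 0) = 0 := by ext <;> simp [q, R]
    have e2 : r θ k • q (0 + 1) + r θ k • R (sg (0 + 1)) 0 = ((0, -r θ k, r θ k) : E) := by
      ext <;> simp [q, R]
    rwa [e1, e2] at h
  have a2 : f^[k] (D k (0, -r θ k, r θ k)) = (0, -r θ k, r θ k) := by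
    rw [climb_iter hp hle hS k (0, -r θ k, r θ k) (by simp) (by simp [abs_of_pos hr]) k le_rfl]
    ext <;> simp [D]
  calc f^[nn k + 1] 0 = f^[nn k + 1] (f^[k] (D k 0)) := by rw [a0]
    _ = f^[k] (f^[nn k + 1] (D k 0)) := by
      rw [← Function.iterate_add_apply, ← Function.iterate_add_apply, Nat.add_comm]
    _ = _ := by rw [a1, a2]

end Pool.Agent.H718R2
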