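import Pool.Agent.H718R2.E1
import Pool.Agent.H718R2.Pert

/-!
# Module E2: diffeomorphisms of `ℝ³`, the strong (Whitney) topology, recurrence, and the
final statement (modulo the existence of the system and the absence of periodic points)
-/

open Topology

namespace Pool.Agent.H718R2

/-- `Diff^r(ℝ³)`: homeomorphisms of `ℝ³ = ℝ × ℝ × ℝ` which are `C^r` together with their inverse
(`r = ⊤` is `C^∞`). -/
def DiffR (r : ℕ∞) : Type := {f : E ≃ₜ E // ContDiff ℝ r f ∧ ContDiff ℝ r f.symm}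

/-- The basic strong neighbourhood of `f` of order `k` and size `ε` (a positive continuous function):
all `g` with `‖D^i g(p) - D^i f(p)‖ < ε(p)` for all points `p` and all orders `i ≤ k`. -/
def nbhd (r : ℕ∞) (f : DiffR r) (k : ℕ) (ε : E → ℝ) : Set (DiffR r) :=
  {g | ∀ (p : E) (i : ℕ), i ≤ k →
    ‖iteratedFDeriv ℝ i (g.1 : E → E) p - iteratedFDeriv ℝ i (f.1 : E → E) p‖ < ε p}

/-- The strong (Whitney) `C^r` topology on `Diff^r(ℝ³)`. -/
@[instance_reducible]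
def strongTop (r : ℕ∞) : TopologicalSpace (DiffR r) :=
  TopologicalSpace.generateFrom {S | ∃ (f : DiffR r) (k : ℕ) (ε : E → ℝ),
    (k : ℕ∞) ≤ r ∧ Continuous ε ∧ (∀ p, 0 < ε p) ∧ S = nbhd r f k ε}

/-- `x` is recurrent for `f`: `m ↦ f^m(x)` is not a homeomorphism of the discrete space `ℤ` onto its
image. -/
def IsRec (f : E ≃ₜ E) (x : E) : Prop := ¬ IsEmbedding (fun m : ℤ => (f ^ m) x)

/-- `x` is periodic for `f`. -/
def IsPer (f : E ≃ₜ E) (x : E) : Prop := ∃ n : ℕ, 1 ≤ n ∧ (f ^ n) x = x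

/-- The `C^r` closing lemma for `M = ℝ³` with the strong topology. -/
def Closing (r : ℕ∞) : Prop :=
  ∀ (f : DiffR r) (x : E), IsRec f.1 x → ∀ V : Set (DiffR r), IsOpen[strongTop r] V → f ∈ V →
    ∃ g ∈ V, IsPer g.1 x

namespace E2

/-- the size of the allowed perturbations -/
noncomputable def epsf (θ : ℝ) (p : E) : ℝ := θ ^ (12 * (|p.2.1| + 2))

theorem epsf_pos {θ : ℝ} (h : 0 < θ) (p : E) : 0 < epsf θ p := Real.rpow_pos_of_pos h _

theorem epsf_cont {θ : ℝ} (h : 0 < θ) : Continuous (epsf θ) := by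
  unfold epsf
  exact (Real.continuous_const_rpow h.ne').comp (by fun_prop)

theorem epsf_le {θ : ℝ} (h : 0 < θ) (h1 : θ ≤ 1) (p : E) (m : ℕ) (hm : (m : ℝ) - 1 ≤ |p.2.1|) :
    epsf θ p ≤ θ ^ (12 * (m + 1)) := by
  unfold epsf
  rw [← Real.rpow_natCast]
  apply Real.rpow_le_rpow_of_exponent_ge h h1
  push_cast
  linarith

theorem pert_of_close {θ : ℝ} (h : 0 < θ) (h1 : θ ≤ 1) {f g : E → E} (hf : ContDiff ℝ 2 f)
    (hg : ContDiff ℝ 2 g) (hc : ∀ (p : E) (i : ℕ), i ≤ 2 →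
      ‖iteratedFDeriv ℝ i g p - iteratedFDeriv ℝ i f p‖ < epsf θ p) :
    Pert θ (fun p => g p - f p) := by
  have key : ∀ (p : E) (i : ℕ), i ≤ 2 → ‖iteratedFDeriv ℝ i (fun p => g p - f p) p‖ < epsf θ p := by
    intro p i hi
    have hi' : (i : WithTop ℕ∞) ≤ 2 :=
      WithTop.coe_le_coe.mpr (by exact_mod_cast hi : (i : ℕ∞) ≤ 2)
    have : iteratedFDeriv ℝ i (g - f) p = iteratedFDeriv ℝ i g p - iteratedFDeriv ℝ i f p :=
      iteratedFDeriv_sub_apply (hg.contDiffAt.of_le hi') (hf.contDiffAt.of_le hi')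
    have h2 : (fun p => g p - f p) = g - f := rfl
    rw [h2, this]
    exact hc p i hi
  refine ⟨hg.sub hf, ?_, ?_, ?_⟩
  · intro p m hm
    have := key p 0 (by norm_num)
    rw [norm_iteratedFDeriv_zero] at this
    exact this.le.trans (epsf_le h h1 p m hm)
  · intro p m hm
    have := key p 1 (by norm_num)
    rw [norm_iteratedFDeriv_one] at this
    exact this.le.trans (epsf_le h h1 p m hm)
  · intro p m hm
    have := key p 2 (by norm_num)
    rw [← norm_iteratedFDeriv_fderiv, norm_iteratedFDeriv_one] at this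
    exact this.le.trans (epsf_le h h1 p m hm)

theorem pow_apply (f : E ≃ₜ E) (n : ℕ) (x : E) : (f ^ n) x = (f : E → E)^[n] x := by
  induction n generalizing x with
  | zero => simp
  | succ n ih => rw [pow_succ, Homeomorph.mul_apply, ih, Function.iterate_succ_apply]

theorem isRec {κ θ : ℝ} (hκ : 0 < κ) (hκ' : κ ≤ 1 / 10 ^ 12) (hθ : θ = κ ^ 24)
    {ω : E → ℝ} (hω : Wind κ θ ω) {f : E ≃ₜ E} (hS : Sys θ ω f) : IsRec f 0 := by
  intro hemb
  have hp := E1.theta_pos hκ hθ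
  have hle := E1.theta_le hκ hκ' hθ
  -- `{0}` is the preimage of an open set
  obtain ⟨V, hV, hV'⟩ := hemb.isInducing.isOpen_iff.mp (isOpen_discrete ({0} : Set ℤ))
  have h0 : (0 : E) ∈ V := by
    have : (0 : ℤ) ∈ (fun m : ℤ => (f ^ m) (0 : E)) ⁻¹' V := by rw [hV']; rfl
    simpa using this
  -- the points `(0, -r_k, r_k)` tend to `0`
  have ht : Filter.Tendsto (fun k : ℕ => ((0, -r θ k, r θ k) : E)) Filter.atTop (𝓝 0) := by
    have h1 : Filter.Tendsto (fun k : ℕ => r θ k) Filter.atTop (𝓝 0) := by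
      unfold r
      exact (tendsto_pow_atTop_nhds_zero_of_lt_one hp.le (by linarith)).comp
        (Filter.tendsto_add_atTop_nat 1)
    have h2 : Filter.Tendsto (fun k : ℕ => -r θ k) Filter.atTop (𝓝 0) := by simpa using h1.neg
    exact (tendsto_const_nhds (x := (0 : ℝ))).prodMk_nhds (h2.prodMk_nhds h1)
  obtain ⟨k, hk⟩ := (ht.eventually (hV.mem_nhds h0)).exists
  obtain ⟨n, hn, hfn⟩ := rec_zero hκ hκ' hθ hω hS k
  have : (n : ℤ) ∈ (fun m : ℤ => (f ^ m) (0 : E)) ⁻¹' V := by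
    show (f ^ (n : ℤ)) (0 : E) ∈ V
    rw [zpow_natCast, pow_apply, hfn]
    exact hk
  rw [hV'] at this
  have : (n : ℤ) = 0 := this
  omega

/-- The final statement from the existence of the system and the absence of periodic points. -/
theorem main_of {κ θ : ℝ} (hκ : 0 < κ) (hκ' : κ ≤ 1 / 10 ^ 12) (hθ : θ = κ ^ 24)
    {ω : E → ℝ} (hω : Wind κ θ ω) {f : E ≃ₜ E} (hS : Sys θ ω f)
    (hf : ContDiff ℝ (⊤ : ℕ∞) f) (hf' : ContDiff ℝ (⊤ : ℕ∞) f.symm)
    (hN : ∀ u : E → E, Pert θ u → ∀ n : ℕ, 1 ≤ n → ∀ p : E, (fun p => f p + u p)^[n] p ≠ p)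
    (r : ℕ∞) (hr : 2 ≤ r) :
    ∃ F : DiffR r, ContDiff ℝ (⊤ : ℕ∞) F.1 ∧ ContDiff ℝ (⊤ : ℕ∞) F.1.symm ∧ IsRec F.1 0 ∧
      ∃ V : Set (DiffR r), IsOpen[strongTop r] V ∧ F ∈ V ∧ ∀ g ∈ V, ∀ p : E, ¬ IsPer g.1 p := by
  have hp := E1.theta_pos hκ hθ
  have hle := E1.theta_le hκ hκ' hθ
  have hle1 : ((r : ℕ∞) : WithTop ℕ∞) ≤ ((⊤ : ℕ∞) : WithTop ℕ∞) := by
    exact_mod_cast (le_top : r ≤ ⊤)
  have h2r : (2 : WithTop ℕ∞) ≤ ((r : ℕ∞) : WithTop ℕ∞) := WithTop.coe_le_coe.mpr hr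
  let F : DiffR r := ⟨f, hf.of_le hle1, hf'.of_le hle1⟩
  refine ⟨F, hf, hf', isRec hκ hκ' hθ hω hS, nbhd r F 2 (epsf θ), ?_, ?_, ?_⟩
  · exact TopologicalSpace.GenerateOpen.basic _
      ⟨F, 2, epsf θ, by exact_mod_cast hr, epsf_cont hp, epsf_pos hp, rfl⟩
  · intro p i _
    simpa using epsf_pos hp p
  · intro g hg p hper
    obtain ⟨n, hn, hnp⟩ := hper
    rw [pow_apply] at hnp
    have hu := pert_of_close hp (by linarith) (F.2.1.of_le h2r) (g.2.1.of_le h2r) hg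
    apply hN _ hu n hn p
    have e : (fun p => f p + (g.1 p - F.1 p)) = g.1 := by
      funext p
      show f p + (g.1 p - f p) = g.1 p
      abel
    rw [e]
    exact hnp

theorem not_closing_of {r : ℕ∞} (h : ∃ F : DiffR r, ContDiff ℝ (⊤ : ℕ∞) F.1 ∧
      ContDiff ℝ (⊤ : ℕ∞) F.1.symm ∧ IsRec F.1 0 ∧
      ∃ V : Set (DiffR r), IsOpen[strongTop r] V ∧ F ∈ V ∧ ∀ g ∈ V, ∀ p : E, ¬ IsPer g.1 p) :
    ¬ Closing r := by
  obtain ⟨F, -, -, hF, V, hV, hFV, hg⟩ := h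
  intro hC
  obtain ⟨g, hgV, hper⟩ := hC F 0 hF V hV hFV
  exact hg g hgV 0 hper

end E2

end Pool.Agent.H718R2
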