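import Pool.Agent.H718R2.A1_helper786
import Pool.Agent.H718R2.A2a
import Pool.Agent.H718R2.A2b_helper812
import Pool.Agent.H718R2.A3
import Pool.Agent.H718R2.E2
import Pool.Agent.H718R2.D5

/-!
# Assembly
-/

open Topology

namespace Pool.Agent.H718R2

/-- the system exists -/
theorem exists_sys : ∃ κ θ : ℝ, 0 < κ ∧ κ ≤ 1 / 10 ^ 12 ∧ θ = κ ^ 24 ∧ ∃ ω : E → ℝ, Wind κ θ ω ∧
    ∃ f : E ≃ₜ E, ContDiff ℝ (⊤ : ℕ∞) f ∧ ContDiff ℝ (⊤ : ℕ∞) f.symm ∧ Sys θ ω f := by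
  obtain ⟨C, hC⟩ := ψ_lip
  obtain ⟨κ, hκ, hκ', ω, hs, hW, hev, hl, hCω⟩ := exists_wind C
  obtain ⟨hθ, hθ'⟩ := θ_small hκ hκ' rfl
  obtain ⟨A⟩ := exists_atoms hθ hθ' hs hW.nonneg hW.up hl hC hCω
  obtain ⟨f, hf, hf', hfe⟩ := homeo_of_atoms A
  refine ⟨κ, κ ^ 24, hκ, hκ', rfl, ω, hW, f, hf, hf', ?_⟩
  rw [hfe]
  exact sys_of_atoms hθ hθ' hW.nonneg hW.up hev A

/-- `0` is recurrent in the strong sense: it is an accumulation point of its forward orbit -/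
theorem rec_strong {κ θ : ℝ} (hκ : 0 < κ) (hκ' : κ ≤ 1 / 10 ^ 12) (hθ : θ = κ ^ 24)
    {ω : E → ℝ} (hω : Wind κ θ ω) {f : E ≃ₜ E} (hS : Sys θ ω f) (δ : ℝ) (hδ : 0 < δ) :
    ∃ n : ℕ, 1 ≤ n ∧ ‖(f ^ n) (0 : E)‖ < δ := by
  obtain ⟨hp, hle⟩ := θ_small hκ hκ' hθ
  have hθ1 : θ < 1 := by linarith [show (1:ℝ) / 10 ^ 24 < 1 by norm_num]
  obtain ⟨k, hk⟩ := exists_pow_lt_of_lt_one hδ hθ1
  obtain ⟨n, hn, hfn⟩ := rec_zero hκ hκ' hθ hω hS k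
  refine ⟨n, hn, ?_⟩
  rw [E2.pow_apply, hfn]
  have hr : 0 < r θ k := r_pos hp k
  have h1 : ‖((0, -r θ k, r θ k) : E)‖ ≤ r θ k := by
    apply nle <;> simp [abs_of_pos hr, hr.le]
  have h2 : r θ k ≤ θ ^ k := by
    unfold r; exact pow_le_pow_of_le_one hp.le hθ1.le (by omega)
  linarith

end Pool.Agent.H718R2
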