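import Mathlib

/-!
# Closing lemma on manifolds: definitions

`V n` is `ℝⁿ`.  Manifolds are modelled on `V n` (`𝓡 n`).  `DiffM n r M` is `Diff^r(M)`; the strong
(Whitney) topology is generated by Hirsch's basic strong neighbourhoods.
-/

open scoped Manifold ContDiff Topology

namespace Pool.Agent.H718R2.G

/-- `ℝⁿ` -/
abbrev V (n : ℕ) := EuclideanSpace ℝ (Fin n)

section
variable (n : ℕ) (M : Type*) [TopologicalSpace M] [ChartedSpace (V n) M]

/-- `Diff^r(M)` -/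
abbrev DiffM (r : ℕ∞) := Diffeomorph (𝓡 n) (𝓡 n) M M r

/-- The data of a basic strong neighbourhood (Hirsch, Differential Topology, 2.1): charts `φ i` of the
smooth structure with locally finite domains, charts `ψ i`, compact sets `K i` in the domain of `φ i`,
positive numbers `ε i`. -/
structure StrongData where
  ι : Type
  φ : ι → OpenPartialHomeomorph M (V n)
  ψ : ι → OpenPartialHomeomorph M (V n)
  K : ι → Set M
  ε : ι → ℝ
  φ_mem : ∀ i, φ i ∈ IsManifold.maximalAtlas (𝓡 n) ∞ M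
  ψ_mem : ∀ i, ψ i ∈ IsManifold.maximalAtlas (𝓡 n) ∞ M
  lf : LocallyFinite fun i => (φ i).source
  compact : ∀ i, IsCompact (K i)
  sub : ∀ i, K i ⊆ (φ i).source
  pos : ∀ i, 0 < ε i

variable {n M}

/-- The basic strong neighbourhood of `f` of order `k`. -/
def strongNbhd {r : ℕ∞} (D : StrongData n M) (k : ℕ) (f : DiffM n M r) : Set (DiffM n M r) :=
  {g | ∀ i, ∀ x ∈ D.K i, g x ∈ (D.ψ i).source ∧ ∀ m : ℕ, m ≤ k →
    ‖iteratedFDeriv ℝ m (D.ψ i ∘ g ∘ (D.φ i).symm) (D.φ i x)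
      - iteratedFDeriv ℝ m (D.ψ i ∘ f ∘ (D.φ i).symm) (D.φ i x)‖ < D.ε i}

variable (n M)

/-- The strong (Whitney) `C^r` topology on `Diff^r(M)`. -/
@[instance_reducible]
def strongTop (r : ℕ∞) : TopologicalSpace (DiffM n M r) :=
  TopologicalSpace.generateFrom {S | ∃ (D : StrongData n M) (k : ℕ) (f : DiffM n M r),
    (k : ℕ∞) ≤ r ∧ (∀ i, ∀ x ∈ D.K i, f x ∈ (D.ψ i).source) ∧ S = strongNbhd D k f}

end

/-- `x` is recurrent for `f`: `m ↦ f^m(x)` is not a homeomorphism of the discrete space `ℤ` onto its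
image. -/
def IsRec {X : Type*} [TopologicalSpace X] (f : X ≃ₜ X) (x : X) : Prop :=
  ¬ Topology.IsEmbedding (fun m : ℤ => (f ^ m) x)

/-- `x` is periodic for `f`. -/
def IsPer {X : Type*} (f : X → X) (x : X) : Prop := ∃ k : ℕ, 1 ≤ k ∧ f^[k] x = x

/-- The `C^r` closing lemma for the manifold `M` of dimension `n`. -/
def Closing (n : ℕ) (M : Type*) [TopologicalSpace M] [ChartedSpace (V n) M] (r : ℕ∞) : Prop :=
  ∀ (f : DiffM n M r) (x : M), IsRec f.toHomeomorph x →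
    ∀ U : Set (DiffM n M r), IsOpen[strongTop n M r] U → f ∈ U → ∃ g ∈ U, IsPer g x

/-- `M` contains a properly embedded closed half-space. -/
def HalfSpaceChart (n : ℕ) [NeZero n] (M : Type*) [TopologicalSpace M] [ChartedSpace (V n) M] : Prop :=
  ∃ φ ∈ IsManifold.maximalAtlas (𝓡 n) ∞ M, {v : V n | 0 ≤ v 0} ⊆ φ.target ∧
    IsClosed (φ.symm '' {v : V n | 0 ≤ v 0})

/-- Main property in `ℝⁿ` (Theorem N), to be transplanted into half-space charts: a diffeomorphism `F`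
which is the identity on `{v 0 ≤ 1}`, with a recurrent point `a` and a neighbourhood `N` of `a`, such
that for every map `G` that is `C²`-close to `F` on `{1/2 < v 0}`, no finite set which is closed under `G`
as long as the first coordinate is `≥ 1` meets `N`. -/
def NonClosing (n : ℕ) [NeZero n] : Prop :=
  ∃ (F : V n ≃ₜ V n) (a : V n) (N : Set (V n)) (ε : V n → ℝ), N ∈ 𝓝 a ∧
    ContDiff ℝ ∞ F ∧ ContDiff ℝ ∞ F.symm ∧ (∀ v : V n, v 0 ≤ 1 → F v = v) ∧
    1 ≤ a 0 ∧ (∀ δ : ℝ, 0 < δ → ∃ k : ℕ, 1 ≤ k ∧ ‖F^[k] a - a‖ < δ) ∧ Continuous ε ∧ (∀ v, 0 < ε v) ∧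
    ∀ G : V n → V n, ContDiffOn ℝ 2 G {v : V n | 1 / 2 < v 0} →
      (∀ v : V n, 1 / 2 < v 0 → ∀ i : ℕ, i ≤ 2 →
        ‖iteratedFDeriv ℝ i G v - iteratedFDeriv ℝ i (F : V n → V n) v‖ < ε v) →
      ∀ O : Set (V n), O.Finite → (O ∩ N).Nonempty → ¬ (∀ v ∈ O, 1 ≤ v 0 → G v ∈ O)

end Pool.Agent.H718R2.G
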