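import Mathlib
import Pool.Agent.H718R2.G0

/-! Task K0: transplant a diffeomorphism of `ℝⁿ` into a chart. -/

open scoped Manifold ContDiff Topology
open Set

namespace Pool.Agent.H718R2.G

open Classical in
/-- The transplanted map. -/
private noncomputable def tr {n : ℕ} {M : Type*} [TopologicalSpace M]
    (φ : OpenPartialHomeomorph M (V n)) (F : V n → V n) (y : M) : M :=
  if y ∈ φ.source then φ.symm (F (φ y)) else y

private theorem tr_source {n : ℕ} {M : Type*} [TopologicalSpace M]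
    {φ : OpenPartialHomeomorph M (V n)} {F : V n → V n} {y : M} (hy : y ∈ φ.source) :
    tr φ F y = φ.symm (F (φ y)) := by
  unfold tr; rw [if_pos hy]

private theorem tr_not_source {n : ℕ} {M : Type*} [TopologicalSpace M]
    {φ : OpenPartialHomeomorph M (V n)} {F : V n → V n} {y : M} (hy : y ∉ φ.source) :
    tr φ F y = y := by
  unfold tr; rw [if_neg hy]

private theorem tr_id {n : ℕ} {M : Type*} [TopologicalSpace M]
    {φ : OpenPartialHomeomorph M (V n)} {A : Set (V n)} {F : V n → V n}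
    (hid : ∀ v ∉ A, F v = v) {y : M} (hy : y ∉ φ.symm '' A) :
    tr φ F y = y := by
  by_cases hs : y ∈ φ.source
  · rw [tr_source hs]
    have h1 : φ y ∉ A := fun h => hy ⟨φ y, h, φ.left_inv hs⟩
    rw [hid _ h1, φ.left_inv hs]
  · exact tr_not_source hs

private theorem maps_target {n : ℕ} {M : Type*} [TopologicalSpace M]
    {φ : OpenPartialHomeomorph M (V n)} {A : Set (V n)} (hA : A ⊆ φ.target) {F : V n → V n}
    (hinj : Function.Injective F) (hid : ∀ v ∉ A, F v = v) {v : V n} (hv : v ∈ φ.target) :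
    F v ∈ φ.target := by
  by_cases h : v ∈ A
  · apply hA
    by_contra hcon
    have h1 := hid _ hcon
    exact hcon (by rw [hinj h1]; exact h)
  · rw [hid v h]; exact hv

private theorem tr_smooth {n : ℕ} {M : Type*} [TopologicalSpace M] [ChartedSpace (V n) M]
    [IsManifold (𝓡 n) ∞ M] {φ : OpenPartialHomeomorph M (V n)}
    (hφ : φ ∈ IsManifold.maximalAtlas (𝓡 n) ∞ M) {A : Set (V n)} (hA : A ⊆ φ.target)
    (hcl : IsClosed (φ.symm '' A)) {F : V n → V n} (hinj : Function.Injective F)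
    (hF : ContDiff ℝ ∞ F) (hid : ∀ v ∉ A, F v = v) :
    ContMDiff (𝓡 n) (𝓡 n) ∞ (tr φ F) := by
  intro y
  by_cases hy : y ∈ φ.source
  · have h1 : ContMDiffOn (𝓡 n) (𝓡 n) ∞ φ φ.source := contMDiffOn_of_mem_maximalAtlas hφ
    have h2 : ContMDiffOn (𝓡 n) (𝓡 n) ∞ φ.symm φ.target := contMDiffOn_symm_of_mem_maximalAtlas hφ
    have h3 : ContMDiff (𝓡 n) (𝓡 n) ∞ F := hF.contMDiff
    have h4 : ContMDiffOn (𝓡 n) (𝓡 n) ∞ (φ.symm ∘ F ∘ φ) φ.source := by
      refine h2.comp ((h3.contMDiffOn (s := univ)).comp h1 (fun _ _ => mem_univ _)) ?_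
      intro x hx
      exact maps_target hA hinj hid (φ.map_source hx)
    have h5 : ContMDiffAt (𝓡 n) (𝓡 n) ∞ (φ.symm ∘ F ∘ φ) y :=
      (h4 y hy).contMDiffAt (φ.open_source.mem_nhds hy)
    refine h5.congr_of_eventuallyEq ?_
    filter_upwards [φ.open_source.mem_nhds hy] with x hx
    exact tr_source hx
  · have hy' : y ∈ (φ.symm '' A)ᶜ := by
      rintro ⟨v, hv, rfl⟩
      exact hy (φ.map_target (hA hv))
    have h5 : ContMDiffAt (𝓡 n) (𝓡 n) ∞ (id : M → M) y := contMDiffAt_id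
    refine h5.congr_of_eventuallyEq ?_
    filter_upwards [hcl.isOpen_compl.mem_nhds hy'] with x hx
    exact tr_id hid hx

private theorem tr_inv {n : ℕ} {M : Type*} [TopologicalSpace M]
    {φ : OpenPartialHomeomorph M (V n)} {A : Set (V n)} (hA : A ⊆ φ.target) {F F' : V n → V n}
    (hinj : Function.Injective F) (hid : ∀ v ∉ A, F v = v) (hinv : ∀ v, F' (F v) = v) (y : M) :
    tr φ F' (tr φ F y) = y := by
  by_cases hy : y ∈ φ.source
  · have h1 : F (φ y) ∈ φ.target := maps_target hA hinj hid (φ.map_source hy)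
    rw [tr_source hy, tr_source (φ.map_target h1), φ.right_inv h1, hinv, φ.left_inv hy]
  · rw [tr_not_source (F := F) hy, tr_not_source hy]

/-! K0 -/
theorem transplant {n : ℕ} {M : Type*} [TopologicalSpace M] [ChartedSpace (V n) M]
    [IsManifold (𝓡 n) ∞ M] {φ : OpenPartialHomeomorph M (V n)}
    (hφ : φ ∈ IsManifold.maximalAtlas (𝓡 n) ∞ M) {A : Set (V n)} (hA : A ⊆ φ.target)
    (hcl : IsClosed (φ.symm '' A)) (F : V n ≃ₜ V n) (hF : ContDiff ℝ ∞ F) (hF' : ContDiff ℝ ∞ F.symm)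
    (hid : ∀ v ∉ A, F v = v) :
    ∃ Fm : DiffM n M ⊤, (∀ y ∈ φ.source, Fm y = φ.symm (F (φ y))) ∧ ∀ y ∉ φ.symm '' A, Fm y = y := by
  have hid' : ∀ v ∉ A, F.symm v = v := by
    intro v hv
    rw [Homeomorph.symm_apply_eq, hid v hv]
  refine ⟨⟨⟨tr φ F, tr φ F.symm, ?_, ?_⟩, ?_, ?_⟩, ?_, ?_⟩
  · exact tr_inv hA F.injective hid (fun v => F.symm_apply_apply v)
  · exact tr_inv hA F.symm.injective hid' (fun v => F.apply_symm_apply v)
  · exact tr_smooth hφ hA hcl F.injective hF hid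
  · exact tr_smooth hφ hA hcl F.symm.injective hF' hid'
  · intro y hy
    exact tr_source hy
  · intro y hy
    exact tr_id hid hy

end Pool.Agent.H718R2.G
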