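import Pool.Agent.H718R2.G0

/-!
Task K1a of helper718 (by helper992): small positive smooth functions.
-/

open scoped Manifold ContDiff Topology
open Set

namespace Pool.Agent.H718R2.G

/-! K1a -/
theorem exists_small {E : Type*} [NormedAddCommGroup E] [NormedSpace ℝ E] [FiniteDimensional ℝ E]
    (δ : E → ℝ) (hδ : Continuous δ) (hδ' : ∀ p, 0 < δ p) :
    ∃ b : E → ℝ, ContDiff ℝ ∞ b ∧ (∀ p, 0 < b p) ∧ ∀ p, ∀ i ≤ 2, ‖iteratedFDeriv ℝ i b p‖ ≤ δ p := by
  have hprop : ProperSpace E := FiniteDimensional.proper_real E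
  have hne : Nonempty E := ⟨0⟩
  have hsep : TopologicalSpace.SeparableSpace E := inferInstance
  set x : ℕ → E := TopologicalSpace.denseSeq E with hx
  have hdense : DenseRange x := TopologicalSpace.denseRange_denseSeq E
  -- the bumps
  let β : ∀ k, ContDiffBump (x k) := fun k => ⟨1, 2, by norm_num, by norm_num⟩
  have hβs : ∀ k, ContDiff ℝ ∞ (β k) := fun k => (β k).contDiff
  have hts : ∀ k, tsupport (β k) = Metric.closedBall (x k) 2 := fun k => (β k).tsupport_eq
  -- bounds of the derivatives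
  have hC : ∀ k j : ℕ, ∃ C : ℝ, ∀ y, ‖iteratedFDeriv ℝ j (β k) y‖ ≤ C := by
    intro k j
    have h1 : Continuous (iteratedFDeriv ℝ j (β k)) :=
      (hβs k).continuous_iteratedFDeriv (by exact_mod_cast le_top)
    have h2 : HasCompactSupport (iteratedFDeriv ℝ j (β k)) :=
      HasCompactSupport.iteratedFDeriv (β k).hasCompactSupport j
    exact h1.bounded_above_of_compact_support h2
  choose C hC using hC
  have hC0 : ∀ k j, 0 ≤ C k j := fun k j => (norm_nonneg _).trans (hC k j 0)
  -- minima of `δ`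
  have hm : ∀ k : ℕ, ∃ m : ℝ, 0 < m ∧ ∀ p ∈ Metric.closedBall (x k) 2, m ≤ δ p := by
    intro k
    obtain ⟨q, -, hq⟩ := (isCompact_closedBall (x k) 2).exists_isMinOn
      ⟨x k, Metric.mem_closedBall_self (by norm_num)⟩ hδ.continuousOn
    exact ⟨δ q, hδ' q, fun p hp => hq hp⟩
  choose m hm0 hm using hm
  set Mk : ℕ → ℝ := fun k => 1 + ∑ j ∈ Finset.range (k + 3), C k j with hMk
  have hMk1 : ∀ k, 1 ≤ Mk k := by
    intro k
    have : 0 ≤ ∑ j ∈ Finset.range (k + 3), C k j := Finset.sum_nonneg fun j _ => hC0 k j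
    simp only [hMk]; linarith
  have hMkC : ∀ k j, j ≤ k + 2 → C k j ≤ Mk k := by
    intro k j hj
    have h1 : C k j ≤ ∑ j ∈ Finset.range (k + 3), C k j :=
      Finset.single_le_sum (f := fun j => C k j) (fun j _ => hC0 k j) (Finset.mem_range.2 (by omega))
    simp only [hMk]; linarith
  set c : ℕ → ℝ := fun k => (1 / 2) ^ (k + 1) * min 1 (m k) / Mk k with hc
  have hcpos : ∀ k, 0 < c k := by
    intro k
    have h1 : 0 < min 1 (m k) := lt_min one_pos (hm0 k)
    have h2 : 0 < Mk k := one_pos.trans_le (hMk1 k)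
    simp only [hc]; positivity
  have hcC : ∀ k j, j ≤ k + 2 → c k * C k j ≤ (1 / 2) ^ (k + 1) * min 1 (m k) := by
    intro k j hj
    have h2 : 0 < Mk k := one_pos.trans_le (hMk1 k)
    have h3 : 0 ≤ (1 / 2 : ℝ) ^ (k + 1) * min 1 (m k) := by
      have := lt_min one_pos (hm0 k)
      positivity
    calc c k * C k j ≤ c k * Mk k := mul_le_mul_of_nonneg_left (hMkC k j hj) (hcpos k).le
      _ = (1 / 2) ^ (k + 1) * min 1 (m k) := by
          simp only [hc]; field_simp
  -- the functions
  set f : ℕ → E → ℝ := fun k => c k • (β k : E → ℝ) with hf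
  have hfs : ∀ k, ContDiff ℝ ∞ (f k) := fun k => contDiff_const.smul (hβs k)
  have hder : ∀ k j y, iteratedFDeriv ℝ j (f k) y = c k • iteratedFDeriv ℝ j (β k) y := by
    intro k j y
    exact iteratedFDeriv_const_smul_apply
      ((hβs k).contDiffAt.of_le (by exact_mod_cast le_top))
  have hnorm : ∀ k j y, ‖iteratedFDeriv ℝ j (f k) y‖ ≤ c k * C k j := by
    intro k j y
    rw [hder, norm_smul, Real.norm_eq_abs, abs_of_pos (hcpos k)]
    exact mul_le_mul_of_nonneg_left (hC k j y) (hcpos k).le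
  set v : ℕ → ℕ → ℝ := fun j k => c k * C k j with hv
  have hvs : ∀ j : ℕ, Summable (v j) := by
    intro j
    rw [← summable_nat_add_iff j]
    refine Summable.of_nonneg_of_le (f := fun k : ℕ => (1 / 2 : ℝ) ^ (k + j + 1)) ?_ ?_ ?_
    · intro k
      exact mul_nonneg (hcpos _).le (hC0 _ _)
    · intro k
      refine (hcC (k + j) j (by omega)).trans ?_
      have : min 1 (m (k + j)) ≤ 1 := min_le_left _ _
      have h0 : (0 : ℝ) ≤ (1 / 2) ^ (k + j + 1) := by positivity
      nlinarith
    · have h1 : Summable (fun k : ℕ => (1 / 2 : ℝ) ^ k) := summable_geometric_two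
      have h2 := h1.mul_right ((1 / 2 : ℝ) ^ (j + 1))
      refine h2.congr fun k => ?_
      rw [← pow_add, add_assoc]
  have hsm : ContDiff ℝ ∞ (fun y => ∑' k, f k y) :=
    contDiff_tsum (N := ⊤) hfs (fun j _ => hvs j) (fun j k y _ => hnorm k j y)
  have hdsum : ∀ j : ℕ, iteratedFDeriv ℝ j (fun y => ∑' k, f k y) =
      fun y => ∑' k, iteratedFDeriv ℝ j (f k) y := fun j =>
    iteratedFDeriv_tsum (N := ⊤) hfs (fun j _ => hvs j) (fun j k y _ => hnorm k j y) le_top
  refine ⟨fun y => ∑' k, f k y, hsm, ?_, ?_⟩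
  · intro p
    obtain ⟨k, hk⟩ := hdense.exists_dist_lt p (by norm_num : (0 : ℝ) < 2)
    have hnn : ∀ k, 0 ≤ f k p := fun k => mul_nonneg (hcpos k).le (β k).nonneg
    have hsummable : Summable (fun k => f k p) := by
      refine Summable.of_norm_bounded (hvs 0) fun k => ?_
      have := hnorm k 0 p
      rwa [norm_iteratedFDeriv_zero] at this
    refine hsummable.tsum_pos hnn k ?_
    exact mul_pos (hcpos k) ((β k).pos_of_mem_ball (by
      rw [Metric.mem_ball]
      exact hk))
  · intro p i hi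
    rw [hdsum i]
    have hg : HasSum (fun k : ℕ => (1 / 2 : ℝ) ^ (k + 1) * δ p) (1 * δ p) := by
      apply HasSum.mul_right
      have h1 := hasSum_geometric_two.mul_right (1 / 2 : ℝ)
      have h2 : (2 : ℝ) * (1 / 2) = 1 := by norm_num
      rw [h2] at h1
      refine h1.congr_fun ?_ |> fun h => h
      intro k
      rw [pow_succ]
    rw [one_mul] at hg
    refine tsum_of_norm_bounded hg fun k => ?_
    by_cases hp : p ∈ Metric.closedBall (x k) 2
    · refine (hnorm k i p).trans ((hcC k i (by omega)).trans ?_)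
      have h1 : min 1 (m k) ≤ δ p := (min_le_right _ _).trans (hm k p hp)
      exact mul_le_mul_of_nonneg_left h1 (by positivity)
    · have h0 : iteratedFDeriv ℝ i (β k) p = 0 := by
        by_contra hne
        apply hp
        rw [← hts k]
        exact support_iteratedFDeriv_subset i (Function.mem_support.2 hne)
      rw [hder, h0, smul_zero, norm_zero]
      have := hδ' p
      positivity

end Pool.Agent.H718R2.G
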