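import Pool.Agent.H718R2.G0
import Pool.Agent.H718R2.K1a

/-!
Stabilisation: if no map `C²`-close to `f` has a periodic point, then the same holds for
`(p, w) ↦ (f p, b(p)⁻¹ w)` if `b > 0` is small enough (graph transform).
-/

open scoped Manifold ContDiff Topology
open Set

namespace Pool.Agent.H718R2.G

namespace K1aux

variable {E W X : Type*} [NormedAddCommGroup E] [NormedSpace ℝ E]
  [NormedAddCommGroup W] [NormedSpace ℝ W] [NormedAddCommGroup X] [NormedSpace ℝ X]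

lemma nat_le (i : ℕ) : (i : WithTop ℕ∞) ≤ ∞ := by
  exact_mod_cast (le_top : (i : ℕ∞) ≤ ⊤)

lemma two_le : (2 : WithTop ℕ∞) ≤ ∞ := nat_le 2

lemma id_bd (p : E) (i : ℕ) (hi1 : 1 ≤ i) (hi : i ≤ 2) :
    ‖iteratedFDeriv ℝ i (fun q : E => q) p‖ ≤ 1 := by
  interval_cases i
  · rw [norm_iteratedFDeriv_one, fderiv_fun_id]
    exact ContinuousLinearMap.norm_id_le
  · rw [← norm_iteratedFDeriv_fderiv]
    have : fderiv ℝ (fun q : E => q) = fun _ => ContinuousLinearMap.id ℝ E := by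
      ext q : 1
      exact fderiv_fun_id
    rw [this, iteratedFDeriv_succ_const]
    simp

lemma graph_bd {h : E → W} (hh : ContDiff ℝ 2 h) {p : E} {D : ℝ} (hD : 1 ≤ D)
    (h1 : ∀ i : ℕ, i ≤ 2 → ‖iteratedFDeriv ℝ i h p‖ ≤ D) (i : ℕ) (hi1 : 1 ≤ i) (hi : i ≤ 2) :
    ‖iteratedFDeriv ℝ i (fun p => (p, h p)) p‖ ≤ D ^ i := by
  have hi' : (i : WithTop ℕ∞) ≤ 2 := by exact_mod_cast hi
  rw [iteratedFDeriv_prodMk (contDiff_fun_id.contDiffAt.of_le le_top) hh.contDiffAt hi',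
    ContinuousMultilinearMap.opNorm_prod]
  have hDi : D ≤ D ^ i := le_self_pow₀ hD (by omega)
  exact max_le ((id_bd p i hi1 hi).trans (hD.trans hDi)) ((h1 i hi).trans hDi)

/-- derivatives of a function along a graph -/
lemma comp_graph_bd {v : E × W → X} (hv : ContDiff ℝ 2 v) {h : E → W} (hh : ContDiff ℝ 2 h)
    {p : E} {c : ℝ} (hc : ∀ i : ℕ, i ≤ 2 → ‖iteratedFDeriv ℝ i v (p, h p)‖ ≤ c)
    (h1 : ∀ i : ℕ, i ≤ 2 → ‖iteratedFDeriv ℝ i h p‖ ≤ 2) (i : ℕ) (hi : i ≤ 2) :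
    ‖iteratedFDeriv ℝ i (fun p => v (p, h p)) p‖ ≤ 8 * c := by
  have hc0 : 0 ≤ c := (norm_nonneg _).trans (hc 0 (by norm_num))
  have hi' : (i : WithTop ℕ∞) ≤ 2 := by exact_mod_cast hi
  have hg : ContDiff ℝ 2 (fun p => (p, h p)) := contDiff_fun_id.prodMk hh
  have := norm_iteratedFDeriv_comp_le hv hg hi' p (C := c) (D := 2)
    (fun j hj => hc j (hj.trans hi))
    (fun j hj1 hj => graph_bd hh (by norm_num) h1 j hj1 (hj.trans hi))
  refine this.trans ?_
  have h2 : (i.factorial : ℝ) ≤ 2 := by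
    have := Nat.factorial_le hi
    exact_mod_cast this
  have h3 : (2 : ℝ) ^ i ≤ 4 := by
    calc (2 : ℝ) ^ i ≤ 2 ^ 2 := pow_le_pow_right₀ (by norm_num) hi
      _ = 4 := by norm_num
  calc (i.factorial : ℝ) * c * 2 ^ i ≤ 2 * c * 4 := by gcongr
    _ = 8 * c := by ring

lemma fst_bd {Y : Type*} [NormedAddCommGroup Y] [NormedSpace ℝ Y] {u : Y → E × W}
    (hu : ContDiff ℝ 2 u) {z : Y} {c : ℝ} (i : ℕ) (hi : i ≤ 2)
    (hc : ‖iteratedFDeriv ℝ i u z‖ ≤ c) : ‖iteratedFDeriv ℝ i (fun z => (u z).1) z‖ ≤ c := by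
  have hi' : (i : WithTop ℕ∞) ≤ 2 := by exact_mod_cast hi
  have := (ContinuousLinearMap.fst ℝ E W).norm_iteratedFDeriv_comp_left (f := u) (x := z)
    hu.contDiffAt hi'
  refine this.trans ?_
  calc ‖ContinuousLinearMap.fst ℝ E W‖ * ‖iteratedFDeriv ℝ i u z‖ ≤ 1 * c := by
        gcongr
        exact ContinuousLinearMap.norm_fst_le ℝ E W
    _ = c := one_mul c

lemma snd_bd {Y : Type*} [NormedAddCommGroup Y] [NormedSpace ℝ Y] {u : Y → E × W}
    (hu : ContDiff ℝ 2 u) {z : Y} {c : ℝ} (i : ℕ) (hi : i ≤ 2)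
    (hc : ‖iteratedFDeriv ℝ i u z‖ ≤ c) : ‖iteratedFDeriv ℝ i (fun z => (u z).2) z‖ ≤ c := by
  have hi' : (i : WithTop ℕ∞) ≤ 2 := by exact_mod_cast hi
  have := (ContinuousLinearMap.snd ℝ E W).norm_iteratedFDeriv_comp_left (f := u) (x := z)
    hu.contDiffAt hi'
  refine this.trans ?_
  calc ‖ContinuousLinearMap.snd ℝ E W‖ * ‖iteratedFDeriv ℝ i u z‖ ≤ 1 * c := by
        gcongr
        exact ContinuousLinearMap.norm_snd_le ℝ E W
    _ = c := one_mul c

/-- the graph transform -/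
def gt (f : E → E) (b : E → ℝ) (u : E × W → E × W) (h : E → W) : E → W :=
  fun p => b p • (h (f p + (u (p, h p)).1) - (u (p, h p)).2)

lemma gt_contDiff {f : E → E} (hf : ContDiff ℝ 2 f) {b : E → ℝ} (hb : ContDiff ℝ 2 b)
    {u : E × W → E × W} (hu : ContDiff ℝ 2 u) {h : E → W} (hh : ContDiff ℝ 2 h) :
    ContDiff ℝ 2 (gt f b u h) := by
  have hg : ContDiff ℝ 2 (fun p => (p, h p)) := contDiff_fun_id.prodMk hh
  have hug : ContDiff ℝ 2 (fun p => u (p, h p)) := hu.comp hg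
  exact hb.smul ((hh.comp (hf.add hug.fst)).sub hug.snd)

lemma gt_bd {f : E → E} (hf : ContDiff ℝ 2 f) {b : E → ℝ} (hb : ContDiff ℝ 2 b)
    {u : E × W → E × W} (hu : ContDiff ℝ 2 u) {h : E → W} (hh : ContDiff ℝ 2 h) {p : E} {A : ℝ}
    (hA1 : 1 ≤ A) (hA : ∀ i : ℕ, 1 ≤ i → i ≤ 2 → ‖iteratedFDeriv ℝ i f p‖ + 1 ≤ A)
    (hb1 : ∀ i : ℕ, i ≤ 2 → ‖iteratedFDeriv ℝ i b p‖ ≤ 1 / (16 * A ^ 2))
    (hu1 : ∀ i : ℕ, i ≤ 2 → ‖iteratedFDeriv ℝ i u (p, h p)‖ ≤ 1 / 8)
    (h1 : ∀ q : E, ∀ i : ℕ, i ≤ 2 → ‖iteratedFDeriv ℝ i h q‖ ≤ 1) (i : ℕ) (hi : i ≤ 2) :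
    ‖iteratedFDeriv ℝ i (gt f b u h) p‖ ≤ 1 := by
  have hg : ContDiff ℝ 2 (fun p => (p, h p)) := contDiff_fun_id.prodMk hh
  have hug : ContDiff ℝ 2 (fun p => u (p, h p)) := hu.comp hg
  have hG : ContDiff ℝ 2 (fun p => f p + (u (p, h p)).1) := hf.add hug.fst
  have hub : ∀ i : ℕ, i ≤ 2 → ‖iteratedFDeriv ℝ i (fun p => u (p, h p)) p‖ ≤ 1 := by
    intro i hi
    have := comp_graph_bd hu hh hu1 (fun j hj => (h1 p j hj).trans (by norm_num)) i hi
    linarith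
  have hGb : ∀ i : ℕ, 1 ≤ i → i ≤ 2 →
      ‖iteratedFDeriv ℝ i (fun p => f p + (u (p, h p)).1) p‖ ≤ A ^ i := by
    intro i hi1 hi
    have hi' : (i : WithTop ℕ∞) ≤ 2 := by exact_mod_cast hi
    rw [fun_iteratedFDeriv_add_apply (hf.contDiffAt.of_le hi') (hug.fst.contDiffAt.of_le hi')]
    refine (norm_add_le _ _).trans ?_
    refine (add_le_add_right (fst_bd hug i hi (hub i hi)) _).trans ?_
    exact (hA i hi1 hi).trans (le_self_pow₀ hA1 (by omega))
  have hA2 : A ≤ A ^ 2 := le_self_pow₀ hA1 (by norm_num)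
  have hH : ∀ i : ℕ, i ≤ 2 →
      ‖iteratedFDeriv ℝ i (fun p => h (f p + (u (p, h p)).1)) p‖ ≤ 2 * A ^ 2 := by
    intro i hi
    have hi' : (i : WithTop ℕ∞) ≤ 2 := by exact_mod_cast hi
    have := norm_iteratedFDeriv_comp_le hh hG hi' p (C := 1) (D := A)
      (fun j hj => h1 _ j (hj.trans hi)) (fun j hj1 hj => hGb j hj1 (hj.trans hi))
    refine this.trans ?_
    have h2 : (i.factorial : ℝ) ≤ 2 := by
      have := Nat.factorial_le hi
      exact_mod_cast this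
    calc (i.factorial : ℝ) * 1 * A ^ i ≤ 2 * 1 * A ^ 2 := by gcongr
      _ = 2 * A ^ 2 := by ring
  have hK : ∀ i : ℕ, i ≤ 2 →
      ‖iteratedFDeriv ℝ i (fun p => h (f p + (u (p, h p)).1) - (u (p, h p)).2) p‖ ≤ 4 * A ^ 2 := by
    intro i hi
    have hi' : (i : WithTop ℕ∞) ≤ 2 := by exact_mod_cast hi
    have hhG : ContDiff ℝ 2 (fun p => h (f p + (u (p, h p)).1)) := hh.comp hG
    rw [fun_iteratedFDeriv_sub_apply (hhG.contDiffAt.of_le hi') (hug.snd.contDiffAt.of_le hi')]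
    refine (norm_sub_le _ _).trans ?_
    have e1 := hH i hi
    have e2 := snd_bd hug i hi (hub i hi)
    linarith
  have hi' : (i : WithTop ℕ∞) ≤ 2 := by exact_mod_cast hi
  have := norm_iteratedFDeriv_smul_le hb ((hh.comp hG).sub hug.snd) p hi'
  refine this.trans ?_
  have hApos : 0 < A := by linarith
  calc ∑ j ∈ Finset.range (i + 1), (i.choose j : ℝ) * ‖iteratedFDeriv ℝ j b p‖ *
        ‖iteratedFDeriv ℝ (i - j) (fun p => h (f p + (u (p, h p)).1) - (u (p, h p)).2) p‖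
      ≤ ∑ j ∈ Finset.range (i + 1), (i.choose j : ℝ) * (1 / (16 * A ^ 2)) * (4 * A ^ 2) := by
        apply Finset.sum_le_sum
        intro j hj
        have hj' : j ≤ i := Nat.lt_succ_iff.1 (Finset.mem_range.1 hj)
        gcongr
        · exact hb1 j (hj'.trans hi)
        · exact hK (i - j) (by omega)
    _ = (2 : ℝ) ^ i * ((1 / (16 * A ^ 2)) * (4 * A ^ 2)) := by
        have := Nat.sum_range_choose i
        have h2 : ∑ j ∈ Finset.range (i + 1), (i.choose j : ℝ) = 2 ^ i := by exact_mod_cast this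
        rw [← h2, Finset.sum_mul]
        apply Finset.sum_congr rfl
        intro j _
        ring
    _ ≤ 2 ^ 2 * (1 / 4) := by
        have e : (1 / (16 * A ^ 2)) * (4 * A ^ 2) = 1 / 4 := by
          field_simp
          norm_num
        rw [e]
        gcongr
        norm_num
    _ = 1 := by norm_num

/-- iteration of the graph transform -/
def hs (f : E → E) (b : E → ℝ) (u : E × W → E × W) : ℕ → E → W
  | 0 => fun _ => 0
  | N + 1 => gt f b u (hs f b u N)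

lemma hs_spec {f : E → E} (hf : ContDiff ℝ 2 f) {b : E → ℝ} (hb : ContDiff ℝ 2 b)
    {u : E × W → E × W} (hu : ContDiff ℝ 2 u) {A : E → ℝ}
    (hA1 : ∀ p, 1 ≤ A p) (hA : ∀ p, ∀ i : ℕ, 1 ≤ i → i ≤ 2 → ‖iteratedFDeriv ℝ i f p‖ + 1 ≤ A p)
    (hb1 : ∀ p, ∀ i : ℕ, i ≤ 2 → ‖iteratedFDeriv ℝ i b p‖ ≤ 1 / (16 * A p ^ 2))
    (hu1 : ∀ z, ∀ i : ℕ, i ≤ 2 → ‖iteratedFDeriv ℝ i u z‖ ≤ 1 / 8) (N : ℕ) :
    ContDiff ℝ 2 (hs f b u N) ∧ ∀ q, ∀ i : ℕ, i ≤ 2 → ‖iteratedFDeriv ℝ i (hs f b u N) q‖ ≤ 1 := by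
  induction N with
  | zero =>
    refine ⟨contDiff_const, fun q i _ => ?_⟩
    have : hs f b u 0 = fun _ => (0 : W) := rfl
    rw [this]
    rcases Nat.eq_zero_or_pos i with h | h
    · subst h
      simp
    · rw [iteratedFDeriv_const_of_ne (by omega)]
      simp
  | succ N ih =>
    refine ⟨gt_contDiff hf hb hu ih.1, fun q i hi => ?_⟩
    exact gt_bd hf hb hu ih.1 (hA1 q) (hA q) (hb1 q) (hu1 _) ih.2 i hi

lemma lip_of_bd {Y : Type*} [NormedAddCommGroup Y] [NormedSpace ℝ Y] {h : Y → X}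
    (hh : ContDiff ℝ 2 h) {c : ℝ} (hc : ∀ q, ‖iteratedFDeriv ℝ 1 h q‖ ≤ c) (x y : Y) :
    ‖h x - h y‖ ≤ c * ‖x - y‖ := by
  apply Convex.norm_image_sub_le_of_norm_fderiv_le (𝕜 := ℝ) (s := univ)
    (fun z _ => (hh.differentiable (by norm_num)).differentiableAt)
    (fun z _ => by rw [← norm_iteratedFDeriv_one]; exact hc z) convex_univ (mem_univ _) (mem_univ _)

lemma contract {f : E → E} {b : E → ℝ} {u : E × W → E × W} (hu : ContDiff ℝ 2 u)
    (hu1 : ∀ z, ‖iteratedFDeriv ℝ 1 u z‖ ≤ 1 / 8) {h : E → W} (hh : ContDiff ℝ 2 h)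
    (h1 : ∀ q, ‖iteratedFDeriv ℝ 1 h q‖ ≤ 1) {p p' : E} {w w' : W}
    (e1 : p' = f p + (u (p, w)).1) (e2 : w = b p • (w' - (u (p, w)).2)) (hb : 0 ≤ b p)
    (hb' : b p ≤ 1 / 4) {Δ : ℝ} (hΔ : ‖w - h p‖ ≤ Δ) (hΔ' : ‖w' - h p'‖ ≤ Δ) :
    ‖w - gt f b u h p‖ ≤ Δ * (1 / 2) := by
  have hΔ0 : 0 ≤ Δ := (norm_nonneg _).trans hΔ
  have hul : ‖u (p, w) - u (p, h p)‖ ≤ 1 / 8 * Δ := by
    refine (lip_of_bd hu hu1 _ _).trans ?_
    have : ‖(p, w) - (p, h p)‖ = ‖w - h p‖ := by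
      rw [Prod.mk_sub_mk, sub_self, Prod.norm_mk, norm_zero, max_eq_right (norm_nonneg _)]
    rw [this]
    gcongr
  have hu1' : ‖(u (p, w)).1 - (u (p, h p)).1‖ ≤ 1 / 8 * Δ := (norm_fst_le _).trans hul
  have hu2' : ‖(u (p, w)).2 - (u (p, h p)).2‖ ≤ 1 / 8 * Δ := (norm_snd_le _).trans hul
  have hh' : ‖h p' - h (f p + (u (p, h p)).1)‖ ≤ 1 / 8 * Δ := by
    refine (lip_of_bd hh h1 _ _).trans ?_
    rw [e1, add_sub_add_left_eq_sub, one_mul]
    exact hu1'
  have key : w - gt f b u h p = b p • ((w' - h p') + (h p' - h (f p + (u (p, h p)).1)) -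
      ((u (p, w)).2 - (u (p, h p)).2)) := by
    conv_lhs => rw [e2]
    unfold gt
    rw [← smul_sub]
    congr 1
    abel
  rw [key, norm_smul, Real.norm_of_nonneg hb]
  have h3 : ‖(w' - h p') + (h p' - h (f p + (u (p, h p)).1)) -
      ((u (p, w)).2 - (u (p, h p)).2)‖ ≤ 2 * Δ := by
    refine (norm_sub_le _ _).trans ?_
    have := norm_add_le (w' - h p') (h p' - h (f p + (u (p, h p)).1))
    linarith
  calc b p * _ ≤ 1 / 4 * (2 * Δ) := by gcongr
    _ = Δ * (1 / 2) := by ring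

lemma exists_bump [FiniteDimensional ℝ E] (T : Finset E) (q : E) :
    ∃ (β : E → ℝ) (B : ℝ), ContDiff ℝ ∞ β ∧ β q = 1 ∧ (∀ q' ∈ T, q' ≠ q → β q' = 0) ∧ 0 ≤ B ∧
      ∀ p, ∀ i : ℕ, i ≤ 2 → ‖iteratedFDeriv ℝ i β p‖ ≤ B := by
  classical
  have hcl : IsOpen ((T.erase q : Finset E) : Set E)ᶜ :=
    (T.erase q).finite_toSet.isClosed.isOpen_compl
  obtain ⟨r, hr, hball⟩ := Metric.isOpen_iff.1 hcl q (by simp)
  let β : ContDiffBump q := ⟨r / 2, r, by positivity, by linarith⟩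
  have hβ : ContDiff ℝ ∞ (β : E → ℝ) := β.contDiff
  have hbd : ∀ i : ℕ, ∃ C, ∀ p, ‖iteratedFDeriv ℝ i (β : E → ℝ) p‖ ≤ C := fun i =>
    (hβ.continuous_iteratedFDeriv (m := i) (by exact_mod_cast le_top)).bounded_above_of_compact_support
      (β.hasCompactSupport.iteratedFDeriv i)
  choose C hC using hbd
  refine ⟨β, max 0 (max (C 0) (max (C 1) (C 2))), hβ, ?_, ?_, le_max_left _ _, ?_⟩
  · exact β.one_of_mem_closedBall (Metric.mem_closedBall_self (by positivity))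
  · intro q' hq' hne
    apply β.zero_of_le_dist
    by_contra hlt
    rw [not_le] at hlt
    have := hball (Metric.mem_ball.2 hlt)
    apply this
    simp [hne, hq']
  · intro p i hi
    refine (hC i p).trans ?_
    interval_cases i
    · exact (le_max_left _ _).trans (le_max_right _ _)
    · exact (le_max_left _ _).trans ((le_max_right _ _).trans (le_max_right _ _))
    · exact (le_max_right _ _).trans ((le_max_right _ _).trans (le_max_right _ _))

lemma smul_bd {β : E → ℝ} (hβ : ContDiff ℝ 2 β) (c : W) {B : ℝ} {p : E} (i : ℕ) (hi : i ≤ 2)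
    (hB : ‖iteratedFDeriv ℝ i β p‖ ≤ B) : ‖iteratedFDeriv ℝ i (fun p => β p • c) p‖ ≤ ‖c‖ * B := by
  have hi' : (i : WithTop ℕ∞) ≤ 2 := by exact_mod_cast hi
  have := (ContinuousLinearMap.toSpanSingleton ℝ c).norm_iteratedFDeriv_comp_left (f := β) (x := p)
    hβ.contDiffAt hi'
  rw [ContinuousLinearMap.norm_toSpanSingleton] at this
  refine le_trans this ?_
  gcongr

end K1aux

open K1aux

theorem stabilise {E W : Type*} [NormedAddCommGroup E] [NormedSpace ℝ E] [FiniteDimensional ℝ E]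
    [NormedAddCommGroup W] [NormedSpace ℝ W] [FiniteDimensional ℝ W] (f : E → E)
    (hf : ContDiff ℝ ∞ f) (ε : E → ℝ) (hε : Continuous ε) (hε' : ∀ p, 0 < ε p)
    (hN : ∀ g : E → E, ContDiff ℝ 2 g →
      (∀ (p : E) (i : ℕ), i ≤ 2 → ‖iteratedFDeriv ℝ i g p - iteratedFDeriv ℝ i f p‖ < ε p) →
      ∀ k : ℕ, 1 ≤ k → ∀ p, g^[k] p ≠ p) :
    ∃ (b : E → ℝ) (ε' : E → ℝ), ContDiff ℝ ∞ b ∧ (∀ p, 0 < b p) ∧ Continuous ε' ∧ (∀ p, 0 < ε' p) ∧
      ∀ g : E × W → E × W, ContDiff ℝ 2 g →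
        (∀ (z : E × W) (i : ℕ), i ≤ 2 → ‖iteratedFDeriv ℝ i g z -
          iteratedFDeriv ℝ i (fun z : E × W => (f z.1, (b z.1)⁻¹ • z.2)) z‖ < ε' z.1) →
        ∀ k : ℕ, 1 ≤ k → ∀ z, g^[k] z ≠ z := by
  classical
  set A : E → ℝ := fun p => 2 + ‖iteratedFDeriv ℝ 1 f p‖ + ‖iteratedFDeriv ℝ 2 f p‖ with hAdef
  have hAc : Continuous A := by
    have h1 := hf.continuous_iteratedFDeriv (m := 1) (nat_le 1)
    have h2 := hf.continuous_iteratedFDeriv (m := 2) (nat_le 2)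
    exact (continuous_const.add h1.norm).add h2.norm
  have hA2 : ∀ p, 2 ≤ A p := fun p => by
    simp only [hAdef]
    have := norm_nonneg (iteratedFDeriv ℝ 1 f p)
    have := norm_nonneg (iteratedFDeriv ℝ 2 f p)
    linarith
  have hA1 : ∀ p, 1 ≤ A p := fun p => by linarith [hA2 p]
  have hA : ∀ p, ∀ i : ℕ, 1 ≤ i → i ≤ 2 → ‖iteratedFDeriv ℝ i f p‖ + 1 ≤ A p := by
    intro p i hi1 hi
    simp only [hAdef]
    have := norm_nonneg (iteratedFDeriv ℝ 1 f p)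
    have := norm_nonneg (iteratedFDeriv ℝ 2 f p)
    interval_cases i <;> linarith
  obtain ⟨b, hb, hb0, hbb⟩ := exists_small (fun p => 1 / (16 * A p ^ 2))
    (continuous_const.div (continuous_const.mul (hAc.pow 2)) (fun p => by
      have := hA2 p
      positivity)) (fun p => by
      have := hA2 p
      positivity)
  have hf2 : ContDiff ℝ 2 f := hf.of_le two_le
  have hb2 : ContDiff ℝ 2 b := hb.of_le two_le
  have hb4 : ∀ p, b p ≤ 1 / 4 := by
    intro p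
    have h1 := hbb p 0 (by norm_num)
    rw [norm_iteratedFDeriv_zero, Real.norm_of_nonneg (hb0 p).le] at h1
    refine h1.trans ?_
    rw [div_le_div_iff₀ (by have := hA2 p; positivity) (by norm_num)]
    nlinarith [hA2 p]
  refine ⟨b, fun p => min (ε p) 1 / 16, hb, hb0, (hε.min continuous_const).div_const _,
    fun p => by have := hε' p; positivity, ?_⟩
  intro g hg hgb k hk z hz
  -- the fibre map
  set F : E × W → E × W := fun z => (f z.1, (b z.1)⁻¹ • z.2) with hFdef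
  have hF : ContDiff ℝ 2 F := by
    refine (hf2.comp contDiff_fst).prodMk (ContDiff.smul ?_ contDiff_snd)
    exact (hb2.comp contDiff_fst).inv (fun z => (hb0 z.1).ne')
  set u : E × W → E × W := fun z => g z - F z with hudef
  have hu : ContDiff ℝ 2 u := hg.sub hF
  have hue : ∀ z : E × W, ∀ i : ℕ, i ≤ 2 → ‖iteratedFDeriv ℝ i u z‖ ≤ min (ε z.1) 1 / 16 := by
    intro z i hi
    have hi' : (i : WithTop ℕ∞) ≤ 2 := by exact_mod_cast hi
    rw [hudef, fun_iteratedFDeriv_sub_apply (hg.contDiffAt.of_le hi') (hF.contDiffAt.of_le hi')]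
    exact (hgb z i hi).le
  have hu8 : ∀ z : E × W, ∀ i : ℕ, i ≤ 2 → ‖iteratedFDeriv ℝ i u z‖ ≤ 1 / 8 := by
    intro z i hi
    refine (hue z i hi).trans ?_
    have := min_le_right (ε z.1) 1
    linarith
  have hspec := hs_spec hf2 hb2 hu hA1 hA hbb hu8
  -- the orbit
  set Z : ℕ → E × W := fun j => g^[j] z with hZdef
  have hZs : ∀ j, Z (j + 1) = g (Z j) := fun j => Function.iterate_succ_apply' g j z
  have hZk : ∀ j, Z (j % k) = Z j := fun j =>
    Function.IsPeriodicPt.iterate_mod_apply (f := g) (n := k) (x := z) hz j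
  have e1 : ∀ j, (Z (j + 1)).1 = f (Z j).1 + (u ((Z j).1, (Z j).2)).1 := by
    intro j
    rw [hZs]
    simp [hudef, hFdef]
  have e2 : ∀ j, (Z j).2 = b (Z j).1 • ((Z (j + 1)).2 - (u ((Z j).1, (Z j).2)).2) := by
    intro j
    rw [hZs]
    simp only [hudef, hFdef, Prod.snd_sub, sub_sub_cancel]
    rw [smul_smul, mul_inv_cancel₀ (hb0 _).ne', one_smul]
  set Δ : ℝ := ∑ j ∈ Finset.range k, ‖(Z j).2‖ with hΔdef
  have hΔ0 : 0 ≤ Δ := Finset.sum_nonneg fun _ _ => norm_nonneg _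
  have hcon : ∀ N : ℕ, ∀ j, ‖(Z j).2 - hs f b u N (Z j).1‖ ≤ Δ * (1 / 2) ^ N := by
    intro N
    induction N with
    | zero =>
      intro j
      have : hs f b u 0 (Z j).1 = 0 := rfl
      rw [this, sub_zero, pow_zero, mul_one, ← hZk j]
      exact Finset.single_le_sum (f := fun j => ‖(Z j).2‖) (fun _ _ => norm_nonneg _)
        (Finset.mem_range.2 (Nat.mod_lt _ hk))
    | succ N ih =>
      intro j
      have := contract hu (fun z => hu8 z 1 (by norm_num)) (hspec N).1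
        (fun q => (hspec N).2 q 1 (by norm_num)) (e1 j) (e2 j) (hb0 _).le (hb4 _) (ih j) (ih (j + 1))
      refine this.trans (le_of_eq ?_)
      ring
  have hsmall : ∀ C : ℝ, 0 ≤ C → ∀ η : ℝ, 0 < η → ∃ N : ℕ, Δ * (1 / 2) ^ N * C ≤ η := by
    intro C hC η hη
    have ht : Filter.Tendsto (fun N : ℕ => Δ * (1 / 2 : ℝ) ^ N * C) Filter.atTop (𝓝 (Δ * 0 * C)) :=
      ((tendsto_pow_atTop_nhds_zero_of_lt_one (by norm_num) (by norm_num)).const_mul Δ).mul_const C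
    rw [mul_zero, zero_mul] at ht
    obtain ⟨N, hN⟩ := (ht.eventually (gt_mem_nhds hη)).exists
    exact ⟨N, hN.le⟩
  have hinj : ∀ i j, (Z i).1 = (Z j).1 → (Z i).2 = (Z j).2 := by
    intro i j hij
    rw [← sub_eq_zero, ← norm_le_zero_iff]
    apply le_of_forall_pos_le_add
    intro η hη
    obtain ⟨N, hN⟩ := hsmall 2 (by norm_num) η hη
    have h1 := hcon N i
    have h2 := hcon N j
    rw [hij] at h1
    have h3 : (Z i).2 - (Z j).2 = ((Z i).2 - hs f b u N (Z j).1) - ((Z j).2 - hs f b u N (Z j).1) := by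
      abel
    rw [h3, zero_add]
    refine (norm_sub_le _ _).trans ?_
    linarith
  -- the points of the orbit
  set T : Finset E := (Finset.range k).image (fun j => (Z j).1) with hTdef
  have hT : ∀ j, (Z j).1 ∈ T := by
    intro j
    rw [← hZk j]
    exact Finset.mem_image_of_mem (fun j => (Z j).1) (Finset.mem_range.2 (Nat.mod_lt _ hk))
  set wv : E → W := fun q => if h : ∃ j, (Z j).1 = q then (Z h.choose).2 else 0 with hwv
  have hwv1 : ∀ j, wv (Z j).1 = (Z j).2 := by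
    intro j
    have h : ∃ i, (Z i).1 = (Z j).1 := ⟨j, rfl⟩
    rw [hwv]
    simp only [h, dif_pos]
    exact hinj _ _ h.choose_spec
  choose β B hβ hβ1 hβ0 hB0 hβB using fun q => exists_bump T q
  obtain ⟨N, hNN⟩ := hsmall (∑ q ∈ T, B q) (Finset.sum_nonneg fun q _ => hB0 q) 1 one_pos
  set cor : E → W := fun p => ∑ q ∈ T, β q p • (wv q - hs f b u N q) with hcor
  have hβ2 : ∀ q, ContDiff ℝ 2 (β q) := fun q => (hβ q).of_le two_le
  have hcorc : ContDiff ℝ 2 cor := by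
    apply ContDiff.sum
    intro q _
    exact (hβ2 q).smul contDiff_const
  have hdq : ∀ q ∈ T, ‖wv q - hs f b u N q‖ ≤ Δ * (1 / 2) ^ N := by
    intro q hq
    obtain ⟨j, _, rfl⟩ := Finset.mem_image.1 hq
    rw [hwv1]
    exact hcon N j
  have hcorb : ∀ p, ∀ i : ℕ, i ≤ 2 → ‖iteratedFDeriv ℝ i cor p‖ ≤ 1 := by
    intro p i hi
    have hi' : (i : WithTop ℕ∞) ≤ 2 := by exact_mod_cast hi
    have : iteratedFDeriv ℝ i cor p =
        ∑ q ∈ T, iteratedFDeriv ℝ i (fun p => β q p • (wv q - hs f b u N q)) p := by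
      have h := iteratedFDeriv_sum_apply (𝕜 := ℝ) (n := i) (x := p) (u := T)
        (f := fun q p => β q p • (wv q - hs f b u N q))
        (fun q _ => (((hβ2 q).smul contDiff_const).contDiffAt).of_le hi')
      rw [← h]
      congr 1
      ext1 p
      rw [Finset.sum_apply]
    rw [this]
    refine (norm_sum_le _ _).trans ?_
    calc ∑ q ∈ T, ‖iteratedFDeriv ℝ i (fun p => β q p • (wv q - hs f b u N q)) p‖
        ≤ ∑ q ∈ T, (Δ * (1 / 2) ^ N) * B q := by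
          apply Finset.sum_le_sum
          intro q hq
          refine (smul_bd (hβ2 q) _ i hi (hβB q p i hi)).trans ?_
          exact mul_le_mul_of_nonneg_right (hdq q hq) (hB0 q)
      _ = Δ * (1 / 2) ^ N * ∑ q ∈ T, B q := by rw [Finset.mul_sum]
      _ ≤ 1 := hNN
  set ht : E → W := fun p => hs f b u N p + cor p with htdef
  have htc : ContDiff ℝ 2 ht := (hspec N).1.add hcorc
  have htb : ∀ p, ∀ i : ℕ, i ≤ 2 → ‖iteratedFDeriv ℝ i ht p‖ ≤ 2 := by
    intro p i hi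
    have hi' : (i : WithTop ℕ∞) ≤ 2 := by exact_mod_cast hi
    rw [htdef, fun_iteratedFDeriv_add_apply ((hspec N).1.contDiffAt.of_le hi')
      (hcorc.contDiffAt.of_le hi')]
    refine (norm_add_le _ _).trans ?_
    have h1 := (hspec N).2 p i hi
    have h2 := hcorb p i hi
    linarith
  have htv : ∀ j, ht (Z j).1 = (Z j).2 := by
    intro j
    have h1 : cor (Z j).1 = (Z j).2 - hs f b u N (Z j).1 := by
      rw [hcor]
      simp only
      rw [Finset.sum_eq_single (Z j).1]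
      · rw [hβ1, one_smul, hwv1]
      · intro q _ hq
        rw [hβ0 q _ (hT j) (Ne.symm hq), zero_smul]
      · intro h
        exact absurd (hT j) h
    rw [htdef]
    simp only
    rw [h1]
    abel
  set G : E → E := fun p => f p + (u (p, ht p)).1 with hGdef
  have hug : ContDiff ℝ 2 (fun p => u (p, ht p)) := hu.comp (contDiff_fun_id.prodMk htc)
  have hGc : ContDiff ℝ 2 G := hf2.add hug.fst
  have hGs : ∀ j, G (Z j).1 = (Z (j + 1)).1 := by
    intro j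
    rw [hGdef]
    simp only
    rw [htv, ← e1]
  have hGi : ∀ j, G^[j] (Z 0).1 = (Z j).1 := by
    intro j
    induction j with
    | zero => rfl
    | succ j ih => rw [Function.iterate_succ_apply', ih, hGs]
  refine hN G hGc ?_ k hk (Z 0).1 ?_
  · intro p i hi
    have hi' : (i : WithTop ℕ∞) ≤ 2 := by exact_mod_cast hi
    rw [hGdef, fun_iteratedFDeriv_add_apply (hf2.contDiffAt.of_le hi')
      (hug.fst.contDiffAt.of_le hi'), add_sub_cancel_left]
    have h1 := comp_graph_bd hu htc (p := p) (fun i hi => hue (p, ht p) i hi) (htb p) i hi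
    refine (fst_bd hug i hi h1).trans_lt ?_
    have h2 := min_le_left (ε p) 1
    have h3 := hε' p
    simp only
    linarith
  · rw [hGi]
    have : Z k = Z 0 := hz
    rw [this]

end Pool.Agent.H718R2.G
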