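import Pool.Agent.H718R2.A2a
import Pool.Agent.H718R2.A3

/-!
# Module K2: the diffeomorphism with all shifts cut off by `χ(ξ)`
-/

namespace Pool.Agent.H718R2

open Set Function MeasureTheory
open A2aAux

namespace K2

/-! ### the cut-off `χ` -/

/-- bump around `-4` -/
noncomputable def bump : ContDiffBump (-4 : ℝ) where
  rIn := 1 / 2
  rOut := 1
  rIn_pos := by norm_num
  rIn_lt_rOut := by norm_num

noncomputable def χ (t : ℝ) : ℝ := ∫ x in (-6 : ℝ)..t, bump.normed volume x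

theorem bump_cont : Continuous (bump.normed volume) := bump.continuous_normed

theorem χ_hasDerivAt (t : ℝ) : HasDerivAt χ (bump.normed volume t) t :=
  intervalIntegral.integral_hasDerivAt_right (bump_cont.intervalIntegrable _ _)
    (bump_cont.stronglyMeasurableAtFilter _ _) bump_cont.continuousAt

theorem χ_contDiff : ContDiff ℝ (⊤ : ℕ∞) χ := by
  have hd : deriv χ = bump.normed volume := by
    funext t
    exact (χ_hasDerivAt t).deriv
  rw [show ((⊤ : ℕ∞) : WithTop ℕ∞) = ((⊤ : ℕ∞) : WithTop ℕ∞) from rfl, contDiff_infty_iff_deriv]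
  refine ⟨fun t => (χ_hasDerivAt t).differentiableAt, ?_⟩
  rw [hd]
  exact bump.contDiff_normed

theorem χ_supp {x : ℝ} (h : x ≤ -5 ∨ -3 ≤ x) : bump.normed volume x = 0 := by
  by_contra hne
  have : x ∈ Function.support (bump.normed volume) := hne
  rw [bump.support_normed_eq] at this
  rw [Metric.mem_ball, Real.dist_eq, abs_lt] at this
  simp only [bump] at this
  rcases h with h | h <;> linarith [this.1, this.2]

theorem χ_zero {t : ℝ} (h : t ≤ -5) : χ t = 0 := by
  unfold χ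
  apply intervalIntegral.integral_zero_ae
  refine Filter.Eventually.of_forall fun x hx => ?_
  apply χ_supp
  left
  rw [Set.uIoc, Set.mem_Ioc] at hx
  have := hx.2
  exact this.trans (max_le (by norm_num) h)

theorem χ_one {t : ℝ} (h : -3 ≤ t) : χ t = 1 := by
  unfold χ
  rw [intervalIntegral.integral_eq_integral_of_support_subset, bump.integral_normed]
  intro x hx
  rw [bump.support_normed_eq, Metric.mem_ball, Real.dist_eq, abs_lt] at hx
  simp only [bump] at hx
  rw [Set.mem_Ioc]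
  constructor <;> linarith [hx.1, hx.2]

theorem χ_mono : Monotone χ := by
  apply monotone_of_deriv_nonneg (fun t => (χ_hasDerivAt t).differentiableAt)
  intro t
  rw [(χ_hasDerivAt t).deriv]
  exact bump.nonneg_normed t

theorem χ_nonneg (t : ℝ) : 0 ≤ χ t := by
  rw [← χ_zero (min_le_right t (-5))]
  exact χ_mono (min_le_left _ _)

theorem χ_le_one (t : ℝ) : χ t ≤ 1 := by
  rw [← χ_one (le_max_right t (-3))]
  exact χ_mono (le_max_left _ _)

theorem bump_le (t : ℝ) : bump.normed volume t ≤ 1 := by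
  have h := bump.normed_le_div_measure_closedBall_rIn (μ := volume) t
  refine h.trans (le_of_eq ?_)
  rw [Measure.real, Real.volume_closedBall]
  simp [bump]

/-! ### a criterion for diffeomorphisms acting on one coordinate -/

/-- explicit inverse of `v ↦ (v.1, v.2.1, D v)` -/
theorem exists_equiv3 (D : E →L[ℝ] ℝ) (hD : D (0, 0, 1) ≠ 0) :
    ∃ e : E ≃L[ℝ] E, ∀ v : E, e v = (v.1, v.2.1, D v) := by
  set d : ℝ := D (0, 0, 1) with hd
  have hsplit : ∀ v : E, D v = D (v.1, v.2.1, 0) + v.2.2 * d := by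
    intro v
    have : v = (v.1, v.2.1, (0 : ℝ)) + v.2.2 • ((0 : ℝ), (0 : ℝ), (1 : ℝ)) := by
      ext <;> simp
    conv_lhs => rw [this]
    rw [map_add, map_smul, smul_eq_mul]
  let P1 : E →L[ℝ] ℝ := ContinuousLinearMap.fst ℝ ℝ (ℝ × ℝ)
  let P2 : E →L[ℝ] ℝ := (ContinuousLinearMap.fst ℝ ℝ ℝ).comp (ContinuousLinearMap.snd ℝ ℝ (ℝ × ℝ))
  let P3 : E →L[ℝ] ℝ := (ContinuousLinearMap.snd ℝ ℝ ℝ).comp (ContinuousLinearMap.snd ℝ ℝ (ℝ × ℝ))
  let F : E →L[ℝ] E := P1.prod (P2.prod D)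
  let D0 : E →L[ℝ] ℝ := D.comp (P1.prod (P2.prod 0))
  let G : E →L[ℝ] E := P1.prod (P2.prod (d⁻¹ • (P3 - D0)))
  have hF : ∀ v : E, F v = (v.1, v.2.1, D v) := fun v => rfl
  have hG : ∀ v : E, G v = (v.1, v.2.1, d⁻¹ * (v.2.2 - D (v.1, v.2.1, 0))) := fun v => rfl
  refine ⟨ContinuousLinearEquiv.equivOfInverse F G ?_ ?_, ?_⟩
  · intro v
    rw [hF, hG]
    ext
    · rfl
    · rfl
    · simp only []
      rw [hsplit v]
      field_simp
      ring
  · intro v
    rw [hG, hF]
    ext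
    · rfl
    · rfl
    · change D (v.1, v.2.1, d⁻¹ * (v.2.2 - D (v.1, v.2.1, 0))) = v.2.2
      rw [hsplit (v.1, v.2.1, d⁻¹ * (v.2.2 - D (v.1, v.2.1, 0)))]
      change D (v.1, v.2.1, 0) + d⁻¹ * (v.2.2 - D (v.1, v.2.1, 0)) * d = v.2.2
      field_simp
      ring
  · intro v
    exact hF v

theorem good_fiber (h : E → ℝ) (hs : ContDiff ℝ (⊤ : ℕ∞) h)
    (hd : ∀ x s t : ℝ, ∃ d : ℝ, 0 < d ∧ HasDerivAt (fun t => h (x, s, t)) d t)
    (hsurj : ∀ x s c : ℝ, ∃ t, h (x, s, t) = c) : Good (fun p : E => (p.1, p.2.1, h p)) := by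
  set f : E → E := fun p : E => (p.1, p.2.1, h p) with hf
  have hfs : ContDiff ℝ (⊤ : ℕ∞) f := by
    rw [hf]; fun_prop
  have hmono : ∀ x s : ℝ, StrictMono (fun t => h (x, s, t)) := by
    intro x s
    apply strictMono_of_deriv_pos
    intro t
    obtain ⟨d, hd0, hd1⟩ := hd x s t
    rw [hd1.deriv]
    exact hd0
  have hbij : Function.Bijective f := by
    constructor
    · intro p p' hpp
      simp only [hf, Prod.mk.injEq] at hpp
      obtain ⟨h1, h2, h3⟩ := hpp
      have e1 : p = (p.1, p.2.1, p.2.2) := rfl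
      have e2 : p' = (p.1, p.2.1, p'.2.2) := by rw [h1, h2]
      rw [e1, e2] at h3
      have := (hmono p.1 p.2.1).injective h3
      rw [e1, e2, this]
    · intro c
      obtain ⟨t, ht⟩ := hsurj c.1 c.2.1 c.2.2
      refine ⟨(c.1, c.2.1, t), ?_⟩
      simp only [hf]
      rw [ht]
  have hD : ∀ a : E, ∃ e : E ≃L[ℝ] E, HasFDerivAt f (e : E →L[ℝ] E) a := by
    intro a
    have hh : HasFDerivAt h (fderiv ℝ h a) a :=
      (hs.differentiable (by simp)).differentiableAt.hasFDerivAt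
    obtain ⟨d, hd0, hd1⟩ := hd a.1 a.2.1 a.2.2
    have hc : HasDerivAt (fun t : ℝ => ((a.1, a.2.1, t) : E)) ((0, 0, 1) : E) a.2.2 :=
      (hasDerivAt_const _ _).prodMk ((hasDerivAt_const _ _).prodMk (hasDerivAt_id _))
    have h2 : HasDerivAt (fun t => h (a.1, a.2.1, t)) (fderiv ℝ h a (0, 0, 1)) a.2.2 := by
      have := hh.comp_hasDerivAt (x := a.2.2) (f := fun t : ℝ => ((a.1, a.2.1, t) : E)) (by exact hc)
      exact this
    have h3 : fderiv ℝ h a (0, 0, 1) = d := h2.unique hd1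
    obtain ⟨e, he⟩ := exists_equiv3 (fderiv ℝ h a) (by rw [h3]; exact hd0.ne')
    refine ⟨e, ?_⟩
    have h4 : HasFDerivAt f ((ContinuousLinearMap.fst ℝ ℝ (ℝ × ℝ)).prod
        (((ContinuousLinearMap.fst ℝ ℝ ℝ).comp (ContinuousLinearMap.snd ℝ ℝ (ℝ × ℝ))).prod
          (fderiv ℝ h a))) a := by
      refine hasFDerivAt_fst.prodMk (HasFDerivAt.prodMk ?_ hh)
      exact (ContinuousLinearMap.fst ℝ ℝ ℝ).hasFDerivAt.comp a hasFDerivAt_snd
    have h5 : (e : E →L[ℝ] E) = ((ContinuousLinearMap.fst ℝ ℝ (ℝ × ℝ)).prod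
        (((ContinuousLinearMap.fst ℝ ℝ ℝ).comp (ContinuousLinearMap.snd ℝ ℝ (ℝ × ℝ))).prod
          (fderiv ℝ h a))) := by
      apply ContinuousLinearMap.ext
      intro v
      exact he v
    rw [h5]
    exact h4
  choose e he using hD
  have hstrict : ∀ a : E, HasStrictFDerivAt f (e a : E →L[ℝ] E) a := fun a =>
    hfs.contDiffAt.hasStrictFDerivAt' (he a) (by simp)
  have hopen : IsOpenMap f := by
    rw [isOpenMap_iff_nhds_le]
    intro a
    exact ((hstrict a).map_nhds_eq_of_equiv).ge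
  let H : E ≃ₜ E := (Equiv.ofBijective f hbij).toHomeomorphOfContinuousOpen hfs.continuous hopen
  have hH : ⇑H = f := rfl
  exact ⟨H, hfs, Homeomorph.contDiff_symm H (f₀' := e) he hfs, hH⟩

/-- surjectivity of `t + u t` for bounded continuous `u` -/
theorem surj_add {u : ℝ → ℝ} (hu : Continuous u) {B : ℝ} (hB : ∀ t, |u t| ≤ B) (c : ℝ) :
    ∃ t, t + u t = c := by
  have hB0 : 0 ≤ B := (abs_nonneg _).trans (hB 0)
  have hcont : ContinuousOn (fun t => t + u t) (Set.Icc (c - B) (c + B)) :=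
    (continuous_id.add hu).continuousOn
  have h1 : c ∈ Set.Icc ((fun t => t + u t) (c - B)) ((fun t => t + u t) (c + B)) := by
    constructor
    · have := (abs_le.mp (hB (c - B))).2
      simp only
      linarith
    · have := (abs_le.mp (hB (c + B))).1
      simp only
      linarith
  obtain ⟨t, -, ht⟩ := intermediate_value_Icc (by linarith) hcont h1
  exact ⟨t, ht⟩

/-- swap the first and the third coordinate -/
theorem good_swap : Good (fun p : E => (p.2.2, p.2.1, p.1)) :=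
  good_of_inv (g := fun p : E => (p.2.2, p.2.1, p.1)) (by fun_prop) (by fun_prop) (fun _ => rfl)
    (fun _ => rfl)


/-! ### the steps -/

variable {θ : ℝ} {ω : E → ℝ}

/-- the shift of step 4 -/
noncomputable def K (A : Atoms θ ω) (x s : ℝ) : ℝ :=
  (1 - ψ (x / 5)) * (4 * (1 - A.al x s)) + A.b1 x + ψ (x / 10) * (4 * (A.a4 s + A.a5 s))

theorem b1_ge' (hθ : 0 < θ) (hθ' : θ ≤ 1 / 10 ^ 24) (A : Atoms θ ω) (x : ℝ) :
    -(1 / 10 ^ 24) ≤ A.b1 x := by
  by_cases h : ∃ m l, l ≤ 7 ∧ |x - X m l| ≤ 20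
  · obtain ⟨m, l, hl, hx⟩ := h
    rw [A.b1_in m l hl x hx]
    have h1 := A3.tξ_gξ hθ hθ' m l
    have h2 := ψ_nonneg ((x - X m l) / 10)
    have h3 := ψ_le_one ((x - X m l) / 10)
    have h4 : |(tξ θ m l - gξ θ m l) * ψ ((x - X m l) / 10)| ≤ 1 / 10 ^ 24 := by
      rw [abs_mul, abs_of_nonneg h2]
      calc |tξ θ m l - gξ θ m l| * ψ ((x - X m l) / 10) ≤ 1 / 10 ^ 24 * 1 := by gcongr
        _ = 1 / 10 ^ 24 := by norm_num
    exact (abs_le.mp h4).1
  · push Not at h
    rw [A.b1_out x fun m l hl => (h m l hl).le]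
    norm_num

theorem K_ge (hθ : 0 < θ) (hθ' : θ ≤ 1 / 10 ^ 24) (A : Atoms θ ω) (x s : ℝ) :
    -(1 / 10 ^ 24) ≤ K A x s := by
  unfold K
  have h1 := b1_ge' hθ hθ' A x
  have h2 := A3.al_le_one A x s
  have h3 := ψ_le_one (x / 5)
  have h4 := ψ_nonneg (x / 10)
  have h5 := A.a4_nonneg s
  have h6 := A.a5_nonneg s
  have h7 : 0 ≤ (1 - ψ (x / 5)) * (4 * (1 - A.al x s)) :=
    mul_nonneg (by linarith) (by linarith)
  have h8 : 0 ≤ ψ (x / 10) * (4 * (A.a4 s + A.a5 s)) :=
    mul_nonneg h4 (by linarith)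
  linarith

noncomputable def c1 (A : Atoms θ ω) (p : E) : E := (p.1 + χ p.2.2 * A.a1 p.2.1, p.2.1, p.2.2)
noncomputable def c2 (A : Atoms θ ω) (p : E) : E := (p.1 + χ p.2.2 * A.wd p, p.2.1, p.2.2)
noncomputable def c3 (A : Atoms θ ω) (p : E) : E := (p.1, p.2.1 + χ p.2.2 * A.pn p.1 p.2.2, p.2.2)
noncomputable def c4 (A : Atoms θ ω) (p : E) : E := (p.1, p.2.1, p.2.2 + χ p.2.2 * K A p.1 p.2.1)
noncomputable def cL (A : Atoms θ ω) (p : E) : E := (p.1, p.2.1 + χ p.2.2 * A.b2 p.1, p.2.2)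
noncomputable def cU (A : Atoms θ ω) (p : E) : E := (p.1 - χ p.2.2 * A.a2 p.2.1, p.2.1, p.2.2)
noncomputable def c9 (A : Atoms θ ω) (p : E) : E := (p.1, p.2.1 + χ p.2.2 * (1 + A.b3 p.1), p.2.2)
noncomputable def c10 (A : Atoms θ ω) (p : E) : E := (p.1 - χ p.2.2 * A.a3 p.2.1, p.2.1, p.2.2)

/-- the wind step, cut off -/
theorem good_c2 (hθ : 0 < θ) (hθ' : θ ≤ 1 / 10 ^ 24) (hω : ∀ z, 0 ≤ ω z)
    (hω' : ∀ z, ω z ≤ 1 / 10 ^ 11) (A : Atoms θ ω) : Good (c2 A) := by
  have hwd := A.wd_smooth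
  have hχ := χ_contDiff
  have hsw : ContDiff ℝ (⊤ : ℕ∞) (fun p : E => ((p.2.2, p.2.1, p.1) : E)) := by fun_prop
  have hw2 : ContDiff ℝ (⊤ : ℕ∞) (fun p : E => A.wd (p.2.2, p.2.1, p.1)) := hwd.comp hsw
  set h : E → ℝ := fun p => p.2.2 + χ p.1 * A.wd (p.2.2, p.2.1, p.1) with hh
  have hs : ContDiff ℝ (⊤ : ℕ∞) h := by
    rw [hh]; fun_prop
  have hg : Good (fun p : E => (p.1, p.2.1, h p)) := by
    apply good_fiber h hs
    · intro x s t
      have hdw : DifferentiableAt ℝ (fun t => A.wd (t, s, x)) t := by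
        have : ContDiff ℝ (⊤ : ℕ∞) (fun t : ℝ => A.wd (t, s, x)) :=
          hwd.comp (f := fun t : ℝ => ((t, s, x) : E)) (by fun_prop)
        exact (this.differentiable (by simp)).differentiableAt
      have hlip : LipschitzWith (1 / 2) (fun t => A.wd (t, s, x)) := by
        apply LipschitzWith.of_dist_le_mul
        intro t t'
        refine (A.wd_lip.dist_le_mul _ _).trans ?_
        have : dist ((t, s, x) : E) (t', s, x) = dist t t' := by
          rw [Prod.dist_eq, Prod.dist_eq]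
          simp
        rw [this]
      have hb : |deriv (fun t => A.wd (t, s, x)) t| ≤ 1 / 2 := by
        have := norm_deriv_le_of_lipschitz hlip (x₀ := t)
        simpa using this
      refine ⟨1 + χ x * deriv (fun t => A.wd (t, s, x)) t, ?_, ?_⟩
      · have h1 : |χ x * deriv (fun t => A.wd (t, s, x)) t| ≤ 1 / 2 := by
          rw [abs_mul, abs_of_nonneg (χ_nonneg x)]
          calc χ x * |deriv (fun t => A.wd (t, s, x)) t| ≤ 1 * (1 / 2) := by
                gcongr
                exact χ_le_one x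
            _ = 1 / 2 := by norm_num
        have := (abs_le.mp h1).1
        linarith
      · simp only [hh]
        exact (hasDerivAt_id t).add (hdw.hasDerivAt.const_mul (χ x))
    · intro x s c
      have hc : Continuous fun t : ℝ => χ x * A.wd (t, s, x) := by
        have : Continuous A.wd := hwd.continuous
        fun_prop
      refine surj_add (B := 1 / 10) hc ?_ c
      intro t
      rw [abs_mul, abs_of_nonneg (χ_nonneg x)]
      calc χ x * |A.wd (t, s, x)| ≤ 1 * (1 / 10) := by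
            gcongr
            · exact χ_le_one x
            · exact A3.wd_bd hθ hθ' hω hω' A _
        _ = 1 / 10 := by norm_num
  exact good_swap.comp (hg.comp good_swap)

theorem good_c4 (hθ : 0 < θ) (hθ' : θ ≤ 1 / 10 ^ 24) (A : Atoms θ ω) : Good (c4 A) := by
  have hal := A.al_smooth
  have hb1 := A.b1_smooth
  have ha4 := A.a4_smooth
  have ha5 := A.a5_smooth
  have hψ := ψ_contDiff
  have hχ := χ_contDiff
  have hal' : ContDiff ℝ (⊤ : ℕ∞) (fun p : E => A.al p.1 p.2.1) :=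
    hal.comp (f := fun p : E => (p.1, p.2.1)) (by fun_prop)
  have hs : ContDiff ℝ (⊤ : ℕ∞) (fun p : E => p.2.2 + χ p.2.2 * K A p.1 p.2.1) := by
    unfold K
    fun_prop
  refine good_fiber _ hs ?_ ?_
  · intro x s t
    refine ⟨1 + bump.normed volume t * K A x s, ?_, ?_⟩
    · have h1 := K_ge hθ hθ' A x s
      have h2 := bump.nonneg_normed (μ := volume) t
      have h3 := bump_le t
      have h4 : -(1 / 10 ^ 24) ≤ bump.normed volume t * K A x s := by
        calc -(1 / 10 ^ 24 : ℝ) ≤ bump.normed volume t * (-(1 / 10 ^ 24)) := by nlinarith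
          _ ≤ _ := by gcongr
      have h5 : (1:ℝ) / 10 ^ 24 < 1 := by norm_num
      linarith
    · exact (hasDerivAt_id t).add ((χ_hasDerivAt t).mul_const (K A x s))
  · intro x s c
    have hc : Continuous fun t : ℝ => χ t * K A x s := by
      have : Continuous χ := χ_contDiff.continuous
      fun_prop
    refine surj_add (B := |K A x s|) hc ?_ c
    intro t
    rw [abs_mul, abs_of_nonneg (χ_nonneg t)]
    calc χ t * |K A x s| ≤ 1 * |K A x s| := by
          gcongr
          exact χ_le_one t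
      _ = |K A x s| := one_mul _

theorem good_all (hθ : 0 < θ) (hθ' : θ ≤ 1 / 10 ^ 24) (hω : ∀ z, 0 ≤ ω z)
    (hω' : ∀ z, ω z ≤ 1 / 10 ^ 11) (A : Atoms θ ω) :
    Good (fun p => c10 A (c9 A (cU A (cL A (cU A (cL A (c4 A (c3 A (c2 A (c1 A p)))))))))) := by
  have ha1 := A.a1_smooth
  have hpn := A.pn_smooth
  have ha2 := A.a2_smooth
  have hb2 := A.b2_smooth
  have hb3 := A.b3_smooth
  have ha3 := A.a3_smooth
  have hχ := χ_contDiff
  have hpn' : ContDiff ℝ (⊤ : ℕ∞) (fun p : E => A.pn p.1 p.2.2) :=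
    hpn.comp (f := fun p : E => (p.1, p.2.2)) (by fun_prop)
  have g1 : Good (c1 A) := by
    refine good_of_inv (g := fun p => (p.1 - χ p.2.2 * A.a1 p.2.1, p.2.1, p.2.2)) ?_ ?_ ?_ ?_
    · unfold c1; fun_prop
    · fun_prop
    · intro p; simp [c1]
    · intro p; simp [c1]
  have g2 : Good (c2 A) := good_c2 hθ hθ' hω hω' A
  have g3 : Good (c3 A) := by
    refine good_of_inv (g := fun p => (p.1, p.2.1 - χ p.2.2 * A.pn p.1 p.2.2, p.2.2)) ?_ ?_ ?_ ?_
    · unfold c3; fun_prop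
    · fun_prop
    · intro p; simp [c3]
    · intro p; simp [c3]
  have g4 : Good (c4 A) := good_c4 hθ hθ' A
  have gL : Good (cL A) := by
    refine good_of_inv (g := fun p => (p.1, p.2.1 - χ p.2.2 * A.b2 p.1, p.2.2)) ?_ ?_ ?_ ?_
    · unfold cL; fun_prop
    · fun_prop
    · intro p; simp [cL]
    · intro p; simp [cL]
  have gU : Good (cU A) := by
    refine good_of_inv (g := fun p => (p.1 + χ p.2.2 * A.a2 p.2.1, p.2.1, p.2.2)) ?_ ?_ ?_ ?_
    · unfold cU; fun_prop
    · fun_prop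
    · intro p; simp [cU]
    · intro p; simp [cU]
  have g9 : Good (c9 A) := by
    refine good_of_inv (g := fun p => (p.1, p.2.1 - χ p.2.2 * (1 + A.b3 p.1), p.2.2)) ?_ ?_ ?_ ?_
    · unfold c9; fun_prop
    · fun_prop
    · intro p; simp [c9]
    · intro p; simp [c9]
  have g10 : Good (c10 A) := by
    refine good_of_inv (g := fun p => (p.1 + χ p.2.2 * A.a3 p.2.1, p.2.1, p.2.2)) ?_ ?_ ?_ ?_
    · unfold c10; fun_prop
    · fun_prop
    · intro p; simp [c10]
    · intro p; simp [c10]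
  exact g10.comp (g9.comp (gU.comp (gL.comp (gU.comp (gL.comp (g4.comp (g3.comp (g2.comp g1))))))))

end K2

open K2

/-- K2 -/
theorem loc_of_atoms {θ : ℝ} (hθ : 0 < θ) (hθ' : θ ≤ 1 / 10 ^ 24) {ω : E → ℝ} (hω : ∀ z, 0 ≤ ω z)
    (hω' : ∀ z, ω z ≤ 1 / 10 ^ 11) (A : Atoms θ ω) :
    ∃ f₀ : E ≃ₜ E, ContDiff ℝ (⊤ : ℕ∞) f₀ ∧ ContDiff ℝ (⊤ : ℕ∞) f₀.symm ∧
      (∀ p : E, -2 ≤ p.2.2 → f₀ p = theMap A p) ∧ ∀ p : E, p.2.2 ≤ -5 → f₀ p = p := by
  obtain ⟨f₀, h1, h2, h3⟩ := good_all hθ hθ' hω hω' A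
  refine ⟨f₀, h1, h2, ?_, ?_⟩
  · intro p hp
    rw [h3]
    have e : χ p.2.2 = 1 := χ_one (by linarith)
    have hc1 : c1 A p = step1 A p := by simp only [c1, step1, e, one_mul]
    have hx1 : (step1 A p).2.2 = p.2.2 := rfl
    have hc2 : c2 A (step1 A p) = step2 A (step1 A p) := by
      simp only [c2, step2, hx1, e, one_mul]
    have hx2 : (step2 A (step1 A p)).2.2 = p.2.2 := rfl
    have hc3 : c3 A (step2 A (step1 A p)) = step3 A (step2 A (step1 A p)) := by
      simp only [c3, step3, hx2, e, one_mul]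
    set p3 := step3 A (step2 A (step1 A p)) with hp3
    have hx3 : p3.2.2 = p.2.2 := rfl
    have hc4 : c4 A p3 = step4 A p3 := by
      simp only [c4, step4, hx3, e, one_mul, K]
    set p4 := step4 A p3 with hp4
    have hx4 : -3 ≤ p4.2.2 := by
      have h5 : p4.2.2 = p3.2.2 + K A p3.1 p3.2.1 := rfl
      have h6 := K_ge hθ hθ' A p3.1 p3.2.1
      have h7 : (1:ℝ) / 10 ^ 24 < 1 := by norm_num
      rw [h5, hx3]
      linarith
    have e4 : χ p4.2.2 = 1 := χ_one hx4
    have hL : ∀ y : E, y.2.2 = p4.2.2 → cL A y = stepL A y := by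
      intro y hy
      simp only [cL, stepL, hy, e4, one_mul]
    have hU : ∀ y : E, y.2.2 = p4.2.2 → cU A y = stepU A y := by
      intro y hy
      simp only [cU, stepU, hy, e4, one_mul]
    have h9 : ∀ y : E, y.2.2 = p4.2.2 → c9 A y = step9 A y := by
      intro y hy
      simp only [c9, step9, hy, e4, one_mul]
    have h10 : ∀ y : E, y.2.2 = p4.2.2 → c10 A y = step10 A y := by
      intro y hy
      simp only [c10, step10, hy, e4, one_mul]
    simp only [theMap]
    rw [hc1, hc2, hc3, hc4, hL p4 rfl, hU (stepL A p4) rfl, hL (stepU A (stepL A p4)) rfl,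
      hU (stepL A (stepU A (stepL A p4))) rfl, h9 (stepU A (stepL A (stepU A (stepL A p4)))) rfl,
      h10 (step9 A (stepU A (stepL A (stepU A (stepL A p4))))) rfl]
  · intro p hp
    rw [h3]
    have e : χ p.2.2 = 0 := χ_zero hp
    have k1 : c1 A p = p := by simp only [c1, e, zero_mul, add_zero]
    have k2 : c2 A p = p := by simp only [c2, e, zero_mul, add_zero]
    have k3 : c3 A p = p := by simp only [c3, e, zero_mul, add_zero]
    have k4 : c4 A p = p := by simp only [c4, e, zero_mul, add_zero]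
    have kL : cL A p = p := by simp only [cL, e, zero_mul, add_zero]
    have kU : cU A p = p := by simp only [cU, e, zero_mul, sub_zero]
    have k9 : c9 A p = p := by simp only [c9, e, zero_mul, add_zero]
    have k10 : c10 A p = p := by simp only [c10, e, zero_mul, sub_zero]
    simp only [k1, k2, k3, k4, kL, kU, k9, k10]

end Pool.Agent.H718R2
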