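import Pool.Agent.H718R2.D2

/-!
# Macroscopic dynamics along pseudo-orbits

The macroscopic part of the analysis (climbing, landing, no kill near the maximum) for a sequence
`Q` with `Q (i + 1)` very close to `f (Q i)`, instead of an orbit of a perturbed map.
-/

namespace Pool.Agent.H718R2

/-- the unperturbed context, and a pseudo-orbit -/
structure PO (κ θ : ℝ) (ω : E → ℝ) (f : E → E) (Q : ℕ → E) : Prop where
  c : Ctx κ θ ω f (fun _ => 0)
  err : ∀ i m : ℕ, (m : ℝ) - 1 ≤ |(Q i).2.1| → ‖Q (i + 1) - f (Q i)‖ ≤ θ ^ (12 * (m + 1))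

theorem pert_zero {θ : ℝ} (hθ : 0 < θ) : Pert θ (fun _ => (0 : E)) := by
  refine ⟨contDiff_const, ?_, ?_, ?_⟩
  · intro p m _
    rw [norm_zero]; positivity
  · intro p m _
    simp only [fderiv_fun_const, Pi.zero_apply, norm_zero]; positivity
  · intro p m _
    have h : fderiv ℝ (fun _ : E => (0 : E)) = fun _ => 0 := by
      ext1 x; simp
    have h2 : fderiv ℝ (fderiv ℝ (fun _ : E => (0 : E))) p = 0 := by
      rw [h]; simp
    have h3 : ‖fderiv ℝ (fderiv ℝ (fun _ : E => (0 : E))) p‖ = 0 := by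
      rw [h2]; exact ContinuousLinearMap.opNorm_zero
    exact h3.le.trans (by positivity)

section
variable {κ θ : ℝ} {ω : E → ℝ} {f : E → E} {Q : ℕ → E}

/-- the error of the step number `i` -/
def er (f : E → E) (Q : ℕ → E) (i : ℕ) : E := Q (i + 1) - f (Q i)

theorem Q_succ (f : E → E) (Q : ℕ → E) (i : ℕ) : Q (i + 1) = f (Q i) + er f Q i := by
  unfold er; abel

theorem PO.e_le (h : PO κ θ ω f Q) (i : ℕ) : ‖er f Q i‖ ≤ θ ^ 12 := by
  have := h.err i 0 (by simp; linarith [abs_nonneg (Q i).2.1])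
  simpa [er] using this

theorem PO.e_le' (h : PO κ θ ω f Q) (i : ℕ) : ‖er f Q i‖ ≤ 1 / 10 ^ 24 :=
  (h.e_le i).trans (pow_small h.c.θp h.c.θs (by norm_num))

theorem PO.V_up (h : PO κ θ ω f Q) {i : ℕ} (hup : Up f (Q i)) : V (Q i) ≤ V (Q (i + 1)) := by
  obtain ⟨h1, h2, h3⟩ := hup
  set m := ⌊|(Q i).2.1|⌋₊ + 1 with hm
  have hm1 : (m : ℝ) - 1 ≤ |(Q i).2.1| := by
    rw [hm]; push_cast; linarith [Nat.floor_le (abs_nonneg (Q i).2.1)]
  have hm2 : |(Q i).2.1| ≤ m := by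
    rw [hm]; push_cast; exact (Nat.lt_floor_add_one _).le
  have hu : ‖er f Q i‖ ≤ θ ^ (12 * (m + 1)) := h.err i m hm1
  have he := err_small h.c m
  have hu' := h.e_le' i
  have hs := abs_le.1 (n2 (er f Q i))
  have hx := abs_le.1 (n3 (er f Q i))
  set e := ‖er f Q i‖ with hee
  have e0 : 0 ≤ e := norm_nonneg _
  have a1 : (Q (i + 1)).2.1 = (f (Q i)).2.1 + (er f Q i).2.1 := by rw [Q_succ f Q i]; rfl
  have a2 : (Q (i + 1)).2.2 = (f (Q i)).2.2 + (er f Q i).2.2 := by rw [Q_succ f Q i]; rfl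
  have b1 : (Q i).2.1 + 1 / 2 ≤ (Q (i + 1)).2.1 := by rw [a1]; norm_num at hu' ⊢; linarith [hs.1]
  have b2 : |(Q (i + 1)).2.1| ≤ m + 3 := by
    rw [a1, abs_le]
    have := abs_le.1 hm2
    norm_num at hu'
    constructor <;> linarith [hs.1, hs.2]
  have b3 : (Q i).2.2 - e ≤ (Q (i + 1)).2.2 := by rw [a2]; linarith [hx.1]
  have hi := hh_inc (show (Q i).2.1 ≤ (Q (i + 1)).2.1 by linarith)
  have h0 : (0:ℝ) ≤ m := Nat.cast_nonneg m
  have h4 : 1 / 2 / (((m : ℝ) + 1) * (m + 4)) ≤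
      ((Q (i + 1)).2.1 - (Q i).2.1) / ((1 + |(Q i).2.1|) * (1 + |(Q (i + 1)).2.1|)) := by
    apply div_le_div₀ (by linarith) (by linarith) (by positivity)
    apply mul_le_mul (by linarith) (by linarith) (by positivity) (by positivity)
  unfold V
  have h5 : 1 / (200 * (((m : ℝ) + 1) * (m + 4))) = 1 / 100 * (1 / 2 / (((m : ℝ) + 1) * (m + 4))) := by
    field_simp; norm_num
  rw [h5] at he
  nlinarith

/-- a killed point raises `ξ` -/
theorem PO.kill_raise (h : PO κ θ ω f Q) {i : ℕ} (hk : Kill f (Q i)) :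
    (Q i).2.2 + 29 / 10 ≤ (Q (i + 1)).2.2 := by
  have h2 := abs_le.1 ((n3 (er f Q i)).trans (h.e_le' i))
  have h3 : (Q (i + 1)).2.2 = (f (Q i)).2.2 + (er f Q i).2.2 := by rw [Q_succ f Q i]; rfl
  unfold Kill at hk
  rw [h3]; norm_num at h2; linarith [h2.1]

theorem PO.V_kill (h : PO κ θ ω f Q) {i : ℕ} (hk : Kill f (Q i)) : V (Q i) ≤ V (Q (i + 1)) := by
  have h1 := h.kill_raise hk
  have k1 := abs_le.1 (V_le (Q i))
  have k2 := abs_le.1 (V_le (Q (i + 1)))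
  linarith [k1.2, k2.1]

theorem PO.V_flight (h : PO κ θ ω f Q) {a : ℕ} (j : ℕ)
    (hn : ∀ i, i < j → ¬ IsDown θ ω f (Q (a + i))) : V (Q a) ≤ V (Q (a + j)) := by
  induction j with
  | zero => simp
  | succ j ih =>
    refine (ih (fun i hi => hn i (by omega))).trans ?_
    rcases tri2 h.c (Q (a + j)) with h' | h' | h'
    · exact h.V_kill h'
    · exact absurd h' (hn j (by omega))
    · exact h.V_up h'

theorem PO.climbs (h : PO κ θ ω f Q) (a j : ℕ) : ∀ (k : ℕ) (z : E), |z.1| ≤ 4 →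
    |z.2.1| ≤ 8 * r θ (k + j) → Q a = D (k + j) z →
    ∃ z', Q (a + j) = D k z' ∧ ‖z' - z‖ ≤ 2 * θ ^ (12 * (k + 2)) := by
  have c := h.c
  induction j with
  | zero =>
    intro k z _ _ hQ
    refine ⟨z, hQ, ?_⟩
    rw [sub_self, norm_zero]
    have := pow_pos c.θp (12 * (k + 2)); positivity
  | succ j ih =>
    intro k z h1 h2 hQ
    have e : k + (j + 1) = (k + 1) + j := by omega
    rw [e] at h2 hQ
    obtain ⟨z', hz, hz'⟩ := ih (k + 1) z h1 h2 hQ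
    have hk2 := e24 c k
    have hrk := r_pos c.θp k
    have h10 := pow_small c.θp c.θs (a := 10) (by norm_num)
    have hs := c.θs
    have hk1 : 2 * θ ^ (12 * (k + 1 + 2)) ≤ θ ^ (12 * (k + 2)) := by
      have h3 : θ ^ (12 * (k + 1 + 2)) = θ ^ (12 * (k + 2)) * θ ^ 12 := by ring
      have h4 := pow_small c.θp c.θs (a := 12) (by norm_num)
      have h5 : 0 < θ ^ (12 * (k + 2)) := pow_pos c.θp _
      rw [h3]; nlinarith
    have hk3 : θ ^ (12 * (k + 2)) ≤ 1 / 100 * r θ k := by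
      have : θ ^ 10 * r θ k ≤ r θ k := by nlinarith [pow_pos c.θp 10]
      have : 0 < θ ^ 10 * r θ k := mul_pos (pow_pos c.θp 10) hrk
      nlinarith [pow_pos c.θp (12 * (k+2))]
    have hrk1 := r_le c.θp c.θs k
    have hr2 : r θ (k + 1 + j) ≤ θ * r θ k := r_lt c.θp c.θs (by omega)
    have d1 := abs_le.1 ((n1 (z' - z)).trans hz')
    have d2 := abs_le.1 ((n2 (z' - z)).trans hz')
    have d1' : z'.1 - z.1 = (z' - z).1 := rfl
    have d2' : z'.2.1 - z.2.1 = (z' - z).2.1 := rfl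
    rw [← d1'] at d1; rw [← d2'] at d2
    have a1 := abs_le.1 h1
    have a2 := abs_le.1 h2
    have b1 : |z'.1| ≤ 5 := abs_le.2 ⟨by linarith [d1.1], by linarith [d1.2]⟩
    have b2 : |z'.2.1| ≤ r θ k / 2 := by
      have : 8 * r θ (k + 1 + j) ≤ 1 / 100 * r θ k := by nlinarith
      exact abs_le.2 ⟨by linarith [d2.1], by linarith [d2.2]⟩
    refine ⟨z' + er f Q (a + j), ?_, ?_⟩
    · rw [← add_assoc, Q_succ f Q (a + j), hz, c.hS.climb k z' b1 b2, D_add]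
    · have hu : ‖er f Q (a + j)‖ ≤ θ ^ (12 * (k + 2)) := by
        have := h.err (a + j) (k + 1) (by
          rw [hz, D_s]
          have := abs_le.1 b2
          push_cast
          rw [le_abs]; right
          linarith)
        simpa [add_assoc, er] using this
      calc ‖z' + er f Q (a + j) - z‖ = ‖(z' - z) + er f Q (a + j)‖ := by congr 1; abel
        _ ≤ 2 * θ ^ (12 * (k + 1 + 2)) + θ ^ (12 * (k + 2)) :=
          (norm_add_le _ _).trans (add_le_add hz' hu)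
        _ ≤ _ := pow12 c k

/-- the gate map with error, in unit coordinates -/
theorem PO.gate_F (h : PO κ θ ω f Q) {i : ℕ} {z v : E} {m l : ℕ}
    (hp : Q i = U θ m (r θ m • (q l + R (sg l) z))) (hz : |z.2.1| ≤ 1 / 100)
    (hf : f (Q i) = tgt θ m l (r θ m • R (sg (l + 1)) v)) :
    ∃ y, Q (i + 1) = tgt θ m l (r θ m • R (sg (l + 1)) y) ∧ ‖y - v‖ ≤ θ ^ 11 := by
  have c := h.c
  have hr := r_pos c.θp m
  have hlev : (m : ℝ) - 1 ≤ |(Q i).2.1| := by
    rw [hp]; linarith [U_lev c (m := m) (l := l) hz]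
  have h1 : ‖er f Q i‖ ≤ _ := h.err i m hlev
  have h2 := er_r c.θp c.θs m
  refine ⟨v + R (sg (l + 1)) ((r θ m)⁻¹ • er f Q i), ?_, ?_⟩
  · have e : r θ m • R (sg (l + 1)) (v + R (sg (l + 1)) ((r θ m)⁻¹ • er f Q i)) =
        r θ m • R (sg (l + 1)) v + er f Q i := by
      rw [R_add, R_sg, smul_add, smul_smul, mul_inv_cancel₀ hr.ne', one_smul]
    rw [e, Q_succ f Q i, hf]
    unfold tgt
    split
    · rw [D_add, add_assoc]
    · rw [U_add]
  · rw [add_sub_cancel_left, R_norm (abs_sg _), norm_smul, norm_inv, Real.norm_of_nonneg hr.le]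
    rw [inv_mul_le_iff₀ hr]
    linarith

/-- landing point of a down gate climbs to a gate of level 0; all `ξ` stay nearly the same -/
theorem PO.land0 (h : PO κ θ ω f Q) {a m l' : ℕ} (hl : l' ≤ 7) {y : E} (h1 : |y.1| ≤ 25 / 10000)
    (h2 : |y.2.1| ≤ 25 / 10000) (hQ : Q a = D m (r θ m • (q l' + R (sg l') y))) :
    ∃ (j l'' : ℕ) (w : E), l'' ≤ 7 ∧
      Q (a + j) = U θ 0 (r θ 0 • (q l'' + R (sg l'') w)) ∧ |w.2.1| ≤ 3 / 1000 ∧
      ∀ j' ≤ j, |(Q (a + j')).2.2 - (Q a).2.2| ≤ 1 / 10 ^ 22 := by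
  have c := h.c
  have hr := r_pos c.θp m
  have hr1 := r_le c.θp c.θs m
  have hs := c.θs
  have hθ := c.θp
  set ζ : E := r θ m • (q l' + R (sg l') y) with hζ
  obtain ⟨Q1, Q1'⟩ := q_bd1 l'
  obtain ⟨Q2, Q2'⟩ := q_bd2 l'
  have y1 := abs_le.1 (sg_bd l' h1)
  have y2 := abs_le.1 (sg_bd l' h2)
  have b1 : |ζ.1| ≤ r θ m * 5 := mul_bd hr.le (by
    rw [abs_le]; constructor <;> (simp only [add_x, R_x]; linarith))
  have b2 : |ζ.2.1| ≤ r θ m * 5 := mul_bd hr.le (by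
    rw [abs_le]; constructor <;> (simp only [Prod.fst_add, Prod.snd_add, R_s]; linarith))
  have b3 : |ζ.2.1 - r θ m * (q l').2.1| ≤ r θ m * (25 / 10000) := by
    have e : ζ.2.1 - r θ m * (q l').2.1 = r θ m * (sg l' * y.2.1) := by
      rw [hζ, smul_s, add_s, R_s]; ring
    rw [e]; exact mul_bd hr.le (sg_bd l' h2)
  clear_value ζ
  have h4 : |ζ.1| ≤ 4 := by norm_num at hs; linarith
  have h12 : θ ^ 12 ≤ θ / 10 ^ 24 := pow_le_θ c.θp c.θs (a := 12) (by norm_num)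
  have hc24 : ∀ k : ℕ, 2 * θ ^ (12 * (k + 2)) ≤ θ / 10 ^ 24 := by
    intro k
    have h1 : θ ^ (12 * (k + 2)) ≤ θ ^ (12 * 2) :=
      pow_le_pow_of_le_one hθ.le (by linarith) (by omega)
    have h1' : θ ^ (12 * 2) = θ ^ 12 * θ ^ 12 := by ring
    have h2 := pow_small c.θp c.θs (a := 12) (by norm_num)
    nlinarith [pow_pos c.θp 12]
  -- all intermediate points of the climb
  have hmid : ∀ j' ≤ m, |(Q (a + j')).2.2 - (Q a).2.2| ≤ 1 / 10 ^ 23 := by
    intro j' hj'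
    have em : (m - j') + j' = m := by omega
    obtain ⟨ζ', hc, hc'⟩ := h.climbs a j' (m - j') ζ h4 (by rw [em]; linarith) (by rw [em]; exact hQ)
    have d3 := abs_le.1 ((n3 (ζ' - ζ)).trans (hc'.trans (hc24 _)))
    have d3' : ζ'.2.2 - ζ.2.2 = (ζ' - ζ).2.2 := rfl
    rw [hc, hQ, D_ξ, D_ξ, d3']
    norm_num at hs ⊢
    rw [abs_le]; constructor <;> linarith [d3.1, d3.2]
  obtain ⟨ζ', hc, hc'⟩ := h.climbs a m 0 ζ h4 (by rw [zero_add]; linarith) (by rw [zero_add]; exact hQ)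
  have dd := hc'.trans (hc24 0)
  have d1 := abs_le.1 ((n1 (ζ' - ζ)).trans dd)
  have d2 := abs_le.1 ((n2 (ζ' - ζ)).trans dd)
  have d3 := abs_le.1 ((n3 (ζ' - ζ)).trans dd)
  have d1' : ζ'.1 - ζ.1 = (ζ' - ζ).1 := rfl
  have d2' : ζ'.2.1 - ζ.2.1 = (ζ' - ζ).2.1 := rfl
  have d3' : ζ'.2.2 - ζ.2.2 = (ζ' - ζ).2.2 := rfl
  rw [← d1'] at d1; rw [← d2'] at d2; rw [← d3'] at d3
  have b1' := abs_le.1 b1
  have b2' := abs_le.1 b2
  have z1 : |ζ'.1| ≤ 5 := by
    norm_num at hs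
    rw [abs_le]; constructor <;> linarith [d1.1, d1.2, b1'.1, b1'.2]
  have z2 : |ζ'.2.1| ≤ 1 / 4 := by
    norm_num at hs
    rw [abs_le]; constructor <;> linarith [d2.1, d2.2, b2'.1, b2'.2]
  have hcore := c.hS.core ζ' z1 z2
  set ζ'' := ζ' + er f Q (a + m) with hζ''
  have w1 := h.e_le (a + m)
  have w2 := abs_le.1 ((n2 (er f Q (a + m))).trans (w1.trans h12))
  have w3 := abs_le.1 ((n3 (er f Q (a + m))).trans (w1.trans h12))
  have ζ2'' : ζ''.2.1 = ζ'.2.1 + (er f Q (a + m)).2.1 := rfl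
  have ζ3'' : ζ''.2.2 = ζ'.2.2 + (er f Q (a + m)).2.2 := rfl
  have hit : Q (a + (m + 1)) = U θ 0 ζ'' := by
    rw [← add_assoc, Q_succ f Q (a + m), hc, hcore, U_add]
  have hr0 : 0 < r θ 0 := r_pos c.θp 0
  have x3 : |(Q (a + (m + 1))).2.2 - (Q a).2.2| ≤ 1 / 10 ^ 22 := by
    rw [hit, hQ, U_ξ, D_ξ, ζ3'']
    norm_num at hs ⊢
    rw [abs_le]; constructor <;> linarith [d3.1, d3.2, w3.1, w3.2]
  have x2 : |ζ''.2.1 - ζ.2.1| ≤ 2 * (θ / 10 ^ 24) := by
    rw [ζ2'', abs_le]; constructor <;> linarith [d2.1, d2.2, w2.1, w2.2]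
  have hall : ∀ j' ≤ m + 1, |(Q (a + j')).2.2 - (Q a).2.2| ≤ 1 / 10 ^ 22 := by
    intro j' hj'
    rcases Nat.lt_or_ge j' (m + 1) with hlt | hge
    · exact (hmid j' (by omega)).trans (by norm_num)
    · have : j' = m + 1 := by omega
      rw [this]; exact x3
  rcases Nat.eq_zero_or_pos m with hm | hm
  · subst hm
    refine ⟨0 + 1, l', R (sg l') ((r θ 0)⁻¹ • ζ'' - q l'), hl, ?_, ?_, hall⟩
    · rw [hit, gate_coord hr0]
    · rw [R_s]
      apply sg_bd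
      change |(r θ 0)⁻¹ * ζ''.2.1 - (q l').2.1| ≤ 3 / 1000
      rw [r_zero] at b3 ⊢
      have : θ⁻¹ * ζ''.2.1 - (q l').2.1 = (ζ''.2.1 - θ * (q l').2.1) / θ := by
        field_simp
      rw [this, abs_div, abs_of_pos hθ, div_le_iff₀ hθ]
      have x2' := abs_le.1 x2
      have b3' := abs_le.1 b3
      rw [abs_le]
      constructor <;> linarith [x2'.1, x2'.2, b3'.1, b3'.2]
  · refine ⟨m + 1, 0, R (sg 0) ((r θ 0)⁻¹ • ζ'' - q 0), by omega, ?_, ?_, hall⟩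
    · rw [hit, gate_coord hr0]
    · rw [R_s]
      apply sg_bd
      change |(r θ 0)⁻¹ * ζ''.2.1 - (q 0).2.1| ≤ 3 / 1000
      have e0 : (q 0).2.1 = 0 := rfl
      have hrm : r θ m ≤ θ * r θ 0 := r_lt c.θp c.θs hm
      rw [r_zero] at hrm ⊢
      have : θ⁻¹ * ζ''.2.1 - (q 0).2.1 = ζ''.2.1 / θ := by
        rw [e0]; field_simp; ring
      rw [this, abs_div, abs_of_pos hθ, div_le_iff₀ hθ]
      have hθ2 : θ * θ ≤ θ / 10 ^ 20 := by nlinarith
      have x2' := abs_le.1 x2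
      rw [abs_le]
      constructor <;> linarith [x2'.1, x2'.2, b2'.1, b2'.2]

/-- after a down gate the orbit reaches a gate of level 0 with nearly the same `ξ` -/
theorem PO.landing (h : PO κ θ ω f Q) {i : ℕ} {z : E} {m l : ℕ} (hl : l ≤ 6)
    (hg : Gt θ ω f m l z (Q i)) :
    (∃ (j l' : ℕ) (w : E), l' ≤ 7 ∧ Q (i + 1 + j) = U θ 0 (r θ 0 • (q l' + R (sg l') w)) ∧
      |w.2.1| ≤ 3 / 1000 ∧ ∀ j' ≤ j, |(Q (i + 1 + j')).2.2 - (Q (i + 1)).2.2| ≤ 1 / 10 ^ 22) ∧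
    (Q i).2.2 - 1 / 10 ^ 20 ≤ (Q (i + 1)).2.2 := by
  have c := h.c
  obtain ⟨hp, hz, hx, b, k, hb, hk, e⟩ := hg
  obtain ⟨y, hy, hyv⟩ := h.gate_F hp hz e
  rw [tgt_down' hl] at hy
  have t11 := th11 c
  obtain ⟨o1, o2⟩ := off_bd c hyv (a := 2 / 1000) hx hb
  norm_num at t11
  constructor
  · exact h.land0 (m := m) (l' := l + 1) (y := y) (by omega) (by linarith) (by linarith) hy
  · have hr := r_pos c.θp m
    have hr1 := r_le c.θp c.θs m
    have hs := c.θs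
    obtain ⟨Q3, Q3'⟩ := q_bd3 (l + 1)
    obtain ⟨P3, P3'⟩ := q_bd3 l
    have d3 := abs_le.1 ((n3 (y - _)).trans hyv)
    have d3' : (y - (z.1 + ω z, b, z.2.2 + k)).2.2 = y.2.2 - (z.2.2 + k) := rfl
    rw [d3'] at d3
    have e1 : (Q (i + 1)).2.2 = r θ m * ((q (l + 1)).2.2 + y.2.2) := by rw [hy]; rfl
    have e2 : (Q i).2.2 = r θ m * ((q l).2.2 + z.2.2) := by rw [hp]; rfl
    rw [e1, e2]
    have h4 : -2 ≤ ((q (l + 1)).2.2 + y.2.2) - ((q l).2.2 + z.2.2) := by linarith [d3.1]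
    have h5 := mul_le_mul_of_nonneg_left h4 hr.le
    rw [mul_sub] at h5
    norm_num at hs ⊢
    linarith

/-- landing of a down gate if no kill can follow -/
theorem PO.landing_good (h : PO κ θ ω f Q) {P : ℕ → Prop}
    (hP : ∀ i, P i → -1 ≤ (Q i).2.2 → P (i + 1)) {Ξ : ℝ} (hmax : ∀ i, P i → (Q i).2.2 ≤ Ξ)
    {i : ℕ} (hi : P i) (hd : IsDown θ ω f (Q i)) (h1 : Ξ - 2 ≤ (Q i).2.2)
    (h2 : -(1 / 2) ≤ (Q i).2.2) : P (i + 1) ∧ |(Q (i + 1)).2.2| ≤ 1 / 1000 := by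
  obtain ⟨m, l, hl, z, hg⟩ := hd
  obtain ⟨⟨j, l', w, hl', hj, hw, hξ⟩, hdrop⟩ := h.landing hl hg
  have hs := h.c.θs
  have hθ := h.c.θp
  have k1 : (1:ℝ) / 10 ^ 22 ≤ 1 / 1000 := by norm_num
  have k2 : (1:ℝ) / 10 ^ 20 ≤ 1 / 1000 := by norm_num
  have hPi1 : P (i + 1) := hP i hi (by linarith)
  refine ⟨hPi1, ?_⟩
  have hPj : ∀ j' ≤ j, P (i + 1 + j') := by
    intro j'
    induction j' with
    | zero => intro _; exact hPi1
    | succ j' ih =>
      intro hj'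
      have h3 := abs_le.1 (hξ j' (by omega))
      have h4 := hP _ (ih (by omega)) (by linarith [h3.1])
      exact h4
  have hξj := abs_le.1 (hξ j le_rfl)
  rcases h.c.hS.rigid 0 l' hl' w hw with hk | ⟨hw2, _⟩
  · exfalso
    have hk' : Kill f (Q (i + 1 + j)) := by rw [hj]; exact hk
    have h3 := h.kill_raise hk'
    have h4 := hmax _ (hP _ (hPj j le_rfl) (by linarith [hξj.1]))
    linarith [hξj.1]
  · have e : (Q (i + 1 + j)).2.2 = θ * ((q l').2.2 + w.2.2) := by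
      rw [hj, U_ξ, smul_ξ, add_ξ, R_ξ, r_zero]
    rw [e] at hξj
    obtain ⟨Q3, Q3'⟩ := q_bd3 l'
    have hw2' := abs_lt.1 hw2
    have hb := abs_le.1 (mul_bd hθ.le (a := (q l').2.2 + w.2.2) (c := 3) (by
      rw [abs_le]; constructor <;> linarith [hw2'.1, hw2'.2]))
    norm_num at hξj hs
    rw [abs_le]
    constructor <;> linarith [hb.1, hb.2, hξj.1, hξj.2]

/-- from a point with small `ξ`, everything stays above -/
theorem PO.stay (h : PO κ θ ω f Q) {P : ℕ → Prop}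
    (hP : ∀ i, P i → -1 ≤ (Q i).2.2 → P (i + 1)) {Ξ : ℝ} (hmax : ∀ i, P i → (Q i).2.2 ≤ Ξ)
    (hΞ : Ξ ≤ 1 / 10) (j : ℕ) : ∀ a, P a → |(Q a).2.2| ≤ 1 / 1000 →
      P (a + j) ∧ -(1 / 10) ≤ (Q (a + j)).2.2 := by
  induction j using Nat.strong_induction_on with
  | _ j ih =>
    intro a ha ha1
    have ha' := abs_le.1 ha1
    by_cases hc : ∀ i, i < j → ¬ IsDown θ ω f (Q (a + i))
    · have h1 := h.V_flight j hc
      have h2 := abs_le.1 (V_le (Q a))
      have h3 := abs_le.1 (V_le (Q (a + j)))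
      refine ⟨?_, by linarith [h2.1, h2.2, h3.1, h3.2, ha'.1]⟩
      rcases Nat.eq_zero_or_pos j with rfl | hj
      · exact ha
      · have h4 := ih (j - 1) (by omega) a ha ha1
        have h5 := hP _ h4.1 (by linarith [h4.2])
        rwa [show a + (j - 1) + 1 = a + j by omega] at h5
    · push Not at hc
      obtain ⟨i, hi, hd⟩ := hc
      have h1 := ih i hi a ha ha1
      have h2 := h.landing_good hP hmax h1.1 hd (by linarith [h1.2]) (by linarith [h1.2])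
      have h3 := ih (j - (i + 1)) (by omega) (a + i + 1) h2.1 h2.2
      rwa [show a + i + 1 + (j - (i + 1)) = a + j by omega] at h3

/-- there is a first down gate; before it everything is near the maximum -/
theorem PO.first_down (h : PO κ θ ω f Q) {P : ℕ → Prop} (hP0 : P 0)
    (hP : ∀ i, P i → -1 ≤ (Q i).2.2 → P (i + 1))
    (hmax : ∀ i, P i → (Q i).2.2 ≤ (Q 0).2.2) (h0 : -(1 / 4) ≤ (Q 0).2.2)
    (hB : ∃ B : ℝ, ∀ i, P i → (Q i).2.1 ≤ B) :
    ∃ j, IsDown θ ω f (Q j) ∧ ∀ i ≤ j, P i ∧ (Q 0).2.2 - 1 / 50 ≤ (Q i).2.2 := by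
  classical
  -- before the first down gate
  have key : ∀ j, (∀ i, i < j → ¬ IsDown θ ω f (Q i)) →
      P j ∧ (Q 0).2.2 - 1 / 50 ≤ (Q j).2.2 := by
    intro j
    induction j with
    | zero => intro _; exact ⟨hP0, by linarith⟩
    | succ j ih =>
      intro hj
      have h1 := ih (fun i hi => hj i (by omega))
      refine ⟨hP j h1.1 (by linarith [h1.2]), ?_⟩
      have h2 := h.V_flight (a := 0) (j + 1) (fun i hi => by rw [zero_add]; exact hj i hi)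
      rw [zero_add] at h2
      have h3 := abs_le.1 (V_le (Q 0))
      have h4 := abs_le.1 (V_le (Q (j + 1)))
      linarith [h3.1, h3.2, h4.1, h4.2]
  by_cases hex : ∃ j, IsDown θ ω f (Q j)
  · refine ⟨Nat.find hex, Nat.find_spec hex, fun i hi => key i fun k hk => ?_⟩
    exact Nat.find_min hex (lt_of_lt_of_le hk hi)
  · exfalso
    push Not at hex
    have hall : ∀ j, P j ∧ (Q 0).2.2 - 1 / 50 ≤ (Q j).2.2 := fun j => key j fun i _ => hex i
    have hup : ∀ j, Up f (Q j) := by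
      intro j
      rcases tri2 h.c (Q j) with h' | h' | h'
      · exfalso
        have h1 := h.kill_raise h'
        have h2 := hmax _ (hall (j + 1)).1
        linarith [(hall j).2]
      · exact absurd h' (hex j)
      · exact h'
    have hgrow : ∀ i : ℕ, (Q 0).2.1 + i / 2 ≤ (Q i).2.1 := by
      intro i
      induction i with
      | zero => simp
      | succ i ih =>
        obtain ⟨h1, _, _⟩ := hup i
        have h2 := abs_le.1 ((n2 (er f Q i)).trans (h.e_le' i))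
        have h3 : (Q (i + 1)).2.1 = (f (Q i)).2.1 + (er f Q i).2.1 := by rw [Q_succ f Q i]; rfl
        rw [h3]
        push_cast
        norm_num at h2
        linarith [h2.1]
    obtain ⟨B, hB⟩ := hB
    obtain ⟨k, hk⟩ := exists_nat_gt (2 * (B - (Q 0).2.1))
    have h1 := hgrow k
    have h2 := hB k (hall k).1
    linarith

end

/-- forward boundedness of pseudo-orbits whose maximum of `ξ` is attained at time `0` -/
theorem forward_bd {κ θ : ℝ} (hκ : 0 < κ) (hκ' : κ ≤ 1 / 10 ^ 12) (hθ : θ = κ ^ 24) {ω : E → ℝ}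
    (hω : Wind κ θ ω) {f : E → E} (hf : ContDiff ℝ 2 f) (hS : Sys θ ω f) (Q : ℕ → E) (P : ℕ → Prop)
    (herr : ∀ i m : ℕ, (m : ℝ) - 1 ≤ |(Q i).2.1| → ‖Q (i + 1) - f (Q i)‖ ≤ θ ^ (12 * (m + 1)))
    (hP0 : P 0) (hP : ∀ i, P i → -1 ≤ (Q i).2.2 → P (i + 1))
    (hmax : ∀ i, P i → (Q i).2.2 ≤ (Q 0).2.2) (h0 : -(1 / 4) ≤ (Q 0).2.2)
    (hB : ∃ B : ℝ, ∀ i, P i → (Q i).2.1 ≤ B) :
    ∀ i, P i ∧ -(1 / 10) ≤ (Q i).2.2 := by
  have hp : Pert θ (fun _ => (0 : E)) := pert_zero (θ_small hκ hκ' hθ).1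
  have h : PO κ θ ω f Q := ⟨⟨hκ, hκ', hθ, hω, hf, hS, hp⟩, herr⟩
  obtain ⟨j, hd, hj⟩ := h.first_down hP0 hP hmax h0 hB
  have hjj := hj j le_rfl
  have hgood := h.landing_good hP hmax hjj.1 hd (by linarith [hjj.2]) (by linarith [hjj.2])
  have hdrop : (Q j).2.2 - 1 / 10 ^ 20 ≤ (Q (j + 1)).2.2 := by
    obtain ⟨m, l, hl, z, hg⟩ := hd
    exact (h.landing hl hg).2
  have hΞ : (Q 0).2.2 ≤ 1 / 10 := by
    have h1 := abs_le.1 hgood.2
    norm_num at hdrop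
    linarith [hjj.2, h1.2]
  have hΞ' : -(1 / 1000) ≤ (Q 0).2.2 := by
    have h1 := abs_le.1 hgood.2
    have h2 := hmax _ hgood.1
    linarith [h1.1]
  intro i
  rcases Nat.lt_or_ge i (j + 1) with hi | hi
  · have h1 := hj i (by omega)
    exact ⟨h1.1, by linarith [h1.2]⟩
  · have h1 := h.stay hP hmax hΞ (i - (j + 1)) (j + 1) hgood.1 hgood.2
    rwa [show j + 1 + (i - (j + 1)) = i by omega] at h1

end Pool.Agent.H718R2
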