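import Mathlib
import Pool.Agent.H718R2.G0
import Pool.Agent.H718R2.K0

/-! Task K4: a half-space chart and `NonClosing n` give a counterexample to the closing lemma. -/

open scoped Manifold ContDiff Topology
open Set

namespace Pool.Agent.H718R2.G

section K4

set_option linter.unusedSectionVars false

variable {n : ℕ} [NeZero n] {M : Type*} [TopologicalSpace M] [T2Space M]
    [ChartedSpace (V n) M] [IsManifold (𝓡 n) ∞ M]

/-- closed half-annuli -/
private def Cm (n : ℕ) [NeZero n] (m : ℕ) : Set (V n) :=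
  {v | 1 / 2 ≤ v 0 ∧ (m : ℝ) ≤ ‖v‖ ∧ ‖v‖ ≤ m + 1}

/-- open enlarged half-annuli -/
private def Om (n : ℕ) [NeZero n] (m : ℕ) : Set (V n) :=
  {v | 1 / 4 < v 0 ∧ (m : ℝ) - 1 < ‖v‖ ∧ ‖v‖ < m + 2}

private lemma Cm_sub_Om (m : ℕ) : Cm n m ⊆ Om n m := by
  intro v hv
  obtain ⟨h1, h2, h3⟩ := hv
  exact ⟨by linarith, by linarith, by linarith⟩

private lemma coord_cont : Continuous (fun v : V n => v 0) :=
  (EuclideanSpace.proj (0 : Fin n) : V n →L[ℝ] ℝ).continuous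

private lemma Om_open (m : ℕ) : IsOpen (Om n m) := by
  have h1 : IsOpen {v : V n | 1 / 4 < v 0} := isOpen_lt continuous_const coord_cont
  have h2 : IsOpen {v : V n | (m : ℝ) - 1 < ‖v‖} := isOpen_lt continuous_const continuous_norm
  have h3 : IsOpen {v : V n | ‖v‖ < (m : ℝ) + 2} := isOpen_lt continuous_norm continuous_const
  exact h1.inter (h2.inter h3)

private lemma Cm_compact (m : ℕ) : IsCompact (Cm n m) := by
  have h1 : IsClosed {v : V n | 1 / 2 ≤ v 0} := isClosed_le continuous_const coord_cont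
  have h2 : IsClosed {v : V n | (m : ℝ) ≤ ‖v‖} := isClosed_le continuous_const continuous_norm
  have h3 : IsClosed {v : V n | ‖v‖ ≤ (m : ℝ) + 1} := isClosed_le continuous_norm continuous_const
  refine Metric.isCompact_of_isClosed_isBounded (h1.inter (h2.inter h3)) ?_
  refine (Metric.isBounded_closedBall (x := (0 : V n)) (r := (m : ℝ) + 1)).subset ?_
  intro v hv
  rw [mem_closedBall_zero_iff]
  exact hv.2.2

private lemma Om_sub (m : ℕ) : Om n m ⊆ {v : V n | 0 ≤ v 0} := by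
  intro v hv
  have := hv.1
  show 0 ≤ v 0
  linarith

private lemma dom_open (φ : OpenPartialHomeomorph M (V n)) (m : ℕ) :
    IsOpen (φ.source ∩ φ ⁻¹' (Om n m)) :=
  φ.continuousOn.isOpen_inter_preimage φ.open_source (Om_open m)

private lemma dom_source (φ : OpenPartialHomeomorph M (V n)) (m : ℕ) :
    (φ.restr (φ.source ∩ φ ⁻¹' (Om n m))).source = φ.source ∩ φ ⁻¹' (Om n m) := by
  rw [φ.restr_source' _ (dom_open φ m), ← inter_assoc, inter_self]

private lemma sd_lf (φ : OpenPartialHomeomorph M (V n))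
    (hcl : IsClosed (φ.symm '' {v : V n | 0 ≤ v 0})) (hA : {v : V n | 0 ≤ v 0} ⊆ φ.target) :
    LocallyFinite fun m : ℕ => (φ.restr (φ.source ∩ φ ⁻¹' (Om n m))).source := by
  intro y
  by_cases hy : y ∈ φ.symm '' {v : V n | 0 ≤ v 0}
  · have hys : y ∈ φ.source := by
      obtain ⟨v, hv, rfl⟩ := hy
      exact φ.map_target (hA hv)
    refine ⟨φ.source ∩ φ ⁻¹' (Metric.ball 0 (‖φ y‖ + 1)),
      (φ.continuousOn.isOpen_inter_preimage φ.open_source Metric.isOpen_ball).mem_nhds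
        ⟨hys, by simp⟩, ?_⟩
    refine (Set.finite_lt_nat ⌈‖φ y‖ + 2⌉₊).subset ?_
    rintro m ⟨z, hz1, hz2⟩
    simp only [dom_source] at hz1
    have h1 : (m : ℝ) - 1 < ‖φ z‖ := hz1.2.2.1
    have h2 : ‖φ z‖ < ‖φ y‖ + 1 := by
      have := hz2.2
      rwa [mem_preimage, mem_ball_zero_iff] at this
    show m < _
    rw [Nat.lt_ceil]
    linarith
  · refine ⟨(φ.symm '' {v : V n | 0 ≤ v 0})ᶜ, hcl.isOpen_compl.mem_nhds hy, ?_⟩
    convert Set.finite_empty (α := ℕ)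
    rw [Set.eq_empty_iff_forall_notMem]
    rintro m ⟨z, hz1, hz2⟩
    simp only [dom_source] at hz1
    exact hz2 ⟨φ z, Om_sub m hz1.2, φ.left_inv hz1.1⟩

/-- the neighbourhood data -/
private noncomputable def sd (φ : OpenPartialHomeomorph M (V n))
    (hφ : φ ∈ IsManifold.maximalAtlas (𝓡 n) ∞ M)
    (hA : {v : V n | 0 ≤ v 0} ⊆ φ.target) (hcl : IsClosed (φ.symm '' {v : V n | 0 ≤ v 0}))
    (e : ℕ → ℝ) (he : ∀ m, 0 < e m) : StrongData n M where
  ι := ℕ
  φ m := φ.restr (φ.source ∩ φ ⁻¹' (Om n m))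
  ψ _ := φ
  K m := φ.symm '' (Cm n m)
  ε := e
  φ_mem m := restr_mem_maximalAtlas (contDiffGroupoid ∞ (𝓡 n)) hφ (dom_open φ m)
  ψ_mem _ := hφ
  lf := sd_lf φ hcl hA
  compact m := (Cm_compact m).image_of_continuousOn
    (φ.continuousOn_symm.mono (((Cm_sub_Om m).trans (Om_sub m)).trans hA))
  sub m := by
    rw [dom_source]
    rintro _ ⟨v, hv, rfl⟩
    have hvt : v ∈ φ.target := hA (Om_sub m (Cm_sub_Om m hv))
    refine ⟨φ.map_target hvt, ?_⟩
    rw [mem_preimage, φ.right_inv hvt]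
    exact Cm_sub_Om m hv
  pos := he

private lemma exists_eps (ε : V n → ℝ) (hε : Continuous ε) (hpos : ∀ v, 0 < ε v) (m : ℕ) :
    ∃ e : ℝ, 0 < e ∧ ∀ v ∈ Cm n m, e ≤ ε v := by
  obtain ⟨v₀, -, hv₀⟩ := (isCompact_closedBall (0 : V n) ((m : ℝ) + 1)).exists_isMinOn
    ⟨0, by simp; positivity⟩ hε.continuousOn
  refine ⟨ε v₀, hpos v₀, ?_⟩
  intro v hv
  exact hv₀ (by rw [mem_closedBall_zero_iff]; exact hv.2.2)

private lemma homeo_pow_apply {X : Type*} [TopologicalSpace X] (f : X ≃ₜ X) (k : ℕ) (x : X) :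
    (f ^ k) x = (f : X → X)^[k] x := by
  induction k generalizing x with
  | zero => simp
  | succ k ih => rw [pow_succ, Homeomorph.mul_apply, ih, Function.iterate_succ_apply]

private lemma F_target {φ : OpenPartialHomeomorph M (V n)} (hA : {v : V n | 0 ≤ v 0} ⊆ φ.target)
    (F : V n ≃ₜ V n) (hid : ∀ v : V n, v 0 ≤ 1 → F v = v) {v : V n} (hv : v ∈ φ.target) :
    F v ∈ φ.target := by
  by_cases h : F v 0 ≤ 1
  · have h1 := hid (F v) h
    rw [F.injective h1]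
    exact hv
  · exact hA (show 0 ≤ F v 0 by push Not at h; linarith)

/-! K4 -/
theorem not_closing_of_halfSpace (hH : HalfSpaceChart n M) (hN : NonClosing n) :
    ∃ (f : DiffM n M ⊤) (x : M), IsRec f.toHomeomorph x ∧ (∀ W ∈ 𝓝 x, ∃ k : ℕ, 1 ≤ k ∧ f^[k] x ∈ W) ∧
      ∃ N ∈ 𝓝 x, ∀ r : ℕ∞, 2 ≤ r → ∀ f' : DiffM n M r, (∀ y, f' y = f y) →
        ∃ U : Set (DiffM n M r), IsOpen[strongTop n M r] U ∧ f' ∈ U ∧
          ∀ g ∈ U, ∀ y ∈ N, ¬ IsPer g y := by
  obtain ⟨φ, hφ, hA, hcl⟩ := hH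
  obtain ⟨F, a, N, ε, hN, hF, hF', hid, ha, hrec, hεc, hεp, hG⟩ := hN
  have hid' : ∀ v ∉ {v : V n | 0 ≤ v 0}, F v = v := by
    intro v hv
    apply hid
    have : ¬ (0 ≤ v 0) := hv
    linarith [not_le.1 this]
  obtain ⟨f, hf1, hf2⟩ := transplant hφ hA hcl F hF hF' hid'
  have haA : a ∈ {v : V n | 0 ≤ v 0} := by show 0 ≤ a 0; linarith
  have hat : a ∈ φ.target := hA haA
  have hxs : φ.symm a ∈ φ.source := φ.map_target hat
  have hft : ∀ v ∈ φ.target, f (φ.symm v) = φ.symm (F v) := by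
    intro v hv
    rw [hf1 _ (φ.map_target hv), φ.right_inv hv]
  have hiter : ∀ k : ℕ, F^[k] a ∈ φ.target ∧ (f : M → M)^[k] (φ.symm a) = φ.symm (F^[k] a) := by
    intro k
    induction k with
    | zero => exact ⟨hat, rfl⟩
    | succ k ih =>
      rw [Function.iterate_succ_apply', Function.iterate_succ_apply', ih.2, hft _ ih.1]
      exact ⟨F_target hA F hid ih.1, rfl⟩
  have hrec2 : ∀ W ∈ 𝓝 (φ.symm a), ∃ k : ℕ, 1 ≤ k ∧ (f : M → M)^[k] (φ.symm a) ∈ W := by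
    intro W hW
    have hc : ContinuousAt φ.symm a := φ.continuousAt_symm hat
    have h1 : ∀ᶠ v in 𝓝 a, φ.symm v ∈ W := hc.eventually hW
    obtain ⟨δ, hδ, h2⟩ := Metric.eventually_nhds_iff.1 h1
    obtain ⟨k, hk1, hk2⟩ := hrec δ hδ
    refine ⟨k, hk1, ?_⟩
    rw [(hiter k).2]
    exact h2 (by rw [dist_eq_norm]; exact hk2)
  have hNx : φ.symm '' (N ∩ {v | 0 < v 0}) ∈ 𝓝 (φ.symm a) := by
    have h1 : φ.source ∩ φ ⁻¹' (N ∩ {v | 0 < v 0}) ∈ 𝓝 (φ.symm a) := by
      apply Filter.inter_mem (φ.open_source.mem_nhds hxs)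
      apply (φ.continuousAt hxs).preimage_mem_nhds
      rw [φ.right_inv hat]
      exact Filter.inter_mem hN ((isOpen_lt continuous_const coord_cont).mem_nhds
        (show 0 < a 0 by linarith))
    refine Filter.mem_of_superset h1 ?_
    rintro y ⟨hy1, hy2⟩
    exact ⟨φ y, hy2, φ.left_inv hy1⟩
  refine ⟨f, φ.symm a, ?_, hrec2, φ.symm '' (N ∩ {v | 0 < v 0}), hNx, ?_⟩
  · -- recurrence
    intro hemb
    obtain ⟨W, hW, hW'⟩ := hemb.isInducing.isOpen_iff.mp (isOpen_discrete ({0} : Set ℤ))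
    have h0 : φ.symm a ∈ W := by
      have : (0 : ℤ) ∈ (fun m : ℤ => (f.toHomeomorph ^ m) (φ.symm a)) ⁻¹' W := by rw [hW']; rfl
      simpa using this
    have hc : ContinuousAt φ.symm a := φ.continuousAt_symm hat
    have h1 : ∀ᶠ v in 𝓝 a, φ.symm v ∈ W := hc.eventually (hW.mem_nhds h0)
    obtain ⟨δ, hδ, h2⟩ := Metric.eventually_nhds_iff.1 h1
    obtain ⟨k, hk1, hk2⟩ := hrec δ hδ
    have h3 : φ.symm (F^[k] a) ∈ W := h2 (by rw [dist_eq_norm]; exact hk2)
    have h4 : (k : ℤ) ∈ (fun m : ℤ => (f.toHomeomorph ^ m) (φ.symm a)) ⁻¹' W := by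
      show (f.toHomeomorph ^ (k : ℤ)) (φ.symm a) ∈ W
      rw [zpow_natCast, homeo_pow_apply]
      have h5 : ((f.toHomeomorph : M ≃ₜ M) : M → M) = f := rfl
      rw [h5, (hiter k).2]
      exact h3
    rw [hW'] at h4
    have : (k : ℤ) = 0 := h4
    omega
  · intro r hr f' hf'
    choose e he1 he2 using exists_eps ε hεc hεp
    have h2r : (2 : WithTop ℕ∞) ≤ ((r : ℕ∞) : WithTop ℕ∞) := WithTop.coe_le_coe.mpr hr
    have h2i : (2 : WithTop ℕ∞) ≤ ∞ := WithTop.coe_le_coe.mpr le_top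
    have hF't : ∀ v ∈ φ.target, f' (φ.symm v) ∈ φ.source := by
      intro v hv
      rw [hf', hft v hv]
      exact φ.map_target (F_target hA F hid hv)
    have hCt : ∀ m, Cm n m ⊆ φ.target := fun m => ((Cm_sub_Om m).trans (Om_sub m)).trans hA
    refine ⟨strongNbhd (sd φ hφ hA hcl e he1) 2 f', ?_, ?_, ?_⟩
    · refine TopologicalSpace.GenerateOpen.basic _ ⟨sd φ hφ hA hcl e he1, 2, f', ?_, ?_, rfl⟩
      · exact_mod_cast hr
      · rintro m _ ⟨v, hv, rfl⟩
        exact hF't v (hCt m hv)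
    · rintro m _ ⟨v, hv, rfl⟩
      refine ⟨hF't v (hCt m hv), ?_⟩
      intro i _
      rw [sub_self, norm_zero]
      exact he1 m
    · rintro g hg _ ⟨b, ⟨hbN, hb0⟩, rfl⟩ hper
      have hbt : b ∈ φ.target := hA (show 0 ≤ b 0 from le_of_lt hb0)
      have hbs : φ.symm b ∈ φ.source := φ.map_target hbt
      obtain ⟨k, hk, hkx⟩ := hper
      -- every point of the half space is in a piece
      have hpiece : ∀ v : V n, 1 / 2 ≤ v 0 → v ∈ Cm n ⌊‖v‖⌋₊ := by
        intro v hv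
        exact ⟨hv, Nat.floor_le (norm_nonneg v), (Nat.lt_floor_add_one ‖v‖).le⟩
      have hgs : ∀ v : V n, 1 / 2 ≤ v 0 → g (φ.symm v) ∈ φ.source := by
        intro v hv
        exact (hg ⌊‖v‖⌋₊ (φ.symm v) ⟨v, hpiece v hv, rfl⟩).1
      refine hG (φ ∘ g ∘ φ.symm) ?_ ?_ (φ '' ((range fun m : ℕ => (g : M → M)^[m] (φ.symm b)) ∩ φ.source))
        ?_ ?_ ?_
      · -- C^2
        intro v hv
        have hv' : 1 / 2 < v 0 := hv
        have hvt : v ∈ φ.target := hA (show 0 ≤ v 0 by linarith)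
        have h1 : ContMDiffAt (𝓡 n) (𝓡 n) 2 φ.symm v :=
          ((contMDiffOn_symm_of_mem_maximalAtlas hφ v hvt).contMDiffAt
            (φ.open_target.mem_nhds hvt)).of_le h2i
        have h2 : ContMDiffAt (𝓡 n) (𝓡 n) 2 g (φ.symm v) :=
          (g.contMDiff (φ.symm v)).of_le h2r
        have h3 : ContMDiffAt (𝓡 n) (𝓡 n) 2 φ (g (φ.symm v)) :=
          ((contMDiffOn_of_mem_maximalAtlas hφ _ (hgs v hv'.le)).contMDiffAt
            (φ.open_source.mem_nhds (hgs v hv'.le))).of_le h2i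
        have h4 : ContMDiffAt (𝓡 n) (𝓡 n) 2 (φ ∘ g ∘ φ.symm) v :=
          ContMDiffAt.comp v (g := φ) (f := g ∘ φ.symm) h3 (ContMDiffAt.comp v h2 h1)
        exact (contMDiffAt_iff_contDiffAt.1 h4).contDiffWithinAt
      · intro v hv i hi
        have hvt : v ∈ φ.target := hA (show 0 ≤ v 0 by linarith)
        have h1 := (hg ⌊‖v‖⌋₊ (φ.symm v) ⟨v, hpiece v hv.le, rfl⟩).2 i hi
        have h2 : e ⌊‖v‖⌋₊ ≤ ε v := he2 _ v (hpiece v hv.le)
        have h3 : iteratedFDeriv ℝ i (φ ∘ f' ∘ φ.symm) v = iteratedFDeriv ℝ i (F : V n → V n) v := by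
          apply Filter.EventuallyEq.eq_of_nhds
          apply Filter.EventuallyEq.iteratedFDeriv
          filter_upwards [φ.open_target.mem_nhds hvt] with w hw
          simp only [Function.comp_apply]
          rw [hf', hft w hw, φ.right_inv (F_target hA F hid hw)]
        have h4 : ‖iteratedFDeriv ℝ i (φ ∘ g ∘ φ.symm) (φ (φ.symm v))
            - iteratedFDeriv ℝ i (φ ∘ f' ∘ φ.symm) (φ (φ.symm v))‖ < e ⌊‖v‖⌋₊ := h1
        rw [φ.right_inv hvt, h3] at h4
        exact h4.trans_le h2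
      · apply Set.Finite.image
        apply Set.Finite.inter_of_left
        have hper : Function.IsPeriodicPt g k (φ.symm b) := hkx
        refine ((Set.finite_lt_nat k).image (fun m : ℕ => (g : M → M)^[m] (φ.symm b))).subset ?_
        rintro _ ⟨m, rfl⟩
        exact ⟨m % k, Nat.mod_lt _ (by omega), hper.iterate_mod_apply m⟩
      · exact ⟨b, ⟨φ.symm b, ⟨⟨0, rfl⟩, hbs⟩, φ.right_inv hbt⟩, hbN⟩
      · rintro v ⟨y, ⟨⟨m, rfl⟩, hy⟩, rfl⟩ hv
        simp only at hy hv ⊢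
        have h1 := hgs (φ ((g : M → M)^[m] (φ.symm b))) (by linarith)
        rw [φ.left_inv hy] at h1
        refine ⟨g ((g : M → M)^[m] (φ.symm b)), ⟨⟨m + 1, ?_⟩, h1⟩, ?_⟩
        · simp only [Function.iterate_succ_apply']
        · simp only [Function.comp_apply, φ.left_inv hy]

end K4

end Pool.Agent.H718R2.G
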