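import Pool.Agent.H718R2.G0

open scoped Manifold ContDiff Topology
open Set

namespace Pool.Agent.H718R2.G

namespace K5b

/-- König's lemma for connected locally finite infinite graphs: there is a geodesic ray. -/
theorem exists_ray_graph {α : Type*} [Infinite α] (G : SimpleGraph α) (hG : G.Connected)
    (hlf : ∀ i, {j | G.Adj i j}.Finite) (i0 : α) :
    ∃ f : ℕ → α, (∀ k, G.dist i0 (f k) = k) ∧ ∀ k, G.Adj (f k) (f (k + 1)) := by
  -- the descendants of `v`
  let D : α → Set α := fun v => {w | G.dist i0 w = G.dist i0 v + G.dist v w}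
  have hD0 : (D i0).Infinite := by
    have : D i0 = univ := by
      ext w
      simp [D]
    rw [this]
    exact infinite_univ
  have hstep : ∀ v, (D v).Infinite →
      ∃ u, (D u).Infinite ∧ G.Adj v u ∧ G.dist i0 u = G.dist i0 v + 1 := by
    intro v hv
    by_contra hcon
    push Not at hcon
    apply hv
    have hsub : D v ⊆ {v} ∪ ⋃ u ∈ {u | G.Adj v u ∧ G.dist i0 u = G.dist i0 v + 1}, D u := by
      intro w hw
      have hw' : G.dist i0 w = G.dist i0 v + G.dist v w := hw
      by_cases hvw : w = v
      · exact Or.inl hvw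
      · right
        obtain ⟨p, hp⟩ := hG.exists_walk_length_eq_dist v w
        cases p with
        | nil => exact absurd rfl hvw
        | @cons _ u _ h p' =>
          rw [SimpleGraph.Walk.length_cons] at hp
          have h1 : G.dist u w ≤ p'.length := SimpleGraph.dist_le p'
          have h2 : G.dist i0 w ≤ G.dist i0 u + G.dist u w := hG.dist_triangle
          have h3 : G.dist i0 u ≤ G.dist i0 v + G.dist v u := hG.dist_triangle
          have h4 : G.dist v u = 1 := SimpleGraph.dist_eq_one_iff_adj.mpr h
          have h5 : G.dist v w ≤ G.dist v u + G.dist u w := hG.dist_triangle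
          refine mem_biUnion (show u ∈ {u | G.Adj v u ∧ G.dist i0 u = G.dist i0 v + 1} from
            ⟨h, by omega⟩) ?_
          change G.dist i0 w = G.dist i0 u + G.dist u w
          omega
    refine Set.Finite.subset (Set.Finite.union (finite_singleton v) ?_) hsub
    refine Set.Finite.biUnion ((hlf v).subset fun u hu => hu.1) fun u hu => ?_
    by_contra hinf
    exact hcon u hinf hu.1 hu.2
  choose! nx h1 h2 h3 using hstep
  have hinf : ∀ k, (D (nx^[k] i0)).Infinite := by
    intro k
    induction k with
    | zero => exact hD0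
    | succ k ih =>
      rw [Function.iterate_succ_apply']
      exact h1 _ ih
  refine ⟨fun k => nx^[k] i0, fun k => ?_, fun k => ?_⟩
  · induction k with
    | zero => simp
    | succ k ih =>
      change G.dist i0 (nx^[k+1] i0) = k + 1
      rw [Function.iterate_succ_apply', h3 _ (hinf k)]
      rw [ih]
  · change G.Adj (nx^[k] i0) (nx^[k+1] i0)
    rw [Function.iterate_succ_apply']
    exact h2 _ (hinf k)

end K5b

/-! K5b -/
theorem exists_ray {X : Type*} [TopologicalSpace X] [T2Space X] [LocallyCompactSpace X]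
    [LocallyConnectedSpace X] [SigmaCompactSpace X] [ConnectedSpace X] [NoncompactSpace X] :
    ∃ B : ℕ → Set X, (∀ k, IsOpen (B k)) ∧ (∀ k, IsPreconnected (B k)) ∧ LocallyFinite B ∧
      ∀ k, (B k ∩ B (k + 1)).Nonempty := by
  -- a basis of open connected sets with compact closure
  have hbasis : ∀ x : X, (𝓝 x).HasBasis
      (fun s : Set X => (IsOpen s ∧ x ∈ s ∧ IsConnected s) ∧ IsCompact (closure s)) id := by
    intro x
    have h0 := LocallyConnectedSpace.open_connected_basis x
    refine h0.restrict fun s hs => ?_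
    have hsx : s ∈ 𝓝 x := hs.1.mem_nhds hs.2.1
    obtain ⟨K, hK, hxK⟩ := exists_compact_mem_nhds x
    obtain ⟨t, ht, hts⟩ := h0.mem_iff.mp (Filter.inter_mem hsx hxK)
    refine ⟨t, ht, ?_, fun y hy => (hts hy).1⟩
    exact hK.of_isClosed_subset isClosed_closure
      (closure_minimal (fun y hy => (hts hy).2) hK.isClosed)
  obtain ⟨α, c, r, hp, hU, hlf⟩ :=
    refinement_of_locallyCompact_sigmaCompact_of_nhds_basis hbasis
  simp only [id] at hU hlf
  have hne : ∀ a, (r a).Nonempty := fun a => ⟨c a, (hp a).1.2.1⟩
  -- the index set is infinite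
  have hinf : Infinite α := by
    by_contra hfin
    rw [not_infinite_iff_finite] at hfin
    have h1 : IsCompact (⋃ a, closure (r a)) := isCompact_iUnion fun a => (hp a).2
    have h2 : (⋃ a, closure (r a)) = univ := by
      rw [eq_univ_iff_forall]
      intro x
      have hx : x ∈ ⋃ a, r a := by rw [hU]; trivial
      obtain ⟨a, ha⟩ := mem_iUnion.mp hx
      exact mem_iUnion.mpr ⟨a, subset_closure ha⟩
    rw [h2] at h1
    exact noncompact_univ X h1
  -- the nerve
  let G : SimpleGraph α :=
    { Adj := fun i j => i ≠ j ∧ (r i ∩ r j).Nonempty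
      symm := ⟨fun i j h => ⟨h.1.symm, by rw [inter_comm]; exact h.2⟩⟩
      loopless := ⟨fun i h => h.1 rfl⟩ }
  have hGlf : ∀ i, {j | G.Adj i j}.Finite := by
    intro i
    refine (hlf.finite_nonempty_inter_compact (hp i).2).subset fun j hj => ?_
    obtain ⟨y, hy1, hy2⟩ := hj.2
    exact ⟨y, hy2, subset_closure hy1⟩
  obtain ⟨i0⟩ : Nonempty α := inferInstance
  have hreach : ∀ j, G.Reachable i0 j := by
    set U : Set X := ⋃ j ∈ {j | G.Reachable i0 j}, r j with hUdef
    have hUo : IsOpen U := isOpen_biUnion fun j _ => (hp j).1.1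
    have hUc : Uᶜ = ⋃ j ∈ {j | ¬ G.Reachable i0 j}, r j := by
      ext y
      constructor
      · intro hy
        have hy' : y ∈ ⋃ a, r a := by rw [hU]; trivial
        obtain ⟨a, ha⟩ := mem_iUnion.mp hy'
        refine mem_biUnion (x := a) ?_ ha
        intro hra
        exact hy (mem_biUnion (x := a) hra ha)
      · intro hy hyU
        obtain ⟨a, ha, hya⟩ := mem_iUnion₂.mp hy
        obtain ⟨b, hb, hyb⟩ := mem_iUnion₂.mp hyU
        by_cases hab : b = a
        · subst hab
          exact ha hb
        · have hadj : G.Adj b a := ⟨hab, y, hyb, hya⟩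
          exact ha (SimpleGraph.Reachable.trans hb hadj.reachable)
    have hUcl : IsClosed U := by
      rw [← isOpen_compl_iff, hUc]
      exact isOpen_biUnion fun j _ => (hp j).1.1
    have hUuniv : U = univ := by
      refine IsClopen.eq_univ ⟨hUcl, hUo⟩ ?_
      obtain ⟨y, hy⟩ := hne i0
      exact ⟨y, mem_biUnion (x := i0) (SimpleGraph.Reachable.refl i0) hy⟩
    intro j
    obtain ⟨y, hy⟩ := hne j
    have hyU : y ∈ U := by rw [hUuniv]; trivial
    obtain ⟨b, hb, hyb⟩ := mem_iUnion₂.mp hyU
    by_cases hbj : b = j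
    · subst hbj
      exact hb
    · have hadj : G.Adj b j := ⟨hbj, y, hyb, hy⟩
      exact SimpleGraph.Reachable.trans hb hadj.reachable
  have hconn : G.Connected := by
    have : Nonempty α := ⟨i0⟩
    exact ⟨fun i j => (hreach i).symm.trans (hreach j)⟩
  obtain ⟨f, hf1, hf2⟩ := K5b.exists_ray_graph G hconn hGlf i0
  have hfinj : Function.Injective f := by
    intro a b hab
    rw [← hf1 a, ← hf1 b, hab]
  refine ⟨fun k => r (f k), fun k => (hp _).1.1, fun k => (hp _).1.2.2.isPreconnected,
    hlf.comp_injective hfinj, fun k => (hf2 k).2⟩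

end Pool.Agent.H718R2.G
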