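import Pool.Agent.H718R2.G0
import Pool.Agent.H718R2.K5b

/-! K5c: limit of pushes. -/

open scoped Manifold ContDiff Topology
open Set

namespace Pool.Agent.H718R2.G

namespace K5cAux

section push

variable {n : ℕ} {M : Type*} [TopologicalSpace M] [T2Space M] [ChartedSpace (V n) M]
  [IsManifold (𝓡 n) ∞ M]

/-- the compositions `h_{k-1} ∘ ... ∘ h_0` -/
noncomputable def Hn (h : ℕ → DiffM n M ⊤) : ℕ → DiffM n M ⊤
  | 0 => Diffeomorph.refl (𝓡 n) M _
  | k + 1 => (Hn h k).trans (h k)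

variable (h : ℕ → DiffM n M ⊤) (S : ℕ → Set M)

theorem Hn_succ (k : ℕ) (y : M) : Hn h (k + 1) y = h k (Hn h k y) := rfl

theorem Hn_symm_succ (k : ℕ) (y : M) : (Hn h (k + 1)).symm y = (Hn h k).symm ((h k).symm y) := rfl

/-- the tails of the supports -/
def T (J : ℕ) : Set M := ⋃ j : ℕ, ⋃ _ : J ≤ j, S j

theorem not_mem_T {S : ℕ → Set M} {J : ℕ} {y : M} : y ∉ T S J ↔ ∀ j, J ≤ j → y ∉ S j := by
  simp [T]

theorem T_anti {S : ℕ → Set M} {J K : ℕ} (h : J ≤ K) {y : M} (hy : y ∉ T S J) : y ∉ T S K := by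
  rw [not_mem_T] at *
  exact fun j hj => hy j (h.trans hj)

variable {h S}

theorem isClosed_T (hlf : LocallyFinite S) (hcl : ∀ j, IsClosed (S j)) (J : ℕ) :
    IsClosed (T S J) := by
  have h1 : LocallyFinite (fun j : ℕ => ⋃ _ : J ≤ j, S j) := by
    apply hlf.subset
    intro j
    exact iUnion_subset (fun _ => subset_rfl)
  apply h1.isClosed_iUnion
  intro j
  by_cases hj : J ≤ j
  · simpa [hj] using hcl j
  · simp [hj]

theorem Hn_eq (hid : ∀ k, ∀ y ∉ S k, h k y = y) {J : ℕ} {y : M} (hy : Hn h J y ∉ T S J) {K : ℕ}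
    (hK : J ≤ K) : Hn h K y = Hn h J y := by
  induction K, hK using Nat.le_induction with
  | base => rfl
  | succ K hK ih =>
    rw [Hn_succ, ih]
    exact hid K _ (not_mem_T.mp hy K hK)

theorem Hn_symm_eq (hid : ∀ k, ∀ y ∉ S k, h k y = y) {J : ℕ} {y : M} (hy : y ∉ T S J) {K : ℕ}
    (hK : J ≤ K) : (Hn h K).symm y = (Hn h J).symm y := by
  induction K, hK using Nat.le_induction with
  | base => rfl
  | succ K hK ih =>
    rw [Hn_symm_succ, ← ih]
    have h1 : h K y = y := hid K _ (not_mem_T.mp hy K hK)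
    have h2 : (h K).symm y = y := by
      conv_lhs => rw [← h1]
      exact (h K).symm_apply_apply y
    rw [h2]

/-- the domain at level `J` -/
def Om (h : ℕ → DiffM n M ⊤) (S : ℕ → Set M) (J : ℕ) : Set M := {y | Hn h J y ∉ T S J}

theorem Om_mono (hid : ∀ k, ∀ y ∉ S k, h k y = y) {J K : ℕ} (hK : J ≤ K) {y : M}
    (hy : y ∈ Om h S J) : y ∈ Om h S K := by
  have := Hn_eq hid hy hK
  simp only [Om, mem_ofPred_eq] at hy ⊢
  rw [this]
  exact T_anti hK hy

theorem isOpen_Om (hlf : LocallyFinite S) (hcl : ∀ j, IsClosed (S j)) (J : ℕ) :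
    IsOpen (Om h S J) :=
  (isClosed_T hlf hcl J).isOpen_compl.preimage (Hn h J).continuous

open scoped Classical in
/-- the limit -/
noncomputable def L (h : ℕ → DiffM n M ⊤) (S : ℕ → Set M) (y : M) : M :=
  if hy : ∃ J, y ∈ Om h S J then Hn h (Nat.find hy) y else y

theorem L_eq (hid : ∀ k, ∀ y ∉ S k, h k y = y) {J : ℕ} {y : M} (hy : y ∈ Om h S J) :
    L h S y = Hn h J y := by
  classical
  have he : ∃ J, y ∈ Om h S J := ⟨J, hy⟩
  rw [L, dif_pos he]
  have h1 := Nat.find_spec he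
  rcases le_total (Nat.find he) J with h2 | h2
  · exact (Hn_eq hid h1 h2).symm
  · exact Hn_eq hid hy h2

open scoped Classical in
/-- the inverse of the limit -/
noncomputable def Gi (h : ℕ → DiffM n M ⊤) (S : ℕ → Set M) (y : M) : M :=
  if hy : ∃ J, y ∉ T S J then (Hn h (Nat.find hy)).symm y else y

theorem Gi_eq (hid : ∀ k, ∀ y ∉ S k, h k y = y) {J : ℕ} {y : M} (hy : y ∉ T S J) :
    Gi h S y = (Hn h J).symm y := by
  classical
  have he : ∃ J, y ∉ T S J := ⟨J, hy⟩
  rw [Gi, dif_pos he]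
  have h1 := Nat.find_spec he
  rcases le_total (Nat.find he) J with h2 | h2
  · exact (Hn_symm_eq hid h1 h2).symm
  · exact Hn_symm_eq hid hy h2

theorem exists_not_mem_T (hlf : LocallyFinite S) (y : M) : ∃ J, y ∉ T S J := by
  have hf := hlf.point_finite y
  obtain ⟨J, hJ⟩ := hf.bddAbove
  refine ⟨J + 1, ?_⟩
  rw [not_mem_T]
  intro j hj hy
  have := hJ (show j ∈ {b | y ∈ S b} from hy)
  omega

theorem symm_mem_Om {J : ℕ} {y : M} (hy : y ∉ T S J) : (Hn h J).symm y ∈ Om h S J := by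
  simp only [Om, mem_ofPred_eq]
  rw [Diffeomorph.apply_symm_apply]
  exact hy

theorem main' (hlf : LocallyFinite S) (hcl : ∀ j, IsClosed (S j))
    (hid : ∀ k, ∀ y ∉ S k, h k y = y) :
    ∃ H : OpenPartialHomeomorph M M, H.target = univ ∧ H.source = (⋃ J, Om h S J) ∧
      ContMDiffOn (𝓡 n) (𝓡 n) ∞ H H.source ∧ ContMDiff (𝓡 n) (𝓡 n) ∞ H.symm ∧
      ∀ J, ∀ y ∈ Om h S J, H y = Hn h J y := by
  have hL : ContMDiffOn (𝓡 n) (𝓡 n) ∞ (L h S) (⋃ J, Om h S J) := by
    intro y hy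
    rw [mem_iUnion] at hy
    obtain ⟨J, hJ⟩ := hy
    apply ContMDiffAt.contMDiffWithinAt
    have h1 : ContMDiffAt (𝓡 n) (𝓡 n) ∞ (Hn h J) y := (Hn h J).contMDiff.contMDiffAt
    refine h1.congr_of_eventuallyEq ?_
    filter_upwards [(isOpen_Om hlf hcl J).mem_nhds hJ] with y' hy'
    exact L_eq hid hy'
  have hG : ContMDiff (𝓡 n) (𝓡 n) ∞ (Gi h S) := by
    intro y
    obtain ⟨J, hJ⟩ := exists_not_mem_T hlf y
    have h1 : ContMDiffAt (𝓡 n) (𝓡 n) ∞ (Hn h J).symm y := (Hn h J).symm.contMDiff.contMDiffAt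
    refine h1.congr_of_eventuallyEq ?_
    filter_upwards [(isClosed_T hlf hcl J).isOpen_compl.mem_nhds hJ] with y' hy'
    exact Gi_eq hid hy'
  refine ⟨{ toFun := L h S
            invFun := Gi h S
            source := ⋃ J, Om h S J
            target := univ
            map_source' := fun _ _ => mem_univ _
            map_target' := ?_
            left_inv' := ?_
            right_inv' := ?_
            open_source := isOpen_iUnion (isOpen_Om hlf hcl)
            open_target := isOpen_univ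
            continuousOn_toFun := hL.continuousOn
            continuousOn_invFun := hG.continuous.continuousOn }, rfl, rfl, hL, hG,
            fun J y hy => L_eq hid hy⟩
  · intro y _
    obtain ⟨J, hJ⟩ := exists_not_mem_T hlf y
    rw [Gi_eq hid hJ]
    exact mem_iUnion.mpr ⟨J, symm_mem_Om hJ⟩
  · intro y hy
    rw [mem_iUnion] at hy
    obtain ⟨J, hJ⟩ := hy
    rw [L_eq hid hJ, Gi_eq hid (J := J) hJ, Diffeomorph.symm_apply_apply]
  · intro y _
    obtain ⟨J, hJ⟩ := exists_not_mem_T hlf y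
    rw [Gi_eq hid hJ, L_eq hid (symm_mem_Om hJ), Diffeomorph.apply_symm_apply]

theorem main (hlf : LocallyFinite S) (hcl : ∀ j, IsClosed (S j))
    (hid : ∀ k, ∀ y ∉ S k, h k y = y) :
    ∃ H : OpenPartialHomeomorph M M, H.target = univ ∧ H.source = (⋃ J, Om h S J) ∧
      ContMDiffOn (𝓡 n) (𝓡 n) ∞ H H.source ∧ ContMDiff (𝓡 n) (𝓡 n) ∞ H.symm := by
  obtain ⟨H, h1, h2, h3, h4, _⟩ := main' (h := h) (S := S) hlf hcl hid
  exact ⟨H, h1, h2, h3, h4⟩

end push

end K5cAux

open K5cAux in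
/-- K5c, from the isotopy lemma K5a: a connected noncompact manifold is diffeomorphic to a proper
open subset of itself. -/
theorem exists_push_of {n : ℕ} {M : Type*} [TopologicalSpace M] [T2Space M]
    [SecondCountableTopology M] [ConnectedSpace M] [NoncompactSpace M] [ChartedSpace (V n) M]
    [IsManifold (𝓡 n) ∞ M]
    (exists_move : ∀ {U : Set M}, IsOpen U → IsPreconnected U → ∀ {p q : M}, p ∈ U → q ∈ U →
      ∃ (h : DiffM n M ⊤) (S : Set M), IsCompact S ∧ S ⊆ U ∧ h p = q ∧ ∀ y ∉ S, h y = y) :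
    ∃ H : OpenPartialHomeomorph M M, H.target = univ ∧ H.source ≠ univ ∧
      ContMDiffOn (𝓡 n) (𝓡 n) ∞ H H.source ∧ ContMDiff (𝓡 n) (𝓡 n) ∞ H.symm := by
  have : LocallyCompactSpace M := ChartedSpace.locallyCompactSpace (V n) M
  have : LocallyConnectedSpace M := ChartedSpace.locallyConnectedSpace (V n) M
  obtain ⟨B, hB1, hB2, hB3, hB4⟩ := exists_ray (X := M)
  choose z hz using hB4
  have hex := fun k : ℕ => exists_move (hB1 (k + 1)) (hB2 (k + 1)) (hz k).2 (hz (k + 1)).1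
  choose h S hS1 hS2 hS3 hS4 using hex
  have hlf : LocallyFinite S := by
    have h1 : LocallyFinite (fun k => B (k + 1)) :=
      hB3.comp_injective (add_left_injective 1)
    exact h1.subset hS2
  have hcl : ∀ j, IsClosed (S j) := fun j => (hS1 j).isClosed
  obtain ⟨H, e1, e2, e3, e4⟩ := K5cAux.main (h := h) (S := S) hlf hcl hS4
  refine ⟨H, e1, ?_, e3, e4⟩
  intro hu
  have h0 : z 0 ∈ H.source := by rw [hu]; exact mem_univ _
  rw [e2, mem_iUnion] at h0
  obtain ⟨J, hJ⟩ := h0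
  have hz' : ∀ k, Hn h k (z 0) = z k := by
    intro k
    induction k with
    | zero => rfl
    | succ k ih => rw [Hn_succ, ih, hS3]
  have hconst : ∀ j, J ≤ j → z j = z J := by
    intro j hj
    rw [← hz' j, ← hz' J]
    exact Hn_eq hS4 hJ hj
  have hf := hB3.point_finite (z J)
  obtain ⟨K, hK⟩ := hf.bddAbove
  have hmem : max J (K + 1) ∈ {b | z J ∈ B b} := by
    have h1 := (hz (max J (K + 1))).1
    rw [hconst _ (le_max_left _ _)] at h1
    exact h1
  have := hK hmem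
  have h2 := le_max_right J (K + 1)
  omega

end Pool.Agent.H718R2.G
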