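import Pool.Agent.H718R2.K5a
import Pool.Agent.H718R2.K5cOf

open scoped Manifold ContDiff Topology
open Set

namespace Pool.Agent.H718R2.G

/-- K5c: a connected noncompact manifold is diffeomorphic to a proper open subset of itself. -/
theorem exists_push {n : ℕ} {M : Type*} [TopologicalSpace M] [T2Space M] [SecondCountableTopology M]
    [ConnectedSpace M] [NoncompactSpace M] [ChartedSpace (V n) M] [IsManifold (𝓡 n) ∞ M] :
    ∃ H : OpenPartialHomeomorph M M, H.target = univ ∧ H.source ≠ univ ∧
      ContMDiffOn (𝓡 n) (𝓡 n) ∞ H H.source ∧ ContMDiff (𝓡 n) (𝓡 n) ∞ H.symm :=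
  exists_push_of (fun hU hc _ _ hp hq => exists_move hU hc hp hq)

end Pool.Agent.H718R2.G
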