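import Pool.Agent.H718R2.G0

open scoped Manifold ContDiff Topology
open Set

namespace Pool.Agent.H718R2.G

namespace K5d

section inv
variable {n : ℕ}

/-- inversion in the unit sphere -/
noncomputable def iv (w : V n) : V n := (‖w‖ ^ 2)⁻¹ • w

lemma iv_ne_zero {w : V n} (hw : w ≠ 0) : iv w ≠ 0 := by
  unfold iv
  have : ‖w‖ ≠ 0 := norm_ne_zero_iff.mpr hw
  exact smul_ne_zero (inv_ne_zero (pow_ne_zero _ this)) hw

lemma iv_iv (w : V n) : iv (iv w) = w := by
  rcases eq_or_ne w 0 with rfl | hw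
  · simp [iv]
  have h : ‖w‖ ≠ 0 := norm_ne_zero_iff.mpr hw
  unfold iv
  rw [norm_smul, smul_smul, norm_inv, norm_pow, norm_norm]
  have : ((((‖w‖ ^ 2)⁻¹ * ‖w‖) ^ 2)⁻¹ * (‖w‖ ^ 2)⁻¹) = 1 := by field_simp
  rw [this, one_smul]

lemma contDiffOn_iv : ContDiffOn ℝ ∞ (iv : V n → V n) {0}ᶜ := by
  unfold iv
  apply ContDiffOn.fun_smul
  · apply ContDiffOn.inv
    · exact (contDiff_norm_sq ℝ).contDiffOn
    · intro x hx
      exact pow_ne_zero _ (norm_ne_zero_iff.mpr hx)
  · exact contDiffOn_id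

/-- inversion at `z`, followed by an isometry and a translation -/
noncomputable def J (z w0 : V n) (A : V n ≃ₗᵢ[ℝ] V n) : OpenPartialHomeomorph (V n) (V n) where
  toFun x := A (iv (x - z)) - w0
  invFun v := z + iv (A.symm (v + w0))
  source := {z}ᶜ
  target := {-w0}ᶜ
  map_source' := by
    intro x hx h
    have h1 : A (iv (x - z)) = 0 := by
      have h2 : A (iv (x - z)) - w0 = -w0 := h
      rwa [sub_eq_neg_self] at h2
    rw [map_eq_zero_iff _ A.injective] at h1
    exact iv_ne_zero (sub_ne_zero.mpr hx) h1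
  map_target' := by
    intro v hv h
    have h1 : z + iv (A.symm (v + w0)) = z := h
    rw [add_eq_left] at h1
    refine iv_ne_zero ?_ h1
    intro h2
    rw [map_eq_zero_iff _ A.symm.injective] at h2
    exact hv (eq_neg_of_add_eq_zero_left h2)
  left_inv' := by
    intro x _
    simp only [sub_add_cancel, LinearIsometryEquiv.symm_apply_apply, iv_iv, add_sub_cancel]
  right_inv' := by
    intro v _
    simp only [add_sub_cancel_left, iv_iv, LinearIsometryEquiv.apply_symm_apply, add_sub_cancel_right]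
  open_source := isOpen_compl_singleton
  open_target := isOpen_compl_singleton
  continuousOn_toFun := by
    apply ContinuousOn.sub _ continuousOn_const
    apply A.continuous.comp_continuousOn
    apply (contDiffOn_iv (n := n)).continuousOn.comp (continuousOn_id.sub continuousOn_const)
    intro x hx
    exact sub_ne_zero.mpr hx
  continuousOn_invFun := by
    apply ContinuousOn.add continuousOn_const
    apply (contDiffOn_iv (n := n)).continuousOn.comp
      (A.symm.continuous.comp_continuousOn (continuousOn_id.add continuousOn_const))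
    intro v hv h2
    have h3 : A.symm (v + w0) = 0 := h2
    rw [map_eq_zero_iff _ A.symm.injective] at h3
    exact hv (eq_neg_of_add_eq_zero_left h3)

lemma contDiffOn_J (z w0 : V n) (A : V n ≃ₗᵢ[ℝ] V n) : ContDiffOn ℝ ∞ (J z w0 A) (J z w0 A).source := by
  change ContDiffOn ℝ ∞ (fun x => A (iv (x - z)) - w0) {z}ᶜ
  apply ContDiffOn.sub _ contDiffOn_const
  apply A.contDiff.comp_contDiffOn
  apply (contDiffOn_iv (n := n)).comp (contDiffOn_id.sub contDiffOn_const)
  intro x hx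
  exact sub_ne_zero.mpr hx

lemma contDiffOn_J_symm (z w0 : V n) (A : V n ≃ₗᵢ[ℝ] V n) :
    ContDiffOn ℝ ∞ (J z w0 A).symm (J z w0 A).target := by
  change ContDiffOn ℝ ∞ (fun v => z + iv (A.symm (v + w0))) {-w0}ᶜ
  apply ContDiffOn.add contDiffOn_const
  apply (contDiffOn_iv (n := n)).comp
    (A.symm.contDiff.comp_contDiffOn (contDiffOn_id.add contDiffOn_const))
  intro v hv h2
  have h3 : A.symm (v + w0) = 0 := h2
  rw [map_eq_zero_iff _ A.symm.injective] at h3
  exact hv (eq_neg_of_add_eq_zero_left h3)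

variable [NeZero n]

/-- the ball with `z` on its boundary and center `z + c` -/
def Ball (z c : V n) : Set (V n) := {x | ‖x - z‖ ^ 2 ≤ 2 * inner ℝ c (x - z)}

lemma exists_J (z c : V n) (hc : c ≠ 0) : ∃ j : OpenPartialHomeomorph (V n) (V n),
    ContDiffOn ℝ ∞ j j.source ∧ ContDiffOn ℝ ∞ j.symm j.target ∧ j.source = {z}ᶜ ∧
    (∀ v : V n, 0 ≤ v 0 → v ∈ j.target ∧ j.symm v ∈ Ball z c) ∧
    (∀ x ∈ Ball z c, x ≠ z → 0 ≤ (j x) 0) := by
  set e0 : V n := EuclideanSpace.single 0 (1 : ℝ) with he0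
  have hcn : 0 < ‖c‖ := norm_pos_iff.mpr hc
  have hn : ‖c‖ = ‖‖c‖ • e0‖ := by
    rw [norm_smul, norm_norm, he0, PiLp.norm_single]
    simp
  set A : V n ≃ₗᵢ[ℝ] V n := Submodule.reflection (ℝ ∙ (c - ‖c‖ • e0))ᗮ with hA
  have hAc : A c = ‖c‖ • e0 := Submodule.reflection_sub hn
  set w0 : V n := (1 / (2 * ‖c‖)) • e0 with hw0
  have hcoord : ∀ v : V n, v 0 = inner ℝ e0 v := by
    intro v
    rw [he0, EuclideanSpace.inner_single_left]
    simp
  have hw00 : w0 0 = 1 / (2 * ‖c‖) := by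
    rw [hw0, he0]
    simp
  -- the first coordinate of `A w`
  have hAw : ∀ w : V n, ‖c‖ * (A w) 0 = inner ℝ c w := by
    intro w
    rw [hcoord, ← real_inner_smul_left, ← hAc, A.inner_map_map]
  have hjx : ∀ x : V n, x ≠ z → ‖x - z‖ ^ 2 * (‖c‖ * ((J z w0 A) x) 0) =
      inner ℝ c (x - z) - ‖x - z‖ ^ 2 / 2 := by
    intro x hx
    have h1 : (J z w0 A) x = A (iv (x - z)) - w0 := rfl
    have hz : ‖x - z‖ ≠ 0 := norm_ne_zero_iff.mpr (sub_ne_zero.mpr hx)
    rw [h1]
    have h2 : (A (iv (x - z)) - w0) 0 = (A (iv (x - z))) 0 - w0 0 := rfl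
    rw [h2, mul_sub, hAw, hw00]
    have h3 : inner ℝ c (iv (x - z)) = (‖x - z‖ ^ 2)⁻¹ * inner ℝ c (x - z) := by
      unfold iv
      rw [real_inner_smul_right]
    rw [h3]
    field_simp
  refine ⟨J z w0 A, contDiffOn_J _ _ _, contDiffOn_J_symm _ _ _, rfl, ?_, ?_⟩
  · intro v hv
    have hvt : v ∈ (J z w0 A).target := by
      change v ∈ ({-w0}ᶜ : Set (V n))
      intro h
      have h1 : v = -w0 := h
      rw [h1] at hv
      have h2 : (-w0) 0 = -(w0 0) := rfl
      rw [h2, hw00] at hv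
      have : 0 < 1 / (2 * ‖c‖) := by positivity
      linarith
    refine ⟨hvt, ?_⟩
    set x := (J z w0 A).symm v with hx
    have hxs : x ∈ (J z w0 A).source := (J z w0 A).map_target hvt
    have hxz : x ≠ z := hxs
    have hJ : (J z w0 A) x = v := (J z w0 A).right_inv hvt
    have h := hjx x hxz
    rw [hJ] at h
    have h0 : 0 ≤ ‖x - z‖ ^ 2 * (‖c‖ * v 0) := by positivity
    change ‖x - z‖ ^ 2 ≤ 2 * inner ℝ c (x - z)
    linarith
  · intro x hx hxz
    have h := hjx x hxz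
    have hx' : ‖x - z‖ ^ 2 ≤ 2 * inner ℝ c (x - z) := hx
    have hz : 0 < ‖x - z‖ := norm_pos_iff.mpr (sub_ne_zero.mpr hxz)
    have h0 : 0 ≤ ‖x - z‖ ^ 2 * (‖c‖ * ((J z w0 A) x) 0) := by rw [h]; linarith
    have h1 : 0 ≤ ‖c‖ * ((J z w0 A) x) 0 := nonneg_of_mul_nonneg_right h0 (by positivity)
    exact nonneg_of_mul_nonneg_right h1 hcn

end inv

end K5d

open K5d

theorem halfSpaceChart_of_push' {n : ℕ} [NeZero n] {M : Type*} [TopologicalSpace M] [T2Space M]
    [ChartedSpace (V n) M] [IsManifold (𝓡 n) ∞ M]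
    (H : OpenPartialHomeomorph M M) (h1 : H.target = univ) (h2 : ¬ IsClosed H.source)
    (h3 : ContMDiffOn (𝓡 n) (𝓡 n) ∞ H H.source) (h4 : ContMDiff (𝓡 n) (𝓡 n) ∞ H.symm) :
    HalfSpaceChart n M := by
  -- a frontier point
  obtain ⟨ζ, hζc, hζn⟩ : ∃ ζ, ζ ∈ closure H.source ∧ ζ ∉ H.source := by
    by_contra hcon
    push Not at hcon
    exact h2 (isClosed_of_closure_subset hcon)
  set ψ : OpenPartialHomeomorph M (V n) := chartAt (V n) ζ with hψ
  have hζs : ζ ∈ ψ.source := mem_chart_source _ ζ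
  have hψmem : ψ ∈ IsManifold.maximalAtlas (𝓡 n) ∞ M := IsManifold.chart_mem_maximalAtlas ζ
  have hζt : ψ ζ ∈ ψ.target := ψ.map_source hζs
  obtain ⟨ε, hε, hball⟩ := Metric.nhds_basis_closedBall.mem_iff.mp (ψ.open_target.mem_nhds hζt)
  set W : Set (V n) := ψ.target ∩ ψ.symm ⁻¹' H.source with hW
  have hWo : IsOpen W := ψ.isOpen_inter_preimage_symm H.open_source
  -- a point of `Ω` near `ζ`
  obtain ⟨y, ⟨hys, hyb⟩, hyΩ⟩ := mem_closure_iff.mp hζc (ψ.source ∩ ψ ⁻¹' Metric.ball (ψ ζ) (ε / 3))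
    (ψ.isOpen_inter_preimage Metric.isOpen_ball) ⟨hζs, Metric.mem_ball_self (by positivity)⟩
  set a := ψ y with ha
  have haW : a ∈ W := ⟨ψ.map_source hys, by
    change ψ.symm (ψ y) ∈ H.source
    rwa [ψ.left_inv hys]⟩
  have had : dist a (ψ ζ) < ε / 3 := hyb
  have hCc : IsCompact (Metric.closedBall (ψ ζ) ε \ W) := (isCompact_closedBall _ _).diff hWo
  have hζC : ψ ζ ∈ Metric.closedBall (ψ ζ) ε \ W := by
    refine ⟨Metric.mem_closedBall_self hε.le, ?_⟩
    rintro ⟨-, h⟩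
    apply hζn
    have : ψ.symm (ψ ζ) ∈ H.source := h
    rwa [ψ.left_inv hζs] at this
  obtain ⟨z, hzC, hz⟩ := hCc.exists_infDist_eq_dist ⟨_, hζC⟩ a
  have hmin : ∀ x ∈ Metric.closedBall (ψ ζ) ε \ W, dist a z ≤ dist a x := by
    intro x hx
    rw [← hz]
    exact Metric.infDist_le_dist_of_mem hx
  have hzW : z ∉ W := hzC.2
  have hzt : z ∈ ψ.target := hball hzC.1
  have hzΩ : ψ.symm z ∉ H.source := fun h => hzW ⟨hzt, h⟩
  have haz : a - z ≠ 0 := by
    rw [sub_ne_zero]
    intro h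
    exact hzW (h ▸ haW)
  have hazd : dist a z < ε / 3 := (hmin _ hζC).trans_lt had
  set c : V n := (1 / 2 : ℝ) • (a - z) with hc
  have hc0 : c ≠ 0 := smul_ne_zero (by norm_num) haz
  have hkey : ∀ x ∈ Ball z c, x ≠ z → dist a x < dist a z := by
    intro x hx hxz
    have hx' : ‖x - z‖ ^ 2 ≤ 2 * inner ℝ c (x - z) := hx
    have hxz' : 0 < ‖x - z‖ := norm_pos_iff.mpr (sub_ne_zero.mpr hxz)
    have e1 : a - x = (a - z) - (x - z) := by abel
    have e2 : ‖a - x‖ ^ 2 = ‖a - z‖ ^ 2 - 2 * inner ℝ (a - z) (x - z) + ‖x - z‖ ^ 2 := by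
      rw [e1, norm_sub_sq_real]
    have e3 : inner ℝ c (x - z) = 1 / 2 * inner ℝ (a - z) (x - z) := by
      rw [hc, real_inner_smul_left]
    rw [e3] at hx'
    rw [dist_eq_norm, dist_eq_norm]
    have h5 : ‖a - x‖ ^ 2 < ‖a - z‖ ^ 2 := by nlinarith
    exact lt_of_pow_lt_pow_left₀ 2 (norm_nonneg _) h5
  have hsub1 : Ball z c ⊆ Metric.closedBall (ψ ζ) ε := by
    intro x hx
    rcases eq_or_ne x z with rfl | hxz
    · exact hzC.1
    have h5 := hkey x hx hxz
    rw [Metric.mem_closedBall]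
    have h6 := dist_triangle x a (ψ ζ)
    rw [dist_comm x a] at h6
    linarith
  have hsub2 : ∀ x ∈ Ball z c, x ≠ z → x ∈ W := by
    intro x hx hxz
    by_contra hxW
    have := hmin x ⟨hsub1 hx, hxW⟩
    have := hkey x hx hxz
    linarith
  have hBc : IsCompact (Ball z c) := by
    apply (isCompact_closedBall (ψ ζ) ε).of_isClosed_subset _ hsub1
    apply isClosed_le
    · fun_prop
    · fun_prop
  obtain ⟨j, hj1, hj2, hj3, hj4, hj5⟩ := exists_J z c hc0
  set φ : OpenPartialHomeomorph M (V n) := (H.symm.trans ψ).trans j with hφ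
  have hφsymm : ∀ v, φ.symm v = H (ψ.symm (j.symm v)) := fun v => rfl
  have hφt : ∀ v, v ∈ φ.target ↔ v ∈ j.target ∧ j.symm v ∈ ψ.target ∧ ψ.symm (j.symm v) ∈ H.source := by
    intro v
    rw [hφ, OpenPartialHomeomorph.trans_target, OpenPartialHomeomorph.trans_target]
    rfl
  have hφs : ∀ m, m ∈ φ.source ↔ m ∈ H.target ∧ H.symm m ∈ ψ.source ∧ ψ (H.symm m) ∈ j.source := by
    intro m
    rw [hφ, OpenPartialHomeomorph.trans_source, OpenPartialHomeomorph.trans_source]
    constructor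
    · rintro ⟨⟨h5, h6⟩, h7⟩
      exact ⟨h5, h6, h7⟩
    · rintro ⟨h5, h6, h7⟩
      exact ⟨⟨h5, h6⟩, h7⟩
  -- the half-space is in the target
  have hhalf : ∀ v : V n, 0 ≤ v 0 → v ∈ φ.target := by
    intro v hv
    obtain ⟨h5, h6⟩ := hj4 v hv
    have h7 : j.symm v ∈ j.source := j.map_target h5
    have h8 : j.symm v ≠ z := by
      rw [hj3] at h7
      exact h7
    have h9 := hsub2 _ h6 h8
    rw [hφt]
    exact ⟨h5, h9.1, h9.2⟩
  refine ⟨φ, ?_, hhalf, ?_⟩
  · apply OpenPartialHomeomorph.mem_maximalAtlas_of_contMDiffOn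
    · have hc1 : ContMDiffOn (𝓡 n) (𝓡 n) ∞ (j ∘ (ψ ∘ H.symm)) φ.source := by
        apply (contMDiffOn_iff_contDiffOn.mpr hj1).comp
        · apply (contMDiffOn_of_mem_maximalAtlas hψmem).comp h4.contMDiffOn
          intro m hm
          exact ((hφs m).mp hm).2.1
        · intro m hm
          exact ((hφs m).mp hm).2.2
      exact hc1
    · have hc1 : ContMDiffOn (𝓡 n) (𝓡 n) ∞ (H ∘ (ψ.symm ∘ j.symm)) φ.target := by
        apply h3.comp
        · apply (contMDiffOn_symm_of_mem_maximalAtlas hψmem).comp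
            ((contMDiffOn_iff_contDiffOn.mpr hj2).mono _)
          · intro v hv
            exact ((hφt v).mp hv).2.1
          · intro v hv
            exact ((hφt v).mp hv).1
        · intro v hv
          exact ((hφt v).mp hv).2.2
      exact hc1
  · have heq : φ.symm '' {v : V n | 0 ≤ v 0} = H.symm ⁻¹' (ψ.symm '' Ball z c) := by
      ext m
      constructor
      · rintro ⟨v, hv, rfl⟩
        obtain ⟨h5, h6⟩ := hj4 v hv
        have h7 := (hφt v).mp (hhalf v hv)
        refine ⟨j.symm v, h6, ?_⟩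
        rw [hφsymm, H.left_inv h7.2.2]
      · rintro ⟨x, hx, hxm⟩
        have hm : m ∈ H.target := by rw [h1]; trivial
        have h5 : H.symm m ∈ H.source := H.map_target hm
        have hxz : x ≠ z := by
          rintro rfl
          apply hzΩ
          rw [hxm]
          exact h5
        have hxj : x ∈ j.source := by rw [hj3]; exact hxz
        refine ⟨j x, hj5 x hx hxz, ?_⟩
        rw [hφsymm, j.left_inv hxj, hxm, H.right_inv hm]
    rw [heq]
    apply IsClosed.preimage h4.continuous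
    apply IsCompact.isClosed
    apply hBc.image_of_continuousOn
    exact ψ.continuousOn_symm.mono (hsub1.trans hball)

theorem halfSpaceChart_of_push {n : ℕ} [NeZero n] {M : Type*} [TopologicalSpace M] [T2Space M]
    [ConnectedSpace M] [ChartedSpace (V n) M] [IsManifold (𝓡 n) ∞ M]
    (H : OpenPartialHomeomorph M M) (h1 : H.target = univ) (h2 : H.source ≠ univ)
    (h3 : ContMDiffOn (𝓡 n) (𝓡 n) ∞ H H.source) (h4 : ContMDiff (𝓡 n) (𝓡 n) ∞ H.symm) :
    HalfSpaceChart n M := by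
  refine halfSpaceChart_of_push' H h1 ?_ h3 h4
  intro hcl
  refine h2 (IsClopen.eq_univ ⟨hcl, H.open_source⟩ ?_)
  obtain ⟨m⟩ := (inferInstance : Nonempty M)
  exact ⟨H.symm m, H.map_target (by rw [h1]; trivial)⟩

end Pool.Agent.H718R2.G
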