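import Pool.Agent.H718R2.E1
import Pool.Agent.H718R2.D0

/-!
# K6a: the orbit of the origin stays in `|ξ| ≤ 1`
-/

namespace Pool.Agent.H718R2

open E1

theorem q3_bd (l : ℕ) : |(q l).2.2| ≤ 1 := by
  obtain ⟨h1, h2⟩ := q_bd3 l
  rw [abs_le]; constructor <;> linarith

theorem level_bd {κ θ : ℝ} (hκ : 0 < κ) (hκ' : κ ≤ 1 / 10 ^ 12) (hθ : θ = κ ^ 24)
    {ω : E → ℝ} (hω : Wind κ θ ω) {f : E → E} (hS : Sys θ ω f) (k : ℕ) :
    ∀ ζ : E, |ζ.1| ≤ 7 * r θ k → |ζ.2.1| ≤ 7 * r θ k → |ζ.2.2| ≤ 7 * r θ k →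
      ∀ j ≤ nn k, |(f^[j] (D k ζ)).2.2| ≤ 1 := by
  have hp := theta_pos hκ hθ
  have hle := theta_le hκ hκ' hθ
  induction k with
  | zero =>
    intro ζ h1 h2 h3 j hj
    have := E1.r_le hp hle 0
    have hb : |ζ.2.2| ≤ 1 := h3.trans (by linarith)
    have : j = 0 ∨ j = 1 := by simp only [nn] at hj; omega
    rcases this with rfl | rfl
    · exact hb
    · rw [Function.iterate_one, hS.core ζ (h1.trans (by linarith)) (h2.trans (by linarith))]
      exact hb
  | succ k ih =>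
    intro ζ h1 h2 h3 j hj
    have hlev := level hκ hκ' hθ hω hS k
    have hr := E1.r_pos hp k
    have hrle := E1.r_le hp hle k
    have h3' : |ζ.2.2| ≤ 1 := by
      have := E1.r_le hp hle (k + 1)
      linarith
    have hend := level hκ hκ' hθ hω hS (k + 1) ζ h1 h2 h3
    rw [E1.r_succ] at h1 h2 h3
    set z : E := (r θ k)⁻¹ • ζ with hz
    have hζ : ζ = r θ k • z := by rw [hz, smul_smul, mul_inv_cancel₀ hr.ne', one_smul]
    have hc : ∀ a : ℝ, |a| ≤ 7 * (θ * r θ k) → |(r θ k)⁻¹ * a| ≤ 7 * θ := by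
      intro a ha
      rw [abs_mul, abs_of_pos (inv_pos.mpr hr), inv_mul_le_iff₀ hr]
      linarith
    have z1 : |z.1| ≤ 7 * θ := hc _ h1
    have z2 : |z.2.1| ≤ 7 * θ := hc _ h2
    have z3 : |z.2.2| ≤ 7 * θ := hc _ h3
    have hθr : θ * r θ k ≤ 1 / 10 ^ 12 * r θ k := by nlinarith
    have climb : f (D (k + 1) ζ) = D k ζ :=
      hS.climb k ζ (h1.trans (by nlinarith)) (h2.trans (by nlinarith))
    have start : D k ζ = D k (r θ k • (q 0 + R (sg 0) z)) := by
      rw [hζ]
      congr 2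
      ext <;> simp [q, R, sg]
    have iter : ∀ l : ℕ, l ≤ 7 → f^[(nn k + 1) * l] (D k (r θ k • (q 0 + R (sg 0) z))) =
        D k (r θ k • (q l + R (sg l) z)) := by
      intro l
      induction l with
      | zero => intro _; simp
      | succ l ihl =>
        intro hl
        have e : (nn k + 1) * (l + 1) = (nn k + 1) + (nn k + 1) * l := by ring
        rw [e, Function.iterate_add_apply, ihl (by omega),
          passage hκ hκ' hθ hω hS k hlev l (by omega) z z1 z2 z3, tgt, if_pos (by omega), smul_add]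
    rcases Nat.eq_zero_or_pos j with hj0 | hj0
    · subst hj0; exact h3'
    rcases Nat.lt_or_ge j (nn (k + 1)) with hj1 | hj1
    swap
    · have : j = nn (k + 1) := by omega
      rw [this, hend]
      exact h3'
    obtain ⟨i, rfl⟩ : ∃ i, j = i + 1 := ⟨j - 1, by omega⟩
    rw [Function.iterate_succ_apply, climb, start]
    have hi : i < (nn k + 1) * 8 := by
      have : nn (k + 1) = 8 * nn k + 9 := rfl
      omega
    have hl : i / (nn k + 1) < 8 := Nat.div_lt_of_lt_mul hi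
    have hm : i % (nn k + 1) < nn k + 1 := Nat.mod_lt _ (by omega)
    have hd := Nat.mod_add_div i (nn k + 1)
    rw [← hd, Function.iterate_add_apply, iter _ (by omega)]
    obtain ⟨q1, q2, q3⟩ := q_bound (i / (nn k + 1))
    obtain ⟨b1, b2, b3⟩ := R_bound (i / (nn k + 1)) z1 z2 z3
    have key : ∀ a b : ℝ, |a| ≤ 4 → |b| ≤ 7 * θ → |r θ k * (a + b)| ≤ 7 * r θ k := by
      intro a b ha hb
      rw [abs_mul, abs_of_pos hr]
      have : |a + b| ≤ 7 := (abs_add_le a b).trans (by linarith)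
      nlinarith
    exact ih _ (key _ _ q1 b1) (key _ _ q2 b2) (key _ _ q3 b3) _ (by omega)

theorem le_nn (k : ℕ) : 2 * k ≤ nn k := by
  induction k with
  | zero => simp [nn]
  | succ k ih => simp only [nn]; omega

theorem orb_zero_bd {κ θ : ℝ} (hκ : 0 < κ) (hκ' : κ ≤ 1 / 10 ^ 12) (hθ : θ = κ ^ 24)
    {ω : E → ℝ} (hω : Wind κ θ ω) {f : E → E} (hS : Sys θ ω f) (j : ℕ) :
    |(f^[j] (0 : E)).2.2| ≤ 1 := by
  have hp := theta_pos hκ hθ
  have hle := theta_le hκ hκ' hθ
  have hr := E1.r_pos hp j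
  have a0 : f^[j] (D j 0) = 0 := by
    rw [climb_iter hp hle hS j 0 (by simp) (by simpa using hr.le) j le_rfl]
    ext <;> simp [D]
  have h := level_bd hκ hκ' hθ hω hS j 0 (by simpa using hr.le) (by simpa using hr.le)
    (by simpa using hr.le) (j + j) (by have := le_nn j; omega)
  rwa [Function.iterate_add_apply, a0] at h

end Pool.Agent.H718R2
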