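import Pool.Agent.H718R2.Fin
import Pool.Agent.H718R2.K1
import Pool.Agent.H718R2.K2
import Pool.Agent.H718R2.K3
import Pool.Agent.H718R2.K6a

/-!
# K6b: the localised stabilised diffeomorphism of `E × W`
-/

open scoped Topology
open Set

namespace Pool.Agent.H718R2

/-- smooth cut-off with bounded derivatives -/
theorem exists_cut : ∃ (χ : ℝ → ℝ) (C : ℝ), ContDiff ℝ (⊤ : ℕ∞) χ ∧ (∀ t, t ≤ -2 → χ t = 0) ∧
    (∀ t, -1 ≤ t → χ t = 1) ∧ 0 < C ∧ ∀ t, ∀ i : ℕ, i ≤ 2 → ‖iteratedFDeriv ℝ i χ t‖ ≤ C := by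
  set χ : ℝ → ℝ := fun t => Real.smoothTransition (t + 2) with hχ
  have hs : ContDiff ℝ (⊤ : ℕ∞) χ := Real.smoothTransition.contDiff.comp (by fun_prop)
  have h0 : ∀ t, t ≤ -2 → χ t = 0 := fun t ht =>
    Real.smoothTransition.zero_of_nonpos (by linarith)
  have h1 : ∀ t, -1 ≤ t → χ t = 1 := fun t ht =>
    Real.smoothTransition.one_of_one_le (by linarith)
  have hb : ∀ i : ℕ, i ≤ 2 → ∃ C, ∀ t ∈ Icc (-3 : ℝ) 0, ‖iteratedFDeriv ℝ i χ t‖ ≤ C := by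
    intro i hi
    exact isCompact_Icc.exists_bound_of_continuousOn
      (hs.continuous_iteratedFDeriv (by exact_mod_cast le_top)).continuousOn
  obtain ⟨C0, hC0⟩ := hb 0 (by norm_num)
  obtain ⟨C1, hC1⟩ := hb 1 (by norm_num)
  obtain ⟨C2, hC2⟩ := hb 2 (by norm_num)
  have hconst : ∀ c : ℝ, |c| ≤ 1 → ∀ t, χ =ᶠ[𝓝 t] (fun _ => c) → ∀ i : ℕ,
      ‖iteratedFDeriv ℝ i χ t‖ ≤ 1 := by
    intro c hc t ht i
    rw [(Filter.EventuallyEq.iteratedFDeriv (𝕜 := ℝ) ht i).self_of_nhds]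
    rcases Nat.eq_zero_or_pos i with rfl | hi
    · rw [norm_iteratedFDeriv_zero]; exact hc
    · rw [iteratedFDeriv_const_of_ne (by omega)]; simp
  refine ⟨χ, max 1 (max C0 (max C1 C2)), hs, h0, h1, by positivity, ?_⟩
  intro t i hi
  by_cases ht : t ∈ Icc (-3 : ℝ) 0
  · have : i = 0 ∨ i = 1 ∨ i = 2 := by omega
    rcases this with rfl | rfl | rfl
    · exact (hC0 t ht).trans (by simp)
    · exact (hC1 t ht).trans (by simp)
    · exact (hC2 t ht).trans (by simp)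
  · rw [mem_Icc, not_and_or, not_le, not_le] at ht
    refine le_trans ?_ (le_max_left 1 _)
    rcases ht with ht | ht
    · refine hconst 0 (by simp) t ?_ i
      filter_upwards [Iio_mem_nhds (show t < -2 by linarith)] with s hs
      exact h0 s (le_of_lt hs)
    · refine hconst 1 (by simp) t ?_ i
      filter_upwards [Ioi_mem_nhds (show -1 < t by linarith)] with s hs
      exact h1 s (le_of_lt hs)

section
variable {W : Type*} [NormedAddCommGroup W] [NormedSpace ℝ W]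

/-- the `ξ`-coordinate on `E × W` -/
def xi (z : E × W) : ℝ := z.1.2.2

/-- Leibniz bound for the cut-off difference -/
theorem cut_bd {F : Type*} [NormedAddCommGroup F] [NormedSpace ℝ F] {χ : E × W → ℝ} {D : E × W → F}
    {s : Set (E × W)} (hs : IsOpen s) (hχ : ContDiff ℝ (⊤ : ℕ∞) χ) (hD : ContDiffOn ℝ 2 D s) {z : E × W}
    (hz : z ∈ s) {C δ : ℝ} (hC : ∀ i : ℕ, i ≤ 2 → ‖iteratedFDeriv ℝ i χ z‖ ≤ C)
    (hδ : ∀ i : ℕ, i ≤ 2 → ‖iteratedFDeriv ℝ i D z‖ ≤ δ) (i : ℕ) (hi : i ≤ 2) :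
    ‖iteratedFDeriv ℝ i (fun z => χ z • D z) z‖ ≤ 4 * C * δ := by
  have hC0 : 0 ≤ C := (norm_nonneg _).trans (hC 0 (by norm_num))
  have hδ0 : 0 ≤ δ := (norm_nonneg _).trans (hδ 0 (by norm_num))
  have h2 : (i : WithTop ℕ∞) ≤ 2 := by exact_mod_cast hi
  have h1 := norm_iteratedFDerivWithin_smul_le (𝕜 := ℝ) (N := 2) (f := χ) (g := D) (s := s)
    ((hχ.of_le (WithTop.coe_le_coe.mpr (le_top : (2 : ℕ∞) ≤ ⊤))).contDiffOn) hD hs.uniqueDiffOn hz h2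
  rw [iteratedFDerivWithin_of_isOpen i hs hz] at h1
  refine h1.trans ?_
  have h3 : ∀ j ∈ Finset.range (i + 1), (i.choose j : ℝ) * ‖iteratedFDerivWithin ℝ j χ s z‖ *
      ‖iteratedFDerivWithin ℝ (i - j) D s z‖ ≤ (i.choose j : ℝ) * (C * δ) := by
    intro j hj
    rw [Finset.mem_range] at hj
    rw [iteratedFDerivWithin_of_isOpen j hs hz, iteratedFDerivWithin_of_isOpen (i - j) hs hz, mul_assoc]
    apply mul_le_mul_of_nonneg_left _ (by positivity)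
    exact mul_le_mul (hC j (by omega)) (hδ (i - j) (by omega)) (norm_nonneg _) hC0
  refine (Finset.sum_le_sum h3).trans ?_
  rw [← Finset.sum_mul]
  have h4 : (∑ j ∈ Finset.range (i + 1), (i.choose j : ℝ)) = 2 ^ i := by
    exact_mod_cast Nat.sum_range_choose i
  rw [h4, mul_assoc]
  apply mul_le_mul_of_nonneg_right _ (by positivity)
  calc (2 : ℝ) ^ i ≤ 2 ^ 2 := pow_le_pow_right₀ (by norm_num) hi
    _ = 4 := by norm_num

/-- `(f, b⁻¹)` on `E × W` -/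
noncomputable def fib (f : E → E) (c : E → ℝ) (z : E × W) : E × W := (f z.1, c z.1 • z.2)

theorem fib_smooth {f : E → E} {c : E → ℝ} {n : WithTop ℕ∞} (hf : ContDiff ℝ n f)
    (hc : ContDiff ℝ n c) : ContDiff ℝ n (fib (W := W) f c) :=
  (hf.comp contDiff_fst).prodMk ((hc.comp contDiff_fst).smul contDiff_snd)

/-- the homeomorphism -/
noncomputable def fibH (f : E ≃ₜ E) (c : E → ℝ) (hc : Continuous c) (hc0 : ∀ p, c p ≠ 0) :
    (E × W) ≃ₜ (E × W) where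
  toFun := fib f c
  invFun := fib f.symm (fun p => (c (f.symm p))⁻¹)
  left_inv z := by
    unfold fib
    simp only [Homeomorph.symm_apply_apply, smul_smul, inv_mul_cancel₀ (hc0 _), one_smul]
  right_inv z := by
    unfold fib
    simp only [Homeomorph.apply_symm_apply, smul_smul, mul_inv_cancel₀ (hc0 _), one_smul]
  continuous_toFun := (f.continuous.comp continuous_fst).prodMk
    ((hc.comp continuous_fst).smul continuous_snd)
  continuous_invFun := (f.symm.continuous.comp continuous_fst).prodMk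
    ((((hc.comp f.symm.continuous).inv₀ (fun _ => hc0 _)).comp continuous_fst).smul continuous_snd)

/-- iterates of the localised map at the origin -/
theorem fib_iter {f f₀ : E → E} {c : E → ℝ} (h : ∀ j, |(f^[j] (0 : E)).2.2| ≤ 1)
    (hf : ∀ p : E, -2 ≤ p.2.2 → f₀ p = f p) (k : ℕ) :
    (fib (W := W) f₀ c)^[k] 0 = (f^[k] 0, 0) := by
  induction k with
  | zero => rfl
  | succ k ih =>
    rw [Function.iterate_succ_apply', ih]
    have := abs_le.1 (h k)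
    unfold fib
    rw [Function.iterate_succ_apply' f, hf _ (by linarith), smul_zero]

end

/-- the system with its building blocks -/
theorem exists_sys' : ∃ κ θ : ℝ, 0 < κ ∧ κ ≤ 1 / 10 ^ 12 ∧ θ = κ ^ 24 ∧ ∃ ω : E → ℝ, Wind κ θ ω ∧
    ∃ (A : Atoms θ ω) (f : E ≃ₜ E), ContDiff ℝ (⊤ : ℕ∞) f ∧ ContDiff ℝ (⊤ : ℕ∞) f.symm ∧
      f = theMap A ∧ Sys θ ω f := by
  obtain ⟨C, hC⟩ := ψ_lip
  obtain ⟨κ, hκ, hκ', ω, hs, hW, hev, hl, hCω⟩ := exists_wind C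
  obtain ⟨hθ, hθ'⟩ := θ_small hκ hκ' rfl
  obtain ⟨A⟩ := exists_atoms hθ hθ' hs hW.nonneg hW.up hl hC hCω
  obtain ⟨f, hf, hf', hfe⟩ := homeo_of_atoms A
  refine ⟨κ, κ ^ 24, hκ, hκ', rfl, ω, hW, A, f, hf, hf', hfe, ?_⟩
  rw [hfe]
  exact sys_of_atoms hθ hθ' hW.nonneg hW.up hev A

/-- the full 3D data needed: the map, its localisation, absence of periodic points of perturbations,
forward bounds -/
theorem exists_data : ∃ (θ : ℝ) (f f₀ : E ≃ₜ E), 0 < θ ∧ ContDiff ℝ (⊤ : ℕ∞) f ∧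
    ContDiff ℝ (⊤ : ℕ∞) f₀ ∧ ContDiff ℝ (⊤ : ℕ∞) f₀.symm ∧
    (∀ p : E, -2 ≤ p.2.2 → f₀ p = f p) ∧ (∀ p : E, p.2.2 ≤ -5 → f₀ p = p) ∧
    (∀ j, |(f^[j] (0 : E)).2.2| ≤ 1) ∧ (∀ δ : ℝ, 0 < δ → ∃ n : ℕ, 1 ≤ n ∧ ‖f^[n] (0 : E)‖ < δ) ∧
    (∀ g : E → E, ContDiff ℝ 2 g →
      (∀ (p : E) (i : ℕ), i ≤ 2 →
        ‖iteratedFDeriv ℝ i g p - iteratedFDeriv ℝ i (f : E → E) p‖ < E2.epsf θ p) →
      ∀ k : ℕ, 1 ≤ k → ∀ p, g^[k] p ≠ p) ∧
    (∀ (Q : ℕ → E) (P : ℕ → Prop), (∀ i, ‖Q (i + 1) - f (Q i)‖ ≤ E2.epsf θ (Q i)) → P 0 →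
      (∀ i, P i → -1 ≤ (Q i).2.2 → P (i + 1)) → (∀ i, P i → (Q i).2.2 ≤ (Q 0).2.2) →
      -(1 / 4) ≤ (Q 0).2.2 → (∃ B : ℝ, ∀ i, P i → (Q i).2.1 ≤ B) → ∀ i, P i ∧ -(1 / 10) ≤ (Q i).2.2) := by
  obtain ⟨κ, θ, hκ, hκ', hθ, ω, hW, A, f, hf, hf', hfe, hS⟩ := exists_sys'
  obtain ⟨hp, hle⟩ := θ_small hκ hκ' hθ
  obtain ⟨f₀, h1, h2, h3, h4⟩ := loc_of_atoms hp hle hW.nonneg hW.up A
  have hf2 : ContDiff ℝ 2 f := hf.of_le (WithTop.coe_le_coe.mpr (le_top : (2 : ℕ∞) ≤ ⊤))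
  refine ⟨θ, f, f₀, hp, hf, h1, h2, ?_, h4, orb_zero_bd hκ hκ' hθ hW hS, ?_, ?_, ?_⟩
  · intro p hp'
    rw [h3 p hp', hfe]
  · intro δ hδ
    obtain ⟨n, hn, h⟩ := rec_strong hκ hκ' hθ hW hS δ hδ
    rw [E2.pow_apply] at h
    exact ⟨n, hn, h⟩
  · intro g hg hc k hk p
    have hu := E2.pert_of_close hp (by linarith) hf2 hg hc
    have := no_periodic hκ hκ' hθ hW hf2 hS hu k hk p
    have e : (fun p => f p + (g p - f p)) = g := by
      funext p; abel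
    rwa [e] at this
  · intro Q P herr hP0 hP hmax h0 hB
    refine forward_bd hκ hκ' hθ hW hf2 hS Q P ?_ hP0 hP hmax h0 hB
    intro i m hm
    exact (herr i).trans (E2.epsf_le hp (by linarith) _ m hm)

end Pool.Agent.H718R2
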