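import Pool.Agent.H718R2.K6b

/-!
# K6c: Theorem N on `E × W`
-/

open scoped Topology
open Set

namespace Pool.Agent.H718R2

theorem exists_cut5 : ∃ χ : ℝ → ℝ, ContDiff ℝ (⊤ : ℕ∞) χ ∧ (∀ t, t ≤ -5 → χ t = 0) ∧
    (∀ t, -3 ≤ t → χ t = 1) ∧ (∀ t, 0 ≤ χ t) ∧ ∀ t, χ t ≤ 1 := by
  refine ⟨fun t => Real.smoothTransition ((t + 5) / 2), ?_, ?_, ?_, ?_, ?_⟩
  · exact Real.smoothTransition.contDiff.comp (by fun_prop)
  · intro t ht; exact Real.smoothTransition.zero_of_nonpos (by linarith)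
  · intro t ht; exact Real.smoothTransition.one_of_one_le (by linarith)
  · intro t; exact Real.smoothTransition.nonneg _
  · intro t; exact Real.smoothTransition.le_one _

/-- Theorem N on `E × W` -/
theorem prod_main (W : Type) [NormedAddCommGroup W] [NormedSpace ℝ W] [FiniteDimensional ℝ W] :
    ∃ (F : (E × W) ≃ₜ (E × W)) (ε : E × W → ℝ), ContDiff ℝ (⊤ : ℕ∞) F ∧
      ContDiff ℝ (⊤ : ℕ∞) F.symm ∧ (∀ z : E × W, z.1.2.2 ≤ -5 → F z = z) ∧
      (∀ δ : ℝ, 0 < δ → ∃ k : ℕ, 1 ≤ k ∧ ‖F^[k] (0 : E × W)‖ < δ) ∧ Continuous ε ∧ (∀ z, 0 < ε z) ∧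
      ∀ G : E × W → E × W, ContDiffOn ℝ 2 G {z : E × W | -(11 / 2) < z.1.2.2} →
        (∀ z : E × W, -(11 / 2) < z.1.2.2 → ∀ i : ℕ, i ≤ 2 →
          ‖iteratedFDeriv ℝ i G z - iteratedFDeriv ℝ i (F : E × W → E × W) z‖ < ε z) →
        ∀ O : Set (E × W), O.Finite → (∃ z ∈ O, -(1 / 4) ≤ z.1.2.2) →
          ¬ (∀ z ∈ O, -5 ≤ z.1.2.2 → G z ∈ O) := by
  obtain ⟨θ, f, f₀, hθ, hf, hf₀, hf₀', hff, hf5, horb, hrec, hper, hfwd⟩ := exists_data
  obtain ⟨b, ε', hb, hb0, hε', hε'0, hst⟩ := G.stabilise (W := W) (f : E → E) hf (E2.epsf θ)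
    (E2.epsf_cont hθ) (E2.epsf_pos hθ) hper
  obtain ⟨χ₅, hχs, hχ0, hχ1, hχn, hχl⟩ := exists_cut5
  obtain ⟨χ, C, hχ2s, hχ2, hχ3, hC, hχC⟩ := exists_cut
  -- the fibre factor
  set c : E → ℝ := fun p => 1 + χ₅ p.2.2 * ((b p)⁻¹ - 1) with hc
  have hcs : ContDiff ℝ (⊤ : ℕ∞) c := by
    apply contDiff_const.add
    apply (hχs.comp (by fun_prop)).mul
    exact (hb.inv (fun p => (hb0 p).ne')).sub contDiff_const
  have hcpos : ∀ p, 0 < c p := by
    intro p
    have h1 := hχn p.2.2
    have h2 := hχl p.2.2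
    have h3 : 0 < (b p)⁻¹ := inv_pos.mpr (hb0 p)
    have e : c p = (1 - χ₅ p.2.2) + χ₅ p.2.2 * (b p)⁻¹ := by simp only [hc]; ring
    rw [e]
    rcases h1.eq_or_lt with h | h
    · rw [← h]; norm_num
    · have : 0 < χ₅ p.2.2 * (b p)⁻¹ := mul_pos h h3
      linarith
  set F : (E × W) ≃ₜ (E × W) := fibH f₀ c hcs.continuous (fun p => (hcpos p).ne') with hF
  have hFe : ∀ z, F z = fib f₀ c z := fun z => rfl
  have hFfun : (F : E × W → E × W) = fib f₀ c := rfl
  set fh : E × W → E × W := fun z => (f z.1, (b z.1)⁻¹ • z.2) with hfh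
  have hfhs : ContDiff ℝ (⊤ : ℕ∞) fh :=
    (hf.comp contDiff_fst).prodMk (((hb.inv (fun p => (hb0 p).ne')).comp contDiff_fst).smul contDiff_snd)
  have hFfh : ∀ z : E × W, -2 ≤ z.1.2.2 → F z = fh z := by
    intro z hz
    rw [hFe]
    unfold fib
    rw [hff _ hz]
    simp only [hc, hfh]
    rw [hχ1 _ (by linarith)]
    congr 2
    ring
  have hFs : ContDiff ℝ (⊤ : ℕ∞) F := fib_smooth hf₀ hcs
  have hFs' : ContDiff ℝ (⊤ : ℕ∞) F.symm := by
    have : (F.symm : E × W → E × W) = fib f₀.symm (fun p => (c (f₀.symm p))⁻¹) := rfl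
    rw [this]
    exact fib_smooth hf₀' ((hcs.comp hf₀').inv (fun p => (hcpos _).ne'))
  -- the size
  set ε₁ : E × W → ℝ := fun z => min (ε' z.1) (E2.epsf θ z.1) with hε₁
  have hε₁c : Continuous ε₁ := (hε'.comp continuous_fst).min ((E2.epsf_cont hθ).comp continuous_fst)
  have hε₁0 : ∀ z, 0 < ε₁ z := fun z => lt_min (hε'0 _) (E2.epsf_pos hθ _)
  refine ⟨F, fun z => ε₁ z / (8 * C), hFs, hFs', ?_, ?_, hε₁c.div_const _, ?_, ?_⟩
  · intro z hz
    rw [hFe]
    unfold fib
    rw [hf5 _ hz]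
    simp only [hc]
    rw [hχ0 _ hz]
    simp
  · intro δ hδ
    obtain ⟨n, hn, h⟩ := hrec δ hδ
    refine ⟨n, hn, ?_⟩
    rw [hFfun, fib_iter horb (fun p hp => hff p hp) n, Prod.norm_def]
    simp only [norm_zero]
    rw [max_eq_left (norm_nonneg _)]
    exact h
  · intro z
    have := hε₁0 z
    positivity
  · intro G hG hGc O hO ⟨y₀, hy₀, hy₀'⟩ hinv
    -- the globalised perturbation
    set s : Set (E × W) := {z : E × W | -(11 / 2) < z.1.2.2} with hs
    have hso : IsOpen s := by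
      apply isOpen_lt continuous_const
      fun_prop
    set u : E × W → E × W := fun z => χ z.1.2.2 • (G z - F z) with hu
    have hχz : ContDiff ℝ (⊤ : ℕ∞) (fun z : E × W => χ z.1.2.2) := hχ2s.comp (by fun_prop)
    have hχzC : ∀ z : E × W, ∀ i : ℕ, i ≤ 2 →
        ‖iteratedFDeriv ℝ i (fun z : E × W => χ z.1.2.2) z‖ ≤ C := by
      intro z i hi
      set ℓ : (E × W) →L[ℝ] ℝ := (ContinuousLinearMap.snd ℝ ℝ ℝ).comp
        ((ContinuousLinearMap.snd ℝ ℝ (ℝ × ℝ)).comp (ContinuousLinearMap.fst ℝ E W)) with hℓ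
      have e : (fun z : E × W => χ z.1.2.2) = χ ∘ ℓ := rfl
      rw [e, ContinuousLinearMap.iteratedFDeriv_comp_right ℓ hχ2s z (by exact_mod_cast le_top)]
      refine (ContinuousMultilinearMap.norm_compContinuousLinearMap_le _ _).trans ?_
      have hℓn : ‖ℓ‖ ≤ 1 := by
        apply ContinuousLinearMap.opNorm_le_bound _ zero_le_one
        intro z
        rw [one_mul]
        exact (n3 z.1).trans (norm_fst_le z)
      calc ‖iteratedFDeriv ℝ i χ (ℓ z)‖ * ∏ _j : Fin i, ‖ℓ‖ ≤ ‖iteratedFDeriv ℝ i χ (ℓ z)‖ * 1 := by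
            apply mul_le_mul_of_nonneg_left _ (norm_nonneg _)
            rw [Finset.prod_const]
            exact pow_le_one₀ (norm_nonneg _) hℓn
        _ ≤ C := by rw [mul_one]; exact hχC _ i hi
    have hF2 : ContDiff ℝ 2 F := hFs.of_le (WithTop.coe_le_coe.mpr (le_top : (2 : ℕ∞) ≤ ⊤))
    have hGF : ContDiffOn ℝ 2 (fun z => G z - F z) s := hG.sub hF2.contDiffOn
    have hus : ContDiff ℝ 2 u := by
      rw [contDiff_iff_contDiffAt]
      intro z
      by_cases hz : z ∈ s
      · have h1 : ContDiffOn ℝ 2 u s :=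
          ((hχz.of_le (WithTop.coe_le_coe.mpr (le_top : (2 : ℕ∞) ≤ ⊤))).contDiffOn).smul hGF
        exact h1.contDiffAt (hso.mem_nhds hz)
      · have hz' : z.1.2.2 < -2 := by
          simp only [hs, mem_ofPred_eq, not_lt] at hz; linarith
        have : u =ᶠ[𝓝 z] fun _ => 0 := by
          have ho : IsOpen {z : E × W | z.1.2.2 < -2} := isOpen_lt (by fun_prop) continuous_const
          filter_upwards [ho.mem_nhds hz'] with y hy
          simp only [hu]
          rw [hχ2 _ (le_of_lt hy), zero_smul]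
        exact contDiffAt_const.congr_of_eventuallyEq this
    have hub : ∀ z : E × W, ∀ i : ℕ, i ≤ 2 → ‖iteratedFDeriv ℝ i u z‖ < ε₁ z := by
      intro z i hi
      by_cases hz : z ∈ s
      · have h1 := cut_bd hso hχz hGF hz (C := C) (δ := ε₁ z / (8 * C)) (hχzC z) (by
          intro j hj
          have hz1 := hGc z hz j hj
          have h2 : iteratedFDeriv ℝ j (fun z => G z - F z) z =
              iteratedFDeriv ℝ j G z - iteratedFDeriv ℝ j (F : E × W → E × W) z := by
            have hj' : (j : WithTop ℕ∞) ≤ 2 := by exact_mod_cast hj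
            exact iteratedFDeriv_sub_apply ((hG.contDiffAt (hso.mem_nhds hz)).of_le hj')
              (hF2.contDiffAt.of_le hj')
          rw [h2]
          exact hz1.le) i hi
        refine lt_of_le_of_lt h1 ?_
        have h3 := hε₁0 z
        have h4 : 4 * C * (ε₁ z / (8 * C)) = ε₁ z / 2 := by
          field_simp; norm_num
        rw [h4]; linarith
      · have hz' : z.1.2.2 < -2 := by
          simp only [hs, mem_ofPred_eq, not_lt] at hz; linarith
        have : u =ᶠ[𝓝 z] fun _ => 0 := by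
          have ho : IsOpen {z : E × W | z.1.2.2 < -2} := isOpen_lt (by fun_prop) continuous_const
          filter_upwards [ho.mem_nhds hz'] with y hy
          simp only [hu]
          rw [hχ2 _ (le_of_lt hy), zero_smul]
        rw [(Filter.EventuallyEq.iteratedFDeriv (𝕜 := ℝ) this i).self_of_nhds]
        have h3 := hε₁0 z
        rcases Nat.eq_zero_or_pos i with rfl | hi
        · rw [norm_iteratedFDeriv_zero]; simpa using h3
        · rw [iteratedFDeriv_const_of_ne (by omega)]; simpa using h3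
    set F' : E × W → E × W := fun z => fh z + u z with hF'
    have hfh2 : ContDiff ℝ 2 fh := hfhs.of_le (WithTop.coe_le_coe.mpr (le_top : (2 : ℕ∞) ≤ ⊤))
    have hF's : ContDiff ℝ 2 F' := hfh2.add hus
    have hF'c : ∀ (z : E × W) (i : ℕ), i ≤ 2 →
        ‖iteratedFDeriv ℝ i F' z - iteratedFDeriv ℝ i fh z‖ < ε₁ z := by
      intro z i hi
      have hi' : (i : WithTop ℕ∞) ≤ 2 := by exact_mod_cast hi
      have h1 : iteratedFDeriv ℝ i F' z = iteratedFDeriv ℝ i fh z + iteratedFDeriv ℝ i u z :=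
        iteratedFDeriv_add_apply (hfh2.contDiffAt.of_le hi') (hus.contDiffAt.of_le hi')
      rw [h1, add_sub_cancel_left]
      exact hub z i hi
    have hno := hst F' hF's (fun z i hi => (hF'c z i hi).trans_le (min_le_left _ _))
    -- the forward orbit of the highest point
    obtain ⟨z₀, hz₀, hmax⟩ := Set.exists_max_image O (fun z => z.1.2.2) hO ⟨y₀, hy₀⟩
    have hstep : ∀ z ∈ O, -1 ≤ z.1.2.2 → F' z ∈ O := by
      intro z hz hz1
      have h1 : F' z = G z := by
        simp only [hF', hu]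
        rw [hχ3 _ hz1, one_smul, ← hFfh z (by linarith)]
        abel
      rw [h1]
      exact hinv z hz (by linarith)
    have hall := hfwd (fun i => (F'^[i] z₀).1) (fun i => F'^[i] z₀ ∈ O) (by
        intro i
        rw [Function.iterate_succ_apply']
        set y := F'^[i] z₀
        have h1 : (F' y).1 - f y.1 = (u y).1 := by
          simp only [hF', hfh, Prod.fst_add, add_sub_cancel_left]
        rw [h1]
        have h2 := hub y 0 (by norm_num)
        rw [norm_iteratedFDeriv_zero] at h2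
        exact ((norm_fst_le _).trans h2.le).trans (min_le_right _ _))
      hz₀ (by
        intro i hi h1
        rw [Function.iterate_succ_apply']
        exact hstep _ hi h1)
      (by intro i hi; exact hmax _ hi)
      (by have := hmax y₀ hy₀; exact hy₀'.trans this)
      (by
        obtain ⟨zm, _, hB⟩ := Set.exists_max_image O (fun z => z.1.2.1) hO ⟨y₀, hy₀⟩
        exact ⟨zm.1.2.1, fun i hi => hB _ hi⟩)
    -- pigeonhole
    have hinj : ¬ Function.Injective (fun i : ℕ => F'^[i] z₀) := by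
      intro hin
      have : (Set.range (fun i : ℕ => F'^[i] z₀)).Finite :=
        hO.subset (by rintro _ ⟨i, rfl⟩; exact (hall i).1)
      exact Set.infinite_range_of_injective hin this
    rw [Function.Injective] at hinj
    push Not at hinj
    obtain ⟨i, j, hij, hne⟩ := hinj
    rcases Nat.lt_or_gt_of_ne hne with h | h
    · refine hno (j - i) (by omega) (F'^[i] z₀) ?_
      rw [← Function.iterate_add_apply, show j - i + i = j by omega, ← hij]
    · refine hno (i - j) (by omega) (F'^[j] z₀) ?_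
      rw [← Function.iterate_add_apply, show i - j + j = i by omega, hij]

end Pool.Agent.H718R2
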