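import Pool.Agent.H718R2.K6d

/-!
# K6e: on `ℝⁿ`, `n ≥ 3`: no periodic points at all
-/

open scoped Topology
open Set

namespace Pool.Agent.H718R2

theorem prod_noper (W : Type) [NormedAddCommGroup W] [NormedSpace ℝ W] [FiniteDimensional ℝ W] :
    ∃ (F : (E × W) ≃ₜ (E × W)) (ε : E × W → ℝ), ContDiff ℝ (⊤ : ℕ∞) F ∧
      ContDiff ℝ (⊤ : ℕ∞) F.symm ∧
      (∀ δ : ℝ, 0 < δ → ∃ k : ℕ, 1 ≤ k ∧ ‖F^[k] (0 : E × W)‖ < δ) ∧ Continuous ε ∧ (∀ z, 0 < ε z) ∧
      ∀ g : E × W → E × W, ContDiff ℝ 2 g →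
        (∀ (z : E × W) (i : ℕ), i ≤ 2 →
          ‖iteratedFDeriv ℝ i g z - iteratedFDeriv ℝ i (F : E × W → E × W) z‖ < ε z) →
        ∀ k : ℕ, 1 ≤ k → ∀ z, g^[k] z ≠ z := by
  obtain ⟨κ, θ, hκ, hκ', hθ, ω, hW, A, f, hf, hf', hfe, hS⟩ := exists_sys'
  obtain ⟨hp, hle⟩ := θ_small hκ hκ' hθ
  have hf2 : ContDiff ℝ 2 f := hf.of_le (WithTop.coe_le_coe.mpr (le_top : (2 : ℕ∞) ≤ ⊤))
  have hper : ∀ g : E → E, ContDiff ℝ 2 g →
      (∀ (p : E) (i : ℕ), i ≤ 2 →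
        ‖iteratedFDeriv ℝ i g p - iteratedFDeriv ℝ i (f : E → E) p‖ < E2.epsf θ p) →
      ∀ k : ℕ, 1 ≤ k → ∀ p, g^[k] p ≠ p := by
    intro g hg hc k hk p
    have hu := E2.pert_of_close hp (by linarith) hf2 hg hc
    have := no_periodic hκ hκ' hθ hW hf2 hS hu k hk p
    have e : (fun p => f p + (g p - f p)) = g := by
      funext p; abel
    rwa [e] at this
  obtain ⟨b, ε', hb, hb0, hε', hε'0, hst⟩ := G.stabilise (W := W) (f : E → E) hf (E2.epsf θ)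
    (E2.epsf_cont hp) (E2.epsf_pos hp) hper
  set c : E → ℝ := fun p => (b p)⁻¹ with hc
  have hcs : ContDiff ℝ (⊤ : ℕ∞) c := hb.inv (fun p => (hb0 p).ne')
  have hc0 : ∀ p, c p ≠ 0 := fun p => inv_ne_zero (hb0 p).ne'
  set F : (E × W) ≃ₜ (E × W) := fibH f c hcs.continuous hc0 with hF
  have hFfun : (F : E × W → E × W) = fib f c := rfl
  refine ⟨F, fun z => ε' z.1, fib_smooth hf hcs, ?_, ?_, hε'.comp continuous_fst,
    fun z => hε'0 z.1, ?_⟩
  · have : (F.symm : E × W → E × W) = fib f.symm (fun p => (c (f.symm p))⁻¹) := rfl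
    rw [this]
    exact fib_smooth hf' ((hcs.comp hf').inv (fun p => hc0 _))
  · intro δ hδ
    obtain ⟨n, hn, h⟩ := rec_strong hκ hκ' hθ hW hS δ hδ
    rw [E2.pow_apply] at h
    refine ⟨n, hn, ?_⟩
    rw [hFfun, fib_iter (orb_zero_bd hκ hκ' hθ hW hS) (fun p hp => rfl) n, Prod.norm_def]
    simp only [norm_zero]
    rw [max_eq_left (norm_nonneg _)]
    exact h
  · intro g hg hgc
    exact hst g hg hgc

/-- on `ℝⁿ` -/
theorem noper (n : ℕ) (hn : 3 ≤ n) :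
    ∃ (f : G.V n ≃ₜ G.V n) (ε : G.V n → ℝ), ContDiff ℝ (⊤ : ℕ∞) f ∧ ContDiff ℝ (⊤ : ℕ∞) f.symm ∧
      (∀ δ : ℝ, 0 < δ → ∃ k : ℕ, 1 ≤ k ∧ ‖f^[k] (0 : G.V n)‖ < δ) ∧ Continuous ε ∧
      (∀ v, 0 < ε v) ∧ ∀ g : G.V n → G.V n, ContDiff ℝ 2 g →
        (∀ (v : G.V n) (i : ℕ), i ≤ 2 →
          ‖iteratedFDeriv ℝ i g v - iteratedFDeriv ℝ i (f : G.V n → G.V n) v‖ < ε v) →
        ∀ k : ℕ, 1 ≤ k → ∀ v, g^[k] v ≠ v := by
  obtain ⟨m, rfl⟩ := Nat.exists_eq_add_of_le' hn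
  obtain ⟨Fh, ε, hF, hF', hrec, hε, hε0, hmain⟩ := prod_noper (G.V m)
  set L := LC m with hL
  set F : G.V (m + 3) ≃ₜ G.V (m + 3) := (L.toHomeomorph.trans Fh).trans L.toHomeomorph.symm with hFdef
  have hFe : ∀ v, F v = L.symm (Fh (L v)) := fun v => rfl
  have hFi : ∀ k v, F^[k] v = L.symm (Fh^[k] (L v)) := by
    intro k
    induction k with
    | zero => intro v; simp
    | succ k ih =>
      intro v
      rw [Function.iterate_succ_apply, ih, Function.iterate_succ_apply, hFe,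
        ContinuousLinearEquiv.apply_symm_apply]
  set K : ℝ := 1 + ‖(L : G.V (m + 3) →L[ℝ] E × G.V m)‖ *
    (1 + ‖(L.symm : E × G.V m →L[ℝ] G.V (m + 3))‖) ^ 2 with hK
  have hK1 : 1 ≤ K := by
    have : 0 ≤ ‖(L : G.V (m + 3) →L[ℝ] E × G.V m)‖ *
      (1 + ‖(L.symm : E × G.V m →L[ℝ] G.V (m + 3))‖) ^ 2 := by positivity
    linarith
  have hFs : ContDiff ℝ (⊤ : ℕ∞) F := L.symm.contDiff.comp (hF.comp L.contDiff)
  have h2 : (2 : WithTop ℕ∞) ≤ ((⊤ : ℕ∞) : WithTop ℕ∞) :=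
    WithTop.coe_le_coe.mpr (le_top : (2 : ℕ∞) ≤ ⊤)
  have hF2 : ContDiff ℝ 2 F := hFs.of_le h2
  refine ⟨F, fun v => ε (L v) / K, hFs, L.symm.contDiff.comp (hF'.comp L.contDiff), ?_,
    (hε.comp L.continuous).div_const _, ?_, ?_⟩
  · intro δ hδ
    have hcont : Filter.Tendsto L.symm (𝓝 0) (𝓝 (L.symm 0)) := L.symm.continuous.continuousAt
    rw [map_zero, Metric.tendsto_nhds_nhds] at hcont
    obtain ⟨η, hη, h⟩ := hcont δ hδ
    obtain ⟨k, hk, hk'⟩ := hrec η hη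
    refine ⟨k, hk, ?_⟩
    rw [hFi, map_zero, ← dist_zero_right]
    apply h
    rw [dist_zero_right]
    exact hk'
  · intro v
    have := hε0 (L v)
    positivity
  · intro g hg hgc k hk v hv
    set gh : E × G.V m → E × G.V m := fun z => L (g (L.symm (z + 0))) with hgh
    have hgh' : ∀ z, gh z = L (g (L.symm z)) := fun z => by simp only [hgh, add_zero]
    have hghs : ContDiff ℝ 2 gh := by
      have : gh = L ∘ (g ∘ L.symm) := funext hgh'
      rw [this]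
      exact L.contDiff.comp (hg.comp L.symm.contDiff)
    have hghi : ∀ k v, gh^[k] (L v) = L (g^[k] v) := by
      intro k
      induction k with
      | zero => intro v; rfl
      | succ k ih =>
        intro v
        rw [Function.iterate_succ_apply, hgh', ContinuousLinearEquiv.symm_apply_apply, ih,
          Function.iterate_succ_apply]
    refine hmain gh hghs ?_ k hk (L v) (by rw [hghi, hv])
    intro z i hi
    have hi2 : (i : WithTop ℕ∞) ≤ 2 := by exact_mod_cast hi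
    set v := L.symm (z + 0) with hv
    have h1 : iteratedFDeriv ℝ i gh z - iteratedFDeriv ℝ i (Fh : E × G.V m → E × G.V m) z =
        iteratedFDeriv ℝ i (fun z => gh z - Fh z) z :=
      (iteratedFDeriv_sub_apply (hghs.contDiffAt.of_le hi2)
        (((hF.of_le h2).contDiffAt).of_le hi2)).symm
    have h3 : (fun z => gh z - Fh z) = fun z => L ((fun v => g v - F v) (L.symm (z + 0))) := by
      funext y
      simp only [hgh, add_zero, map_sub, hFe, ContinuousLinearEquiv.apply_symm_apply]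
    rw [h1, h3]
    refine lt_of_le_of_lt (transport_bd L 0 (fun v => g v - F v) z i) ?_
    have h4 : iteratedFDeriv ℝ i (fun v => g v - F v) v =
        iteratedFDeriv ℝ i g v - iteratedFDeriv ℝ i (F : G.V (m + 3) → G.V (m + 3)) v :=
      iteratedFDeriv_sub_apply (hg.contDiffAt.of_le hi2) (hF2.contDiffAt.of_le hi2)
    rw [← hv, h4]
    have h5 := hgc v i hi
    have h6 : L v = z := by rw [hv]; simp
    simp only [h6] at h5
    have h7 : ‖(L.symm : E × G.V m →L[ℝ] G.V (m + 3))‖ ^ i ≤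
        (1 + ‖(L.symm : E × G.V m →L[ℝ] G.V (m + 3))‖) ^ 2 := by
      calc _ ≤ (1 + ‖(L.symm : E × G.V m →L[ℝ] G.V (m + 3))‖) ^ i :=
            pow_le_pow_left₀ (norm_nonneg _) (by linarith [norm_nonneg (L.symm : E × G.V m →L[ℝ] G.V (m + 3))]) i
        _ ≤ _ := pow_le_pow_right₀ (by linarith [norm_nonneg (L.symm : E × G.V m →L[ℝ] G.V (m + 3))]) hi
    set N := ‖iteratedFDeriv ℝ i g v - iteratedFDeriv ℝ i (F : G.V (m + 3) → G.V (m + 3)) v‖ with hN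
    have hN0 : 0 ≤ N := norm_nonneg _
    calc ‖(L : G.V (m + 3) →L[ℝ] E × G.V m)‖ * (N * ‖(L.symm : E × G.V m →L[ℝ] G.V (m + 3))‖ ^ i)
        ≤ ‖(L : G.V (m + 3) →L[ℝ] E × G.V m)‖ * (N * (1 + ‖(L.symm : E × G.V m →L[ℝ] G.V (m + 3))‖) ^ 2) := by
          gcongr
      _ ≤ N * K := by rw [hK]; nlinarith
      _ < ε z / K * K := mul_lt_mul_of_pos_right h5 (by linarith)
      _ = ε z := div_mul_cancel₀ _ (by linarith)

end Pool.Agent.H718R2
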