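import Pool.Agent.H718R2.K5a
import Pool.Agent.H718R2.K5cOf
import Pool.Agent.H718R2.K5d

/-!
# K7: every manifold with a noncompact component contains a properly embedded closed half-space
-/

open scoped Manifold ContDiff Topology
open Set

namespace Pool.Agent.H718R2.G

open K5cAux

theorem exists_ray_component {X : Type*} [TopologicalSpace X] [T2Space X] [LocallyCompactSpace X]
    [LocallyConnectedSpace X] [SigmaCompactSpace X] {p : X} (hp : ¬ IsCompact (connectedComponent p)) :
    ∃ B : ℕ → Set X, (∀ k, IsOpen (B k)) ∧ (∀ k, IsPreconnected (B k)) ∧ LocallyFinite B ∧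
      (∀ k, (B k ∩ B (k + 1)).Nonempty) ∧ ∀ k, B k ⊆ connectedComponent p := by
  set C : Set X := connectedComponent p with hC
  have hCo : IsOpen C := isOpen_connectedComponent
  have hCc : IsClosed C := isClosed_connectedComponent
  have i1 : LocallyCompactSpace C := hCc.isClosedEmbedding_subtypeVal.locallyCompactSpace
  have i2 : LocallyConnectedSpace C := hCo.isOpenEmbedding_subtypeVal.locallyConnectedSpace
  have i3 : SigmaCompactSpace C := hCc.isClosedEmbedding_subtypeVal.sigmaCompactSpace
  have i4 : ConnectedSpace C := Subtype.connectedSpace isConnected_connectedComponent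
  have i5 : NoncompactSpace C := by
    constructor
    intro h
    exact hp (isCompact_iff_isCompact_univ.mpr h)
  obtain ⟨B, h1, h2, h3, h4⟩ := exists_ray (X := C)
  refine ⟨fun k => Subtype.val '' B k, ?_, ?_, ?_, ?_, ?_⟩
  · intro k
    exact hCo.isOpenEmbedding_subtypeVal.isOpenMap _ (h1 k)
  · intro k
    exact (h2 k).image _ continuous_subtype_val.continuousOn
  · intro y
    by_cases hy : y ∈ C
    · obtain ⟨t, ht, hf⟩ := h3 ⟨y, hy⟩
      refine ⟨Subtype.val '' t, hCo.isOpenEmbedding_subtypeVal.isOpenMap.image_mem_nhds ht, ?_⟩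
      refine hf.subset ?_
      rintro k ⟨_, ⟨a, ha, rfl⟩, ⟨b, hb, hab⟩⟩
      have : b = a := Subtype.val_injective hab
      exact ⟨a, ha, this ▸ hb⟩
    · refine ⟨Cᶜ, hCc.isOpen_compl.mem_nhds hy, ?_⟩
      convert Set.finite_empty
      ext k
      simp only [mem_ofPred_eq, mem_empty_iff_false, iff_false]
      rintro ⟨_, ⟨a, ha, rfl⟩, h⟩
      exact h a.2
  · intro k
    obtain ⟨a, ha, hb⟩ := h4 k
    exact ⟨a, ⟨a, ha, rfl⟩, ⟨a, hb, rfl⟩⟩
  · rintro k _ ⟨a, _, rfl⟩
    exact a.2

theorem exists_push' {n : ℕ} {M : Type*} [TopologicalSpace M] [T2Space M]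
    [SecondCountableTopology M] [ChartedSpace (V n) M] [IsManifold (𝓡 n) ∞ M] {p : M}
    (hp : ¬ IsCompact (connectedComponent p)) :
    ∃ H : OpenPartialHomeomorph M M, H.target = univ ∧ ¬ IsClosed H.source ∧
      ContMDiffOn (𝓡 n) (𝓡 n) ∞ H H.source ∧ ContMDiff (𝓡 n) (𝓡 n) ∞ H.symm := by
  have : LocallyCompactSpace M := ChartedSpace.locallyCompactSpace (V n) M
  have : LocallyConnectedSpace M := ChartedSpace.locallyConnectedSpace (V n) M
  obtain ⟨B, hB1, hB2, hB3, hB4, hB5⟩ := exists_ray_component hp
  choose z hz using hB4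
  have hex := fun k : ℕ => exists_move (n := n) (hB1 (k + 1)) (hB2 (k + 1)) (hz k).2 (hz (k + 1)).1
  choose h S hS1 hS2 hS3 hS4 using hex
  have hlf : LocallyFinite S := by
    have h1 : LocallyFinite (fun k => B (k + 1)) :=
      hB3.comp_injective (add_left_injective 1)
    exact h1.subset hS2
  have hcl : ∀ j, IsClosed (S j) := fun j => (hS1 j).isClosed
  obtain ⟨H, e1, e2, e3, e4, e5⟩ := K5cAux.main' (h := h) (S := S) hlf hcl hS4
  refine ⟨H, e1, ?_, e3, e4⟩
  have hz' : ∀ k, Hn h k (z 0) = z k := by
    intro k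
    induction k with
    | zero => rfl
    | succ k ih => rw [Hn_succ, ih, hS3]
  have h0 : z 0 ∉ H.source := by
    intro h0
    rw [e2, mem_iUnion] at h0
    obtain ⟨J, hJ⟩ := h0
    have hconst : ∀ j, J ≤ j → z j = z J := by
      intro j hj
      rw [← hz' j, ← hz' J]
      exact Hn_eq hS4 hJ hj
    have hf := hB3.point_finite (z J)
    obtain ⟨K, hK⟩ := hf.bddAbove
    have hmem : max J (K + 1) ∈ {b | z J ∈ B b} := by
      have h1 := (hz (max J (K + 1))).1
      rw [hconst _ (le_max_left _ _)] at h1
      exact h1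
    have := hK hmem
    have h2 := le_max_right J (K + 1)
    omega
  intro hcs
  -- the component
  have hzC : z 0 ∈ connectedComponent p := hB5 0 (hz 0).1
  -- the maps preserve the component
  have hpres : ∀ k y, Hn h k y ∈ connectedComponent p → y ∈ connectedComponent p := by
    intro k
    induction k with
    | zero => intro y hy; exact hy
    | succ k ih =>
      intro y hy
      apply ih
      by_contra hc
      have h1 : Hn h k y ∉ S k := fun h1 => hc (hB5 _ (hS2 k h1))
      rw [Hn_succ, hS4 k _ h1] at hy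
      exact hc hy
  -- `H.symm p` is in the component and in the source
  have hps : H.symm p ∈ H.source := H.map_target (by rw [e1]; trivial)
  have hpC : H.symm p ∈ connectedComponent p := by
    have hps' := hps
    rw [e2, mem_iUnion] at hps'
    obtain ⟨J, hJ⟩ := hps'
    have hHp : H (H.symm p) = p := H.right_inv (by rw [e1]; trivial)
    rw [e5 J _ hJ] at hHp
    apply hpres J
    rw [hHp]
    exact mem_connectedComponent
  have hsub : connectedComponent p ⊆ H.source :=
    isPreconnected_connectedComponent.subset_isClopen ⟨hcs, H.open_source⟩ ⟨_, hpC, hps⟩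
  exact h0 (hsub hzC)

/-- every manifold with a noncompact component contains a properly embedded closed half-space -/
theorem exists_halfSpaceChart {n : ℕ} [NeZero n] {M : Type*} [TopologicalSpace M] [T2Space M]
    [SecondCountableTopology M] [ChartedSpace (V n) M] [IsManifold (𝓡 n) ∞ M] {p : M}
    (hp : ¬ IsCompact (connectedComponent p)) : HalfSpaceChart n M := by
  obtain ⟨H, h1, h2, h3, h4⟩ := exists_push' (n := n) hp
  exact halfSpaceChart_of_push' H h1 h2 h3 h4

end Pool.Agent.H718R2.G
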